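import Mathlib

/-!
# Independent blocks in finite product spaces
-/

open MeasureTheory

namespace Pool.Agent.X217.YM

variable {ι κ B X : Type*} [Fintype ι] [Fintype κ] [Fintype B] [MeasurableSpace X]
  (μ : Measure X) [IsProbabilityMeasure μ]

/-- a choice of coordinates maps the product measure to the product measure -/
theorem map_pi_comp (g : κ → ι) (hg : Function.Injective g) :
    (Measure.pi (fun _ : ι => μ)).map (fun U k => U (g k)) = Measure.pi (fun _ : κ => μ) := by
  classical
  refine (Measure.pi_eq fun s hs => ?_).symm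
  have hm : Measurable (fun (U : ι → X) (k : κ) => U (g k)) := by fun_prop
  rw [Measure.map_apply hm (MeasurableSet.univ_pi hs)]
  let t : ι → Set X := fun i => {x | ∀ k, g k = i → x ∈ s k}
  have h1 : (fun (U : ι → X) (k : κ) => U (g k)) ⁻¹' (Set.univ.pi s) = Set.univ.pi t := by
    ext U
    simp only [Set.mem_preimage, Set.mem_pi, Set.mem_univ, forall_true_left, t, Set.mem_ofPred_eq]
    constructor
    · intro h i k hk
      rw [← hk]
      exact h k
    · intro h k
      exact h (g k) k rfl
  rw [h1, Measure.pi_pi]
  have h2 : ∀ k, t (g k) = s k := by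
    intro k
    ext x
    simp only [t, Set.mem_ofPred_eq]
    constructor
    · intro h
      exact h k rfl
    · intro h k' hk'
      rw [hg hk']
      exact h
  have h3 : ∀ i, i ∉ Finset.univ.image g → μ (t i) = 1 := by
    intro i hi
    have : t i = Set.univ := by
      ext x
      simp only [t, Set.mem_ofPred_eq, Set.mem_univ, iff_true]
      intro k hk
      exact absurd (Finset.mem_image.2 ⟨k, Finset.mem_univ _, hk⟩) hi
    rw [this, measure_univ]
  rw [← Finset.prod_subset (Finset.subset_univ (Finset.univ.image g)) fun i _ hi => h3 i hi,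
    Finset.prod_image fun a _ b _ h => hg h]
  exact Finset.prod_congr rfl fun k _ => by rw [h2]

/-- the integral of a product over disjoint blocks of coordinates -/
theorem integral_blocks (g : B × κ → ι) (hg : Function.Injective g) (ψ : (κ → X) → ℝ)
    (hψ : Measurable ψ) :
    ∫ U : ι → X, ∏ b, ψ (fun k => U (g (b, k))) ∂(Measure.pi fun _ => μ) =
      (∫ V : κ → X, ψ V ∂(Measure.pi fun _ => μ)) ^ Fintype.card B := by
  have h1 := map_pi_comp μ g hg
  have hm : Measurable (fun (U : ι → X) (k : B × κ) => U (g k)) := by fun_prop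
  have hΦ : Measurable (fun V : B × κ → X => ∏ b, ψ (fun k => V (b, k))) := by
    refine Finset.measurable_prod _ fun b _ => hψ.comp ?_
    fun_prop
  have e1 : ∫ U : ι → X, ∏ b, ψ (fun k => U (g (b, k))) ∂(Measure.pi fun _ => μ) =
      ∫ V : B × κ → X, ∏ b, ψ (fun k => V (b, k)) ∂(Measure.pi fun _ => μ) := by
    rw [← h1, integral_map hm.aemeasurable hΦ.aestronglyMeasurable]
  have h2 := Measure.infinitePi_map_curry_symm (ι := B) (κ := κ) (X := X) (fun _ _ => μ)
  simp only [Measure.infinitePi_eq_pi] at h2
  rw [e1, ← h2, integral_map (MeasurableEquiv.measurable _).aemeasurable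
    hΦ.aestronglyMeasurable, ← integral_fintype_prod_eq_pow]
  rfl

end Pool.Agent.X217.YM
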