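import Mathlib
import Pool.Agent.X217.YM.Prod

/-!
# Division of the periodic lattice into boxes
-/

open MeasureTheory

namespace Pool.Agent.X217.YM

section gen

theorem sum_compare {S T : Type*} [Fintype S] [Fintype T] (f : T → ℝ) (M : ℝ)
    (h0 : ∀ t, 0 ≤ f t) (h1 : ∀ t, f t ≤ M) (e : S → T) (he : Function.Injective e)
    (P : S → Prop) [DecidablePred P] :
    0 ≤ ∑ t, f t - ∑ s ∈ Finset.univ.filter P, f (e s) ∧
    ∑ t, f t - ∑ s ∈ Finset.univ.filter P, f (e s) ≤
      M * ((Fintype.card T : ℝ) - ((Finset.univ.filter P).card : ℝ)) := by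
  classical
  have h2 : ∑ s ∈ Finset.univ.filter P, f (e s) =
      ∑ t ∈ (Finset.univ.filter P).image e, f t := by
    rw [Finset.sum_image fun a _ b _ h => he h]
  have h3 : ∑ t, f t - ∑ t ∈ (Finset.univ.filter P).image e, f t =
      ∑ t ∈ Finset.univ \ (Finset.univ.filter P).image e, f t := by
    rw [sub_eq_iff_eq_add, Finset.sum_sdiff (Finset.subset_univ _)]
  rw [h2, h3]
  refine ⟨Finset.sum_nonneg fun t _ => h0 t, ?_⟩
  calc ∑ t ∈ Finset.univ \ (Finset.univ.filter P).image e, f t
      ≤ ∑ _t ∈ Finset.univ \ (Finset.univ.filter P).image e, M :=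
        Finset.sum_le_sum fun t _ => h1 t
    _ = _ := by
        rw [Finset.sum_const, nsmul_eq_mul, Finset.card_sdiff_of_subset (Finset.subset_univ _),
          Finset.card_image_of_injective _ he, Nat.cast_sub, Finset.card_univ, mul_comm]
        rw [← Finset.card_image_of_injective _ he]
        exact Finset.card_le_univ _

end gen

section defs

variable {H : Type*} (F : H → H → H → H → ℝ) {d : ℕ}

/-- the sum over all plaquettes of the torus -/
def tact (l : ℕ) [NeZero l] (U : (Fin d → ZMod l) × Fin d → H) : ℝ :=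
  ∑ x : Fin d → ZMod l, ∑ i : Fin d, ∑ j : Fin d, if i < j then
    F (U (x, i)) (U (x + Pi.single i 1, j)) (U (x + Pi.single j 1, i)) (U (x, j)) else 0

/-- the sum over the plaquettes of the box -/
def bact (m : ℕ) [NeZero m] (U : (Fin d → ZMod m) × Fin d → H) : ℝ :=
  ∑ x : Fin d → ZMod m, ∑ i : Fin d, ∑ j : Fin d,
    if i < j ∧ (x i).val + 1 < m ∧ (x j).val + 1 < m then
    F (U (x, i)) (U (x + Pi.single i 1, j)) (U (x + Pi.single j 1, i)) (U (x, j)) else 0

end defs

section blocks

variable {d l m q : ℕ} [NeZero l] [NeZero m]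

/-- the sites of the boxes of the torus -/
def blk (l : ℕ) (p : (Fin d → Fin q) × (Fin d → ZMod m)) : Fin d → ZMod l :=
  fun i => (((p.1 i : ℕ) * m + (p.2 i).val : ℕ) : ZMod l)

omit [NeZero l] in
theorem blk_lt (hq : q * m ≤ l) (b : Fin q) (y : ZMod m) : (b : ℕ) * m + y.val < l := by
  have h1 := ZMod.val_lt y
  have h2 : ((b : ℕ) + 1) * m ≤ q * m := Nat.mul_le_mul_right _ b.2
  have h3 : ((b : ℕ) + 1) * m = (b : ℕ) * m + m := by ring
  omega

theorem blk_val (hq : q * m ≤ l) (p : (Fin d → Fin q) × (Fin d → ZMod m)) (i : Fin d) :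
    (blk l p i).val = (p.1 i : ℕ) * m + (p.2 i).val :=
  ZMod.val_natCast_of_lt (blk_lt hq _ _)

theorem blk_inj (hq : q * m ≤ l) :
    Function.Injective (blk l : (Fin d → Fin q) × (Fin d → ZMod m) → (Fin d → ZMod l)) := by
  rintro ⟨b, y⟩ ⟨b', y'⟩ h
  have h1 : ∀ i, (b i : ℕ) * m + (y i).val = (b' i : ℕ) * m + (y' i).val := by
    intro i
    have := congrArg ZMod.val (congrFun h i)
    rwa [blk_val hq, blk_val hq] at this
  have h2 : ∀ i, (b i : ℕ) = b' i ∧ (y i).val = (y' i).val := by
    intro i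
    have hy := ZMod.val_lt (y i)
    have hy' := ZMod.val_lt (y' i)
    have e := h1 i
    have e1 : ((b i : ℕ) * m + (y i).val) / m = b i := by
      rw [mul_comm, Nat.mul_add_div (by omega), Nat.div_eq_of_lt hy, add_zero]
    have e2 : ((b' i : ℕ) * m + (y' i).val) / m = b' i := by
      rw [mul_comm, Nat.mul_add_div (by omega), Nat.div_eq_of_lt hy', add_zero]
    have e3 : (b i : ℕ) = b' i := by rw [← e1, ← e2, e]
    exact ⟨e3, by rw [e3] at e; omega⟩
  refine Prod.ext (funext fun i => Fin.ext (h2 i).1) (funext fun i => ZMod.val_injective _ (h2 i).2)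

theorem blk_step (b : Fin d → Fin q) (y : Fin d → ZMod m) (i : Fin d)
    (hi : (y i).val + 1 < m) :
    (blk l (b, y + Pi.single i 1) : Fin d → ZMod l) = blk l (b, y) + Pi.single i 1 := by
  funext k
  simp only [blk, Pi.add_apply]
  by_cases hk : k = i
  · subst hk
    rw [Pi.single_eq_same, Pi.single_eq_same]
    have h1 : (1 : ZMod m).val = 1 := by
      rw [ZMod.val_one_eq_one_mod, Nat.mod_eq_of_lt (by omega)]
    have h2 : (y k + 1).val = (y k).val + 1 := by
      rw [ZMod.val_add_of_lt (by rw [h1]; exact hi), h1]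
    rw [h2]
    push_cast
    ring
  · rw [Pi.single_eq_of_ne hk, Pi.single_eq_of_ne hk, add_zero, add_zero]

theorem card_in (m : ℕ) [NeZero m] :
    m - 1 ≤ (Finset.univ.filter fun z : ZMod m => z.val + 1 < m).card := by
  have h1 := Finset.card_filter_add_card_filter_not (s := (Finset.univ : Finset (ZMod m)))
    (fun z : ZMod m => z.val + 1 < m)
  have h2 : (Finset.univ.filter fun z : ZMod m => ¬ z.val + 1 < m).card ≤ 1 := by
    rw [Finset.card_le_one]
    intro a ha b hb
    simp only [Finset.mem_filter, Finset.mem_univ, true_and] at ha hb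
    have h3 := ZMod.val_lt a
    have h4 := ZMod.val_lt b
    exact ZMod.val_injective _ (by omega)
  rw [Finset.card_univ, ZMod.card] at h1
  omega

variable {H : Type*} (F : H → H → H → H → ℝ)

/-- the boxes contain all but a few of the plaquettes -/
theorem tact_blocks (hq : q * m ≤ l) (M : ℝ) (h0 : ∀ a b c e, 0 ≤ F a b c e)
    (h1 : ∀ a b c e, F a b c e ≤ M) (U : (Fin d → ZMod l) × Fin d → H) :
    0 ≤ tact F l U - ∑ b : Fin d → Fin q, bact F m (fun e => U (blk l (b, e.1), e.2)) ∧
    tact F l U - ∑ b : Fin d → Fin q, bact F m (fun e => U (blk l (b, e.1), e.2)) ≤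
      M * (d ^ 2 * ((l : ℝ) ^ d - (q * (m - 1 : ℕ) : ℝ) ^ d)) := by
  classical
  rcases isEmpty_or_nonempty H with hH | hH
  · -- no configurations
    rcases Nat.eq_zero_or_pos d with hd | hd
    · subst hd
      simp [tact, bact]
    · exact (hH.false (U (0, ⟨0, hd⟩))).elim
  have hM : 0 ≤ M := by
    obtain ⟨a⟩ := hH
    exact (h0 a a a a).trans (h1 a a a a)
  let f : (Fin d → ZMod l) × Fin d × Fin d → ℝ := fun t => if t.2.1 < t.2.2 then
    F (U (t.1, t.2.1)) (U (t.1 + Pi.single t.2.1 1, t.2.2)) (U (t.1 + Pi.single t.2.2 1, t.2.1))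
      (U (t.1, t.2.2)) else 0
  let e : ((Fin d → Fin q) × (Fin d → ZMod m)) × Fin d × Fin d →
      (Fin d → ZMod l) × Fin d × Fin d := fun s => (blk l s.1, s.2)
  have he : Function.Injective e := by
    rintro ⟨p, s⟩ ⟨p', s'⟩ h
    have e1 : blk l p = blk l p' := congrArg Prod.fst h
    have e2 : s = s' := congrArg Prod.snd h
    rw [blk_inj hq e1, e2]
  let P : ((Fin d → Fin q) × (Fin d → ZMod m)) × Fin d × Fin d → Prop := fun s =>
    (s.1.2 s.2.1).val + 1 < m ∧ (s.1.2 s.2.2).val + 1 < m
  have hf0 : ∀ t, 0 ≤ f t := by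
    intro t
    simp only [f]
    split_ifs
    · exact h0 _ _ _ _
    · exact le_rfl
  have hf1 : ∀ t, f t ≤ M := by
    intro t
    simp only [f]
    split_ifs
    · exact h1 _ _ _ _
    · exact hM
  obtain ⟨k1, k2⟩ := sum_compare f M hf0 hf1 e he P
  have e1 : ∑ t, f t = tact F l U := by
    rw [Fintype.sum_prod_type]
    simp only [Fintype.sum_prod_type, tact, f]
  have e2 : ∑ s ∈ Finset.univ.filter P, f (e s) =
      ∑ b : Fin d → Fin q, bact F m (fun e => U (blk l (b, e.1), e.2)) := by
    rw [Finset.sum_filter, Fintype.sum_prod_type, Fintype.sum_prod_type]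
    refine Finset.sum_congr rfl fun b _ => ?_
    unfold bact
    refine Finset.sum_congr rfl fun y _ => ?_
    rw [Fintype.sum_prod_type]
    refine Finset.sum_congr rfl fun i _ => Finset.sum_congr rfl fun j _ => ?_
    simp only [P, f, e]
    by_cases hP : (y i).val + 1 < m ∧ (y j).val + 1 < m
    · rw [if_pos hP]
      by_cases hij : i < j
      · rw [if_pos hij, if_pos ⟨hij, hP⟩, blk_step b y i hP.1, blk_step b y j hP.2]
      · rw [if_neg hij, if_neg (fun h => hij h.1)]
    · rw [if_neg hP, if_neg (fun h => hP h.2)]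
  rw [e1, e2] at k1 k2
  refine ⟨k1, k2.trans (mul_le_mul_of_nonneg_left ?_ hM)⟩
  have c1 : (Fintype.card ((Fin d → ZMod l) × Fin d × Fin d) : ℝ) = d ^ 2 * (l : ℝ) ^ d := by
    rw [Fintype.card_prod, Fintype.card_prod, Fintype.card_fun, ZMod.card, Fintype.card_fin]
    push_cast
    ring
  let Y : Finset (Fin d → ZMod m) := Fintype.piFinset fun _ =>
    Finset.univ.filter fun z : ZMod m => z.val + 1 < m
  have c2 : ((q * (m - 1 : ℕ) : ℕ) : ℝ) ^ d * d ^ 2 ≤ ((Finset.univ.filter P).card : ℝ) := by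
    have s1 : ((Finset.univ : Finset (Fin d → Fin q)) ×ˢ Y) ×ˢ
        (Finset.univ : Finset (Fin d × Fin d)) ⊆ Finset.univ.filter P := by
      intro s hs
      simp only [Finset.mem_product, Finset.mem_univ, true_and, and_true, Y,
        Fintype.mem_piFinset, Finset.mem_filter] at hs
      simp only [Finset.mem_filter, Finset.mem_univ, true_and, P]
      exact ⟨hs _, hs _⟩
    have s2 := Finset.card_le_card s1
    rw [Finset.card_product, Finset.card_product, Finset.card_univ, Finset.card_univ,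
      Fintype.card_prod, Fintype.card_fun, Fintype.card_fin, Fintype.card_fin,
      Fintype.card_piFinset, Finset.prod_const, Finset.card_univ, Fintype.card_fin] at s2
    have s3 : (m - 1) ^ d ≤ (Finset.univ.filter fun z : ZMod m => z.val + 1 < m).card ^ d :=
      Nat.pow_le_pow_left (card_in m) d
    have s4 : (q * (m - 1)) ^ d * d ^ 2 ≤ (Finset.univ.filter P).card := by
      refine le_trans ?_ s2
      rw [mul_pow, pow_two]
      exact Nat.mul_le_mul_right _ (Nat.mul_le_mul_left _ s3)
    exact_mod_cast s4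
  rw [c1]
  have c3 : ((q * (m - 1 : ℕ) : ℕ) : ℝ) = (q * (m - 1 : ℕ) : ℝ) := by push_cast; ring
  rw [c3] at c2
  nlinarith [c2]

end blocks

end Pool.Agent.X217.YM
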