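import Mathlib
import Pool.Agent.X217.YM.Box

/-!
# The thermodynamic limit of lattice gauge theories
-/

open MeasureTheory Filter
open scoped Topology

namespace Pool.Agent.X217.YM

/-- abstract convergence lemma -/
theorem lim_of_compare (a b : ℕ → ℝ) (K : ℝ) (hK : 0 ≤ K)
    (h : ∀ l m : ℕ, 1 ≤ m → m ≤ l → |a l - b m| ≤ K * (2 * (m / l : ℝ) + 1 / m)) :
    ∃ P : ℝ, (∀ m : ℕ, 1 ≤ m → |b m - P| ≤ K / m) ∧
      ∀ l : ℕ, 1 ≤ l → |a l - P| ≤ 6 * K / Real.sqrt l := by
  have hm1 : ∀ l m : ℕ, 1 ≤ m → m ^ 2 ≤ l → |a l - b m| ≤ K * (3 / m) := by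
    intro l m hm hl
    have hml : m ≤ l := le_trans (by nlinarith) hl
    refine (h l m hm hml).trans (mul_le_mul_of_nonneg_left ?_ hK)
    have hm0 : (0 : ℝ) < m := by exact_mod_cast hm
    have hl0 : (0 : ℝ) < l := by exact_mod_cast (lt_of_lt_of_le hm hml)
    have hl' : (m : ℝ) ^ 2 ≤ l := by exact_mod_cast hl
    have : (m / l : ℝ) ≤ 1 / m := by
      rw [div_le_div_iff₀ hl0 hm0]
      nlinarith
    have e : (3 : ℝ) / m = 2 * (1 / m) + 1 / m := by ring
    rw [e]
    linarith
  have hc : CauchySeq a := by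
    rw [Metric.cauchySeq_iff]
    intro ε hε
    obtain ⟨m, hm⟩ := exists_nat_gt (6 * K / ε)
    have hm0 : (0 : ℝ) ≤ 6 * K / ε := by positivity
    have hmp : 0 < m := by exact_mod_cast lt_of_le_of_lt hm0 hm
    refine ⟨m ^ 2, fun l hl l' hl' => ?_⟩
    have h1 := hm1 l m hmp hl
    have h2 := hm1 l' m hmp hl'
    rw [Real.dist_eq]
    have hm' : (0 : ℝ) < m := by exact_mod_cast hmp
    have h3 : K * (3 / m) + K * (3 / m) < ε := by
      rw [← mul_add]
      rw [div_lt_iff₀ hε] at hm
      have : K * (3 / (m : ℝ) + 3 / m) = 6 * K / m := by ring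
      rw [this, div_lt_iff₀ hm']
      linarith
    calc |a l - a l'| = |(a l - b m) - (a l' - b m)| := by ring_nf
      _ ≤ |a l - b m| + |a l' - b m| := abs_sub _ _
      _ < ε := by linarith
  obtain ⟨P, hP⟩ := cauchySeq_tendsto_of_complete hc
  have hb : ∀ m : ℕ, 1 ≤ m → |b m - P| ≤ K / m := by
    intro m hm
    have t1 : Tendsto (fun l => |a l - b m|) atTop (𝓝 |P - b m|) := (hP.sub_const _).abs
    have t2 : Tendsto (fun l : ℕ => K * (2 * (m / l : ℝ) + 1 / m)) atTop
        (𝓝 (K * (2 * 0 + 1 / m))) :=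
      (((tendsto_const_div_atTop_nhds_zero_nat (m : ℝ)).const_mul 2).add_const _).const_mul K
    have := le_of_tendsto_of_tendsto t1 t2 (by
      filter_upwards [eventually_ge_atTop m] with l hl
      exact h l m hm hl)
    rw [abs_sub_comm]
    calc |P - b m| ≤ K * (2 * 0 + 1 / m) := this
      _ = K / m := by ring
  refine ⟨P, hb, fun l hl => ?_⟩
  let m := Nat.sqrt l
  have hm : 1 ≤ m := Nat.sqrt_pos.2 hl
  have hml : m ≤ l := Nat.sqrt_le_self l
  have h1 := h l m hm hml
  have h2 := hb m hm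
  have hl0 : (0 : ℝ) < l := by exact_mod_cast hl
  have hs0 : 0 < Real.sqrt l := Real.sqrt_pos.2 hl0
  have hm0 : (0 : ℝ) < m := by exact_mod_cast hm
  have hsq : Real.sqrt l * Real.sqrt l = l := Real.mul_self_sqrt hl0.le
  have hms : (m : ℝ) ≤ Real.sqrt l := by
    apply Real.le_sqrt_of_sq_le
    have := Nat.sqrt_le' l
    exact_mod_cast this
  have hsm : Real.sqrt l ≤ 2 * m := by
    have h3 : l < (m + 1) ^ 2 := Nat.lt_succ_sqrt' l
    have h4 : Real.sqrt l ≤ m + 1 := by
      apply Real.sqrt_le_iff.2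
      constructor
      · positivity
      · exact_mod_cast h3.le
    have : (1 : ℝ) ≤ m := by exact_mod_cast hm
    linarith
  have h5 : (m / l : ℝ) ≤ 1 / Real.sqrt l := by
    rw [div_le_div_iff₀ hl0 hs0]
    calc (m : ℝ) * Real.sqrt l ≤ Real.sqrt l * Real.sqrt l :=
          mul_le_mul_of_nonneg_right hms hs0.le
      _ = 1 * l := by rw [hsq, one_mul]
  have h6 : (1 / m : ℝ) ≤ 2 * (1 / Real.sqrt l) := by
    rw [mul_one_div, div_le_div_iff₀ hm0 hs0]
    linarith
  calc |a l - P| = |(a l - b m) + (b m - P)| := by ring_nf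
    _ ≤ |a l - b m| + |b m - P| := abs_add_le _ _
    _ ≤ K * (2 * (m / l : ℝ) + 1 / m) + K / m := add_le_add h1 h2
    _ = K * (2 * (m / l : ℝ) + 2 * (1 / m)) := by ring
    _ ≤ K * (2 * (1 / Real.sqrt l) + 2 * (2 * (1 / Real.sqrt l))) := by
        apply mul_le_mul_of_nonneg_left _ hK
        linarith
    _ = 6 * K / Real.sqrt l := by ring

section part

variable {H : Type*} [TopologicalSpace H] [SecondCountableTopology H] [MeasurableSpace H]
  [BorelSpace H] (μ : Measure H) [IsProbabilityMeasure μ] (F : H → H → H → H → ℝ) (d : ℕ)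

/-- the partition function of the torus -/
noncomputable def Zt (l : ℕ) [NeZero l] (β : ℝ) : ℝ :=
  ∫ U : (Fin d → ZMod l) × Fin d → H, Real.exp (-(β * tact F l U)) ∂(Measure.pi fun _ => μ)

/-- the partition function of the box -/
noncomputable def Zb (l : ℕ) [NeZero l] (β : ℝ) : ℝ :=
  ∫ U : (Fin d → ZMod l) × Fin d → H, Real.exp (-(β * bact F l U)) ∂(Measure.pi fun _ => μ)

variable {d} {l m q : ℕ} [NeZero l] [NeZero m]

variable {F} in
omit [SecondCountableTopology H] [MeasurableSpace H] [BorelSpace H] in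
theorem tact_cont (hF : Continuous fun p : H × H × H × H => F p.1 p.2.1 p.2.2.1 p.2.2.2) :
    Continuous (tact F l : ((Fin d → ZMod l) × Fin d → H) → ℝ) := by
  unfold tact
  refine continuous_finsetSum _ fun x _ => continuous_finsetSum _ fun i _ =>
    continuous_finsetSum _ fun j _ => ?_
  split_ifs
  · exact hF.comp (f := fun U : (Fin d → ZMod l) × Fin d → H => (U (x, i),
      U (x + Pi.single i 1, j), U (x + Pi.single j 1, i), U (x, j))) (by fun_prop)
  · exact continuous_const

variable {F} in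
omit [SecondCountableTopology H] [MeasurableSpace H] [BorelSpace H] in
theorem bact_cont (hF : Continuous fun p : H × H × H × H => F p.1 p.2.1 p.2.2.1 p.2.2.2) :
    Continuous (bact F l : ((Fin d → ZMod l) × Fin d → H) → ℝ) := by
  unfold bact
  refine continuous_finsetSum _ fun x _ => continuous_finsetSum _ fun i _ =>
    continuous_finsetSum _ fun j _ => ?_
  split_ifs
  · exact hF.comp (f := fun U : (Fin d → ZMod l) × Fin d → H => (U (x, i),
      U (x + Pi.single i 1, j), U (x + Pi.single j 1, i), U (x, j))) (by fun_prop)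
  · exact continuous_const

variable {F} {M : ℝ} (h0 : ∀ a b c e, 0 ≤ F a b c e) (h1 : ∀ a b c e, F a b c e ≤ M)

include h0 in
omit [TopologicalSpace H] [SecondCountableTopology H] [MeasurableSpace H] [BorelSpace H] in
theorem bact_nonneg (V : (Fin d → ZMod l) × Fin d → H) : 0 ≤ bact F l V := by
  unfold bact
  refine Finset.sum_nonneg fun x _ => Finset.sum_nonneg fun i _ => Finset.sum_nonneg fun j _ => ?_
  split_ifs
  · exact h0 _ _ _ _
  · exact le_rfl

include h0 in
omit [TopologicalSpace H] [SecondCountableTopology H] [MeasurableSpace H] [BorelSpace H] in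
theorem tact_nonneg (V : (Fin d → ZMod l) × Fin d → H) : 0 ≤ tact F l V := by
  unfold tact
  refine Finset.sum_nonneg fun x _ => Finset.sum_nonneg fun i _ => Finset.sum_nonneg fun j _ => ?_
  split_ifs
  · exact h0 _ _ _ _
  · exact le_rfl

include h1 in
omit [TopologicalSpace H] [SecondCountableTopology H] [MeasurableSpace H] [BorelSpace H] in
theorem bact_le (hM : 0 ≤ M) (V : (Fin d → ZMod l) × Fin d → H) :
    bact F l V ≤ M * (d ^ 2 * (l : ℝ) ^ d) := by
  unfold bact
  have : ∀ x : Fin d → ZMod l, ∀ i j : Fin d,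
      (if i < j ∧ (x i).val + 1 < l ∧ (x j).val + 1 < l then
      F (V (x, i)) (V (x + Pi.single i 1, j)) (V (x + Pi.single j 1, i)) (V (x, j)) else 0) ≤ M := by
    intro x i j
    split_ifs
    · exact h1 _ _ _ _
    · exact hM
  calc _ ≤ ∑ _x : Fin d → ZMod l, ∑ _i : Fin d, ∑ _j : Fin d, M :=
        Finset.sum_le_sum fun x _ => Finset.sum_le_sum fun i _ => Finset.sum_le_sum fun j _ =>
          this x i j
    _ = _ := by
        simp only [Finset.sum_const, Finset.card_univ, Fintype.card_fun, ZMod.card,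
          Fintype.card_fin, nsmul_eq_mul]
        push_cast
        ring

include h1 in
omit [TopologicalSpace H] [SecondCountableTopology H] [MeasurableSpace H] [BorelSpace H] in
theorem tact_le (hM : 0 ≤ M) (V : (Fin d → ZMod l) × Fin d → H) :
    tact F l V ≤ M * (d ^ 2 * (l : ℝ) ^ d) := by
  unfold tact
  have : ∀ x : Fin d → ZMod l, ∀ i j : Fin d, (if i < j then
      F (V (x, i)) (V (x + Pi.single i 1, j)) (V (x + Pi.single j 1, i)) (V (x, j)) else 0) ≤ M := by
    intro x i j
    split_ifs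
    · exact h1 _ _ _ _
    · exact hM
  calc _ ≤ ∑ _x : Fin d → ZMod l, ∑ _i : Fin d, ∑ _j : Fin d, M :=
        Finset.sum_le_sum fun x _ => Finset.sum_le_sum fun i _ => Finset.sum_le_sum fun j _ =>
          this x i j
    _ = _ := by
        simp only [Finset.sum_const, Finset.card_univ, Fintype.card_fun, ZMod.card,
          Fintype.card_fin, nsmul_eq_mul]
        push_cast
        ring

/-- a bounded nonnegative energy -/
theorem integrable_exp {Ω : Type*} [MeasurableSpace Ω] (ν : Measure Ω) [IsProbabilityMeasure ν]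
    {f : Ω → ℝ} (hf : Measurable f) (hf0 : ∀ x, 0 ≤ f x) {β : ℝ} (hβ : 0 ≤ β) :
    Integrable (fun x => Real.exp (-(β * f x))) ν := by
  refine Integrable.of_bound (C := 1) (hf.const_mul β).neg.exp.aestronglyMeasurable
    (Eventually.of_forall fun x => ?_)
  rw [Real.norm_eq_abs, abs_of_pos (Real.exp_pos _), Real.exp_le_one_iff]
  have := mul_nonneg hβ (hf0 x)
  linarith

theorem log_int_bounds {Ω : Type*} [MeasurableSpace Ω] (ν : Measure Ω) [IsProbabilityMeasure ν]
    {f : Ω → ℝ} (hf : Measurable f) (hf0 : ∀ x, 0 ≤ f x) {K : ℝ} (hK : ∀ x, f x ≤ K) {β : ℝ}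
    (hβ : 0 ≤ β) : 0 < ∫ x, Real.exp (-(β * f x)) ∂ν ∧
    -(β * K) ≤ Real.log (∫ x, Real.exp (-(β * f x)) ∂ν) ∧
    Real.log (∫ x, Real.exp (-(β * f x)) ∂ν) ≤ 0 := by
  have hi := integrable_exp ν hf hf0 hβ
  have l1 : Real.exp (-(β * K)) ≤ ∫ x, Real.exp (-(β * f x)) ∂ν := by
    calc Real.exp (-(β * K)) = ∫ _x, Real.exp (-(β * K)) ∂ν := by simp
      _ ≤ _ := integral_mono (integrable_const _) hi fun x => by
          apply Real.exp_le_exp.2
          have := mul_le_mul_of_nonneg_left (hK x) hβ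
          linarith
  have l2 : ∫ x, Real.exp (-(β * f x)) ∂ν ≤ 1 := by
    calc _ ≤ ∫ _x, (1 : ℝ) ∂ν := integral_mono hi (integrable_const _) fun x => by
          show Real.exp (-(β * f x)) ≤ 1
          rw [Real.exp_le_one_iff]
          have := mul_nonneg hβ (hf0 x)
          linarith
      _ = 1 := by simp
  have l0 : 0 < ∫ x, Real.exp (-(β * f x)) ∂ν := lt_of_lt_of_le (Real.exp_pos _) l1
  exact ⟨l0, by rw [Real.le_log_iff_exp_le l0]; exact l1, Real.log_nonpos l0.le l2⟩

include h0 h1 in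
/-- comparison of the torus with the boxes -/
theorem logZ_compare (hF : Continuous fun p : H × H × H × H => F p.1 p.2.1 p.2.2.1 p.2.2.2)
    (hq : q * m ≤ l) {β : ℝ} (hβ : 0 ≤ β) :
    0 ≤ (q : ℝ) ^ d * Real.log (Zb μ F d m β) - Real.log (Zt μ F d l β) ∧
    (q : ℝ) ^ d * Real.log (Zb μ F d m β) - Real.log (Zt μ F d l β) ≤
      β * (M * (d ^ 2 * ((l : ℝ) ^ d - (q * (m - 1 : ℕ) : ℝ) ^ d))) := by
  have hbm : Measurable (bact F m : ((Fin d → ZMod m) × Fin d → H) → ℝ) := (bact_cont hF).measurable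
  have htm : Measurable (tact F l : ((Fin d → ZMod l) × Fin d → H) → ℝ) := (tact_cont hF).measurable
  set D : ℝ := M * (d ^ 2 * ((l : ℝ) ^ d - (q * (m - 1 : ℕ) : ℝ) ^ d)) with hD
  let g : (Fin d → Fin q) × ((Fin d → ZMod m) × Fin d) → (Fin d → ZMod l) × Fin d :=
    fun p => (blk l (p.1, p.2.1), p.2.2)
  have hg : Function.Injective g := by
    rintro ⟨b, y, i⟩ ⟨b', y', i'⟩ h
    have e1 := blk_inj hq (congrArg Prod.fst h)
    have e2 : i = i' := congrArg Prod.snd h
    simp only [Prod.mk.injEq] at e1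
    rw [e1.1, e1.2, e2]
  let A : ((Fin d → ZMod l) × Fin d → H) → ℝ := fun U =>
    ∑ b : Fin d → Fin q, bact F m (fun e => U (g (b, e)))
  have hAm : Measurable A := Finset.measurable_sum _ fun b _ => hbm.comp (by fun_prop)
  have hA0 : ∀ U, 0 ≤ A U := fun U => Finset.sum_nonneg fun b _ => bact_nonneg h0 _
  have hcmp := fun U => tact_blocks (d := d) F hq M h0 h1 U
  have e1 : ∫ U, Real.exp (-(β * A U)) ∂(Measure.pi fun _ => μ) = Zb μ F d m β ^ q ^ d := by
    have := integral_blocks μ g hg (fun V => Real.exp (-(β * bact F m V)))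
      (hbm.const_mul β).neg.exp
    rw [Fintype.card_fun, Fintype.card_fin, Fintype.card_fin] at this
    rw [Zb, ← this]
    refine integral_congr_ae (Eventually.of_forall fun U => ?_)
    show Real.exp (-(β * A U)) = ∏ b, Real.exp (-(β * bact F m (fun k => U (g (b, k)))))
    rw [← Real.exp_sum]
    congr 1
    simp only [A]
    rw [Finset.sum_neg_distrib, Finset.mul_sum]
  have hiA := integrable_exp (Measure.pi fun _ : (Fin d → ZMod l) × Fin d => μ) hAm hA0 hβ
  have hit := integrable_exp (Measure.pi fun _ : (Fin d → ZMod l) × Fin d => μ) htm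
    (fun U => tact_nonneg h0 U) hβ
  have i1 : Zt μ F d l β ≤ Zb μ F d m β ^ q ^ d := by
    rw [← e1, Zt]
    refine integral_mono hit hiA fun U => Real.exp_le_exp.2 ?_
    have := mul_le_mul_of_nonneg_left (sub_nonneg.1 (hcmp U).1) hβ
    show -(β * tact F l U) ≤ -(β * A U)
    exact neg_le_neg this
  have i2 : Real.exp (-(β * D)) * Zb μ F d m β ^ q ^ d ≤ Zt μ F d l β := by
    rw [← e1, Zt, ← integral_const_mul]
    refine integral_mono (hiA.const_mul _) hit fun U => ?_
    show Real.exp (-(β * D)) * Real.exp (-(β * A U)) ≤ Real.exp (-(β * tact F l U))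
    rw [← Real.exp_add]
    refine Real.exp_le_exp.2 ?_
    have h3 : tact F l U - A U ≤ D := (hcmp U).2
    have := mul_le_mul_of_nonneg_left h3 hβ
    linarith
  have hM' : ∀ U : (Fin d → ZMod m) × Fin d → H, bact F m U ≤ |M| * (d ^ 2 * (m : ℝ) ^ d) :=
    fun U => bact_le (fun a b c e => (h1 a b c e).trans (le_abs_self M)) (abs_nonneg M) U
  obtain ⟨zb, -, -⟩ := log_int_bounds (Measure.pi fun _ : (Fin d → ZMod m) × Fin d => μ) hbm
    (fun U => bact_nonneg h0 U) hM' hβ
  have zb' : 0 < Zb μ F d m β ^ q ^ d := pow_pos zb _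
  have zt : 0 < Zt μ F d l β := lt_of_lt_of_le (mul_pos (Real.exp_pos _) zb') i2
  have j1 := Real.log_le_log zt i1
  have j2 := Real.log_le_log (mul_pos (Real.exp_pos _) zb') i2
  rw [Real.log_mul (Real.exp_pos _).ne' zb'.ne', Real.log_exp, Real.log_pow] at j2
  rw [Real.log_pow] at j1
  push_cast at j1 j2
  exact ⟨by linarith, by linarith⟩

end part

end Pool.Agent.X217.YM
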