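import Mathlib
import Pool.Agent.X217.YM.Lim

/-!
# The logarithm of the partition function of a bounded energy
-/

open MeasureTheory Filter ProbabilityTheory
open scoped Topology

namespace Pool.Agent.X217.YM

section

variable {Ω : Type*} [MeasurableSpace Ω] (ν : Measure Ω) [IsProbabilityMeasure ν] {f : Ω → ℝ}
  (hf : Measurable f) {K : ℝ} (hK : ∀ x, |f x| ≤ K)

/-- the mean energy -/
noncomputable def men (f : Ω → ℝ) (β : ℝ) : ℝ :=
  (∫ x, f x * Real.exp (-(β * f x)) ∂ν) / ∫ x, Real.exp (-(β * f x)) ∂ν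

include hf hK in
theorem int_exp (β : ℝ) : Integrable (fun x => Real.exp (-(β * f x))) ν := by
  refine Integrable.of_bound (C := Real.exp (|β| * K))
    (hf.const_mul β).neg.exp.aestronglyMeasurable (Eventually.of_forall fun x => ?_)
  rw [Real.norm_eq_abs, abs_of_pos (Real.exp_pos _)]
  apply Real.exp_le_exp.2
  calc -(β * f x) ≤ |β * f x| := neg_le_abs _
    _ = |β| * |f x| := abs_mul _ _
    _ ≤ |β| * K := mul_le_mul_of_nonneg_left (hK x) (abs_nonneg _)

include hf hK in
theorem int_fexp (β : ℝ) : Integrable (fun x => f x * Real.exp (-(β * f x))) ν := by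
  refine (int_exp ν hf hK β).bdd_mul (c := K) hf.aestronglyMeasurable
    (Eventually.of_forall fun x => ?_)
  rw [Real.norm_eq_abs]
  exact hK x

include hf hK in
theorem Z_pos (β : ℝ) : 0 < ∫ x, Real.exp (-(β * f x)) ∂ν :=
  integral_exp_pos (int_exp ν hf hK β)

include hf hK in
theorem hasDeriv_logZ (β : ℝ) :
    HasDerivAt (fun t => Real.log (∫ x, Real.exp (-(t * f x)) ∂ν)) (-men ν f β) β := by
  have hset : integrableExpSet f ν = Set.univ := by
    ext t
    simp only [integrableExpSet, Set.mem_ofPred_eq, Set.mem_univ, iff_true]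
    have := int_exp ν hf hK (-t)
    simpa using this
  have h1 : HasDerivAt (mgf f ν) (∫ x, f x * Real.exp (-β * f x) ∂ν) (-β) :=
    hasDerivAt_mgf (by rw [hset, interior_univ]; exact Set.mem_univ _)
  have h2 : HasDerivAt (fun t : ℝ => mgf f ν (-t)) ((∫ x, f x * Real.exp (-β * f x) ∂ν) * (-1)) β :=
    h1.comp β (hasDerivAt_neg β)
  have e : (fun t : ℝ => mgf f ν (-t)) = fun t => ∫ x, Real.exp (-(t * f x)) ∂ν := by
    funext t
    simp only [mgf, neg_mul]
  rw [e] at h2
  have h3 := h2.log (Z_pos ν hf hK β).ne'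
  convert h3 using 1
  simp only [men, neg_mul]
  ring

include hf hK in
/-- the supporting lines -/
theorem support (s t : ℝ) : Real.log (∫ x, Real.exp (-(s * f x)) ∂ν) - (t - s) * men ν f s ≤
    Real.log (∫ x, Real.exp (-(t * f x)) ∂ν) := by
  set E := men ν f s with hE
  have hs := Z_pos ν hf hK s
  have ht := Z_pos ν hf hK t
  have hi := int_exp ν hf hK s
  have hi2 := int_fexp ν hf hK s
  have h1 : Real.exp (-((t - s) * E)) * ∫ x, Real.exp (-(s * f x)) ∂ν ≤
      ∫ x, Real.exp (-(t * f x)) ∂ν := by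
    have h2 : ∀ x, Real.exp (-((t - s) * E)) * ((1 + (t - s) * E) * Real.exp (-(s * f x)) -
        (t - s) * (f x * Real.exp (-(s * f x)))) ≤ Real.exp (-(t * f x)) := by
      intro x
      have h3 := Real.add_one_le_exp (-((t - s) * (f x - E)))
      have h4 : Real.exp (-(t * f x)) = Real.exp (-((t - s) * E)) * (Real.exp (-(s * f x)) *
          Real.exp (-((t - s) * (f x - E)))) := by
        rw [← Real.exp_add, ← Real.exp_add]
        congr 1
        ring
      rw [h4]
      refine mul_le_mul_of_nonneg_left ?_ (Real.exp_pos _).le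
      have h5 := mul_le_mul_of_nonneg_left h3 (Real.exp_pos (-(s * f x))).le
      calc _ = Real.exp (-(s * f x)) * (-((t - s) * (f x - E)) + 1) := by ring
        _ ≤ _ := h5
    have h6 := integral_mono (((hi.const_mul (1 + (t - s) * E)).sub
      (hi2.const_mul (t - s))).const_mul (Real.exp (-((t - s) * E)))) (int_exp ν hf hK t) h2
    refine le_trans (le_of_eq ?_) h6
    simp only [Pi.sub_apply]
    rw [integral_const_mul, integral_sub (hi.const_mul _) (hi2.const_mul _), integral_const_mul,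
      integral_const_mul]
    have h7 : ∫ x, f x * Real.exp (-(s * f x)) ∂ν = E * ∫ x, Real.exp (-(s * f x)) ∂ν := by
      rw [hE, men, div_mul_cancel₀ _ hs.ne']
    rw [h7]
    ring
  have h8 := Real.log_le_log (mul_pos (Real.exp_pos _) hs) h1
  rw [Real.log_mul (Real.exp_pos _).ne' hs.ne', Real.log_exp] at h8
  linarith

end

/-- a sequence of pressures `a l` with energies `e l` -/
structure Seq (a e : ℕ → ℝ → ℝ) (P : ℝ → ℝ) : Prop where
  der : ∀ l, 1 ≤ l → ∀ β, HasDerivAt (a l) (-e l β) β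
  sup : ∀ l, 1 ≤ l → ∀ s t, a l s - (t - s) * e l s ≤ a l t
  lim : ∀ β, 0 ≤ β → Tendsto (fun l => a l β) atTop (𝓝 (P β))

namespace Seq

variable {a e : ℕ → ℝ → ℝ} {P : ℝ → ℝ} (h : Seq a e P)

include h

theorem convex : ConvexOn ℝ (Set.Ici 0) P := by
  refine ⟨convex_Ici 0, fun s hs t ht u v hu hv huv => ?_⟩
  have hs' : 0 ≤ s := hs
  have ht' : 0 ≤ t := ht
  have h0 : 0 ≤ u • s + v • t := by
    simp only [smul_eq_mul]
    positivity
  refine le_of_tendsto_of_tendsto (h.lim _ h0) (((h.lim _ hs').const_mul u).add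
    ((h.lim _ ht').const_mul v)) ?_
  filter_upwards [eventually_ge_atTop 1] with l hl
  have e1 := h.sup l hl (u • s + v • t) s
  have e2 := h.sup l hl (u • s + v • t) t
  have e3 := mul_le_mul_of_nonneg_left e1 hu
  have e4 := mul_le_mul_of_nonneg_left e2 hv
  simp only [smul_eq_mul] at e1 e2 e3 e4 ⊢
  have e5 : u = 1 - v := by linarith
  subst e5
  have e6 : (1 - v) * (a l ((1 - v) * s + v * t) -
        (s - ((1 - v) * s + v * t)) * e l ((1 - v) * s + v * t)) +
      v * (a l ((1 - v) * s + v * t) -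
        (t - ((1 - v) * s + v * t)) * e l ((1 - v) * s + v * t)) =
      a l ((1 - v) * s + v * t) := by ring
  linarith

/-- slopes of the limit -/
theorem slope_le {s t κ : ℝ} (hs : 0 ≤ s) (hst : s < t)
    (hk : ∃ᶠ l in atTop, e l s ≤ κ) : -κ ≤ (P t - P s) / (t - s) := by
  have h1 := ((h.lim t (hs.trans hst.le)).sub (h.lim s hs)).div_const (t - s)
  refine ge_of_tendsto_of_frequently h1 ?_
  refine (hk.and_eventually (eventually_ge_atTop 1)).mono fun l hl => ?_
  have h2 := h.sup l hl.2 s t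
  have h3 : 0 < t - s := sub_pos.2 hst
  rw [le_div_iff₀ h3]
  nlinarith [hl.1]

theorem le_slope {s t κ : ℝ} (hs : 0 ≤ s) (hst : s < t)
    (hk : ∃ᶠ l in atTop, κ ≤ e l t) : (P t - P s) / (t - s) ≤ -κ := by
  have h1 := ((h.lim t (hs.trans hst.le)).sub (h.lim s hs)).div_const (t - s)
  refine le_of_tendsto_of_frequently h1 ?_
  refine (hk.and_eventually (eventually_ge_atTop 1)).mono fun l hl => ?_
  have h2 := h.sup l hl.2 t s
  have h3 : 0 < t - s := sub_pos.2 hst
  rw [div_le_iff₀ h3]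
  nlinarith [hl.1]

/-- convergence of the energies at the points of differentiability -/
theorem tendsto_e {β : ℝ} (hβ : 0 < β) (hd : DifferentiableAt ℝ P β) :
    Tendsto (fun l => e l β) atTop (𝓝 (-deriv P β)) := by
  have hd' := hd.hasDerivAt
  rw [hasDerivAt_iff_tendsto_slope] at hd'
  rw [Metric.tendsto_atTop]
  intro ε hε
  -- a point on the right and a point on the left
  have h1 : ∀ᶠ t in 𝓝[≠] β, |slope P β t - deriv P β| < ε / 2 := by
    have := (Metric.tendsto_nhds.1 hd') (ε / 2) (by positivity)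
    simpa only [Real.dist_eq] using this
  have hr : ∃ t, β < t ∧ |slope P β t - deriv P β| < ε / 2 := by
    have h2 : ∀ᶠ t in 𝓝[>] β, |slope P β t - deriv P β| < ε / 2 :=
      h1.filter_mono (nhdsWithin_mono _ fun x hx => ne_of_gt hx)
    obtain ⟨t, ht1, ht2⟩ := (h2.and self_mem_nhdsWithin).exists
    exact ⟨t, ht2, ht1⟩
  have hl : ∃ t, t < β ∧ 0 ≤ t ∧ |slope P β t - deriv P β| < ε / 2 := by
    have h2 : ∀ᶠ t in 𝓝[<] β, |slope P β t - deriv P β| < ε / 2 :=
      h1.filter_mono (nhdsWithin_mono _ fun x hx => ne_of_lt hx)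
    have h3 : ∀ᶠ t in 𝓝[<] β, 0 < t := (lt_mem_nhds hβ).filter_mono nhdsWithin_le_nhds
    obtain ⟨t, ⟨ht1, ht2⟩, ht3⟩ := ((h2.and self_mem_nhdsWithin).and h3).exists
    exact ⟨t, ht2, ht3.le, ht1⟩
  obtain ⟨t, ht, htd⟩ := hr
  obtain ⟨r, hr, hr0, hrd⟩ := hl
  have l1 := ((h.lim t (hβ.le.trans ht.le)).sub (h.lim β hβ.le)).div_const (t - β)
  have l2 := ((h.lim β hβ.le).sub (h.lim r hr0)).div_const (β - r)
  have l1' := (Metric.tendsto_atTop.1 l1) (ε / 2) (by positivity)
  have l2' := (Metric.tendsto_atTop.1 l2) (ε / 2) (by positivity)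
  obtain ⟨n1, hn1⟩ := l1'
  obtain ⟨n2, hn2⟩ := l2'
  refine ⟨max 1 (max n1 n2), fun l hl => ?_⟩
  have k1 := hn1 l (le_trans (le_trans (le_max_left _ _) (le_max_right _ _)) hl)
  have k2 := hn2 l (le_trans (le_trans (le_max_right _ _) (le_max_right _ _)) hl)
  have k0 : 1 ≤ l := le_trans (le_max_left _ _) hl
  have s1 := h.sup l k0 β t
  have s2 := h.sup l k0 β r
  have p1 : 0 < t - β := sub_pos.2 ht
  have p2 : 0 < β - r := sub_pos.2 hr
  have q1 : -e l β ≤ (a l t - a l β) / (t - β) := by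
    rw [le_div_iff₀ p1]
    linarith
  have q2 : (a l β - a l r) / (β - r) ≤ -e l β := by
    rw [div_le_iff₀ p2]
    linarith
  rw [slope_def_field] at htd hrd
  have e3 : (P r - P β) / (r - β) = (P β - P r) / (β - r) := by
    rw [← neg_sub (P β), ← neg_sub β r, neg_div_neg_eq]
  rw [e3] at hrd
  rw [Real.dist_eq] at k1 k2 ⊢
  rw [abs_lt] at *
  constructor <;> linarith [k1.1, k1.2, k2.1, k2.2, htd.1, htd.2, hrd.1, hrd.2]

end Seq

end Pool.Agent.X217.YM
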