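import Mathlib
import Pool.Agent.X217.YM.Mgf

/-!
# Integration of the asymptotics of the energy
-/

open MeasureTheory Filter
open scoped Topology

namespace Pool.Agent.X217.YM

variable {a e : ℕ → ℝ → ℝ} {P : ℝ → ℝ}

theorem freq_even (x : ℝ) {p : ℕ → Prop} (h : ∀ l : ℕ, Even l → x ≤ l → p l) :
    ∃ᶠ l in atTop, p l := by
  rw [frequently_atTop]
  intro n
  obtain ⟨m, hm⟩ := exists_nat_ge x
  refine ⟨2 * (m + n), by omega, h _ (even_two_mul _) (hm.trans ?_)⟩
  exact_mod_cast (by omega : m ≤ 2 * (m + n))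

theorem slopes (h : Seq a e P) {A C δ β₀ : ℝ} (hβ₀ : 0 < β₀)
    (he : ∀ β, β₀ ≤ β → ∀ l : ℕ, Even l → β ≤ l → |e l β - A / β| ≤ C * β ^ (-1 - δ)) {s t : ℝ}
    (hs : β₀ ≤ s) (hst : s < t) :
    -(A / s + C * s ^ (-1 - δ)) ≤ (P t - P s) / (t - s) ∧
      (P t - P s) / (t - s) ≤ -(A / t - C * t ^ (-1 - δ)) := by
  constructor
  · refine h.slope_le (hβ₀.le.trans hs) hst (freq_even s fun l hl hsl => ?_)
    have := he s hs l hl hsl
    rw [abs_le] at this
    linarith [this.2]
  · refine h.le_slope (hβ₀.le.trans hs) hst (freq_even t fun l hl hsl => ?_)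
    have := he t (hs.trans hst.le) l hl hsl
    rw [abs_le] at this
    linarith [this.1]

theorem integrated (h : Seq a e P) {A C δ β₀ : ℝ} (hβ₀ : 0 < β₀) (hδ : 0 < δ)
    (he : ∀ β, β₀ ≤ β → ∀ l : ℕ, Even l → β ≤ l → |e l β - A / β| ≤ C * β ^ (-1 - δ)) {s t : ℝ}
    (hs : β₀ ≤ s) (hst : s ≤ t) :
    |P t - P s + A * Real.log (t / s)| ≤ C / δ * (s ^ (-δ) - t ^ (-δ)) := by
  have hs0 : 0 < s := hβ₀.trans_le hs
  have ht0 : 0 < t := hs0.trans_le hst
  have hfin : ∀ l : ℕ, Even l → max t 1 ≤ l →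
      |a l t - a l s + A * Real.log (t / s)| ≤ C / δ * (s ^ (-δ) - t ^ (-δ)) := by
    intro l hl htl
    have hl1 : 1 ≤ l := by exact_mod_cast (le_max_right t 1).trans htl
    have htl' : t ≤ l := (le_max_left t 1).trans htl
    have hder : ∀ κ : ℝ, ∀ x ∈ Set.Icc s t, HasDerivAt (fun x => a l x + A * Real.log x +
        κ * (C / δ * x ^ (-δ))) (-e l x + A / x - κ * (C * x ^ (-1 - δ))) x := by
      intro κ x hx
      have hx0 : 0 < x := hs0.trans_le hx.1
      have d1 := h.der l hl1 x
      have d2 := (Real.hasDerivAt_log hx0.ne').const_mul A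
      have d3 := ((Real.hasDerivAt_rpow_const (x := x) (p := -δ) (Or.inl hx0.ne')).const_mul
        (C / δ)).const_mul κ
      have d4 : HasDerivAt (fun x => a l x + A * Real.log x + κ * (C / δ * x ^ (-δ))) _ x :=
        (d1.add d2).add d3
      refine d4.congr_deriv ?_
      have e1 : -δ - 1 = -1 - δ := by ring
      rw [e1]
      field_simp
      ring
    have hbd : ∀ x ∈ Set.Icc s t, |e l x - A / x| ≤ C * x ^ (-1 - δ) := fun x hx =>
      he x (hs.trans hx.1) l hl (hx.2.trans htl')
    have m1 : AntitoneOn (fun x => a l x + A * Real.log x + 1 * (C / δ * x ^ (-δ)))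
        (Set.Icc s t) := by
      refine antitoneOn_of_deriv_nonpos (convex_Icc s t)
        (fun x hx => (hder 1 x hx).continuousAt.continuousWithinAt)
        (fun x hx => (hder 1 x (interior_subset hx)).differentiableAt.differentiableWithinAt)
        (fun x hx => ?_)
      have hx' := interior_subset hx
      rw [(hder 1 x hx').deriv]
      have := (abs_le.1 (hbd x hx')).1
      linarith
    have m2 : MonotoneOn (fun x => a l x + A * Real.log x + (-1) * (C / δ * x ^ (-δ)))
        (Set.Icc s t) := by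
      refine monotoneOn_of_deriv_nonneg (convex_Icc s t)
        (fun x hx => (hder (-1) x hx).continuousAt.continuousWithinAt)
        (fun x hx => (hder (-1) x (interior_subset hx)).differentiableAt.differentiableWithinAt)
        (fun x hx => ?_)
      have hx' := interior_subset hx
      rw [(hder (-1) x hx').deriv]
      have := (abs_le.1 (hbd x hx')).2
      linarith
    have n1 := m1 (Set.left_mem_Icc.2 hst) (Set.right_mem_Icc.2 hst) hst
    have n2 := m2 (Set.left_mem_Icc.2 hst) (Set.right_mem_Icc.2 hst) hst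
    simp only at n1 n2
    rw [Real.log_div ht0.ne' hs0.ne', abs_le]
    constructor <;> linarith
  have t1 : Tendsto (fun l => |a l t - a l s + A * Real.log (t / s)|) atTop
      (𝓝 |P t - P s + A * Real.log (t / s)|) :=
    (((h.lim t ht0.le).sub (h.lim s hs0.le)).add_const _).abs
  exact le_of_tendsto_of_frequently t1 (freq_even _ hfin)

theorem const_exists (h : Seq a e P) {A C δ β₀ : ℝ} (hβ₀ : 0 < β₀) (hδ : 0 < δ) (hC : 0 ≤ C)
    (he : ∀ β, β₀ ≤ β → ∀ l : ℕ, Even l → β ≤ l → |e l β - A / β| ≤ C * β ^ (-1 - δ)) :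
    ∃ c : ℝ, ∀ β, β₀ ≤ β → |P β - (c - A * Real.log β)| ≤ C / δ * β ^ (-δ) := by
  have hK : 0 ≤ C / δ := by positivity
  have key : ∀ s t, β₀ ≤ s → s ≤ t →
      |(P t + A * Real.log t) - (P s + A * Real.log s)| ≤ C / δ * s ^ (-δ) := by
    intro s t hs hst
    have hs0 : 0 < s := hβ₀.trans_le hs
    have ht0 : 0 < t := hs0.trans_le hst
    have h1 := integrated h hβ₀ hδ he hs hst
    rw [Real.log_div ht0.ne' hs0.ne'] at h1
    have e1 : (P t + A * Real.log t) - (P s + A * Real.log s) =
        P t - P s + A * (Real.log t - Real.log s) := by ring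
    rw [e1]
    refine h1.trans (mul_le_mul_of_nonneg_left ?_ hK)
    have : 0 ≤ t ^ (-δ) := Real.rpow_nonneg ht0.le _
    linarith
  have hto : Tendsto (fun s : ℝ => C / δ * s ^ (-δ)) atTop (𝓝 0) := by
    have := (tendsto_rpow_neg_atTop hδ).const_mul (C / δ)
    simpa using this
  have hc : Cauchy (map (fun t => P t + A * Real.log t) atTop) := by
    rw [Metric.cauchy_iff]
    refine ⟨inferInstance, fun ε hε => ?_⟩
    obtain ⟨s, hs1, hs2⟩ := ((hto.eventually (gt_mem_nhds (half_pos hε))).and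
      (eventually_ge_atTop β₀)).exists
    refine ⟨(fun t => P t + A * Real.log t) '' Set.Ici s, image_mem_map (Ici_mem_atTop s), ?_⟩
    rintro _ ⟨x, hx, rfl⟩ _ ⟨y, hy, rfl⟩
    have k1 := key s x hs2 hx
    have k2 := key s y hs2 hy
    rw [Real.dist_eq]
    rw [abs_sub_comm] at k2
    calc _ = |((P x + A * Real.log x) - (P s + A * Real.log s)) +
          ((P s + A * Real.log s) - (P y + A * Real.log y))| := by
            congr 1
            ring
      _ ≤ _ := abs_add_le _ _
      _ < ε := by linarith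
  obtain ⟨c, hc'⟩ := cauchy_iff_exists_le_nhds.1 hc
  refine ⟨c, fun s hs => ?_⟩
  have t1 : Tendsto (fun t => |(P t + A * Real.log t) - (P s + A * Real.log s)|) atTop
      (𝓝 |c - (P s + A * Real.log s)|) := (Tendsto.sub_const hc' _).abs
  have := le_of_tendsto t1 (by
    filter_upwards [eventually_ge_atTop s] with t ht
    exact key s t hs ht)
  rw [abs_sub_comm] at this
  calc _ = |P s + A * Real.log s - c| := by
        congr 1
        ring
    _ ≤ _ := this

end Pool.Agent.X217.YM
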