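import Mathlib
import Pool.Agent.Results.MP_7f377f_mp.WilsonLoopsWeakCoupling

/-!
# The Green function and the plaquettes
-/

open Filter
open scoped Topology

namespace Pool.Agent.X217.YM

open Pool.Agent.Results.MP_7f377f_mp.WilsonLoopsWeakCoupling
open Pool.Agent.H906R3 Pool.Agent.W793 Pool.Agent.TH369

variable {d : ℕ}

/-- `-Δ g (0) = 1` -/
theorem green_lap (hd : 3 ≤ d) :
    2 * d * green d 0 - ∑ i : Fin d, (green d (Pi.single i 1) + green d (-Pi.single i 1)) = 1 := by
  obtain ⟨C, -, hs, -⟩ := SCH.a_TR d hd
  have hs' : ∀ z : Fin d → ℤ, Summable fun k => walk d k z := by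
    intro z
    have := hs z
    simpa only [← walk_eq] using this
  have hd0 : (d : ℝ) ≠ 0 := by
    have : 0 < d := by omega
    exact_mod_cast this.ne'
  set W : (Fin d → ℤ) → ℝ := fun z => ∑' k, walk d k z with hW
  have hg : ∀ z, green d z = 1 / (4 * d : ℝ) * W z := fun z => rfl
  have h1 : W 0 = 1 + ∑' k, walk d (k + 1) 0 := by
    rw [hW]
    show ∑' k, walk d k 0 = _
    rw [(hs' 0).tsum_eq_zero_add]
    congr 1
    simp [walk]
  have h2 : ∑' k, walk d (k + 1) 0 = 1 / 2 * W 0 + 1 / (4 * d : ℝ) *
      ∑ i : Fin d, (W (Pi.single i 1) + W (-Pi.single i 1)) := by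
    have e1 : ∀ k, walk d (k + 1) 0 = 1 / 2 * walk d k 0 + 1 / (4 * d : ℝ) *
        ∑ i : Fin d, (walk d k (Pi.single i 1) + walk d k (-Pi.single i 1)) := by
      intro k
      simp only [walk, zero_add, zero_sub]
    simp only [e1]
    have s1 : Summable fun k => ∑ i : Fin d, (walk d k (Pi.single i 1) + walk d k (-Pi.single i 1)) :=
      summable_sum fun i _ => (hs' _).add (hs' _)
    rw [((hs' 0).mul_left _).tsum_add (s1.mul_left _), tsum_mul_left, tsum_mul_left,
      Summable.tsum_finsetSum fun i _ => (hs' _).add (hs' _)]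
    congr 2
    refine Finset.sum_congr rfl fun i _ => ?_
    rw [(hs' _).tsum_add (hs' _)]
  have h3 : ∑ i : Fin d, (green d (Pi.single i 1) + green d (-Pi.single i 1)) =
      1 / (4 * d : ℝ) * ∑ i : Fin d, (W (Pi.single i 1) + W (-Pi.single i 1)) := by
    rw [Finset.mul_sum]
    refine Finset.sum_congr rfl fun i _ => ?_
    rw [hg, hg, mul_add]
  rw [h3, hg]
  have h4 : 2 * (d : ℝ) * (1 / (4 * d) * W 0) = 1 / 2 * W 0 := by
    field_simp
    ring
  rw [h4]
  linarith

/-- the plaquette at `x` in the directions `i`, `j` -/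
def plq (x : Fin d → ℤ) (i j : Fin d) : Loop d where
  base := x
  steps := [(i, true), (j, true), (i, false), (j, false)]
  closed := by
    simp only [dest]
    abel

theorem plq_length (x : Fin d → ℤ) (i j : Fin d) : (plq x i j).length = 4 := rfl

theorem plq_links (x : Fin d → ℤ) (i j : Fin d) : links (plq x i j).base (plq x i j).steps =
    [((x, i), true), ((x + Pi.single i 1, j), true), ((x + Pi.single j 1, i), false),
      ((x, j), false)] := by
  have e1 : x + Pi.single i 1 + Pi.single j 1 - Pi.single i 1 = x + Pi.single j 1 := by abel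
  have e2 : x + Pi.single j 1 - Pi.single j 1 = x := by abel
  simp only [plq, links, e1, e2]

theorem plq_inter (x : Fin d → ℤ) {i j : Fin d} (hij : i ≠ j) :
    inter (plq x i j) (plq x i j) = 4 * green d 0 -
      ((green d (Pi.single i 1) + green d (-Pi.single i 1)) +
        (green d (Pi.single j 1) + green d (-Pi.single j 1))) := by
  unfold inter
  rw [plq_links]
  have e1 : x - (x + Pi.single j 1) = -Pi.single j 1 := by abel
  have e2 : x + Pi.single j 1 - x = Pi.single j 1 := by abel
  have e3 : x - (x + Pi.single i 1) = -Pi.single i 1 := by abel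
  have e4 : x + Pi.single i 1 - x = Pi.single i 1 := by abel
  simp [hij, hij.symm, e1, e2, e3, e4]
  ring

theorem sum_inter (hd : 3 ≤ d) (x : Fin d → ℤ) :
    ∑ i : Fin d, ∑ j : Fin d, (if i < j then inter (plq x i j) (plq x i j) else 0) = d - 1 := by
  set s : Fin d → ℝ := fun i => green d (Pi.single i 1) + green d (-Pi.single i 1) with hs
  have h1 : ∀ i j : Fin d, (if i < j then inter (plq x i j) (plq x i j) else 0) =
      if i < j then (2 * green d 0 - s i) + (2 * green d 0 - s j) else 0 := by
    intro i j
    by_cases h : i < j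
    · rw [if_pos h, if_pos h, plq_inter x h.ne]
      simp only [hs]
      ring
    · rw [if_neg h, if_neg h]
  simp only [h1]
  set u : Fin d → ℝ := fun i => 2 * green d 0 - s i with hu
  have h2 : ∑ i : Fin d, ∑ j : Fin d, (if i < j then u i + u j else 0) =
      ∑ i : Fin d, ∑ j : Fin d, (if i < j then u i else 0) +
        ∑ i : Fin d, ∑ j : Fin d, (if j < i then u i else 0) := by
    have e : ∀ i j : Fin d, (if i < j then u i + u j else 0) =
        (if i < j then u i else 0) + (if i < j then u j else 0) := by
      intro i j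
      split_ifs <;> simp
    simp only [e, Finset.sum_add_distrib]
    congr 1
    exact Finset.sum_comm
  have h3 : ∑ i : Fin d, ∑ j : Fin d, (if i < j then u i else 0) +
      ∑ i : Fin d, ∑ j : Fin d, (if j < i then u i else 0) = ∑ i : Fin d, (d - 1 : ℝ) * u i := by
    rw [← Finset.sum_add_distrib]
    refine Finset.sum_congr rfl fun i _ => ?_
    rw [← Finset.sum_add_distrib]
    have e : ∀ j : Fin d, ((if i < j then u i else 0) + (if j < i then u i else 0)) =
        u i - if i = j then u i else 0 := by
      intro j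
      rcases lt_trichotomy i j with h | h | h
      · rw [if_pos h, if_neg (not_lt.2 h.le), if_neg h.ne]; ring
      · subst h; simp
      · rw [if_neg (not_lt.2 h.le), if_pos h, if_neg h.ne']; ring
    simp only [e, Finset.sum_sub_distrib, Finset.sum_const, Finset.card_univ, Fintype.card_fin,
      nsmul_eq_mul, Finset.sum_ite_eq, Finset.mem_univ, if_true]
    ring
  show ∑ i : Fin d, ∑ j : Fin d, (if i < j then u i + u j else 0) = d - 1
  rw [h2, h3, ← Finset.mul_sum]
  have h4 : ∑ i : Fin d, u i = 1 := by
    rw [← green_lap hd]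
    simp only [hu, Finset.sum_sub_distrib, Finset.sum_const, Finset.card_univ, Fintype.card_fin,
      nsmul_eq_mul, hs]
    ring
  rw [h4, mul_one]

end Pool.Agent.X217.YM
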