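import Mathlib
import Pool.Agent.X217.YM.Green
import Pool.Agent.X217.YM.Mgf

/-!
# The energy density at weak coupling
-/

open MeasureTheory Matrix Filter
open scoped Matrix.Norms.Frobenius Topology ContDiff

namespace Pool.Agent.X217.YM

open Pool.Agent.Results.MP_7f377f_mp.WilsonLoopsWeakCoupling

variable {N n d l : ℕ} {G : Subgroup (UU N)}

/-- the representative of a site -/
def lft (x : Fin d → ZMod l) : Fin d → ℤ := fun k => ((x k).val : ℤ)

theorem lft_cast [NeZero l] (x : Fin d → ZMod l) : (fun k => ((lft x k : ℤ) : ZMod l)) = x := by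
  funext k
  simp [lft]

theorem lft_step [NeZero l] (x : Fin d → ZMod l) (i : Fin d) :
    (fun k => (((lft x + Pi.single i 1 : Fin d → ℤ) k : ℤ) : ZMod l)) = x + Pi.single i 1 := by
  funext k
  by_cases h : k = i
  · subst h; simp [lft]
  · simp [lft, Pi.single_eq_of_ne h]

theorem per_apply [NeZero l] (U : Link d l → G) (x : Fin d → ZMod l) (j : Fin d) :
    per U (lft x, j) = U (x, j) := by
  show U (fun k => ((lft x k : ℤ) : ZMod l), j) = _
  rw [lft_cast]

theorem per_step [NeZero l] (U : Link d l → G) (x : Fin d → ZMod l) (i j : Fin d) :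
    per U (lft x + Pi.single i 1, j) = U (x + Pi.single i 1, j) := by
  show U (fun k => (((lft x + Pi.single i 1 : Fin d → ℤ) k : ℤ) : ZMod l), j) = _
  rw [lft_step]

theorem hol_plq [NeZero l] (U : Link d l → G) (x : Fin d → ZMod l) (i j : Fin d) :
    hol (per U) (plq (lft x) i j).base (plq (lft x) i j).steps = plaq U x i j := by
  have e1 : lft x + Pi.single i 1 + Pi.single j 1 - Pi.single i 1 = lft x + Pi.single j 1 := by
    abel
  have e2 : lft x + Pi.single j 1 - Pi.single j 1 = lft x := by abel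
  simp only [plq, hol, e1, e2, per_step, per_apply, plaq, mul_one]
  group

theorem tr_eq (g : G) : (trace (1 - mt g)).re = N - (trace (mt g)).re := by
  rw [trace_sub, trace_one, Complex.sub_re]
  simp

theorem action_loop [NeZero l] (β : ℝ) (U : Link d l → G) :
    β * action U = ∑ x : Fin d → ZMod l, ∑ i : Fin d, ∑ j : Fin d, if i < j then
      (loopVar n β (plq (lft x) i j) (per U) +
        n / 2 * inter (plq (lft x) i j) (plq (lft x) i j)) else 0 := by
  unfold action
  rw [Finset.mul_sum]
  refine Finset.sum_congr rfl fun x _ => ?_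
  rw [Finset.mul_sum]
  refine Finset.sum_congr rfl fun i _ => ?_
  rw [Finset.mul_sum]
  refine Finset.sum_congr rfl fun j _ => ?_
  split_ifs with h
  · unfold loopVar wilson
    rw [hol_plq, tr_eq]
    ring
  · rw [mul_zero]

section

variable [CompactSpace G] [SecondCountableTopology G] [MeasurableSpace G] [BorelSpace G]
  (μ : Measure G) [IsProbabilityMeasure μ] (B : LieBasis G n)

theorem per_cont : Continuous (per : (Link d l → G) → LinkZ d → G) :=
  continuous_pi fun e => continuous_apply _

theorem loopVar_cont (β : ℝ) (γ : Loop d) : Continuous (loopVar n β γ : (LinkZ d → G) → ℝ) :=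
  (continuous_const.mul (continuous_const.sub (wilson_cont γ))).sub continuous_const

/-- the energy density of the torus -/
noncomputable def eden (l : ℕ) [NeZero l] (d : ℕ) (μ : Measure G) (β : ℝ) : ℝ :=
  men (Measure.pi fun _ : Link d l => μ) (action : (Link d l → G) → ℝ) β / (l : ℝ) ^ d

include B in
theorem eden_sum [NeZero l] (β : ℝ) :
    β * eden l d μ β * (l : ℝ) ^ d = ∑ x : Fin d → ZMod l, ∑ i : Fin d, ∑ j : Fin d, if i < j then
      (expect l μ β (loopVar n β (plq (lft x) i j)) +
        n / 2 * inter (plq (lft x) i j) (plq (lft x) i j)) else 0 := by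
  have hac : Continuous (action : (Link d l → G) → ℝ) := action_cont B
  have hexp : Continuous fun U : Link d l → G => Real.exp (-(β * action U)) :=
    Real.continuous_exp.comp (continuous_const.mul hac).neg
  have hint : Integrable (fun U : Link d l → G => Real.exp (-(β * action U)))
      (Measure.pi fun _ => μ) :=
    hexp.integrable_of_hasCompactSupport (HasCompactSupport.of_compactSpace _)
  have hZ : 0 < ∫ U : Link d l → G, Real.exp (-(β * action U)) ∂(Measure.pi fun _ => μ) :=
    integral_exp_pos hint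
  have hld : ((l : ℝ) ^ d) ≠ 0 := pow_ne_zero _ (Nat.cast_ne_zero.2 (NeZero.ne l))
  set Z := ∫ U : Link d l → G, Real.exp (-(β * action U)) ∂(Measure.pi fun _ => μ) with hZd
  have hI : ∀ (x : Fin d → ZMod l) (i j : Fin d), Integrable (fun U : Link d l → G =>
      loopVar n β (plq (lft x) i j) (per U) * Real.exp (-(β * action U)))
      (Measure.pi fun _ => μ) := fun x i j =>
    (((loopVar_cont (G := G) (n := n) β (plq (lft x) i j)).comp per_cont).mul
      hexp).integrable_of_hasCompactSupport (HasCompactSupport.of_compactSpace _)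
  have h1 : β * eden l d μ β * (l : ℝ) ^ d =
      (∫ U : Link d l → G, β * action U * Real.exp (-(β * action U))
        ∂(Measure.pi fun _ => μ)) / Z := by
    unfold eden men
    rw [mul_assoc, div_mul_cancel₀ _ hld, mul_div_assoc', ← integral_const_mul]
    congr 2
    funext U
    ring
  have h2 : ∀ U : Link d l → G, β * action U * Real.exp (-(β * action U)) =
      ∑ x : Fin d → ZMod l, ∑ i : Fin d, ∑ j : Fin d, if i < j then
      (loopVar n β (plq (lft x) i j) (per U) * Real.exp (-(β * action U)) +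
        n / 2 * inter (plq (lft x) i j) (plq (lft x) i j) * Real.exp (-(β * action U))) else 0 := by
    intro U
    rw [action_loop (n := n) β U, Finset.sum_mul]
    refine Finset.sum_congr rfl fun x _ => ?_
    rw [Finset.sum_mul]
    refine Finset.sum_congr rfl fun i _ => ?_
    rw [Finset.sum_mul]
    refine Finset.sum_congr rfl fun j _ => ?_
    split_ifs with h
    · rw [add_mul]
    · rw [zero_mul]
  have h3 : ∀ (x : Fin d → ZMod l) (i j : Fin d), Integrable (fun U : Link d l → G =>
      if i < j then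
      (loopVar n β (plq (lft x) i j) (per U) * Real.exp (-(β * action U)) +
        n / 2 * inter (plq (lft x) i j) (plq (lft x) i j) * Real.exp (-(β * action U))) else 0)
      (Measure.pi fun _ => μ) := by
    intro x i j
    split_ifs
    · exact (hI x i j).add (hint.const_mul _)
    · exact integrable_const _
  rw [h1]
  simp only [h2]
  rw [integral_finsetSum _ fun x _ => integrable_finsetSum _ fun i _ =>
    integrable_finsetSum _ fun j _ => h3 x i j, Finset.sum_div]
  refine Finset.sum_congr rfl fun x _ => ?_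
  rw [integral_finsetSum _ fun i _ => integrable_finsetSum _ fun j _ => h3 x i j,
    Finset.sum_div]
  refine Finset.sum_congr rfl fun i _ => ?_
  rw [integral_finsetSum _ fun j _ => h3 x i j, Finset.sum_div]
  refine Finset.sum_congr rfl fun j _ => ?_
  split_ifs with h
  · rw [integral_add (hI x i j) (hint.const_mul _), integral_const_mul, add_div,
      mul_div_assoc _ _ Z, div_self hZ.ne', mul_one]
    rfl
  · simp

end

/-- **the energy density at weak coupling** -/
theorem energy_asymp (hd : 3 ≤ d) (G : Subgroup (UU N)) (hG : IsClosed (G : Set (UU N)))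
    [MeasurableSpace G] [BorelSpace G] (μ : Measure G) [IsProbabilityMeasure μ] [μ.IsHaarMeasure]
    (B : LieBasis G n) :
    ∃ C δ β₀ : ℝ, 0 ≤ C ∧ 0 < δ ∧ 1 ≤ β₀ ∧ ∀ β, β₀ ≤ β → ∀ (l : ℕ) [NeZero l], Even l → β ≤ l →
      |eden l d μ β - ((d - 1) * n / 2) / β| ≤ C * β ^ (-1 - δ) := by
  have : CompactSpace G := by
    have h1 : IsCompact (G : Set (UU N)) := hG.isCompact
    exact isCompact_iff_compactSpace.1 h1
  have h00 : SecondCountableTopology (UU N) := TopologicalSpace.Subtype.secondCountableTopology _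
  have : SecondCountableTopology G := TopologicalSpace.Subtype.secondCountableTopology _
  obtain ⟨K, R₀, C, h⟩ := Pool.Agent.Results.MP_7f377f_mp.WilsonLoopsWeakCoupling.result hd G hG μ
    B 1 1
  set K' : ℕ := K + 1 with hK'
  set δ : ℝ := 1 / (K' : ℝ) with hδ
  have hK0 : (0 : ℝ) < K' := by positivity
  have hδ0 : 0 < δ := by positivity
  set R₁ : ℕ := max R₀ 4 + 1 with hR₁
  refine ⟨d ^ 2 * (2 * |C|), δ, (R₁ : ℝ) ^ K', by positivity, hδ0,
    one_le_pow₀ (by exact_mod_cast (by omega : 1 ≤ R₁)), ?_⟩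
  intro β hβ l _ hl hβl
  have hR1 : (1 : ℝ) ≤ R₁ := by exact_mod_cast (by omega : 1 ≤ R₁)
  have hβ1 : 1 ≤ β := (one_le_pow₀ hR1).trans hβ
  have hβ0 : 0 < β := by linarith
  -- the scale
  set R : ℕ := ⌊β ^ δ⌋₊ with hR
  have hRβ : (R₁ : ℝ) ≤ β ^ δ := by
    have h1 : ((R₁ : ℝ) ^ K') ^ δ ≤ β ^ δ := Real.rpow_le_rpow (by positivity) hβ hδ0.le
    rwa [← Real.rpow_natCast, ← Real.rpow_mul (by positivity), hδ, mul_one_div_cancel hK0.ne',
      Real.rpow_one] at h1
  have hR2 : R₁ ≤ R := Nat.le_floor hRβ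
  have hR3 : (R : ℝ) ≤ β ^ δ := Nat.floor_le (by positivity)
  have hR4 : β ^ δ / 2 ≤ R := by
    have h1 := Nat.lt_floor_add_one (β ^ δ)
    have h2 : (1 : ℝ) ≤ R := by exact_mod_cast (by omega : 1 ≤ R)
    linarith
  have hR0 : (0 : ℝ) < R := by exact_mod_cast (by omega : 0 < R)
  have hRK : (R : ℝ) ^ K ≤ β := by
    calc (R : ℝ) ^ K ≤ (R : ℝ) ^ K' := pow_le_pow_right₀ (by exact_mod_cast (by omega : 1 ≤ R))
          (by omega)
      _ ≤ (β ^ δ) ^ K' := pow_le_pow_left₀ hR0.le hR3 _
      _ = β := by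
          rw [← Real.rpow_natCast, ← Real.rpow_mul hβ0.le, hδ, one_div_mul_cancel hK0.ne',
            Real.rpow_one]
  have hmain := h R (by omega) β hRK
  have hpl : ∀ (x : Fin d → ℤ) (i j : Fin d),
      |expect l μ β (loopVar (G := G) n β (plq x i j))| ≤ |C| / R := by
    intro x i j
    have h1 := (hmain.1 (fun _ => plq x i j) (fun _ => by rw [plq_length]; omega)
      (fun _ _ k => by simp)).1 l hl hβl
    rw [wicks_one, mul_zero, sub_zero, pow_one] at h1
    simp only [Finset.univ_unique, Finset.prod_singleton] at h1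
    refine h1.trans ?_
    gcongr
    exact le_abs_self C
  have hsum := eden_sum (l := l) (d := d) μ B β
  have hld : (0 : ℝ) < (l : ℝ) ^ d := pow_pos (Nat.cast_pos.2 (Nat.pos_of_ne_zero (NeZero.ne l))) d
  have h2 : β * eden l d μ β * (l : ℝ) ^ d - (l : ℝ) ^ d * (n / 2 * (d - 1)) =
      ∑ x : Fin d → ZMod l, ∑ i : Fin d, ∑ j : Fin d, if i < j then
      expect l μ β (loopVar (G := G) n β (plq (lft x) i j)) else 0 := by
    have e1 : (l : ℝ) ^ d * (n / 2 * (d - 1)) = ∑ x : Fin d → ZMod l, n / 2 *
        ∑ i : Fin d, ∑ j : Fin d, (if i < j then inter (plq (lft x) i j) (plq (lft x) i j)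
          else 0) := by
      simp only [sum_inter hd, Finset.sum_const, Finset.card_univ, Fintype.card_fun, ZMod.card,
        Fintype.card_fin, nsmul_eq_mul]
      push_cast
      ring
    rw [hsum, e1, ← Finset.sum_sub_distrib]
    refine Finset.sum_congr rfl fun x _ => ?_
    rw [Finset.mul_sum, ← Finset.sum_sub_distrib]
    refine Finset.sum_congr rfl fun i _ => ?_
    rw [Finset.mul_sum, ← Finset.sum_sub_distrib]
    refine Finset.sum_congr rfl fun j _ => ?_
    split_ifs <;> ring
  have h3 : |β * eden l d μ β * (l : ℝ) ^ d - (l : ℝ) ^ d * (n / 2 * (d - 1))| ≤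
      (l : ℝ) ^ d * (d ^ 2 * (|C| / R)) := by
    rw [h2]
    calc _ ≤ ∑ x : Fin d → ZMod l, ∑ i : Fin d, ∑ j : Fin d, (|C| / R) := by
          refine (Finset.abs_sum_le_sum_abs _ _).trans (Finset.sum_le_sum fun x _ => ?_)
          refine (Finset.abs_sum_le_sum_abs _ _).trans (Finset.sum_le_sum fun i _ => ?_)
          refine (Finset.abs_sum_le_sum_abs _ _).trans (Finset.sum_le_sum fun j _ => ?_)
          split_ifs
          · exact hpl _ _ _
          · rw [abs_zero]; positivity
      _ = _ := by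
          simp only [Finset.sum_const, Finset.card_univ, Fintype.card_fun, ZMod.card,
            Fintype.card_fin, nsmul_eq_mul]
          push_cast
          ring
  have h4 : |eden l d μ β - ((d - 1) * n / 2) / β| * (β * (l : ℝ) ^ d) ≤
      (l : ℝ) ^ d * (d ^ 2 * (|C| / R)) := by
    have e1 : (eden l d μ β - ((d - 1) * n / 2) / β) * (β * (l : ℝ) ^ d) =
        β * eden l d μ β * (l : ℝ) ^ d - (l : ℝ) ^ d * (n / 2 * (d - 1)) := by
      field_simp
    rw [← e1, abs_mul, abs_of_pos (show 0 < β * (l : ℝ) ^ d by positivity)] at h3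
    exact h3
  have h5 : |C| / R ≤ 2 * |C| * β ^ (-δ) := by
    rw [Real.rpow_neg hβ0.le, div_le_iff₀ hR0]
    have hp : 0 < β ^ δ := Real.rpow_pos_of_pos hβ0 _
    have : 2 * |C| * (β ^ δ)⁻¹ * R = |C| * (2 * R / β ^ δ) := by
      field_simp
    rw [this]
    have h6 : 1 ≤ 2 * R / β ^ δ := by
      rw [le_div_iff₀ hp]
      linarith
    nlinarith [abs_nonneg C]
  have h7 : |eden l d μ β - ((d - 1) * n / 2) / β| * β ≤ d ^ 2 * (2 * |C|) * β ^ (-δ) := by
    have h8 : |eden l d μ β - ((d - 1) * n / 2) / β| * β * (l : ℝ) ^ d ≤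
        d ^ 2 * (2 * |C|) * β ^ (-δ) * (l : ℝ) ^ d := by
      calc _ = |eden l d μ β - ((d - 1) * n / 2) / β| * (β * (l : ℝ) ^ d) := by ring
        _ ≤ (l : ℝ) ^ d * (d ^ 2 * (|C| / R)) := h4
        _ ≤ (l : ℝ) ^ d * (d ^ 2 * (2 * |C| * β ^ (-δ))) := by gcongr
        _ = _ := by ring
    exact le_of_mul_le_mul_right h8 hld
  have h9 : β ^ (-1 - δ) = β ^ (-δ) / β := by
    rw [sub_eq_add_neg, add_comm, Real.rpow_add hβ0, Real.rpow_neg_one]
    rfl
  rw [h9, mul_div_assoc', le_div_iff₀ hβ0]
  exact h7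

end Pool.Agent.X217.YM
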