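import Mathlib

/-!
# From the free energy to the entropy
-/

open MeasureTheory Filter
open scoped Topology

namespace Pool.Agent.X217.YM

theorem neg_log_le {s : ℝ} (hs : 0 ≤ s) (hs1 : s ≤ 1 / 2) : -Real.log (1 - s) ≤ s + s ^ 2 := by
  have h1 : 0 < 1 - s := by linarith
  have h2 : Real.exp (-(s + s ^ 2)) ≤ 1 - s := by
    have h3 := Real.exp_bound' (x := s) hs (by linarith) (n := 2) (by norm_num)
    -- `exp (s + s²) (1 - s) ≥ 1`
    rw [Real.exp_neg]
    rw [inv_le_comm₀ (Real.exp_pos _) h1]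
    have h4 : (1 - s)⁻¹ ≤ 1 + (s + s ^ 2) + (s + s ^ 2) ^ 2 / 2 := by
      rw [inv_le_iff_one_le_mul₀ h1]
      nlinarith [sq_nonneg s, pow_nonneg hs 3, pow_nonneg hs 4, pow_nonneg hs 2]
    refine h4.trans ?_
    exact Real.quadratic_le_exp_of_nonneg (by positivity)
  have h5 := Real.log_le_log (Real.exp_pos _) h2
  rw [Real.log_exp] at h5
  linarith

theorem neg_log_le' {s : ℝ} (hs : 0 ≤ s) (hs1 : s ≤ 1) : -Real.log (1 + s) ≤ -s + s ^ 2 := by
  have h1 : 0 < 1 + s := by linarith
  have h2 : Real.exp (s - s ^ 2) ≤ 1 + s := by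
    rcases le_or_gt (1 / 2 : ℝ) s with h | h
    · have h3 : s - s ^ 2 ≤ 1 / 4 := by nlinarith [sq_nonneg (s - 1 / 2)]
      have h4 : Real.exp (1 / 4) ≤ 3 / 2 := by
        have := Real.exp_one_lt_d9
        have h5 : Real.exp (1 / 4) ^ 4 = Real.exp 1 := by
          rw [← Real.exp_nat_mul]
          norm_num
        by_contra hcon
        push Not at hcon
        have h6 : (3 / 2 : ℝ) ^ 4 < Real.exp (1 / 4) ^ 4 :=
          pow_lt_pow_left₀ hcon (by norm_num) (by norm_num)
        rw [h5] at h6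
        norm_num at h6
        linarith
      exact (Real.exp_le_exp.2 h3).trans (h4.trans (by linarith))
    · have h3 : -Real.log (1 - (s - s ^ 2)) ≤ (s - s ^ 2) + (s - s ^ 2) ^ 2 :=
        neg_log_le (by nlinarith) (by nlinarith)
      have h4 : 0 < 1 - (s - s ^ 2) := by nlinarith [sq_nonneg s]
      have h5 : Real.exp (s - s ^ 2) ≤ 1 / (1 - (s - s ^ 2)) := by
        rw [le_div_iff₀ h4]
        have h6 : 1 - (s - s ^ 2) ≤ Real.exp (-(s - s ^ 2)) := by
          have := Real.add_one_le_exp (-(s - s ^ 2))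
          linarith
        calc Real.exp (s - s ^ 2) * (1 - (s - s ^ 2)) ≤
              Real.exp (s - s ^ 2) * Real.exp (-(s - s ^ 2)) :=
              mul_le_mul_of_nonneg_left h6 (Real.exp_pos _).le
          _ = 1 := by rw [← Real.exp_add, add_neg_cancel, Real.exp_zero]
      refine h5.trans ?_
      rw [div_le_iff₀ h4]
      nlinarith [pow_nonneg hs 3, pow_nonneg hs 2]
  have h5 := Real.log_le_log (Real.exp_pos _) h2
  rw [Real.log_exp] at h5
  linarith

/-- **the entropy**: the measure of the sets of small action -/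
theorem entropy_abs {a C δ β₀ : ℝ} (c : ℝ) (ha : 0 < a) (hC : 0 ≤ C) (hδ : 0 < δ) (hδ1 : δ ≤ 1)
    (hβ₀ : 1 ≤ β₀) : ∃ C' β₁ : ℝ, 0 < C' ∧ 1 ≤ β₁ ∧
    ∀ {Ω : Type} [MeasurableSpace Ω] (ν : Measure Ω) [IsProbabilityMeasure ν] (A : Ω → ℝ)
      (_ : Measurable A) (_ : ∀ ω, 0 ≤ A ω) (V L : ℝ) (_ : L ≤ V)
      (_ : ∀ β, β₀ ≤ β → β ≤ L →
        |Real.log (∫ ω, Real.exp (-(β * A ω)) ∂ν) / V - (c - a * Real.log β)| ≤ C * β ^ (-δ))
      (ε : ℝ) (_ : 0 < ε) (_ : ε * β₁ ≤ 1) (_ : β₁ ≤ ε * L),
      |Real.log (ν.real {ω | A ω ≤ ε * V}) / V - (a * Real.log ε + c + a - a * Real.log a)| ≤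
        C' * ε ^ (δ / 2) := by
  set K : ℝ := Real.sqrt (24 * C * a ^ (-δ - 1) + 1) with hK
  have hK1 : 1 ≤ K := by
    rw [hK, Real.one_le_sqrt]
    have : 0 ≤ 24 * C * a ^ (-δ - 1) := by positivity
    linarith
  have hKsq : K ^ 2 = 24 * C * a ^ (-δ - 1) + 1 := Real.sq_sqrt (by positivity)
  set β₁ : ℝ := 1 + 2 * β₀ / a + 4 * a + 16 * Real.log 4 / a + K ^ (2 / δ) with hβ₁
  have hlog4 : 0 < Real.log 4 := Real.log_pos (by norm_num)
  have q1 : 0 < 2 * β₀ / a := by positivity
  have q2 : 0 < 16 * Real.log 4 / a := by positivity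
  have q3 : 0 < K ^ (2 / δ) := by positivity
  have b0 : 1 ≤ β₁ := by rw [hβ₁]; linarith
  have b1 : 2 * β₀ / a ≤ β₁ := by rw [hβ₁]; linarith
  have b2 : 4 * a ≤ β₁ := by rw [hβ₁]; linarith
  have b3 : 16 * Real.log 4 / a ≤ β₁ := by rw [hβ₁]; linarith
  have b4 : K ^ (2 / δ) ≤ β₁ := by rw [hβ₁]; linarith
  refine ⟨2 * a * K + C * a ^ (-δ) + 1, β₁, by positivity, b0, ?_⟩
  intro Ω _ ν _ A hA hA0 V L hLV hp ε hε hεβ hεL
  have hε1 : ε ≤ 1 := by nlinarith
  have hβ₁0 : 0 < β₁ := by linarith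
  have hL0 : 0 < L := by
    by_contra hcon
    push Not at hcon
    nlinarith
  have hV0 : 0 < V := by linarith
  set p : ℝ → ℝ := fun β => Real.log (∫ ω, Real.exp (-(β * A ω)) ∂ν) / V with hpdef
  have hint : ∀ β : ℝ, 0 ≤ β → Integrable (fun ω => Real.exp (-(β * A ω))) ν := by
    intro β hβ
    refine Integrable.of_bound (C := 1) (hA.const_mul β).neg.exp.aestronglyMeasurable
      (Eventually.of_forall fun x => ?_)
    rw [Real.norm_eq_abs, abs_of_pos (Real.exp_pos _), Real.exp_le_one_iff]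
    have := mul_nonneg hβ (hA0 x)
    linarith
  have hZ : ∀ β : ℝ, 0 ≤ β → ∫ ω, Real.exp (-(β * A ω)) ∂ν = Real.exp (V * p β) := by
    intro β hβ
    have h0 : 0 < ∫ ω, Real.exp (-(β * A ω)) ∂ν := integral_exp_pos (hint β hβ)
    rw [hpdef]
    simp only
    rw [mul_div_cancel₀ _ hV0.ne', Real.exp_log h0]
  -- the smallness of `ε`
  set x : ℝ := ε ^ (δ / 2) with hx
  have hx0 : 0 < x := Real.rpow_pos_of_pos hε _
  have hx1 : x ≤ 1 := Real.rpow_le_one hε.le hε1 (by positivity)
  have hxx : x ^ 2 = ε ^ δ := by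
    rw [hx, ← Real.rpow_natCast, ← Real.rpow_mul hε.le]
    congr 1
    push_cast
    ring
  have hεx : ε ≤ x := by
    rw [hx]
    calc ε = ε ^ (1 : ℝ) := (Real.rpow_one ε).symm
      _ ≤ ε ^ (δ / 2) := Real.rpow_le_rpow_of_exponent_ge hε hε1 (by linarith)
  have hεxx : ε ≤ x ^ 2 := by
    rw [hxx]
    calc ε = ε ^ (1 : ℝ) := (Real.rpow_one ε).symm
      _ ≤ ε ^ δ := Real.rpow_le_rpow_of_exponent_ge hε hε1 hδ1
  set η : ℝ := K * x with hη
  have hη0 : 0 < η := by positivity
  have hη1 : η ≤ 1 := by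
    have h1 : K ^ (2 / δ) * ε ≤ 1 := by
      have := mul_le_mul_of_nonneg_right b4 hε.le
      linarith
    have h2 : η ^ (2 / δ) ≤ 1 := by
      rw [hη, Real.mul_rpow (by linarith) hx0.le, hx, ← Real.rpow_mul hε.le]
      have : δ / 2 * (2 / δ) = 1 := by field_simp
      rw [this, Real.rpow_one]
      exact h1
    by_contra hcon
    push Not at hcon
    have := Real.one_lt_rpow hcon (by positivity : 0 < 2 / δ)
    linarith
  -- the powers of `β`
  have hpow : ∀ β : ℝ, a / ε ≤ β → β ^ (-δ) ≤ a ^ (-δ) * x ^ 2 := by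
    intro β hβ
    have h0 : 0 < a / ε := by positivity
    calc β ^ (-δ) ≤ (a / ε) ^ (-δ) := Real.rpow_le_rpow_of_nonpos h0 hβ (by linarith)
      _ = a ^ (-δ) * x ^ 2 := by
        rw [Real.div_rpow ha.le hε.le, Real.rpow_neg hε.le, hxx, div_inv_eq_mul]
  have hεL4 : 4 * a / ε ≤ L := by
    rw [div_le_iff₀ hε]
    linarith
  have hβ0ε : β₀ ≤ a / ε / 2 := by
    have h1 : 2 * β₀ / a * ε ≤ 1 := by
      have := mul_le_mul_of_nonneg_right b1 hε.le
      linarith
    have h2 : 2 * β₀ * ε ≤ a := by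
      have h3 : 2 * β₀ / a * ε = 2 * β₀ * ε / a := by ring
      rw [h3, div_le_one ha] at h1
      exact h1
    rw [div_div, le_div_iff₀ (by positivity)]
    linarith
  have hae : 0 < a / ε := by positivity
  -- the upper bound
  have hsetm : MeasurableSet {ω | A ω ≤ ε * V} := measurableSet_le hA measurable_const
  have hup : ν.real {ω | A ω ≤ ε * V} ≤ Real.exp (V * (a + p (a / ε))) := by
    have h1 : ν.real {ω | A ω ≤ ε * V} = ∫ ω, ({ω | A ω ≤ ε * V}.indicator 1 ω : ℝ) ∂ν := by
      rw [integral_indicator_one hsetm]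
    have h2 : Real.exp (V * (a + p (a / ε))) =
        ∫ ω, Real.exp (V * a) * Real.exp (-(a / ε * A ω)) ∂ν := by
      rw [integral_const_mul, hZ _ hae.le, ← Real.exp_add]
      congr 1
      ring
    rw [h1, h2]
    refine integral_mono_of_nonneg (Eventually.of_forall fun ω => ?_)
      ((hint _ hae.le).const_mul _) (Eventually.of_forall fun ω => ?_)
    · exact Set.indicator_nonneg (fun _ _ => zero_le_one) _
    · by_cases h : A ω ≤ ε * V
      · rw [Set.indicator_of_mem (by exact h), Pi.one_apply]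
        show 1 ≤ Real.exp (V * a) * Real.exp (-(a / ε * A ω))
        rw [← Real.exp_add]
        apply Real.one_le_exp
        have h3 : a / ε * A ω ≤ a / ε * (ε * V) := mul_le_mul_of_nonneg_left h hae.le
        have h4 : a / ε * (ε * V) = V * a := by field_simp
        linarith
      · rw [Set.indicator_of_notMem (by exact h)]
        positivity
  -- the lower bound
  set β : ℝ := a * (1 + η) / ε with hβ
  have hβε : β * ε = a * (1 + η) := by
    rw [hβ]
    field_simp
  have hβge : a / ε ≤ β := by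
    rw [hβ]
    apply div_le_div_of_nonneg_right _ hε.le
    nlinarith
  have hβle : β ≤ 2 * (a / ε) := by
    rw [hβ, ← mul_div_assoc]
    apply div_le_div_of_nonneg_right _ hε.le
    nlinarith
  have hβ0 : 0 < β := by linarith
  set s : ℝ := η / 4 with hs
  have hs0 : 0 < s := by positivity
  have hs1 : s ≤ 1 / 4 := by rw [hs]; linarith
  have haL : 4 * (a / ε) ≤ L := by
    rw [← mul_div_assoc]
    exact hεL4
  have sβ0 : 0 ≤ s * β := by positivity
  have sβ1 : s * β ≤ 1 / 4 * β := mul_le_mul_of_nonneg_right hs1 hβ0.le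
  have e5 : β₀ ≤ β := by linarith
  have e6 : β ≤ L := by linarith
  have e1 : β₀ ≤ (1 - s) * β := by
    have : (1 - s) * β = β - s * β := by ring
    linarith
  have e2 : (1 - s) * β ≤ L := by
    have : (1 - s) * β = β - s * β := by ring
    linarith
  have e3 : β₀ ≤ (1 + s) * β := by
    have : (1 + s) * β = β + s * β := by ring
    linarith
  have e4 : (1 + s) * β ≤ L := by
    have : (1 + s) * β = β + s * β := by ring
    linarith
  have f1 : 0 ≤ (1 - s) * β := by linarith
  have f2 : 0 ≤ (1 + s) * β := by linarith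
  have hpβ := abs_le.1 (hp β e5 e6)
  have hp1 := abs_le.1 (hp ((1 - s) * β) e1 e2)
  have hp2 := abs_le.1 (hp ((1 + s) * β) e3 e4)
  change -(C * β ^ (-δ)) ≤ p β - (c - a * Real.log β) ∧ p β - (c - a * Real.log β) ≤ _ at hpβ
  change _ ≤ p ((1 - s) * β) - _ ∧ p ((1 - s) * β) - _ ≤ _ at hp1
  change _ ≤ p ((1 + s) * β) - _ ∧ p ((1 + s) * β) - _ ≤ _ at hp2
  rw [Real.log_mul (by linarith) hβ0.ne'] at hp1 hp2
  have hw : β ^ (-δ) ≤ a ^ (-δ) * x ^ 2 := hpow β hβge
  have hw0 : 0 ≤ β ^ (-δ) := Real.rpow_nonneg hβ0.le _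
  have hw1 : ((1 - s) * β) ^ (-δ) ≤ 2 * β ^ (-δ) := by
    rw [Real.mul_rpow (by linarith) hβ0.le]
    refine mul_le_mul_of_nonneg_right ?_ hw0
    calc (1 - s) ^ (-δ) ≤ (1 / 2) ^ (-δ) :=
          Real.rpow_le_rpow_of_nonpos (by norm_num) (by linarith) (by linarith)
      _ = 2 ^ δ := by rw [one_div, Real.inv_rpow (by norm_num), Real.rpow_neg (by norm_num),
          inv_inv]
      _ ≤ 2 ^ (1 : ℝ) := Real.rpow_le_rpow_of_exponent_le (by norm_num) hδ1
      _ = 2 := Real.rpow_one 2
  have hw2 : ((1 + s) * β) ^ (-δ) ≤ β ^ (-δ) :=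
    Real.rpow_le_rpow_of_nonpos hβ0 (by linarith [show (1 + s) * β = β + s * β by ring])
      (by linarith)
  have hCw : 3 * C * β ^ (-δ) ≤ a * η ^ 2 / 8 := by
    have h1 : η ^ 2 = (24 * C * a ^ (-δ - 1) + 1) * x ^ 2 := by rw [hη, mul_pow, hKsq]
    have h2 : a * a ^ (-δ - 1) = a ^ (-δ) := by
      rw [Real.rpow_sub ha, Real.rpow_one]
      field_simp
    have h3 : a * η ^ 2 / 8 = 3 * C * (a * a ^ (-δ - 1)) * x ^ 2 + a * x ^ 2 / 8 := by
      rw [h1]
      ring
    rw [h3, h2]
    have h4 := mul_le_mul_of_nonneg_left hw (by positivity : 0 ≤ 3 * C)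
    have h5 : 0 ≤ a * x ^ 2 / 8 := by positivity
    linarith
  have hVη : Real.log 4 ≤ V * (a * η ^ 2 / 16) := by
    have h1 : 16 * Real.log 4 / a ≤ V * x ^ 2 := by
      calc 16 * Real.log 4 / a ≤ β₁ := b3
        _ ≤ ε * L := hεL
        _ ≤ ε * V := mul_le_mul_of_nonneg_left hLV hε.le
        _ ≤ x ^ 2 * V := mul_le_mul_of_nonneg_right hεxx hV0.le
        _ = V * x ^ 2 := mul_comm _ _
    rw [div_le_iff₀ ha] at h1
    have h2 : x ^ 2 ≤ η ^ 2 := by
      rw [hη, mul_pow]
      exact le_mul_of_one_le_left (sq_nonneg x) (one_le_pow₀ hK1)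
    have h3 : V * x ^ 2 * a ≤ V * η ^ 2 * a := by gcongr
    have h4 : V * (a * η ^ 2 / 16) = V * η ^ 2 * a / 16 := by ring
    rw [h4]
    linarith
  have hl1 := neg_log_le hs0.le (by linarith : s ≤ 1 / 2)
  have hl2 := neg_log_le' hs0.le (by linarith : s ≤ 1)
  have hb1 : V * p ((1 - s) * β) - V * (s * (β * ε)) ≤ V * p β - Real.log 4 := by
    have h1 : p ((1 - s) * β) - s * (β * ε) ≤ p β - a * η ^ 2 / 16 := by
      rw [hβε]
      have h2 : p ((1 - s) * β) - p β ≤ a * (s + s ^ 2) + 3 * C * β ^ (-δ) := by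
        have h3 := mul_le_mul_of_nonneg_left hl1 ha.le
        have h4 := mul_le_mul_of_nonneg_left hw1 hC
        have h5 : a * (Real.log (1 - s) + Real.log β) =
            a * Real.log β - a * -Real.log (1 - s) := by ring
        have h6 := hp1.2
        rw [h5] at h6
        linarith [hpβ.1]
      have h5 : s = η / 4 := hs
      have h6 : a * (s + s ^ 2) = a * s + a * η ^ 2 / 16 := by rw [h5]; ring
      have h7 : s * (a * (1 + η)) = a * s + a * η ^ 2 / 4 := by rw [h5]; ring
      rw [h7]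
      rw [h6] at h2
      linarith
    have := mul_le_mul_of_nonneg_left h1 hV0.le
    rw [mul_sub, mul_sub] at this
    linarith
  have hb2 : V * p ((1 + s) * β) + V * (s * (a * (1 - η))) ≤ V * p β - Real.log 4 := by
    have h1 : p ((1 + s) * β) + s * (a * (1 - η)) ≤ p β - a * η ^ 2 / 16 := by
      have h2 : p ((1 + s) * β) - p β ≤ a * (-s + s ^ 2) + 3 * C * β ^ (-δ) := by
        have h3 := mul_le_mul_of_nonneg_left hl2 ha.le
        have h4 := mul_le_mul_of_nonneg_left hw2 hC
        have h5 := mul_nonneg hC hw0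
        have h8 : a * (Real.log (1 + s) + Real.log β) =
            a * Real.log β - a * -Real.log (1 + s) := by ring
        have h6 := hp2.2
        rw [h8] at h6
        linarith [hpβ.1]
      have h5 : s = η / 4 := hs
      have h6 : a * (-s + s ^ 2) = -(a * s) + a * η ^ 2 / 16 := by rw [h5]; ring
      have h7 : s * (a * (1 - η)) = a * s - a * η ^ 2 / 4 := by rw [h5]; ring
      rw [h7]
      rw [h6] at h2
      linarith
    have := mul_le_mul_of_nonneg_left h1 hV0.le
    rw [mul_add, mul_sub] at this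
    linarith
  have hlow : 1 / 2 * Real.exp (V * (p β + a * (1 - η))) ≤ ν.real {ω | A ω ≤ ε * V} := by
    have h1 : ∫ ω, Real.exp (-(β * A ω)) ∂ν ≤
        Real.exp (-(V * (a * (1 - η)))) * ν.real {ω | A ω ≤ ε * V} +
        Real.exp (-(V * (s * (β * ε)))) * Real.exp (V * p ((1 - s) * β)) +
        Real.exp (V * (s * (a * (1 - η)))) * Real.exp (V * p ((1 + s) * β)) := by
      rw [← hZ ((1 - s) * β) f1, ← hZ ((1 + s) * β) f2,
        ← integral_indicator_one hsetm, ← integral_const_mul, ← integral_const_mul,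
        ← integral_const_mul]
      have i1 : Integrable (fun ω => Real.exp (-(V * (a * (1 - η)))) *
          ({ω | A ω ≤ ε * V}.indicator 1 ω : ℝ)) ν :=
        ((integrable_const (1 : ℝ)).indicator hsetm).const_mul _
      have i2 : Integrable (fun ω => Real.exp (-(V * (s * (β * ε)))) *
          Real.exp (-((1 - s) * β * A ω))) ν := (hint _ f1).const_mul _
      have i3 : Integrable (fun ω => Real.exp (V * (s * (a * (1 - η)))) *
          Real.exp (-((1 + s) * β * A ω))) ν := (hint _ f2).const_mul _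
      have i12 : Integrable (fun ω => Real.exp (-(V * (a * (1 - η)))) *
          ({ω | A ω ≤ ε * V}.indicator 1 ω : ℝ) + Real.exp (-(V * (s * (β * ε)))) *
          Real.exp (-((1 - s) * β * A ω))) ν := i1.add i2
      rw [← integral_add i1 i2, ← integral_add i12 i3]
      refine integral_mono (hint β hβ0.le) (i12.add i3) fun ω => ?_
      show Real.exp (-(β * A ω)) ≤ Real.exp (-(V * (a * (1 - η)))) *
          ({ω | A ω ≤ ε * V}.indicator 1 ω : ℝ) + Real.exp (-(V * (s * (β * ε)))) *
          Real.exp (-((1 - s) * β * A ω)) + Real.exp (V * (s * (a * (1 - η)))) *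
          Real.exp (-((1 + s) * β * A ω))
      have n1 : 0 ≤ Real.exp (-(V * (a * (1 - η)))) *
          ({ω | A ω ≤ ε * V}.indicator 1 ω : ℝ) :=
        mul_nonneg (Real.exp_pos _).le (Set.indicator_nonneg (fun _ _ => zero_le_one) _)
      have n2 : 0 ≤ Real.exp (-(V * (s * (β * ε)))) * Real.exp (-((1 - s) * β * A ω)) := by
        positivity
      have n3 : 0 ≤ Real.exp (V * (s * (a * (1 - η)))) * Real.exp (-((1 + s) * β * A ω)) := by
        positivity
      rcases le_or_gt (A ω) (ε * V) with hω | hω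
      · rcases le_or_gt (V * (a * (1 - η))) (β * A ω) with hω2 | hω2
        · have n4 : Real.exp (-(β * A ω)) ≤ Real.exp (-(V * (a * (1 - η)))) *
              ({ω | A ω ≤ ε * V}.indicator 1 ω : ℝ) := by
            rw [Set.indicator_of_mem (by exact hω), Pi.one_apply, mul_one, Real.exp_le_exp]
            linarith
          linarith
        · have n4 : Real.exp (-(β * A ω)) ≤
              Real.exp (V * (s * (a * (1 - η)))) * Real.exp (-((1 + s) * β * A ω)) := by
            rw [← Real.exp_add, Real.exp_le_exp]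
            have n5 := mul_le_mul_of_nonneg_left hω2.le hs0.le
            have n6 : V * (s * (a * (1 - η))) = s * (V * (a * (1 - η))) := by ring
            have n7 : (1 + s) * β * A ω = β * A ω + s * (β * A ω) := by ring
            rw [n6, n7]
            linarith
          linarith
      · have n4 : Real.exp (-(β * A ω)) ≤
            Real.exp (-(V * (s * (β * ε)))) * Real.exp (-((1 - s) * β * A ω)) := by
          rw [← Real.exp_add, Real.exp_le_exp]
          have n5 := mul_le_mul_of_nonneg_left hω.le (mul_nonneg hs0.le hβ0.le)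
          have n6 : V * (s * (β * ε)) = s * β * (ε * V) := by ring
          have n7 : (1 - s) * β * A ω = β * A ω - s * β * A ω := by ring
          rw [n6, n7]
          linarith
        linarith
    rw [hZ β hβ0.le, ← Real.exp_add, ← Real.exp_add] at h1
    have h2 : Real.exp (-(V * (s * (β * ε))) + V * p ((1 - s) * β)) ≤
        Real.exp (V * p β) / 4 := by
      have h3 : Real.exp (V * p β) / 4 = Real.exp (V * p β - Real.log 4) := by
        rw [Real.exp_sub, Real.exp_log (by norm_num)]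
      rw [h3, Real.exp_le_exp]
      linarith
    have h3 : Real.exp (V * (s * (a * (1 - η))) + V * p ((1 + s) * β)) ≤
        Real.exp (V * p β) / 4 := by
      have h3 : Real.exp (V * p β) / 4 = Real.exp (V * p β - Real.log 4) := by
        rw [Real.exp_sub, Real.exp_log (by norm_num)]
      rw [h3, Real.exp_le_exp]
      linarith
    have h4 : 1 / 2 * Real.exp (V * p β) ≤
        Real.exp (-(V * (a * (1 - η)))) * ν.real {ω | A ω ≤ ε * V} := by linarith
    have h5 := mul_le_mul_of_nonneg_left h4 (Real.exp_pos (V * (a * (1 - η)))).le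
    have h6 : Real.exp (V * (a * (1 - η))) * (Real.exp (-(V * (a * (1 - η)))) *
        ν.real {ω | A ω ≤ ε * V}) = ν.real {ω | A ω ≤ ε * V} := by
      rw [← mul_assoc, ← Real.exp_add, add_neg_cancel, Real.exp_zero, one_mul]
    rw [h6] at h5
    refine le_trans (le_of_eq ?_) h5
    rw [mul_add, Real.exp_add]
    ring
  have hpos : 0 < ν.real {ω | A ω ≤ ε * V} := lt_of_lt_of_le (by positivity) hlow
  -- conclusion
  have hlog2 : Real.log 2 ≤ 1 := by
    have := Real.log_two_lt_d9
    linarith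
  have hfin1 : Real.log (ν.real {ω | A ω ≤ ε * V}) / V ≤ a + p (a / ε) := by
    rw [div_le_iff₀ hV0]
    have := Real.log_le_log hpos hup
    rw [Real.log_exp] at this
    linarith
  have hfin2 : p β + a * (1 - η) - Real.log 2 / V ≤ Real.log (ν.real {ω | A ω ≤ ε * V}) / V := by
    rw [le_div_iff₀ hV0]
    have := Real.log_le_log (by positivity) hlow
    rw [Real.log_mul (by norm_num) (Real.exp_pos _).ne', Real.log_exp, one_div,
      Real.log_inv] at this
    have h1 : (p β + a * (1 - η) - Real.log 2 / V) * V =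
        -Real.log 2 + V * (p β + a * (1 - η)) := by
      field_simp
      ring
    rw [h1]
    exact this
  have hlv : Real.log 2 / V ≤ x := by
    rw [div_le_iff₀ hV0]
    have h1 : 1 ≤ ε * V := by
      have := mul_le_mul_of_nonneg_left hLV hε.le
      linarith
    have h2 := mul_le_mul_of_nonneg_right hεx hV0.le
    linarith
  have hpa := abs_le.1 (hp (a / ε) (by linarith) (by linarith))
  change _ ≤ p (a / ε) - _ ∧ p (a / ε) - _ ≤ _ at hpa
  rw [Real.log_div ha.ne' hε.ne'] at hpa
  have hxx2 : x ^ 2 ≤ x := by nlinarith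
  have haδ : 0 ≤ a ^ (-δ) := Real.rpow_nonneg ha.le _
  have herr : ∀ β : ℝ, a / ε ≤ β → C * β ^ (-δ) ≤ C * a ^ (-δ) * x := by
    intro β hβ
    calc C * β ^ (-δ) ≤ C * (a ^ (-δ) * x ^ 2) := mul_le_mul_of_nonneg_left (hpow β hβ) hC
      _ ≤ C * (a ^ (-δ) * x) := by gcongr
      _ = _ := by ring
  have hlogβ : Real.log β ≤ Real.log a + η - Real.log ε := by
    rw [hβ, Real.log_div (by positivity) hε.ne', Real.log_mul ha.ne' (by positivity)]
    have := Real.log_le_sub_one_of_pos (by linarith : 0 < 1 + η)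
    linarith
  rw [abs_le]
  constructor
  · have h1 := herr β hβge
    have h2 := mul_le_mul_of_nonneg_left hlogβ ha.le
    have h3 : a * η = a * K * x := by rw [hη]; ring
    have h4 : a * (Real.log a + η - Real.log ε) =
        a * Real.log a + a * η - a * Real.log ε := by ring
    have h5 : a * (1 - η) = a - a * η := by ring
    have h6 : (2 * a * K + C * a ^ (-δ) + 1) * x = 2 * (a * K * x) + C * a ^ (-δ) * x + x := by
      ring
    rw [h4] at h2
    rw [h5] at hfin2
    rw [h6, ← h3]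
    linarith [hpβ.1]
  · have h1 := herr (a / ε) le_rfl
    have h2 : 0 ≤ 2 * a * K * x := by positivity
    have h6 : (2 * a * K + C * a ^ (-δ) + 1) * x = 2 * a * K * x + C * a ^ (-δ) * x + x := by
      ring
    have h7 : a * (Real.log a - Real.log ε) = a * Real.log a - a * Real.log ε := by ring
    have h8 := hpa.2
    rw [h7] at h8
    rw [h6]
    linarith

end Pool.Agent.X217.YM
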