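import Mathlib

/-!
# Elimination of link variables and gauge fixing
-/

open MeasureTheory
open scoped ENNReal

set_option linter.unusedSectionVars false

namespace Pool.Agent.X217.YM

section resample

variable {E X : Type*} [Fintype E] [DecidableEq E] [MeasurableSpace X]
  (μ : Measure X) [IsProbabilityMeasure μ]

omit [Fintype E] in
theorem measurable_upd (e : E) :
    Measurable fun p : (E → X) × X => Function.update p.1 e p.2 := by
  refine measurable_pi_lambda _ fun k => ?_
  by_cases h : k = e
  · subst h
    simp only [Function.update_self]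
    exact measurable_snd
  · simp only [Function.update_of_ne h]
    exact (measurable_pi_apply k).comp measurable_fst

theorem resample_mp (e : E) :
    MeasurePreserving (fun p : (E → X) × X => Function.update p.1 e p.2)
      ((Measure.pi fun _ : E => μ).prod μ) (Measure.pi fun _ : E => μ) := by
  refine ⟨measurable_upd e, (Measure.pi_eq fun s hs => ?_).symm⟩
  rw [Measure.map_apply (measurable_upd e) (MeasurableSet.univ_pi hs)]
  have h1 : (fun p : (E → X) × X => Function.update p.1 e p.2) ⁻¹' (Set.univ.pi s) =
      (Set.univ.pi (Function.update s e Set.univ)) ×ˢ (s e) := by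
    ext ⟨U, t⟩
    simp only [Set.mem_preimage, Set.mem_pi, Set.mem_univ, forall_true_left, Set.mem_prod]
    constructor
    · intro h
      refine ⟨fun k => ?_, ?_⟩
      · by_cases hk : k = e
        · subst hk; simp
        · have := h k
          rw [Function.update_of_ne hk] at this ⊢
          exact this
      · have := h e
        rwa [Function.update_self] at this
    · rintro ⟨h, h'⟩ k
      by_cases hk : k = e
      · subst hk; rwa [Function.update_self]
      · have := h k
        rw [Function.update_of_ne hk] at this ⊢
        exact this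
  rw [h1, Measure.prod_prod, Measure.pi_pi, ← Finset.mul_prod_erase _ _ (Finset.mem_univ e),
    ← Finset.mul_prod_erase Finset.univ (fun i => μ (s i)) (Finset.mem_univ e),
    Function.update_self, measure_univ, one_mul, mul_comm]
  congr 1
  refine Finset.prod_congr rfl fun k hk => ?_
  rw [Function.update_of_ne (Finset.ne_of_mem_erase hk)]

theorem resample (e : E) {f : (E → X) → ℝ≥0∞} (hf : Measurable f) :
    ∫⁻ U, f U ∂(Measure.pi fun _ : E => μ) =
      ∫⁻ U, ∫⁻ t, f (Function.update U e t) ∂μ ∂(Measure.pi fun _ : E => μ) := by
  rw [← (resample_mp μ e).lintegral_comp hf, lintegral_prod]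
  exact (hf.comp (measurable_upd e)).aemeasurable

theorem resample' (e : E) {f : (E → X) → ℝ≥0∞} (hf : Measurable f) :
    ∫⁻ U, f U ∂(Measure.pi fun _ : E => μ) =
      ∫⁻ t, ∫⁻ U, f (Function.update U e t) ∂(Measure.pi fun _ : E => μ) ∂μ := by
  rw [← (resample_mp μ e).lintegral_comp hf, lintegral_prod_symm]
  exact (hf.comp (measurable_upd e)).aemeasurable

/-- **the elimination lemma** -/
theorem elim (M : Finset E) (ρ : E → ℕ) (f : E → (E → X) → ℝ≥0∞) (g : (E → X) → ℝ≥0∞)
    (hf : ∀ e ∈ M, Measurable (f e)) (hg : Measurable g) (z : ℝ≥0∞)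
    (hz : ∀ e ∈ M, ∀ U, ∫⁻ t, f e (Function.update U e t) ∂μ = z)
    (hind : ∀ e ∈ M, ∀ e' ∈ M, e' ≠ e → ρ e ≤ ρ e' → ∀ U t, f e (Function.update U e' t) = f e U)
    (hgi : ∀ e ∈ M, ∀ U t, g (Function.update U e t) = g U) :
    ∫⁻ U, g U * ∏ e ∈ M, f e U ∂(Measure.pi fun _ : E => μ) =
      (∫⁻ U, g U ∂(Measure.pi fun _ : E => μ)) * z ^ M.card := by
  induction M using Finset.induction_on_max_value ρ with
  | empty => simp
  | insert a s ha hmax ih =>
    have ih' := ih (fun e he => hf e (Finset.mem_insert_of_mem he))
      (fun e he => hz e (Finset.mem_insert_of_mem he))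
      (fun e he e' he' => hind e (Finset.mem_insert_of_mem he) e' (Finset.mem_insert_of_mem he'))
      (fun e he => hgi e (Finset.mem_insert_of_mem he))
    have ham := Finset.mem_insert_self a s
    have hm : Measurable fun U : E → X => g U * ∏ e ∈ insert a s, f e U :=
      hg.mul (Finset.measurable_prod _ fun e he => hf e he)
    rw [resample μ a hm, Finset.card_insert_of_notMem ha, pow_succ, ← mul_assoc, ← ih']
    have h1 : ∀ U : E → X, ∫⁻ t, g (Function.update U a t) *
        ∏ e ∈ insert a s, f e (Function.update U a t) ∂μ = (g U * ∏ e ∈ s, f e U) * z := by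
      intro U
      have h2 : ∀ t, g (Function.update U a t) * ∏ e ∈ insert a s, f e (Function.update U a t) =
          (g U * ∏ e ∈ s, f e U) * f a (Function.update U a t) := by
        intro t
        rw [Finset.prod_insert ha, hgi a ham]
        have h3 : ∏ e ∈ s, f e (Function.update U a t) = ∏ e ∈ s, f e U := by
          refine Finset.prod_congr rfl fun e he => ?_
          exact hind e (Finset.mem_insert_of_mem he) a ham (fun h => ha (h ▸ he)) (hmax e he) U t
        rw [h3]
        ring
      have h4 : Measurable fun t => f a (Function.update U a t) :=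
        (hf a ham).comp (measurable_update U)
      simp only [h2]
      rw [lintegral_const_mul _ h4, hz a ham]
    simp only [h1]
    rw [lintegral_mul_const]
    exact hg.mul (Finset.measurable_prod _ fun e he => hf e (Finset.mem_insert_of_mem he))

end resample

section gauge

variable {E X G : Type*} [Fintype E] [DecidableEq E] [DecidableEq X] [Group G]
  [MeasurableSpace G] [MeasurableMul₂ G] (μ : Measure G) [IsProbabilityMeasure μ]
  [μ.IsMulLeftInvariant] [μ.IsMulRightInvariant] (s t : E → X)

/-- the gauge transformation at a site -/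
def gtr (v : X) (h : G) (U : E → G) : E → G := fun e =>
  (if s e = v then h else 1) * U e * (if t e = v then h⁻¹ else 1)

omit [DecidableEq E] in
theorem gtr_mp (v : X) (h : G) :
    MeasurePreserving (gtr s t v h) (Measure.pi fun _ : E => μ) (Measure.pi fun _ : E => μ) := by
  refine measurePreserving_pi (fun _ : E => μ) (fun _ : E => μ)
    (f := fun e a => (if s e = v then h else 1) * a * (if t e = v then h⁻¹ else 1)) fun e => ?_
  exact (measurePreserving_mul_right μ _).comp (measurePreserving_mul_left μ _)

theorem gauge_step {f : (E → G) → ℝ≥0∞} (hf : Measurable f) {v : X}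
    (hinv : ∀ h U, f (gtr s t v h U) = f U) {e : E} (ht : t e = v) (hs : s e ≠ v) :
    ∫⁻ U, f U ∂(Measure.pi fun _ : E => μ) =
      ∫⁻ U, f (Function.update U e 1) ∂(Measure.pi fun _ : E => μ) := by
  rw [resample' μ e hf]
  have hm : Measurable fun U : E → G => f (Function.update U e 1) := by
    have := measurable_upd (X := G) e
    exact hf.comp (this.comp (measurable_id.prodMk measurable_const))
  have h1 : ∀ τ : G, ∫⁻ U, f (Function.update U e τ) ∂(Measure.pi fun _ : E => μ) =
      ∫⁻ U, f (Function.update U e 1) ∂(Measure.pi fun _ : E => μ) := by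
    intro τ
    rw [← (gtr_mp μ s t v τ).lintegral_comp hm]
    refine lintegral_congr fun U => ?_
    rw [← hinv τ (Function.update U e τ)]
    congr 1
    funext k
    by_cases hk : k = e
    · subst hk
      simp [gtr, ht, hs]
    · simp [gtr, Function.update_of_ne hk]
  simp only [h1]
  simp

/-- the links of `T` are set to one -/
def fix (T : Finset E) (U : E → G) : E → G := fun e => if e ∈ T then 1 else U e

omit [Fintype E] [MeasurableMul₂ G] in
theorem fix_meas (T : Finset E) : Measurable (fix T : (E → G) → E → G) := by
  unfold fix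
  refine measurable_pi_lambda _ fun e => ?_
  split_ifs
  · exact measurable_const
  · exact measurable_pi_apply e

/-- **gauge fixing along a forest** -/
theorem gauge_fix (T : Finset E) (ρ : E → ℕ) (hne : ∀ e ∈ T, s e ≠ t e)
    (hT : ∀ e ∈ T, ∀ e' ∈ T, e' ≠ e → ρ e' ≤ ρ e → s e' ≠ t e ∧ t e' ≠ t e)
    {f : (E → G) → ℝ≥0∞} (hf : Measurable f) (hinv : ∀ v h U, f (gtr s t v h U) = f U) :
    ∫⁻ U, f U ∂(Measure.pi fun _ : E => μ) =
      ∫⁻ U, f (fix T U) ∂(Measure.pi fun _ : E => μ) := by
  induction T using Finset.induction_on_max_value ρ with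
  | empty =>
    refine lintegral_congr fun U => ?_
    congr 1
  | insert a T ha hmax ih =>
    have ih' := ih (fun e he => hne e (Finset.mem_insert_of_mem he))
      (fun e he e' he' => hT e (Finset.mem_insert_of_mem he) e' (Finset.mem_insert_of_mem he'))
    have ham := Finset.mem_insert_self a T
    rw [ih']
    have hm : Measurable fun U : E → G => f (fix T U) := hf.comp (fix_meas T)
    have hg : ∀ h U, f (fix T (gtr s t (t a) h U)) = f (fix T U) := by
      intro h U
      rw [← hinv (t a) h (fix T U)]
      congr 1
      funext e
      by_cases he : e ∈ T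
      · obtain ⟨h1, h2⟩ := hT a ham e (Finset.mem_insert_of_mem he) (fun h => ha (h ▸ he))
          (hmax e he)
        simp [fix, gtr, he, h1, h2]
      · simp [fix, gtr, he]
    rw [gauge_step μ s t hm hg rfl (hne a ham)]
    refine lintegral_congr fun U => ?_
    congr 1
    funext e
    by_cases he : e = a
    · subst he
      simp [fix]
    · by_cases he' : e ∈ T
      · simp [fix, he']
      · simp [fix, he', he, Function.update_of_ne he]

end gauge

end Pool.Agent.X217.YM
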