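import Mathlib
import Pool.Agent.X217.YM.Elim
import Pool.Agent.X217.YM.Lim

/-!
# Upper bound: the plaquettes between the boxes are eliminated
-/

open MeasureTheory
open scoped ENNReal

set_option linter.unusedSectionVars false

namespace Pool.Agent.X217.YM

section vals

variable {d l : ℕ} [NeZero l]

theorem val_one_of {l : ℕ} (h : 1 < l) : (1 : ZMod l).val = 1 := by
  rw [ZMod.val_one_eq_one_mod, Nat.mod_eq_of_lt h]

theorem val_add_one {z : ZMod l} (h : z.val + 1 < l) : (z + 1).val = z.val + 1 := by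
  rw [ZMod.val_add_of_lt (by rw [val_one_of (by omega)]; exact h), val_one_of (by omega)]

theorem val_sub_one {z : ZMod l} (h : 1 ≤ z.val) : (z - 1).val = z.val - 1 := by
  have h2 := ZMod.val_lt z
  have h3 := val_one_of (l := l) (by omega)
  rw [ZMod.val_sub (by rw [h3]; exact h), h3]

theorem sub_same (x : Fin d → ZMod l) {j : Fin d} (h : 1 ≤ (x j).val) :
    ((x - Pi.single j 1 : Fin d → ZMod l) j).val = (x j).val - 1 := by
  rw [Pi.sub_apply, Pi.single_eq_same, val_sub_one h]

theorem sub_ne (x : Fin d → ZMod l) {j k : Fin d} (h : k ≠ j) :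
    (x - Pi.single j 1 : Fin d → ZMod l) k = x k := by
  rw [Pi.sub_apply, Pi.single_eq_of_ne h, sub_zero]

theorem add_ne (x : Fin d → ZMod l) {j k : Fin d} (h : k ≠ j) :
    (x + Pi.single j 1 : Fin d → ZMod l) k = x k := by
  rw [Pi.add_apply, Pi.single_eq_of_ne h, add_zero]

theorem add_same (x : Fin d → ZMod l) (j : Fin d) :
    (x + Pi.single j 1 : Fin d → ZMod l) j = x j + 1 := by
  rw [Pi.add_apply, Pi.single_eq_same]

/-- the height of a site -/
def ht (x : Fin d → ZMod l) : ℕ := ∑ k, (x k).val

theorem ht_sub (x : Fin d → ZMod l) {j : Fin d} (h : 1 ≤ (x j).val) :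
    ht (x - Pi.single j 1) + 1 = ht x := by
  unfold ht
  rw [← Finset.add_sum_erase _ _ (Finset.mem_univ j),
    ← Finset.add_sum_erase Finset.univ (fun k => (x k).val) (Finset.mem_univ j), sub_same x h]
  have : ∑ k ∈ Finset.univ.erase j, ((x - Pi.single j 1 : Fin d → ZMod l) k).val =
      ∑ k ∈ Finset.univ.erase j, (x k).val :=
    Finset.sum_congr rfl fun k hk => by rw [sub_ne x (Finset.ne_of_mem_erase hk)]
  rw [this]
  omega

theorem ht_lt (hd : 0 < d) (x : Fin d → ZMod l) : ht x < d * l := by
  unfold ht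
  have : ∑ k, (x k).val < ∑ _k : Fin d, l := by
    refine Finset.sum_lt_sum_of_nonempty ⟨⟨0, hd⟩, Finset.mem_univ _⟩ fun k _ => ZMod.val_lt _
  simpa using this

end vals

section bactc

variable {H : Type*} (F : H → H → H → H → ℝ) {d m : ℕ} [NeZero m]

/-- the box action only depends on the links of the box -/
theorem bact_congr {V V' : (Fin d → ZMod m) × Fin d → H}
    (h : ∀ y i, (y i).val + 1 < m → V (y, i) = V' (y, i)) : bact F m V = bact F m V' := by
  unfold bact
  refine Finset.sum_congr rfl fun y _ => Finset.sum_congr rfl fun i _ =>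
    Finset.sum_congr rfl fun j _ => ?_
  by_cases hc : i < j ∧ (y i).val + 1 < m ∧ (y j).val + 1 < m
  · rw [if_pos hc, if_pos hc, h y i hc.2.1, h y j hc.2.2,
      h (y + Pi.single i 1) j (by rw [add_ne y hc.1.ne']; exact hc.2.2),
      h (y + Pi.single j 1) i (by rw [add_ne y hc.1.ne]; exact hc.2.1)]
  · rw [if_neg hc, if_neg hc]

end bactc

section match_

variable {d l m q : ℕ} [NeZero l] [NeZero m] (o : Fin d)

/-- the matched links between the boxes -/
def MM (l m : ℕ) [NeZero l] (o : Fin d) : Finset ((Fin d → ZMod l) × Fin d) :=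
  Finset.univ.filter fun e => (e.1 e.2).val % m + 1 = m ∧ (e.1 e.2).val + 1 < l ∧
    ((∃ j, j ≠ e.2 ∧ (e.1 j).val % m ≠ 0) ∨ (e.2 ≠ o ∧ (e.1 o).val ≠ 0))

open Classical in
/-- the second direction of the plaquette of a matched link -/
noncomputable def JJ (m : ℕ) (o : Fin d) (e : (Fin d → ZMod l) × Fin d) : Fin d :=
  if h : ∃ j, j ≠ e.2 ∧ (e.1 j).val % m ≠ 0 then h.choose else o

/-- the rank of a link -/
def rk (o : Fin d) (e : (Fin d → ZMod l) × Fin d) : ℕ := ht e.1 + if e.2 = o then 0 else d * l

omit [NeZero m] in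
theorem JJ_spec {e : (Fin d → ZMod l) × Fin d} (he : e ∈ MM l m o) :
    JJ m o e ≠ e.2 ∧ 1 ≤ (e.1 (JJ m o e)).val ∧
      ((e.1 (JJ m o e)).val % m ≠ 0 ∨ (e.2 ≠ o ∧ JJ m o e = o)) := by
  simp only [MM, Finset.mem_filter, Finset.mem_univ, true_and] at he
  unfold JJ
  split_ifs with h
  · obtain ⟨h1, h2⟩ := h.choose_spec
    refine ⟨h1, ?_, Or.inl h2⟩
    by_contra h3
    have : (e.1 h.choose).val = 0 := by omega
    rw [this] at h2
    simp at h2
  · rcases he.2.2 with h1 | h1
    · exact absurd h1 h
    · exact ⟨fun h => h1.1 h.symm, by have := h1.2; omega, Or.inr ⟨h1.1, rfl⟩⟩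

/-- the base point of the plaquette of a matched link -/
noncomputable def yy (m : ℕ) (o : Fin d) (e : (Fin d → ZMod l) × Fin d) : Fin d → ZMod l :=
  e.1 - Pi.single (JJ m o e) 1

/-- the plaquette of a matched link -/
noncomputable def pp (m : ℕ) (o : Fin d) (e : (Fin d → ZMod l) × Fin d) :
    (Fin d → ZMod l) × Fin d × Fin d := (yy m o e, min e.2 (JJ m o e), max e.2 (JJ m o e))

/-- a matched link of at least the rank of `e` is not another link of the plaquette of `e` -/
theorem not_in {e e' : (Fin d → ZMod l) × Fin d} (he : e ∈ MM l m o) (he' : e' ∈ MM l m o)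
    (hr : rk o e ≤ rk o e') : e' ≠ (yy m o e, e.2) ∧ e' ≠ (yy m o e, JJ m o e) ∧
      e' ≠ (yy m o e + Pi.single e.2 1, JJ m o e) := by
  obtain ⟨h1, h2, h3⟩ := JJ_spec o he
  have hm := NeZero.pos m
  have hd : 0 < d := Fin.pos o
  have h4 : ht (yy m o e) + 1 = ht e.1 := ht_sub _ h2
  refine ⟨?_, ?_, ?_⟩
  · rintro rfl
    unfold rk at hr
    simp only at hr
    omega
  · rintro rfl
    simp only [MM, Finset.mem_filter, Finset.mem_univ, true_and] at he'
    rcases h3 with h3 | ⟨h3, h5⟩
    · have h6 := he'.1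
      unfold yy at h6
      rw [sub_same _ h2] at h6
      set v := (e.1 (JJ m o e)).val
      have h7 : v % m = (v - 1) % m + 1 ∨ v % m = 0 := by
        have e1 : v = (v - 1) + 1 := by omega
        rcases Nat.lt_or_ge ((v - 1) % m + 1) m with h | h
        · left
          conv_lhs => rw [e1]
          rw [Nat.add_mod, Nat.mod_eq_of_lt (show 1 < m by omega), Nat.mod_eq_of_lt h]
        · right
          have : (v - 1) % m + 1 = m := by have := Nat.mod_lt (v - 1) hm; omega
          conv_lhs => rw [e1]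
          rw [← Nat.mod_add_mod, this, Nat.mod_self]
      rcases h7 with h7 | h7
      · have := Nat.mod_lt v hm
        omega
      · exact h3 h7
    · have h6 := ht_lt hd (yy m o e)
      unfold rk at hr
      simp only [if_neg h3, h5, if_true] at hr
      omega
  · intro heq
    rw [heq] at he' hr
    simp only [MM, Finset.mem_filter, Finset.mem_univ, true_and] at he'
    rcases h3 with h3 | ⟨h3, h5⟩
    · have h6 := he'.1
      rw [add_ne _ h1] at h6
      unfold yy at h6
      rw [sub_same _ h2] at h6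
      set v := (e.1 (JJ m o e)).val
      have h7 : v % m = (v - 1) % m + 1 ∨ v % m = 0 := by
        have e1 : v = (v - 1) + 1 := by omega
        rcases Nat.lt_or_ge ((v - 1) % m + 1) m with h | h
        · left
          conv_lhs => rw [e1]
          rw [Nat.add_mod, Nat.mod_eq_of_lt (show 1 < m by omega), Nat.mod_eq_of_lt h]
        · right
          have : (v - 1) % m + 1 = m := by have := Nat.mod_lt (v - 1) hm; omega
          conv_lhs => rw [e1]
          rw [← Nat.mod_add_mod, this, Nat.mod_self]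
      rcases h7 with h7 | h7
      · have := Nat.mod_lt v hm
        omega
      · exact h3 h7
    · have h6 := ht_lt hd (yy m o e + Pi.single e.2 1)
      unfold rk at hr
      simp only [if_neg h3, h5, if_true] at hr
      omega

theorem pp_inj {e e' : (Fin d → ZMod l) × Fin d} (he : e ∈ MM l m o) (he' : e' ∈ MM l m o)
    (h : pp m o e = pp m o e') : e = e' := by
  -- both links are the link of the largest rank of the plaquette
  have key : ∀ e e' : (Fin d → ZMod l) × Fin d, e ∈ MM l m o → e' ∈ MM l m o →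
      pp m o e = pp m o e' → e ≠ e' → rk o e' < rk o e := by
    intro e e' he he' h hne
    by_contra hr
    obtain ⟨h1, h2, h3⟩ := not_in o he he' (not_lt.1 hr)
    obtain ⟨k1, k2, k3⟩ := JJ_spec o he
    obtain ⟨k1', k2', k3'⟩ := JJ_spec o he'
    have e1 : yy m o e = yy m o e' := congrArg Prod.fst h
    have e2 : min e.2 (JJ m o e) = min e'.2 (JJ m o e') := congrArg (fun t => t.2.1) h
    have e3 : max e.2 (JJ m o e) = max e'.2 (JJ m o e') := congrArg (fun t => t.2.2) h
    have e4 : e.1 = yy m o e + Pi.single (JJ m o e) 1 := by unfold yy; simp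
    have e5 : e'.1 = yy m o e' + Pi.single (JJ m o e') 1 := by unfold yy; simp
    have e6 : (e.2 = e'.2 ∧ JJ m o e = JJ m o e') ∨ (e.2 = JJ m o e' ∧ JJ m o e = e'.2) := by
      rcases lt_or_gt_of_ne k1 with a | a <;> rcases lt_or_gt_of_ne k1' with b | b
      · rw [min_eq_right a.le, min_eq_right b.le] at e2
        rw [max_eq_left a.le, max_eq_left b.le] at e3
        exact Or.inl ⟨e3, e2⟩
      · rw [min_eq_right a.le, min_eq_left b.le] at e2
        rw [max_eq_left a.le, max_eq_right b.le] at e3
        exact Or.inr ⟨e3, e2⟩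
      · rw [min_eq_left a.le, min_eq_right b.le] at e2
        rw [max_eq_right a.le, max_eq_left b.le] at e3
        exact Or.inr ⟨e2, e3⟩
      · rw [min_eq_left a.le, min_eq_left b.le] at e2
        rw [max_eq_right a.le, max_eq_right b.le] at e3
        exact Or.inl ⟨e2, e3⟩
    rcases e6 with ⟨a, b⟩ | ⟨a, b⟩
    · exact hne (Prod.ext (by rw [e4, e5, e1, b]) a)
    · apply h3
      refine Prod.ext ?_ b.symm
      rw [e5, ← e1, ← a]
  by_contra hne
  exact lt_asymm (key e e' he he' h hne) (key e' e he' he h.symm (Ne.symm hne))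

end match_

end Pool.Agent.X217.YM
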