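import Mathlib
import Pool.Agent.X217.YM.Upper

/-!
# The number of the matched links
-/

set_option linter.unusedSectionVars false

namespace Pool.Agent.X217.YM

theorem card_filter_snd {A B : Type*} [Fintype A] [Fintype B] (P : A × B → Prop)
    [DecidablePred P] : (Finset.univ.filter P).card =
      ∑ b, (Finset.univ.filter fun a => P (a, b)).card := by
  simp only [Finset.card_filter]
  rw [Fintype.sum_prod_type_right]

theorem prod_one_coord {d : ℕ} (i : Fin d) (a b : ℕ) :
    ∏ k : Fin d, (if k = i then a else b) = a * b ^ (d - 1) := by
  rw [← Finset.mul_prod_erase _ _ (Finset.mem_univ i), if_pos rfl]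
  congr 1
  rw [Finset.prod_congr rfl fun k hk => if_neg (Finset.ne_of_mem_erase hk), Finset.prod_const,
    Finset.card_erase_of_mem (Finset.mem_univ i), Finset.card_univ, Fintype.card_fin]

theorem card_one_coord {d l : ℕ} [NeZero l] (i : Fin d) (C : Finset (ZMod l)) :
    (Finset.univ.filter fun x : Fin d → ZMod l => x i ∈ C).card = C.card * l ^ (d - 1) := by
  classical
  have h1 : (Finset.univ.filter fun x : Fin d → ZMod l => x i ∈ C) =
      Fintype.piFinset fun k => if k = i then C else Finset.univ := by
    ext x
    simp only [Finset.mem_filter, Finset.mem_univ, true_and, Fintype.mem_piFinset]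
    constructor
    · intro h k
      split_ifs with hk
      · rw [hk]; exact h
      · exact Finset.mem_univ _
    · intro h
      have := h i
      rwa [if_pos rfl] at this
  rw [h1, Fintype.card_piFinset, ← prod_one_coord i]
  refine Finset.prod_congr rfl fun k _ => ?_
  split_ifs
  · rfl
  · rw [Finset.card_univ, ZMod.card]

section

variable {l m q : ℕ} [NeZero l] [NeZero m]

theorem card_C_ge (hq : q * m = l) :
    q ≤ (Finset.univ.filter fun z : ZMod l => z.val % m + 1 = m).card := by
  have hm := NeZero.pos m
  have hlt : ∀ b : Fin q, (b : ℕ) * m + (m - 1) < l := by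
    intro b
    have h2 : ((b : ℕ) + 1) * m ≤ q * m := Nat.mul_le_mul_right _ b.2
    have h3 : ((b : ℕ) + 1) * m = (b : ℕ) * m + m := by ring
    omega
  have h1 : (Finset.univ : Finset (Fin q)).card ≤
      (Finset.univ.filter fun z : ZMod l => z.val % m + 1 = m).card := by
    refine Finset.card_le_card_of_injOn (fun b => (((b : ℕ) * m + (m - 1) : ℕ) : ZMod l)) ?_ ?_
    · intro b _
      simp only [Finset.coe_filter, Finset.mem_univ, true_and, Set.mem_ofPred_eq]
      rw [ZMod.val_natCast_of_lt (hlt b), Nat.mul_add_mod', Nat.mod_eq_of_lt (by omega)]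
      omega
    · intro b _ b' _ h
      have := congrArg ZMod.val h
      rw [ZMod.val_natCast_of_lt (hlt b), ZMod.val_natCast_of_lt (hlt b')] at this
      have h4 : (b : ℕ) * m = b' * m := by omega
      exact Fin.ext (Nat.eq_of_mul_eq_mul_right hm h4)
  simpa using h1

theorem card_res_le (hq : q * m = l) (r : ℕ) :
    (Finset.univ.filter fun z : ZMod l => z.val % m = r).card ≤ q := by
  have hm := NeZero.pos m
  have h1 : (Finset.univ.filter fun z : ZMod l => z.val % m = r).card ≤ (Finset.range q).card := by
    refine Finset.card_le_card_of_injOn (fun z => z.val / m) ?_ ?_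
    · intro z _
      simp only [Finset.coe_range, Set.mem_Iio]
      rw [Nat.div_lt_iff_lt_mul hm, hq]
      exact ZMod.val_lt z
    · intro z hz z' hz' h
      simp only [Finset.coe_filter, Finset.mem_univ, true_and, Set.mem_ofPred_eq] at hz hz'
      simp only at h
      refine ZMod.val_injective _ ?_
      rw [← Nat.div_add_mod z.val m, ← Nat.div_add_mod z'.val m, h, hz, hz']
  simpa using h1

theorem card_C_le (hq : q * m = l) :
    (Finset.univ.filter fun z : ZMod l => z.val % m + 1 = m).card ≤ q := by
  refine le_trans (Finset.card_le_card fun z hz => ?_) (card_res_le hq (m - 1))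
  simp only [Finset.mem_filter, Finset.mem_univ, true_and] at hz ⊢
  omega

variable {d : ℕ} (o : Fin d)

/-- **the number of the matched links** -/
theorem card_MM (hq : q * m = l) :
    d * (q * l ^ (d - 1)) ≤ (MM l m o).card + d * l ^ (d - 1) + (q ^ d + d * q ^ (d - 1)) := by
  classical
  have hm := NeZero.pos m
  have hl := NeZero.pos l
  have hq1 : 1 ≤ q := by
    rcases Nat.eq_zero_or_pos q with h | h
    · rw [h, zero_mul] at hq; omega
    · exact h
  let Call : Finset ((Fin d → ZMod l) × Fin d) :=
    Finset.univ.filter fun e => (e.1 e.2).val % m + 1 = m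
  let B1 : Finset ((Fin d → ZMod l) × Fin d) :=
    Finset.univ.filter fun e => (e.1 e.2).val + 1 = l
  let B2 : Finset ((Fin d → ZMod l) × Fin d) :=
    Finset.univ.filter fun e => (e.1 e.2).val % m + 1 = m ∧
      (∀ j, j ≠ e.2 → (e.1 j).val % m = 0) ∧ (e.2 = o ∨ (e.1 o).val = 0)
  have h1 : Call ⊆ MM l m o ∪ B1 ∪ B2 := by
    intro e he
    simp only [Call, B1, B2, MM, Finset.mem_union, Finset.mem_filter, Finset.mem_univ,
      true_and] at he ⊢
    by_cases c1 : (e.1 e.2).val + 1 < l
    · by_cases c2 : ∃ j, j ≠ e.2 ∧ (e.1 j).val % m ≠ 0
      · exact Or.inl (Or.inl ⟨he, c1, Or.inl c2⟩)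
      · by_cases c3 : e.2 ≠ o ∧ (e.1 o).val ≠ 0
        · exact Or.inl (Or.inl ⟨he, c1, Or.inr c3⟩)
        · right
          push Not at c2 c3
          refine ⟨he, c2, ?_⟩
          by_cases c4 : e.2 = o
          · exact Or.inl c4
          · exact Or.inr (c3 c4)
    · have := ZMod.val_lt (e.1 e.2)
      exact Or.inl (Or.inr (by omega))
  have h2 : Call.card ≤ (MM l m o).card + B1.card + B2.card :=
    (Finset.card_le_card h1).trans ((Finset.card_union_le _ _).trans
      (Nat.add_le_add_right (Finset.card_union_le _ _) _))
  have h3 : d * (q * l ^ (d - 1)) ≤ Call.card := by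
    simp only [Call]
    rw [card_filter_snd]
    have : ∀ i : Fin d, q * l ^ (d - 1) ≤
        (Finset.univ.filter fun x : Fin d → ZMod l => (x i).val % m + 1 = m).card := by
      intro i
      have e1 : (Finset.univ.filter fun x : Fin d → ZMod l => (x i).val % m + 1 = m) =
          Finset.univ.filter fun x : Fin d → ZMod l =>
            x i ∈ Finset.univ.filter fun z : ZMod l => z.val % m + 1 = m := by
        ext x; simp
      rw [e1, card_one_coord]
      exact Nat.mul_le_mul_right _ (card_C_ge hq)
    calc d * (q * l ^ (d - 1)) = ∑ _i : Fin d, q * l ^ (d - 1) := by simp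
      _ ≤ _ := Finset.sum_le_sum fun i _ => this i
  have h4 : B1.card ≤ d * l ^ (d - 1) := by
    simp only [B1]
    rw [card_filter_snd]
    have : ∀ i : Fin d, (Finset.univ.filter fun x : Fin d → ZMod l => (x i).val + 1 = l).card ≤
        l ^ (d - 1) := by
      intro i
      have e1 : (Finset.univ.filter fun x : Fin d → ZMod l => (x i).val + 1 = l) =
          Finset.univ.filter fun x : Fin d → ZMod l =>
            x i ∈ Finset.univ.filter fun z : ZMod l => z.val + 1 = l := by
        ext x; simp
      rw [e1, card_one_coord]
      have : (Finset.univ.filter fun z : ZMod l => z.val + 1 = l).card ≤ 1 := by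
        rw [Finset.card_le_one]
        intro a ha b hb
        simp only [Finset.mem_filter, Finset.mem_univ, true_and] at ha hb
        exact ZMod.val_injective _ (by omega)
      calc _ ≤ 1 * l ^ (d - 1) := Nat.mul_le_mul_right _ this
        _ = _ := one_mul _
    calc _ ≤ ∑ _i : Fin d, l ^ (d - 1) := Finset.sum_le_sum fun i _ => this i
      _ = _ := by simp
  have h5 : B2.card ≤ q ^ d + d * q ^ (d - 1) := by
    simp only [B2]
    rw [card_filter_snd]
    have : ∀ i : Fin d, (Finset.univ.filter fun x : Fin d → ZMod l => (x i).val % m + 1 = m ∧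
        (∀ j, j ≠ i → (x j).val % m = 0) ∧ (i = o ∨ (x o).val = 0)).card ≤
        if i = o then q ^ d else q ^ (d - 1) := by
      intro i
      let C : Finset (ZMod l) := Finset.univ.filter fun z => z.val % m + 1 = m
      let D : Finset (ZMod l) := Finset.univ.filter fun z => z.val % m = 0
      let Z : Finset (ZMod l) := Finset.univ.filter fun z => z.val = 0
      have hC : C.card ≤ q := card_C_le hq
      have hD : D.card ≤ q := card_res_le hq 0
      have hZ : Z.card ≤ 1 := by
        rw [Finset.card_le_one]
        intro a ha b hb
        simp only [Z, Finset.mem_filter, Finset.mem_univ, true_and] at ha hb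
        exact ZMod.val_injective _ (by omega)
      have hsub : (Finset.univ.filter fun x : Fin d → ZMod l => (x i).val % m + 1 = m ∧
          (∀ j, j ≠ i → (x j).val % m = 0) ∧ (i = o ∨ (x o).val = 0)) ⊆
          Fintype.piFinset fun k => if k = i then C else if k = o then Z else D := by
        intro x hx
        simp only [Finset.mem_filter, Finset.mem_univ, true_and] at hx
        rw [Fintype.mem_piFinset]
        intro k
        split_ifs with a b
        · rw [a]; simp only [C, Finset.mem_filter, Finset.mem_univ, true_and]; exact hx.1
        · simp only [Z, Finset.mem_filter, Finset.mem_univ, true_and]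
          rcases hx.2.2 with h | h
          · exact absurd (b.trans h.symm) a
          · rw [b]; exact h
        · simp only [D, Finset.mem_filter, Finset.mem_univ, true_and]
          exact hx.2.1 k a
      refine (Finset.card_le_card hsub).trans ?_
      rw [Fintype.card_piFinset]
      split_ifs with ho
      · calc _ ≤ ∏ _k : Fin d, q := by
              refine Finset.prod_le_prod' fun k _ => ?_
              split_ifs with a b
              · exact hC
              · exact absurd (b.trans ho.symm) a
              · exact hD
          _ = _ := by simp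
      · calc _ ≤ ∏ k : Fin d, (if k = o then 1 else q) := by
              refine Finset.prod_le_prod' fun k _ => ?_
              split_ifs with a b b
              · exact absurd (a.symm.trans b) ho
              · exact hC
              · exact hZ
              · exact hD
          _ = _ := by rw [prod_one_coord, one_mul]
    calc _ ≤ ∑ i : Fin d, (if i = o then q ^ d else q ^ (d - 1)) :=
          Finset.sum_le_sum fun i _ => this i
      _ ≤ ∑ i : Fin d, ((if i = o then q ^ d else 0) + q ^ (d - 1)) := by
          refine Finset.sum_le_sum fun i _ => ?_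
          split_ifs <;> omega
      _ = _ := by
          rw [Finset.sum_add_distrib]
          simp
  omega

end

end Pool.Agent.X217.YM
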