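import Mathlib
import Pool.Agent.X217.YM.Upper

/-!
# Upper bound: comparison of the partition functions
-/

open MeasureTheory
open scoped ENNReal

set_option linter.unusedSectionVars false

namespace Pool.Agent.X217.YM

section

variable {H : Type*} (F : H → H → H → H → ℝ) {d l m q : ℕ} [NeZero l] [NeZero m] (o : Fin d)

/-- the energy of a plaquette of the box -/
def fpl (l : ℕ) [NeZero l] (U : (Fin d → ZMod l) × Fin d → H)
    (t : (Fin d → ZMod l) × Fin d × Fin d) : ℝ :=
  if t.2.1 < t.2.2 ∧ (t.1 t.2.1).val + 1 < l ∧ (t.1 t.2.2).val + 1 < l then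
    F (U (t.1, t.2.1)) (U (t.1 + Pi.single t.2.1 1, t.2.2)) (U (t.1 + Pi.single t.2.2 1, t.2.1))
      (U (t.1, t.2.2)) else 0

theorem bact_eq_sum (U : (Fin d → ZMod l) × Fin d → H) : bact F l U = ∑ t, fpl F l U t := by
  rw [Fintype.sum_prod_type]
  simp only [Fintype.sum_prod_type, bact, fpl]

/-- the energy of the plaquette of a matched link -/
noncomputable def fe (m : ℕ) (e : (Fin d → ZMod l) × Fin d) (U : (Fin d → ZMod l) × Fin d → H) :
    ℝ :=
  F (U (yy m o e, min e.2 (JJ m o e)))
    (U (yy m o e + Pi.single (min e.2 (JJ m o e)) 1, max e.2 (JJ m o e)))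
    (U (yy m o e + Pi.single (max e.2 (JJ m o e)) 1, min e.2 (JJ m o e)))
    (U (yy m o e, max e.2 (JJ m o e)))

theorem fpl_pp {e : (Fin d → ZMod l) × Fin d} (he : e ∈ MM l m o)
    (U : (Fin d → ZMod l) × Fin d → H) : fpl F l U (pp m o e) = fe F o m e U := by
  obtain ⟨h1, h2, h3⟩ := JJ_spec o he
  simp only [MM, Finset.mem_filter, Finset.mem_univ, true_and] at he
  have c1 : ((yy m o e) e.2).val + 1 < l := by
    unfold yy
    rw [sub_ne _ h1.symm]
    exact he.2.1
  have c2 : ((yy m o e) (JJ m o e)).val + 1 < l := by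
    unfold yy
    rw [sub_same _ h2]
    have := ZMod.val_lt (e.1 (JJ m o e))
    omega
  unfold fpl pp
  rw [if_pos]
  · rfl
  · simp only
    refine ⟨?_, ?_, ?_⟩
    · rcases lt_or_gt_of_ne h1 with a | a
      · rw [min_eq_right a.le, max_eq_left a.le]; exact a
      · rw [min_eq_left a.le, max_eq_right a.le]; exact a
    · rcases min_choice e.2 (JJ m o e) with a | a <;> rw [a] <;> assumption
    · rcases max_choice e.2 (JJ m o e) with a | a <;> rw [a] <;> assumption

/-- the box action bounds the actions of the small boxes and of the matched plaquettes -/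
theorem bact_ge (hq : q * m = l) (h0 : ∀ a b c e, 0 ≤ F a b c e)
    (U : (Fin d → ZMod l) × Fin d → H) :
    ∑ b : Fin d → Fin q, bact F m (fun e => U (blk l (b, e.1), e.2)) +
      ∑ e ∈ MM l m o, fe F o m e U ≤ bact F l U := by
  classical
  let e' : ((Fin d → Fin q) × (Fin d → ZMod m)) × Fin d × Fin d →
      (Fin d → ZMod l) × Fin d × Fin d := fun s => (blk l s.1, s.2)
  have he : Function.Injective e' := by
    rintro ⟨p, s⟩ ⟨p', s'⟩ h
    have e1 : blk l p = blk l p' := congrArg Prod.fst h
    have e2 : s = s' := congrArg Prod.snd h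
    rw [blk_inj hq.le e1, e2]
  let P : ((Fin d → Fin q) × (Fin d → ZMod m)) × Fin d × Fin d → Prop := fun s =>
    (s.1.2 s.2.1).val + 1 < m ∧ (s.1.2 s.2.2).val + 1 < m
  let A : Finset ((Fin d → ZMod l) × Fin d × Fin d) := (Finset.univ.filter P).image e'
  let Bf : Finset ((Fin d → ZMod l) × Fin d × Fin d) := (MM l m o).image (pp m o)
  have hf0 : ∀ t, 0 ≤ fpl F l U t := by
    intro t
    unfold fpl
    split_ifs
    · exact h0 _ _ _ _
    · exact le_rfl
  have hdisj : Disjoint A Bf := by
    rw [Finset.disjoint_left]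
    intro t hA hB
    simp only [A, Bf, Finset.mem_image, Finset.mem_filter, Finset.mem_univ, true_and] at hA hB
    obtain ⟨s, hs, rfl⟩ := hA
    obtain ⟨e, heM, hee⟩ := hB
    obtain ⟨h1, h2, h3⟩ := JJ_spec o heM
    simp only [MM, Finset.mem_filter, Finset.mem_univ, true_and] at heM
    have e1 : yy m o e = blk l s.1 := congrArg Prod.fst hee
    have e2 : min e.2 (JJ m o e) = s.2.1 := congrArg (fun t => t.2.1) hee
    have e3 : max e.2 (JJ m o e) = s.2.2 := congrArg (fun t => t.2.2) hee
    have e4 : ((yy m o e) e.2).val % m + 1 = m := by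
      unfold yy
      rw [sub_ne _ h1.symm]
      exact heM.1
    rw [e1, blk_val hq.le, Nat.mul_add_mod', Nat.mod_eq_of_lt (ZMod.val_lt _)] at e4
    have e5 : e.2 = s.2.1 ∨ e.2 = s.2.2 := by
      rcases lt_or_gt_of_ne h1 with a | a
      · rw [max_eq_left a.le] at e3; exact Or.inr e3
      · rw [min_eq_left a.le] at e2; exact Or.inl e2
    rcases e5 with e5 | e5
    · rw [e5] at e4; have := hs.1; omega
    · rw [e5] at e4; have := hs.2; omega
  have e2 : ∑ t ∈ A, fpl F l U t =
      ∑ b : Fin d → Fin q, bact F m (fun e => U (blk l (b, e.1), e.2)) := by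
    rw [Finset.sum_image fun a _ b _ h => he h, Finset.sum_filter, Fintype.sum_prod_type,
      Fintype.sum_prod_type]
    refine Finset.sum_congr rfl fun b _ => ?_
    unfold bact
    refine Finset.sum_congr rfl fun y _ => ?_
    rw [Fintype.sum_prod_type]
    refine Finset.sum_congr rfl fun i _ => Finset.sum_congr rfl fun j _ => ?_
    simp only [P, e']
    by_cases hP : (y i).val + 1 < m ∧ (y j).val + 1 < m
    · rw [if_pos hP]
      unfold fpl
      by_cases hij : i < j
      · have w : ∀ k, (y k).val + 1 < m → ((blk l (b, y) : Fin d → ZMod l) k).val + 1 < l := by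
          intro k hk
          rw [blk_val hq.le]
          have h2 : ((b k : ℕ) + 1) * m ≤ q * m := Nat.mul_le_mul_right _ (b k).2
          have h3 : ((b k : ℕ) + 1) * m = (b k : ℕ) * m + m := by ring
          simp only
          omega
        rw [if_pos ⟨hij, w i hP.1, w j hP.2⟩, if_pos ⟨hij, hP⟩, blk_step b y i hP.1,
          blk_step b y j hP.2]
      · rw [if_neg (fun h => hij h.1), if_neg (fun h => hij h.1)]
    · rw [if_neg hP, if_neg (fun h => hP h.2)]
  have e3 : ∑ t ∈ Bf, fpl F l U t = ∑ e ∈ MM l m o, fe F o m e U := by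
    rw [Finset.sum_image fun a ha b hb h => pp_inj o ha hb h]
    exact Finset.sum_congr rfl fun e he => fpl_pp F o he U
  rw [← e2, ← e3, ← Finset.sum_union hdisj, bact_eq_sum]
  exact Finset.sum_le_sum_of_subset_of_nonneg (Finset.subset_univ _) fun t _ _ => hf0 t

theorem fe_upd {e e' : (Fin d → ZMod l) × Fin d} (he : e ∈ MM l m o) (he' : e' ∈ MM l m o)
    (hne : e' ≠ e) (hr : rk o e ≤ rk o e') (U : (Fin d → ZMod l) × Fin d → H) (t : H) :
    fe F o m e (Function.update U e' t) = fe F o m e U := by
  obtain ⟨h1, h2, h3⟩ := not_in o he he' hr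
  obtain ⟨k1, k2, k3⟩ := JJ_spec o he
  have h4 : e' ≠ (yy m o e + Pi.single (JJ m o e) 1, e.2) := by
    intro h
    apply hne
    rw [h]
    refine Prod.ext ?_ rfl
    show yy m o e + Pi.single (JJ m o e) 1 = e.1
    unfold yy
    simp
  unfold fe
  rcases lt_or_gt_of_ne k1 with a | a
  · rw [min_eq_right a.le, max_eq_left a.le, Function.update_of_ne h2.symm,
      Function.update_of_ne h4.symm, Function.update_of_ne h3.symm, Function.update_of_ne h1.symm]
  · rw [min_eq_left a.le, max_eq_right a.le, Function.update_of_ne h1.symm,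
      Function.update_of_ne h3.symm, Function.update_of_ne h4.symm, Function.update_of_ne h2.symm]

/-- the energy of the plaquette as a function of the matched link -/
theorem fe_self {e : (Fin d → ZMod l) × Fin d} (he : e ∈ MM l m o)
    (U : (Fin d → ZMod l) × Fin d → H) : ∃ a b c : H,
    (∀ t, fe F o m e (Function.update U e t) = F a b t c) ∨
    (∀ t, fe F o m e (Function.update U e t) = F a t b c) := by
  obtain ⟨k1, k2, k3⟩ := JJ_spec o he
  have hy : yy m o e ≠ e.1 := by
    intro h
    have := congrArg (fun f => (f (JJ m o e)).val) h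
    simp only [yy, sub_same _ k2] at this
    omega
  have h1 : (yy m o e, e.2) ≠ e := fun h => hy (congrArg Prod.fst h)
  have h2 : ∀ x, (x, JJ m o e) ≠ e := fun x h => k1 (congrArg Prod.snd h)
  have h4 : (yy m o e + Pi.single (JJ m o e) 1, e.2) = e := by
    refine Prod.ext ?_ rfl
    show yy m o e + Pi.single (JJ m o e) 1 = e.1
    unfold yy
    simp
  unfold fe
  rcases lt_or_gt_of_ne k1 with a | a
  · refine ⟨U (yy m o e, JJ m o e), U (yy m o e + Pi.single e.2 1, JJ m o e), U (yy m o e, e.2),
      Or.inr fun t => ?_⟩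
    rw [min_eq_right a.le, max_eq_left a.le, h4, Function.update_self,
      Function.update_of_ne (h2 _), Function.update_of_ne (h2 _), Function.update_of_ne h1]
  · refine ⟨U (yy m o e, e.2), U (yy m o e + Pi.single e.2 1, JJ m o e), U (yy m o e, JJ m o e),
      Or.inl fun t => ?_⟩
    rw [min_eq_left a.le, max_eq_right a.le, h4, Function.update_self,
      Function.update_of_ne (h2 _), Function.update_of_ne (h2 _), Function.update_of_ne h1]

end

section

variable {H : Type*} [TopologicalSpace H] [SecondCountableTopology H] [MeasurableSpace H]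
  [BorelSpace H] (μ : Measure H) [IsProbabilityMeasure μ] {F : H → H → H → H → ℝ}
  {d l m q : ℕ} [NeZero l] [NeZero m] (o : Fin d)

theorem fe_cont (hF : Continuous fun p : H × H × H × H => F p.1 p.2.1 p.2.2.1 p.2.2.2)
    (e : (Fin d → ZMod l) × Fin d) : Continuous (fe F o m e) := by
  unfold fe
  exact hF.comp (f := fun U : (Fin d → ZMod l) × Fin d → H =>
    (U (yy m o e, min e.2 (JJ m o e)),
      U (yy m o e + Pi.single (min e.2 (JJ m o e)) 1, max e.2 (JJ m o e)),
      U (yy m o e + Pi.single (max e.2 (JJ m o e)) 1, min e.2 (JJ m o e)),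
      U (yy m o e, max e.2 (JJ m o e)))) (by fun_prop)

/-- **the upper bound of the partition function** -/
theorem upper (hq : q * m = l) (h0 : ∀ a b c e, 0 ≤ F a b c e)
    (hF : Continuous fun p : H × H × H × H => F p.1 p.2.1 p.2.2.1 p.2.2.2) {β : ℝ} (hβ : 0 ≤ β)
    {z : ℝ} (hz0 : 0 ≤ z)
    (hz1 : ∀ a b c, ∫⁻ t, ENNReal.ofReal (Real.exp (-(β * F a b t c))) ∂μ = ENNReal.ofReal z)
    (hz2 : ∀ a b c, ∫⁻ t, ENNReal.ofReal (Real.exp (-(β * F a t b c))) ∂μ = ENNReal.ofReal z) :
    Zb μ F d l β ≤ Zb μ F d m β ^ q ^ d * z ^ (MM l m o).card := by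
  classical
  have hbm : Measurable (bact F m : ((Fin d → ZMod m) × Fin d → H) → ℝ) := (bact_cont hF).measurable
  have hbl : Measurable (bact F l : ((Fin d → ZMod l) × Fin d → H) → ℝ) := (bact_cont hF).measurable
  let g : (Fin d → Fin q) × ((Fin d → ZMod m) × Fin d) → (Fin d → ZMod l) × Fin d :=
    fun p => (blk l (p.1, p.2.1), p.2.2)
  have hg : Function.Injective g := by
    rintro ⟨b, y, i⟩ ⟨b', y', i'⟩ h
    have e1 := blk_inj hq.le (congrArg Prod.fst h)
    have e2 : i = i' := congrArg Prod.snd h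
    simp only [Prod.mk.injEq] at e1
    rw [e1.1, e1.2, e2]
  let A : ((Fin d → ZMod l) × Fin d → H) → ℝ := fun U =>
    ∑ b : Fin d → Fin q, bact F m (fun e => U (g (b, e)))
  have hAm : Measurable A := Finset.measurable_sum _ fun b _ => hbm.comp (by fun_prop)
  have hA0 : ∀ U, 0 ≤ A U := fun U => Finset.sum_nonneg fun b _ => bact_nonneg h0 _
  have e1 : ∫ U, Real.exp (-(β * A U)) ∂(Measure.pi fun _ => μ) = Zb μ F d m β ^ q ^ d := by
    have := integral_blocks μ g hg (fun V => Real.exp (-(β * bact F m V)))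
      (hbm.const_mul β).neg.exp
    rw [Fintype.card_fun, Fintype.card_fin, Fintype.card_fin] at this
    rw [Zb, ← this]
    refine integral_congr_ae (Filter.Eventually.of_forall fun U => ?_)
    show Real.exp (-(β * A U)) = ∏ b, Real.exp (-(β * bact F m (fun k => U (g (b, k)))))
    rw [← Real.exp_sum]
    congr 1
    simp only [A]
    rw [Finset.sum_neg_distrib, Finset.mul_sum]
  have hiA := integrable_exp (Measure.pi fun _ : (Fin d → ZMod l) × Fin d => μ) hAm hA0 hβ
  have hil := integrable_exp (Measure.pi fun _ : (Fin d → ZMod l) × Fin d => μ) hbl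
    (fun U => bact_nonneg h0 U) hβ
  have hZm : 0 ≤ Zb μ F d m β := integral_nonneg fun U => (Real.exp_pos _).le
  have hel := elim μ (MM l m o) (rk o)
    (fun e U => ENNReal.ofReal (Real.exp (-(β * fe F o m e U))))
    (fun U => ENNReal.ofReal (Real.exp (-(β * A U))))
    (fun e _ => ((fe_cont o hF e).measurable.const_mul β).neg.exp.ennreal_ofReal)
    (hAm.const_mul β).neg.exp.ennreal_ofReal (ENNReal.ofReal z)
    (fun e he U => by
      obtain ⟨a, b, c, h | h⟩ := fe_self F o he U
      · simp only [h]; exact hz1 a b c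
      · simp only [h]; exact hz2 a b c)
    (fun e he e' he' hne hr U t => by
      simp only [fe_upd F o he he' hne hr U t])
    (fun e he U t => by
      have : A (Function.update U e t) = A U := by
        refine Finset.sum_congr rfl fun b _ => bact_congr F fun y i hy => ?_
        refine Function.update_of_ne ?_ _ _
        rintro rfl
        simp only [MM, Finset.mem_filter, Finset.mem_univ, true_and, g] at he
        have h1 := he.1
        rw [blk_val hq.le, Nat.mul_add_mod', Nat.mod_eq_of_lt (ZMod.val_lt _)] at h1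
        simp only at h1
        omega
      simp only [this])
  have hle : ENNReal.ofReal (Zb μ F d l β) ≤
      ENNReal.ofReal (Zb μ F d m β ^ q ^ d * z ^ (MM l m o).card) := by
    have e2 : ENNReal.ofReal (Zb μ F d m β ^ q ^ d) =
        ∫⁻ U, ENNReal.ofReal (Real.exp (-(β * A U))) ∂(Measure.pi fun _ => μ) := by
      rw [← e1, ofReal_integral_eq_lintegral_ofReal hiA
        (Filter.Eventually.of_forall fun U => (Real.exp_pos _).le)]
    rw [ENNReal.ofReal_mul (pow_nonneg hZm _), ENNReal.ofReal_pow hz0, e2, ← hel, Zb,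
      ofReal_integral_eq_lintegral_ofReal hil
        (Filter.Eventually.of_forall fun U => (Real.exp_pos _).le)]
    refine lintegral_mono fun U => ?_
    show ENNReal.ofReal (Real.exp (-(β * bact F l U))) ≤
      ENNReal.ofReal (Real.exp (-(β * A U))) *
        ∏ e ∈ MM l m o, ENNReal.ofReal (Real.exp (-(β * fe F o m e U)))
    rw [← ENNReal.ofReal_prod_of_nonneg fun e _ => (Real.exp_pos _).le, ← Real.exp_sum,
      ← ENNReal.ofReal_mul (Real.exp_pos _).le, ← Real.exp_add]
    refine ENNReal.ofReal_le_ofReal (Real.exp_le_exp.2 ?_)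
    have h3 := mul_le_mul_of_nonneg_left (bact_ge F o hq h0 U) hβ
    rw [Finset.sum_neg_distrib, ← Finset.mul_sum]
    show -(β * bact F l U) ≤ -(β * A U) + -(β * _)
    rw [mul_add] at h3
    have h4 : β * A U + β * ∑ e ∈ MM l m o, fe F o m e U ≤ β * bact F l U := h3
    linarith
  exact (ENNReal.ofReal_le_ofReal_iff (mul_nonneg (pow_nonneg hZm _) (pow_nonneg hz0 _))).1 hle

end

end Pool.Agent.X217.YM
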