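import Mathlib
import Pool.Agent.X217.YM.Upper2
import Pool.Agent.X217.YM.Count

/-!
# The comb gauge
-/

open MeasureTheory
open scoped ENNReal

set_option linter.unusedSectionVars false

namespace Pool.Agent.X217.YM

section

variable {d m : ℕ} [NeZero m]

/-- the links of the comb -/
def comb (d m : ℕ) [NeZero m] : Finset ((Fin d → ZMod m) × Fin d) :=
  Finset.univ.filter fun e => (e.1 e.2).val + 1 < m ∧ ∀ j, e.2 < j → e.1 j = 0

theorem mem_comb {x : Fin d → ZMod m} {i : Fin d} :
    (x, i) ∈ comb d m ↔ (x i).val + 1 < m ∧ ∀ j, i < j → x j = 0 := by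
  simp [comb]

/-- the end of a link -/
def tip (e : (Fin d → ZMod m) × Fin d) : Fin d → ZMod m := e.1 + Pi.single e.2 1

theorem tip_val {e : (Fin d → ZMod m) × Fin d} (h : (e.1 e.2).val + 1 < m) :
    (tip e e.2).val = (e.1 e.2).val + 1 := by
  unfold tip
  rw [add_same, val_add_one h]

theorem ht_tip {e : (Fin d → ZMod m) × Fin d} (h : (e.1 e.2).val + 1 < m) :
    ht (tip e) = ht e.1 + 1 := by
  have h1 := ht_sub (tip e) (j := e.2) (by rw [tip_val h]; omega)
  have h2 : tip e - Pi.single e.2 1 = e.1 := by unfold tip; simp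
  rw [h2] at h1
  exact h1.symm

theorem comb_ne {e : (Fin d → ZMod m) × Fin d} (he : e ∈ comb d m) : e.1 ≠ tip e := by
  intro h
  have h1 := ht_tip (mem_comb.1 he).1
  rw [← h] at h1
  omega

theorem tip_inj {e e' : (Fin d → ZMod m) × Fin d} (he : e ∈ comb d m) (he' : e' ∈ comb d m)
    (h : tip e' = tip e) : e' = e := by
  have key : ∀ e e' : (Fin d → ZMod m) × Fin d, e ∈ comb d m → e' ∈ comb d m →
      tip e' = tip e → ¬ e'.2 < e.2 := by
    intro e e' he he' h hlt
    have h1 := tip_val (mem_comb.1 he).1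
    rw [← h] at h1
    unfold tip at h1
    rw [add_ne _ hlt.ne', (mem_comb.1 he').2 _ hlt] at h1
    simp at h1
  have h2 : e'.2 = e.2 :=
    le_antisymm (not_lt.1 (key e' e he' he h.symm)) (not_lt.1 (key e e' he he' h))
  refine Prod.ext ?_ h2
  unfold tip at h
  rw [h2] at h
  exact add_right_cancel h

theorem comb_forest {e e' : (Fin d → ZMod m) × Fin d} (he : e ∈ comb d m) (he' : e' ∈ comb d m)
    (hne : e' ≠ e) (hr : ht e'.1 ≤ ht e.1) : e'.1 ≠ tip e ∧ tip e' ≠ tip e := by
  refine ⟨fun h => ?_, fun h => hne (tip_inj he he' h)⟩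
  have h1 := ht_tip (mem_comb.1 he).1
  rw [← h] at h1
  omega

theorem card_comb_le : (comb d m).card + 1 ≤ m ^ d := by
  classical
  have h1 : (comb d m).card ≤ ((Finset.univ : Finset (Fin d → ZMod m)).erase 0).card := by
    refine Finset.card_le_card_of_injOn tip ?_ ?_
    · intro e he
      rw [Finset.mem_coe, Finset.mem_erase]
      refine ⟨fun h => ?_, Finset.mem_univ _⟩
      have h1 := tip_val (mem_comb.1 he).1
      rw [h] at h1
      simp at h1
    · intro e he e' he' h
      exact tip_inj he' he h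
  rw [Finset.card_erase_of_mem (Finset.mem_univ _), Finset.card_univ, Fintype.card_fun, ZMod.card,
    Fintype.card_fin] at h1
  have : 0 < m ^ d := pow_pos (NeZero.pos m) d
  omega

theorem card_val_lt : (Finset.univ.filter fun z : ZMod m => z.val + 1 < m).card = m - 1 := by
  refine le_antisymm ?_ (card_in m)
  have h1 := Finset.card_filter_add_card_filter_not (s := (Finset.univ : Finset (ZMod m)))
    (fun z : ZMod m => z.val + 1 < m)
  have hm := NeZero.pos m
  have h2 : 1 ≤ (Finset.univ.filter fun z : ZMod m => ¬ z.val + 1 < m).card := by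
    refine Finset.card_pos.2 ⟨((m - 1 : ℕ) : ZMod m), ?_⟩
    simp only [Finset.mem_filter, Finset.mem_univ, true_and]
    rw [ZMod.val_natCast_of_lt (by omega)]
    omega
  rw [Finset.card_univ, ZMod.card] at h1
  omega

theorem card_comb_ge (hd : 0 < d) : m ^ d - m ^ (d - 1) ≤ (comb d m).card := by
  classical
  have hm := NeZero.pos m
  let o : Fin d := ⟨d - 1, by omega⟩
  have h1 : (Finset.univ.filter fun x : Fin d → ZMod m =>
      x o ∈ Finset.univ.filter fun z : ZMod m => z.val + 1 < m).card ≤ (comb d m).card := by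
    refine Finset.card_le_card_of_injOn (fun x => (x, o)) ?_ ?_
    · intro x hx
      rw [Finset.mem_coe] at hx ⊢
      simp only [Finset.mem_filter, Finset.mem_univ, true_and] at hx
      rw [mem_comb]
      refine ⟨hx, fun j hj => ?_⟩
      have h3 : d - 1 < (j : ℕ) := hj
      have := j.2
      omega
    · intro x _ y _ h
      exact congrArg Prod.fst h
  rw [card_one_coord, card_val_lt] at h1
  have h2 : m ^ d = m * m ^ (d - 1) := by
    rw [← pow_succ']
    congr 1
    omega
  rw [h2]
  calc m * m ^ (d - 1) - m ^ (d - 1) = (m - 1) * m ^ (d - 1) := by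
        rw [Nat.sub_mul, one_mul]
    _ ≤ _ := h1

/-- the free links of the box in the comb gauge -/
def kfr (d m : ℕ) [NeZero m] : Finset ((Fin d → ZMod m) × Fin d) :=
  Finset.univ.filter fun e => (e.1 e.2).val + 1 < m ∧ e ∉ comb d m

theorem card_kfr (hd : 0 < d) : (d - 1) * m ^ d + 1 ≤ (kfr d m).card + d * m ^ (d - 1) := by
  classical
  have hm := NeZero.pos m
  have h1 : (Finset.univ.filter fun e : (Fin d → ZMod m) × Fin d => (e.1 e.2).val + 1 < m).card =
      d * ((m - 1) * m ^ (d - 1)) := by
    rw [card_filter_snd]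
    have : ∀ i : Fin d, (Finset.univ.filter fun x : Fin d → ZMod m => (x i).val + 1 < m).card =
        (m - 1) * m ^ (d - 1) := by
      intro i
      have e1 : (Finset.univ.filter fun x : Fin d → ZMod m => (x i).val + 1 < m) =
          Finset.univ.filter fun x : Fin d → ZMod m =>
            x i ∈ Finset.univ.filter fun z : ZMod m => z.val + 1 < m := by
        ext x; simp
      rw [e1, card_one_coord, card_val_lt]
    simp [this]
  have h2 : (Finset.univ.filter fun e : (Fin d → ZMod m) × Fin d => (e.1 e.2).val + 1 < m) ⊆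
      kfr d m ∪ comb d m := by
    intro e he
    simp only [kfr, Finset.mem_union, Finset.mem_filter, Finset.mem_univ, true_and] at he ⊢
    by_cases h : e ∈ comb d m
    · exact Or.inr h
    · exact Or.inl ⟨he, h⟩
  have h3 := (Finset.card_le_card h2).trans (Finset.card_union_le _ _)
  rw [h1] at h3
  have h4 := card_comb_le (d := d) (m := m)
  have h5 : m ^ d = m * m ^ (d - 1) := by
    rw [← pow_succ']
    congr 1
    omega
  obtain ⟨k, rfl⟩ : ∃ k, m = k + 1 := ⟨m - 1, by omega⟩
  obtain ⟨t, rfl⟩ : ∃ t, d = t + 1 := ⟨d - 1, by omega⟩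
  simp only [Nat.add_sub_cancel] at h3 h5 ⊢
  nlinarith

end

section coer

variable {H : Type*} {Q : H → H → H → H → ℝ} {d m : ℕ} [NeZero m] (u : H)

theorem term_le_bact (hQ : ∀ a b c e, 0 ≤ Q a b c e) (V : (Fin d → ZMod m) × Fin d → H)
    {y : Fin d → ZMod m} {i j : Fin d} (hij : i < j) (hi : (y i).val + 1 < m)
    (hj : (y j).val + 1 < m) :
    Q (V (y, i)) (V (y + Pi.single i 1, j)) (V (y + Pi.single j 1, i)) (V (y, j)) ≤
      bact Q m V := by
  rw [bact_eq_sum]
  have h1 : fpl Q m V (y, i, j) =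
      Q (V (y, i)) (V (y + Pi.single i 1, j)) (V (y + Pi.single j 1, i)) (V (y, j)) := by
    unfold fpl
    rw [if_pos ⟨hij, hi, hj⟩]
  rw [← h1]
  refine Finset.single_le_sum (f := fun t => fpl Q m V t) (fun t _ => ?_) (Finset.mem_univ _)
  unfold fpl
  split_ifs
  · exact hQ _ _ _ _
  · exact le_rfl

/-- **coercivity in the comb gauge** -/
theorem comb_coer (hQ : ∀ a b c e, 0 ≤ Q a b c e) (ℓ : H → ℝ) (hu : ℓ u = 0)
    (hc : ∀ a c, ℓ c ≤ ℓ a + Real.sqrt (2 * Q a u c u)) (V : (Fin d → ZMod m) × Fin d → H)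
    (hV : ∀ e ∈ comb d m, V e = u) :
    ∀ (k : ℕ) (x : Fin d → ZMod m) (i : Fin d), ht x = k → (x i).val + 1 < m →
      ℓ (V (x, i)) ≤ k * Real.sqrt (2 * bact Q m V) := by
  intro k
  induction k with
  | zero =>
    intro x i hx hi
    have h1 : (x, i) ∈ comb d m := by
      rw [mem_comb]
      refine ⟨hi, fun j _ => ?_⟩
      have := (Finset.sum_eq_zero_iff.1 hx) j (Finset.mem_univ j)
      exact (ZMod.val_eq_zero _).1 this
    rw [hV _ h1, hu]
    simp
  | succ k ih =>
    intro x i hx hi
    have hs0 := Real.sqrt_nonneg (2 * bact Q m V)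
    by_cases hmem : (x, i) ∈ comb d m
    · rw [hV _ hmem, hu]
      positivity
    · -- the largest nonzero coordinate
      have h1 : ∃ j, i < j ∧ x j ≠ 0 := by
        by_contra h
        push Not at h
        exact hmem (mem_comb.2 ⟨hi, h⟩)
      obtain ⟨j₀, hj₀, hj₀'⟩ := h1
      let S : Finset (Fin d) := Finset.univ.filter fun j => x j ≠ 0
      have hS : S.Nonempty := ⟨j₀, by simp [S, hj₀']⟩
      set J := S.max' hS with hJ
      have hJm : x J ≠ 0 := by
        have := S.max'_mem hS
        simp only [S, Finset.mem_filter, Finset.mem_univ, true_and] at this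
        exact this
      have hJi : i < J := lt_of_lt_of_le hj₀ (S.le_max' j₀ (by simp [S, hj₀']))
      have hJt : ∀ k, J < k → x k = 0 := by
        intro k hk
        by_contra h
        exact absurd (S.le_max' k (by simp [S, h])) (not_le.2 hk)
      have hv : 1 ≤ (x J).val := by
        rcases Nat.eq_zero_or_pos (x J).val with h | h
        · exact absurd ((ZMod.val_eq_zero _).1 h) hJm
        · exact h
      set y : Fin d → ZMod m := x - Pi.single J 1 with hy
      have hyJ : (y J).val + 1 < m := by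
        rw [hy, sub_same x hv]
        have := ZMod.val_lt (x J)
        omega
      have hyi : y i = x i := sub_ne x hJi.ne
      have hyk : ∀ k, J < k → y k = 0 := fun k hk => by rw [hy, sub_ne x hk.ne']; exact hJt k hk
      have hyx : y + Pi.single J 1 = x := by rw [hy]; simp
      have c1 : V (y, J) = u := hV _ (mem_comb.2 ⟨hyJ, hyk⟩)
      have c2 : V (y + Pi.single i 1, J) = u := by
        refine hV _ (mem_comb.2 ⟨?_, fun k hk => ?_⟩)
        · rw [add_ne _ hJi.ne']; exact hyJ
        · rw [add_ne _ (hJi.trans hk).ne']; exact hyk k hk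
      have hht : ht y = k := by
        have := ht_sub x hv
        rw [← hy] at this
        omega
      have hih := ih y i hht (by rw [hyi]; exact hi)
      have ht1 := term_le_bact hQ V hJi (by rw [hyi]; exact hi) hyJ
      rw [c1, c2, hyx] at ht1
      have h2 := hc (V (y, i)) (V (x, i))
      have h3 : Real.sqrt (2 * Q (V (y, i)) u (V (x, i)) u) ≤ Real.sqrt (2 * bact Q m V) :=
        Real.sqrt_le_sqrt (by linarith)
      push_cast
      linarith

end coer

section gaugeinv

variable {G : Type*} [Group G] {F : G → G → G → G → ℝ} {d m : ℕ} [NeZero m]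

/-- the gauge function supported at a site -/
def dl (v : Fin d → ZMod m) (h : G) (x : Fin d → ZMod m) : G := if x = v then h else 1

theorem gtr_apply (s t : (Fin d → ZMod m) × Fin d → (Fin d → ZMod m)) (v : Fin d → ZMod m) (h : G)
    (U : (Fin d → ZMod m) × Fin d → G) (e : (Fin d → ZMod m) × Fin d) :
    gtr s t v h U e = dl v h (s e) * U e * (dl v h (t e))⁻¹ := by
  unfold gtr dl
  split_ifs <;> simp

/-- gauge invariance of the box action -/
theorem bact_gauge (hF : ∀ h1 h2 h3 h4 a b c e : G,
    F (h1 * a * h2⁻¹) (h2 * b * h3⁻¹) (h4 * c * h3⁻¹) (h1 * e * h4⁻¹) = F a b c e)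
    (v : Fin d → ZMod m) (h : G) (U : (Fin d → ZMod m) × Fin d → G) :
    bact F m (gtr (fun e => e.1) tip v h U) = bact F m U := by
  unfold bact
  refine Finset.sum_congr rfl fun x _ => Finset.sum_congr rfl fun i _ =>
    Finset.sum_congr rfl fun j _ => ?_
  split_ifs
  · simp only [gtr_apply, tip]
    have e1 : x + Pi.single i 1 + Pi.single j 1 = x + Pi.single j 1 + Pi.single i 1 := by abel
    rw [e1]
    exact hF _ _ _ _ _ _ _ _
  · rfl

/-- gauge invariance of the torus action -/
theorem tact_gauge (hF : ∀ h1 h2 h3 h4 a b c e : G,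
    F (h1 * a * h2⁻¹) (h2 * b * h3⁻¹) (h4 * c * h3⁻¹) (h1 * e * h4⁻¹) = F a b c e)
    (v : Fin d → ZMod m) (h : G) (U : (Fin d → ZMod m) × Fin d → G) :
    tact F m (gtr (fun e => e.1) tip v h U) = tact F m U := by
  unfold tact
  refine Finset.sum_congr rfl fun x _ => Finset.sum_congr rfl fun i _ =>
    Finset.sum_congr rfl fun j _ => ?_
  split_ifs
  · simp only [gtr_apply, tip]
    have e1 : x + Pi.single i 1 + Pi.single j 1 = x + Pi.single j 1 + Pi.single i 1 := by abel
    rw [e1]
    exact hF _ _ _ _ _ _ _ _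
  · rfl

variable [TopologicalSpace G] [SecondCountableTopology G] [MeasurableSpace G]
  [BorelSpace G] [IsTopologicalGroup G] (μ : Measure G) [IsProbabilityMeasure μ]
  [μ.IsMulLeftInvariant] [μ.IsMulRightInvariant]

/-- gauge fixing for invariant functions -/
theorem comb_fix {f : ((Fin d → ZMod m) × Fin d → G) → ℝ≥0∞} (hf : Measurable f)
    (hinv : ∀ v h U, f (gtr (fun e => e.1) tip v h U) = f U) :
    ∫⁻ U, f U ∂(Measure.pi fun _ => μ) =
      ∫⁻ U, f (fix (comb d m) U) ∂(Measure.pi fun _ => μ) :=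
  gauge_fix μ (fun e : (Fin d → ZMod m) × Fin d => e.1) tip (comb d m) (fun e => ht e.1)
    (fun _ he => comb_ne he) (fun _ he _ he' hne hr => comb_forest he he' hne hr) hf hinv

end gaugeinv

end Pool.Agent.X217.YM
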