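import Mathlib

/-!
# The Haar measure of a compact metric group in good coordinates near the identity
-/

open MeasureTheory Filter Metric Set
open scoped Topology NNReal ENNReal MeasureTheory

namespace Pool.Agent.X217.YM

section

variable {Γ : Type*} [MetricSpace Γ] [Group Γ] [IsTopologicalGroup Γ] [CompactSpace Γ]
  [MeasurableSpace Γ] [BorelSpace Γ] {n : ℕ}

/-- almost isometric coordinates with values in the Euclidean space -/
structure Coord (π : Γ → EuclideanSpace ℝ (Fin n)) : Prop where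
  cont : Continuous π
  one : π 1 = 0
  near : ∀ ε : ℝ, 0 < ε → ∃ r : ℝ, 0 < r ∧ ∀ g h : Γ, dist g 1 < r → dist h 1 < r →
    (1 - ε) * dist g h ≤ dist (π g) (π h) ∧ dist (π g) (π h) ≤ (1 + ε) * dist g h
  surj : ∀ r : ℝ, 0 < r → π '' ball 1 r ∈ 𝓝 (0 : EuclideanSpace ℝ (Fin n))

/-- upper bound of the Hausdorff measure -/
theorem haus_upper {π : Γ → EuclideanSpace ℝ (Fin n)} {r : ℝ} {C : ℝ≥0}
    (h : ∀ g k : Γ, dist g 1 < r → dist k 1 < r → dist g k ≤ C * dist (π g) (π k))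
    (K : Set (EuclideanSpace ℝ (Fin n))) :
    μH[(n : ℝ)] (π ⁻¹' K ∩ ball 1 r) ≤ (C : ℝ≥0∞) ^ (n : ℝ) * μH[(n : ℝ)] K := by
  set S := π ⁻¹' K ∩ ball (1 : Γ) r with hS
  have hinj : InjOn π S := by
    intro g hg k hk hgk
    have := h g k hg.2 hk.2
    rw [hgk, dist_self, mul_zero] at this
    exact dist_le_zero.1 this
  have : Nonempty Γ := ⟨1⟩
  have himg : Function.invFunOn π S '' (π '' S) = S := by
    ext x
    constructor
    · rintro ⟨_, ⟨y, hy, rfl⟩, rfl⟩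
      exact Function.invFunOn_mem ⟨y, hy, rfl⟩
    · intro hx
      exact ⟨π x, ⟨x, hx, rfl⟩, hinj.leftInvOn_invFunOn hx⟩
  have hlip : LipschitzOnWith C (Function.invFunOn π S) (π '' S) := by
    refine LipschitzOnWith.of_dist_le_mul ?_
    rintro _ ⟨x, hx, rfl⟩ _ ⟨y, hy, rfl⟩
    rw [hinj.leftInvOn_invFunOn hx, hinj.leftInvOn_invFunOn hy]
    exact h x y hx.2 hy.2
  have h1 := hlip.hausdorffMeasure_image_le (d := (n : ℝ)) (Nat.cast_nonneg n)
  rw [himg] at h1
  refine h1.trans (mul_le_mul_right (measure_mono ?_) _)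
  rintro _ ⟨x, hx, rfl⟩
  exact hx.1

/-- lower bound of the Hausdorff measure -/
theorem haus_lower {π : Γ → EuclideanSpace ℝ (Fin n)} {r : ℝ} {C : ℝ≥0}
    (h : ∀ g k : Γ, dist g 1 < r → dist k 1 < r → dist (π g) (π k) ≤ C * dist g k)
    (K : Set (EuclideanSpace ℝ (Fin n))) (hK : K ⊆ π '' ball 1 r) :
    μH[(n : ℝ)] K ≤ (C : ℝ≥0∞) ^ (n : ℝ) * μH[(n : ℝ)] (π ⁻¹' K ∩ ball 1 r) := by
  have hlip : LipschitzOnWith C π (π ⁻¹' K ∩ ball 1 r) :=
    LipschitzOnWith.of_dist_le_mul fun x hx y hy => h x y hx.2 hy.2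
  have h1 := hlip.hausdorffMeasure_image_le (d := (n : ℝ)) (Nat.cast_nonneg n)
  refine le_trans (measure_mono ?_) h1
  intro x hx
  obtain ⟨g, hg, rfl⟩ := hK hx
  exact ⟨g, ⟨hx, hg⟩, rfl⟩

theorem exists_eta (n : ℕ) {ε : ℝ} (hε : 0 < ε) : ∃ η : ℝ, 0 < η ∧ η ≤ 1 / 2 ∧
    (1 - η)⁻¹ ^ n ≤ 1 + ε ∧ (1 - ε) * (1 + η) ^ n ≤ 1 := by
  have c1 : Tendsto (fun η : ℝ => (1 - η)⁻¹ ^ n) (𝓝 0) (𝓝 ((1 - 0)⁻¹ ^ n)) :=
    ((tendsto_const_nhds.sub tendsto_id).inv₀ (by norm_num)).pow n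
  have c2 : Tendsto (fun η : ℝ => (1 - ε) * (1 + η) ^ n) (𝓝 0) (𝓝 ((1 - ε) * (1 + 0) ^ n)) :=
    ((tendsto_const_nhds.add tendsto_id).pow n).const_mul _
  simp only [sub_zero, inv_one, one_pow, add_zero, mul_one] at c1 c2
  have e1 := c1.eventually (gt_mem_nhds (show (1 : ℝ) < 1 + ε by linarith))
  have e2 := c2.eventually (gt_mem_nhds (show (1 - ε : ℝ) < 1 by linarith))
  have e3 : ∀ᶠ η : ℝ in 𝓝 0, η < 1 / 2 := gt_mem_nhds (by norm_num)
  obtain ⟨δ, hδ, h⟩ := Metric.eventually_nhds_iff.1 ((e1.and e2).and e3)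
  refine ⟨δ / 2, by linarith, ?_⟩
  have h1 := h (y := δ / 2) (by rw [Real.dist_eq, sub_zero, abs_of_pos (by linarith)]; linarith)
  exact ⟨h1.2.le, h1.1.1.le, h1.1.2.le⟩

variable (μ : Measure Γ) [IsProbabilityMeasure μ] [μ.IsHaarMeasure]

/-- **the density of the Haar measure at the identity** -/
theorem haar_density (hinv : ∀ a b c : Γ, dist (a * b) (a * c) = dist b c)
    {π : Γ → EuclideanSpace ℝ (Fin n)} (hπ : Coord π) :
    ∃ ρ : ℝ, 0 < ρ ∧ ∀ ε : ℝ, 0 < ε → ∃ r₀ : ℝ, 0 < r₀ ∧ ∀ r : ℝ, 0 < r → r ≤ r₀ →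
      (μ.restrict (ball 1 r)).map π ≤ ENNReal.ofReal (ρ * (1 + ε)) • volume ∧
      ENNReal.ofReal (ρ * (1 - ε)) • volume.restrict (ball 0 (r / 2)) ≤
        (μ.restrict (ball 1 r)).map π := by
  set h : Measure Γ := μH[(n : ℝ)] with hh
  have hleft : h.IsMulLeftInvariant := by
    refine ⟨fun a => ?_⟩
    have hiso : Isometry (fun x : Γ => a * x) := Isometry.of_dist_eq fun b c => hinv a b c
    have hsur : Function.Surjective (fun x : Γ => a * x) := fun y => ⟨a⁻¹ * y, by simp⟩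
    have := hiso.map_hausdorffMeasure (d := (n : ℝ)) (Or.inl (Nat.cast_nonneg n))
    rw [hh, this, hsur.range_eq, Measure.restrict_univ]
  have hE0 : (μH[(n : ℝ)] : Measure (EuclideanSpace ℝ (Fin n))).IsAddHaarMeasure := by
    have := isAddHaarMeasure_hausdorffMeasure (E := EuclideanSpace ℝ (Fin n))
    rwa [finrank_euclideanSpace_fin] at this
  -- a ball with finite positive measure
  obtain ⟨r1, hr1, hn1⟩ := hπ.near (1 / 2) (by norm_num)
  have hup : ∀ g k : Γ, dist g 1 < r1 → dist k 1 < r1 →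
      dist g k ≤ (2 : ℝ≥0) * dist (π g) (π k) := by
    intro g k hg hk
    have := (hn1 g k hg hk).1
    push_cast
    linarith
  have hlo : ∀ g k : Γ, dist g 1 < r1 → dist k 1 < r1 →
      dist (π g) (π k) ≤ (2 : ℝ≥0) * dist g k := by
    intro g k hg hk
    have := (hn1 g k hg hk).2
    have h0 := dist_nonneg (x := g) (y := k)
    push_cast
    linarith
  have hfin : h (ball 1 r1) < ∞ := by
    have h1 := haus_upper hup (closedBall (0 : EuclideanSpace ℝ (Fin n)) (2 * r1))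
    have h2 : ball (1 : Γ) r1 ⊆ π ⁻¹' closedBall 0 (2 * r1) ∩ ball 1 r1 := by
      intro g hg
      refine ⟨?_, hg⟩
      rw [mem_preimage, mem_closedBall]
      have h3 := hlo g 1 hg (by rw [dist_self]; exact hr1)
      rw [hπ.one] at h3
      have h4 : dist g 1 < r1 := hg
      push_cast at h3
      linarith
    refine lt_of_le_of_lt (measure_mono h2) (lt_of_le_of_lt h1 ?_)
    refine ENNReal.mul_lt_top ?_ (isCompact_closedBall _ _).measure_lt_top
    exact ENNReal.rpow_lt_top_of_nonneg (Nat.cast_nonneg n) ENNReal.coe_ne_top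
  have hpos : 0 < h (ball 1 r1) := by
    have h1 := haus_lower hlo (π '' ball 1 r1) subset_rfl
    have h2 : 0 < μH[(n : ℝ)] (π '' ball 1 r1) :=
      lt_of_lt_of_le (isOpen_interior.measure_pos _ ⟨0, mem_interior_iff_mem_nhds.2
        (hπ.surj r1 hr1)⟩) (measure_mono interior_subset)
    have h3 : 0 < (((2 : ℝ≥0) : ℝ≥0∞)) ^ (n : ℝ) * h (π ⁻¹' (π '' ball 1 r1) ∩ ball 1 r1) :=
      lt_of_lt_of_le h2 h1
    have h4 := (ENNReal.mul_pos_iff.1 h3).2
    exact lt_of_lt_of_le h4 (measure_mono inter_subset_right)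
  have hcb : closedBall (1 : Γ) (r1 / 2) ⊆ ball 1 r1 := closedBall_subset_ball (by linarith)
  have hhaar : h.IsHaarMeasure := by
    refine Measure.isHaarMeasure_of_isCompact_nonempty_interior h (closedBall 1 (r1 / 2))
      (isCompact_closedBall _ _) ⟨1, ?_⟩ ?_ ?_
    · exact mem_interior_iff_mem_nhds.2 (closedBall_mem_nhds _ (by linarith))
    · -- positive: finitely many translates cover
      intro h0
      have h5 : h univ = 0 := by
        have hcov := isCompact_univ.elim_nhds_subcover (U := fun g : Γ => ball g (r1 / 2))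
          (fun g _ => ball_mem_nhds _ (by linarith))
        obtain ⟨t, -, ht⟩ := hcov
        have h6 : ∀ g : Γ, h (ball g (r1 / 2)) = 0 := by
          intro g
          have h7 : (fun x => g⁻¹ * x) ⁻¹' (ball 1 (r1 / 2)) = ball g (r1 / 2) := by
            ext x
            simp only [mem_preimage, mem_ball]
            have := hinv g⁻¹ x g
            rw [inv_mul_cancel] at this
            rw [this]
          rw [← h7, measure_preimage_mul]
          exact measure_mono_null ball_subset_closedBall h0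
        refine measure_mono_null ht ?_
        exact (measure_biUnion_null_iff (Finset.countable_toSet t)).2 fun g _ => h6 g
      exact hpos.ne' (measure_mono_null (subset_univ _) h5)
    · exact (lt_of_le_of_lt (measure_mono hcb) hfin).ne
  -- comparison with the Haar measure
  have e1 : h = Measure.haarScalarFactor h μ • μ := Measure.isMulInvariant_eq_smul_of_compactSpace h μ
  have c1pos : 0 < Measure.haarScalarFactor h μ := Measure.haarScalarFactor_pos_of_isHaarMeasure h μ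
  set c1 : ℝ≥0 := Measure.haarScalarFactor h μ with hc1
  have e2 : (μH[(n : ℝ)] : Measure (EuclideanSpace ℝ (Fin n))) =
      Measure.addHaarScalarFactor μH[(n : ℝ)] volume • volume :=
    Measure.isAddLeftInvariant_eq_smul _ _
  have c2pos : 0 < Measure.addHaarScalarFactor
      (μH[(n : ℝ)] : Measure (EuclideanSpace ℝ (Fin n))) volume :=
    Measure.addHaarScalarFactor_pos_of_isAddHaarMeasure _ _
  set c2 : ℝ≥0 := Measure.addHaarScalarFactor
    (μH[(n : ℝ)] : Measure (EuclideanSpace ℝ (Fin n))) volume with hc2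
  have e1' : ∀ S : Set Γ, h S = (c1 : ℝ≥0∞) * μ S := by
    intro S
    conv_lhs => rw [e1]
    rfl
  have e2' : ∀ S : Set (EuclideanSpace ℝ (Fin n)), μH[(n : ℝ)] S = (c2 : ℝ≥0∞) * volume S := by
    intro S
    conv_lhs => rw [e2]
    rfl
  have c1r : (0 : ℝ) < c1 := by exact_mod_cast c1pos
  have c2r : (0 : ℝ) < c2 := by exact_mod_cast c2pos
  refine ⟨c2 / c1, by positivity, fun ε hε => ?_⟩
  obtain ⟨η, hη0, hη2, hη3, hη4⟩ := exists_eta n hε
  obtain ⟨r2, hr2, hn2⟩ := hπ.near η hη0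
  obtain ⟨s0, hs0, hs0'⟩ := Metric.mem_nhds_iff.1 (hπ.surj r2 hr2)
  refine ⟨min r2 s0, lt_min hr2 hs0, fun r hr hrr => ?_⟩
  have hrr2 : r ≤ r2 := hrr.trans (min_le_left _ _)
  have hrs0 : r ≤ s0 := hrr.trans (min_le_right _ _)
  have hη1 : 0 < 1 - η := by linarith
  obtain ⟨C1, hC1⟩ : ∃ C1 : ℝ≥0, (C1 : ℝ) = (1 - η)⁻¹ := ⟨⟨(1 - η)⁻¹, by positivity⟩, rfl⟩
  obtain ⟨C2, hC2⟩ : ∃ C2 : ℝ≥0, (C2 : ℝ) = 1 + η := ⟨⟨1 + η, by positivity⟩, rfl⟩
  have hup2 : ∀ g k : Γ, dist g 1 < r → dist k 1 < r →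
      dist g k ≤ (C1 : ℝ) * dist (π g) (π k) := by
    intro g k hg hk
    have h1 := (hn2 g k (hg.trans_le hrr2) (hk.trans_le hrr2)).1
    rw [hC1, inv_mul_eq_div, le_div_iff₀ hη1]
    linarith
  have hlo2 : ∀ g k : Γ, dist g 1 < r → dist k 1 < r →
      dist (π g) (π k) ≤ (C2 : ℝ) * dist g k := fun g k hg hk => by
    rw [hC2]
    exact (hn2 g k (hg.trans_le hrr2) (hk.trans_le hrr2)).2
  have hπm : Measurable π := hπ.cont.measurable
  have hmap : ∀ K : Set (EuclideanSpace ℝ (Fin n)), MeasurableSet K →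
      (μ.restrict (ball 1 r)).map π K = μ (π ⁻¹' K ∩ ball 1 r) := by
    intro K hK
    rw [Measure.map_apply hπm hK, Measure.restrict_apply (hπm hK)]
  have hpow1 : (C1 : ℝ≥0∞) ^ (n : ℝ) = ENNReal.ofReal ((1 - η)⁻¹ ^ n) := by
    rw [ENNReal.rpow_natCast, ← hC1, ENNReal.ofReal_pow C1.coe_nonneg, ENNReal.ofReal_coe_nnreal]
  have hpow2 : (C2 : ℝ≥0∞) ^ (n : ℝ) = ENNReal.ofReal ((1 + η) ^ n) := by
    rw [ENNReal.rpow_natCast, ← hC2, ENNReal.ofReal_pow C2.coe_nonneg, ENNReal.ofReal_coe_nnreal]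
  have hc1e : (c1 : ℝ≥0∞) = ENNReal.ofReal c1 := by simp
  have hc2e : (c2 : ℝ≥0∞) = ENNReal.ofReal c2 := by simp
  constructor
  · refine Measure.le_iff.2 fun K hK => ?_
    rw [hmap K hK]
    have h1 := haus_upper hup2 K
    rw [hpow1, e2'] at h1
    have h1' : (c1 : ℝ≥0∞) * μ (π ⁻¹' K ∩ ball 1 r) ≤
        ENNReal.ofReal ((1 - η)⁻¹ ^ n) * ((c2 : ℝ≥0∞) * volume K) := by
      rw [← e1']; exact h1
    rw [Measure.smul_apply, smul_eq_mul]
    have h2 : (c1 : ℝ≥0∞) * μ (π ⁻¹' K ∩ ball 1 r) ≤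
        (c1 : ℝ≥0∞) * (ENNReal.ofReal (c2 / c1 * (1 + ε)) * volume K) := by
      refine h1'.trans ?_
      rw [← mul_assoc, ← mul_assoc, hc1e, hc2e, ← ENNReal.ofReal_mul (by positivity),
        ← ENNReal.ofReal_mul c1r.le]
      refine mul_le_mul_left (ENNReal.ofReal_le_ofReal ?_) _
      have h3 : (c1 : ℝ) * (c2 / c1 * (1 + ε)) = (1 + ε) * c2 := by field_simp
      rw [h3]
      exact mul_le_mul_of_nonneg_right hη3 c2r.le
    exact (ENNReal.mul_le_mul_iff_right (by exact_mod_cast c1pos.ne') ENNReal.coe_ne_top).1 h2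
  · refine Measure.le_iff.2 fun K hK => ?_
    rw [hmap K hK, Measure.smul_apply, smul_eq_mul, Measure.restrict_apply hK]
    have hsub : K ∩ ball 0 (r / 2) ⊆ π '' ball 1 r := by
      rintro A ⟨-, hA⟩
      have hA' : dist A 0 < r / 2 := hA
      obtain ⟨g, hg, hgA⟩ := hs0' (show A ∈ ball 0 s0 from by
        rw [mem_ball]; linarith)
      refine ⟨g, ?_, hgA⟩
      have h2 := (hn2 g 1 hg (by rw [dist_self]; exact hr2)).1
      rw [hπ.one, hgA] at h2
      rw [mem_ball]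
      have h3 : (1 / 2 : ℝ) * dist g 1 ≤ (1 - η) * dist g 1 :=
        mul_le_mul_of_nonneg_right (by linarith) dist_nonneg
      linarith
    have h1 := haus_lower hlo2 (K ∩ ball 0 (r / 2)) hsub
    rw [hpow2, e2'] at h1
    have h1' : (c2 : ℝ≥0∞) * volume (K ∩ ball 0 (r / 2)) ≤ ENNReal.ofReal ((1 + η) ^ n) *
        ((c1 : ℝ≥0∞) * μ (π ⁻¹' (K ∩ ball 0 (r / 2)) ∩ ball 1 r)) := by
      rw [← e1']; exact h1
    rcases le_or_gt 1 ε with hε1 | hε1
    · have : ENNReal.ofReal (c2 / c1 * (1 - ε)) = 0 := by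
        rw [ENNReal.ofReal_eq_zero]
        exact mul_nonpos_of_nonneg_of_nonpos (by positivity) (by linarith)
      rw [this, zero_mul]
      exact bot_le
    have hε1' : 0 < 1 - ε := by linarith
    have h2 : (c1 : ℝ≥0∞) * (ENNReal.ofReal (c2 / c1 * (1 - ε)) *
        volume (K ∩ ball 0 (r / 2))) ≤
        (c1 : ℝ≥0∞) * μ (π ⁻¹' (K ∩ ball 0 (r / 2)) ∩ ball 1 r) := by
      have h3 : (c1 : ℝ≥0∞) * (ENNReal.ofReal (c2 / c1 * (1 - ε)) *
          volume (K ∩ ball 0 (r / 2))) = ENNReal.ofReal (1 - ε) *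
          ((c2 : ℝ≥0∞) * volume (K ∩ ball 0 (r / 2))) := by
        rw [← mul_assoc, ← mul_assoc, hc1e, hc2e, ← ENNReal.ofReal_mul c1r.le,
          ← ENNReal.ofReal_mul hε1'.le]
        congr 2
        field_simp
      rw [h3]
      calc _ ≤ ENNReal.ofReal (1 - ε) * (ENNReal.ofReal ((1 + η) ^ n) *
            ((c1 : ℝ≥0∞) * μ (π ⁻¹' (K ∩ ball 0 (r / 2)) ∩ ball 1 r))) :=
            mul_le_mul_right h1' _
        _ ≤ 1 * ((c1 : ℝ≥0∞) * μ (π ⁻¹' (K ∩ ball 0 (r / 2)) ∩ ball 1 r)) := by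
            rw [← mul_assoc, ← ENNReal.ofReal_mul hε1'.le]
            refine mul_le_mul_left ?_ _
            rw [← ENNReal.ofReal_one]
            exact ENNReal.ofReal_le_ofReal hη4
        _ = _ := one_mul _
    refine ((ENNReal.mul_le_mul_iff_right (by exact_mod_cast c1pos.ne')
      ENNReal.coe_ne_top).1 h2).trans (measure_mono ?_)
    exact inter_subset_inter_left _ (preimage_mono inter_subset_left)

end

end Pool.Agent.X217.YM
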