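import Mathlib
import Pool.Agent.TH369.WL.Sub
import Pool.Agent.X217.YM.Haus

/-!
# Coordinates of a closed subgroup of the unitary group near the identity
-/

open MeasureTheory Matrix Filter Metric
open scoped Matrix.Norms.Frobenius Topology

namespace Pool.Agent.X217.YM

open Pool.Agent.H906R3.YM Pool.Agent.TH369.WL Pool.Agent.W793.YM

variable {N n : ℕ} {G : Subgroup (UN N)}

/-- the distance to the identity -/
noncomputable def Dg (g : G) : ℝ := ‖mt g - 1‖

/-- the components of a matrix -/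
noncomputable def PX (X : Fin n → Mat N) : Mat N →L[ℝ] EuclideanSpace ℝ (Fin n) :=
  ((EuclideanSpace.equiv (Fin n) ℝ).symm : (Fin n → ℝ) →L[ℝ] EuclideanSpace ℝ (Fin n)).comp
    (ContinuousLinearMap.pi fun a => ip (X a))

theorem PX_apply (X : Fin n → Mat N) (M : Mat N) (a : Fin n) : PX X M a = ip (X a) M := rfl

theorem norm_PX_sq (X : Fin n → Mat N) (M : Mat N) : ‖PX X M‖ ^ 2 = ∑ a, ip (X a) M ^ 2 := by
  rw [EuclideanSpace.norm_sq_eq]
  simp only [PX_apply, Real.norm_eq_abs, sq_abs]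

theorem norm_PX_le (B : Frame G n) (M : Mat N) : ‖PX B.X M‖ ≤ ‖M‖ := by
  have h1 := norm_Qp (ip_orth B) M
  have h2 := norm_PX_sq B.X M
  have h3 := sq_nonneg ‖Qp B.X M‖
  exact le_of_sq_le_sq (by linarith) (norm_nonneg _)

/-- the coordinates of a group element -/
noncomputable def co (B : Frame G n) (g : G) : EuclideanSpace ℝ (Fin n) := PX B.X (mt g - 1)

theorem mt_mul' (g h : G) : mt (g * h) = mt g * mt h := rfl

theorem mt_one' : mt (1 : G) = 1 := rfl

theorem mt_cont : Continuous (mt : G → Mat N) :=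
  continuous_subtype_val.comp continuous_subtype_val

theorem co_cont (B : Frame G n) : Continuous (co B) :=
  (PX B.X).continuous.comp (mt_cont.sub continuous_const)

theorem Dg_cont : Continuous (Dg : G → ℝ) := (mt_cont.sub continuous_const).norm

theorem Dg_nonneg (g : G) : 0 ≤ Dg g := norm_nonneg _

theorem Dg_one : Dg (1 : G) = 0 := by
  unfold Dg
  rw [mt_one', sub_self, norm_zero]

theorem co_one (B : Frame G n) : co B 1 = 0 := by
  unfold co
  rw [mt_one', sub_self, map_zero]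

theorem Dg_diff (g h : G) : ‖mt g - mt h‖ = Dg (h⁻¹ * g) := by
  have e : mt g - mt h = mt h * (mt (h⁻¹ * g) - 1) := by
    rw [mul_sub, mul_one, ← mt_mul', mul_inv_cancel_left]
  rw [e, norm_lmul']
  rfl

theorem Dg_inv (g : G) : Dg g⁻¹ = Dg g := by
  have h1 := Dg_diff (1 : G) g
  rw [mul_one, mt_one'] at h1
  rw [← h1, norm_sub_rev]
  rfl

theorem Dg_mul_le (g h : G) : Dg (g * h) ≤ Dg g + Dg h := by
  have h1 := Dg_diff h g⁻¹
  rw [inv_inv] at h1
  rw [← h1]
  have e : mt h - mt g⁻¹ = (mt h - 1) - (mt g⁻¹ - 1) := by abel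
  rw [e]
  calc _ ≤ ‖mt h - 1‖ + ‖mt g⁻¹ - 1‖ := norm_sub_le _ _
    _ = Dg h + Dg g⁻¹ := rfl
    _ = _ := by rw [Dg_inv, add_comm]

theorem norm_co_le (B : Frame G n) (g : G) : ‖co B g‖ ≤ Dg g := norm_PX_le B _

theorem co_mul (B : Frame G n) (g h : G) : ‖co B (g * h) - co B g - co B h‖ ≤ Dg g * Dg h := by
  have e : co B (g * h) - co B g - co B h = PX B.X ((mt g - 1) * (mt h - 1)) := by
    unfold co
    rw [← map_sub, ← map_sub, mt_mul']
    congr 1
    noncomm_ring
  rw [e]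
  exact (norm_PX_le B _).trans (norm_mul_le _ _)

theorem co_inv (B : Frame G n) (g : G) : co B g⁻¹ = -co B g := by
  apply PiLp.ext
  intro a
  show ip (B.X a) (mt g⁻¹ - 1) = -(ip (B.X a) (mt g - 1))
  have h1 : mt g⁻¹ = (mt g)ᴴ := rfl
  rw [h1, ip_apply, ip_apply, B.skewX, neg_mul, neg_mul, trace_neg, trace_neg, Complex.neg_re,
    Complex.neg_re, neg_neg]
  have h2 : (B.X a * ((mt g)ᴴ - 1)) = (((mt g) - 1) * (B.X a)ᴴ)ᴴ := by
    rw [conjTranspose_mul, conjTranspose_conjTranspose, conjTranspose_sub, conjTranspose_one]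
  rw [h2, trace_conjTranspose, B.skewX, mul_neg, trace_neg, star_neg, Complex.neg_re,
    trace_mul_comm]
  simp

/-- the Lie algebra is tangent to the group -/
theorem co_quad (hG : IsClosed (G : Set (UN N))) (B : Frame G n) :
    ∃ C : ℝ, 0 < C ∧ ∀ g : G, Dg g ^ 2 - ‖co B g‖ ^ 2 ≤ C ^ 2 * Dg g ^ 4 := by
  obtain ⟨C, hC, h⟩ := sub_quad hG B
  refine ⟨C, hC, fun g => ?_⟩
  have h1 := norm_Qp (ip_orth B) (mt g - 1)
  have h2 := norm_PX_sq B.X (mt g - 1)
  have h3 := h g
  have h4 : ‖Qp B.X (mt g - 1)‖ ^ 2 ≤ (C * ‖mt g - 1‖ ^ 2) ^ 2 :=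
    pow_le_pow_left₀ (norm_nonneg _) h3 2
  have h5 : (C * ‖mt g - 1‖ ^ 2) ^ 2 = C ^ 2 * Dg g ^ 4 := by
    unfold Dg
    ring
  rw [h5, h1, ← h2] at h4
  exact h4

theorem we_eq (g : G) : (trace (1 - mt g)).re = 1 / 2 * Dg g ^ 2 := by
  unfold Dg
  rw [norm_sq_ip, ip_apply, conjTranspose_sub, conjTranspose_one, sub_mul, mul_sub, one_mul,
    mul_one]
  have h1 : (mt g)ᴴ * mt g = 1 := rhoG_unit' g
  rw [h1]
  simp only [trace_sub, Complex.sub_re, trace_conjTranspose]
  have : (star (trace (mt g))).re = (trace (mt g)).re := by simp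
  rw [this]
  ring

theorem co_lower {B : Frame G n} {C : ℝ} (hC : 0 < C)
    (h : ∀ g : G, Dg g ^ 2 - ‖co B g‖ ^ 2 ≤ C ^ 2 * Dg g ^ 4) (g : G) :
    Dg g * (1 - C * Dg g) ≤ ‖co B g‖ := by
  rcases le_or_gt 1 (C * Dg g) with h1 | h1
  · exact (mul_nonpos_of_nonneg_of_nonpos (Dg_nonneg g) (by linarith)).trans (norm_nonneg _)
  · refine le_of_sq_le_sq ?_ (norm_nonneg _)
    have h2 := h g
    have h0 := Dg_nonneg g
    have h3 : 0 ≤ C * Dg g := by positivity
    have h4 : (Dg g * (1 - C * Dg g)) ^ 2 ≤ Dg g ^ 2 - C ^ 2 * Dg g ^ 4 := by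
      have : Dg g ^ 2 - C ^ 2 * Dg g ^ 4 - (Dg g * (1 - C * Dg g)) ^ 2 =
          2 * Dg g ^ 2 * (C * Dg g) * (1 - C * Dg g) := by ring
      have : 0 ≤ 2 * Dg g ^ 2 * (C * Dg g) * (1 - C * Dg g) := by
        have := sub_nonneg.2 h1.le
        positivity
      linarith
    linarith

/-- the coordinates are almost isometric -/
theorem co_near (hG : IsClosed (G : Set (UN N))) (B : Frame G n) (ε : ℝ) (hε : 0 < ε) :
    ∃ r : ℝ, 0 < r ∧ ∀ g h : G, Dg g < r → Dg h < r →
      (1 - ε) * ‖mt g - mt h‖ ≤ ‖co B g - co B h‖ ∧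
        ‖co B g - co B h‖ ≤ (1 + ε) * ‖mt g - mt h‖ := by
  obtain ⟨C, hC, hq⟩ := co_quad hG B
  refine ⟨ε / (2 * C + 1), by positivity, fun g h hg hh => ?_⟩
  set r := ε / (2 * C + 1) with hr
  have hr0 : 0 < r := by positivity
  have hrε : (2 * C + 1) * r = ε := by rw [hr]; field_simp
  set k := h⁻¹ * g with hk
  have hgk : g = h * k := by rw [hk, mul_inv_cancel_left]
  have hdk : ‖mt g - mt h‖ = Dg k := Dg_diff g h
  have hk2 : Dg k ≤ 2 * r := by
    rw [← hdk]
    have e : mt g - mt h = (mt g - 1) - (mt h - 1) := by abel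
    rw [e]
    have := norm_sub_le (mt g - 1) (mt h - 1)
    have h1 : ‖mt g - 1‖ < r := hg
    have h2 : ‖mt h - 1‖ < r := hh
    linarith
  have h1 := co_mul B h k
  rw [← hgk] at h1
  have h2 := co_lower hC hq k
  have h3 := norm_co_le B k
  have h0 := Dg_nonneg k
  have h0' := Dg_nonneg h
  have e1 : co B g - co B h = (co B g - co B h - co B k) + co B k := by abel
  have u1 : ‖co B g - co B h‖ ≤ ‖co B g - co B h - co B k‖ + ‖co B k‖ := by
    conv_lhs => rw [e1]
    exact norm_add_le _ _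
  have u2 : ‖co B k‖ ≤ ‖co B g - co B h - co B k‖ + ‖co B g - co B h‖ := by
    have e2 : co B k = -(co B g - co B h - co B k) + (co B g - co B h) := by abel
    conv_lhs => rw [e2]
    refine (norm_add_le _ _).trans ?_
    rw [norm_neg]
  have v1 : Dg h * Dg k ≤ r * Dg k := mul_le_mul_of_nonneg_right hh.le h0
  have v2 : Dg k * (C * Dg k) ≤ Dg k * (C * (2 * r)) := by gcongr
  rw [hdk]
  have hε' : ε * Dg k = 2 * C * r * Dg k + r * Dg k := by rw [← hrε]; ring
  have hCr : 0 ≤ 2 * C * r * Dg k := by positivity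
  constructor
  · nlinarith
  · nlinarith

theorem sum_aux {E F ι : Type*} [NormedAddCommGroup E] [NormedSpace ℝ E] [NormedAddCommGroup F]
    [NormedSpace ℝ F] [Fintype ι] (f : ι → E →L[ℝ] F) (x : E) :
    (∑ i, f i) x = ∑ i, f i x := by simp

/-- local surjectivity of the coordinates -/
theorem co_surj (B : Frame G n) (r : ℝ) (hr : 0 < r) :
    co B '' {g : G | Dg g < r} ∈ 𝓝 (0 : EuclideanSpace ℝ (Fin n)) := by
  let E := EuclideanSpace ℝ (Fin n)
  let Lx : Fin n → E →L[ℝ] Mat N := fun a =>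
    (EuclideanSpace.proj a : E →L[ℝ] ℝ).smulRight (B.X a)
  have hLx : ∀ a (x : E), Lx a x = x a • B.X a := fun a x => rfl
  have hexp : ∀ a, HasStrictFDerivAt (fun x : E => NormedSpace.exp (Lx a x)) (Lx a) 0 := by
    intro a
    have h1 : HasStrictFDerivAt (NormedSpace.exp : Mat N → Mat N) (1 : Mat N →L[ℝ] Mat N)
        (Lx a 0) := by
      rw [map_zero]
      exact hasStrictFDerivAt_exp_zero
    have h2 := h1.comp (0 : E) (Lx a).hasStrictFDerivAt
    exact h2
  let Φ : E → Mat N := fun x => ((List.finRange n).map fun a => NormedSpace.exp (Lx a x)).prod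
  have hΦ : HasStrictFDerivAt Φ (∑ i : Fin (List.finRange n).length,
      Lx ((List.finRange n)[i])) 0 := by
    have h1 := HasStrictFDerivAt.list_prod' (l := List.finRange n)
      (f := fun a (x : E) => NormedSpace.exp (Lx a x)) (f' := Lx) (x := 0) fun a _ => hexp a
    have h2 : ∀ l : List (Fin n), (l.map fun a => NormedSpace.exp (Lx a (0 : E))).prod =
        (1 : Mat N) := by
      intro l
      refine List.prod_eq_one fun x hx => ?_
      obtain ⟨a, -, rfl⟩ := List.mem_map.1 hx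
      rw [map_zero, NormedSpace.exp_zero]
    simp only [h2, one_smul, MulOpposite.op_one] at h1
    refine h1.congr_fderiv (ContinuousLinearMap.ext fun x => ?_)
    refine (sum_aux _ x).trans (Eq.trans ?_ (sum_aux _ x).symm)
    refine Finset.sum_congr rfl fun i _ => ?_
    simp
  have hsum : (∑ i : Fin (List.finRange n).length, Lx ((List.finRange n)[i])) =
      ∑ a : Fin n, Lx a := by
    exact Fintype.sum_equiv (finCongr (List.length_finRange (n := n)))
      (fun i => Lx ((List.finRange n)[i])) Lx (fun i => by simp)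
  rw [hsum] at hΦ
  have hF : HasStrictFDerivAt (fun x : E => PX B.X (Φ x - 1))
      ((PX B.X).comp (∑ a, Lx a)) 0 :=
    (PX B.X).hasStrictFDerivAt.comp (0 : E) (hΦ.sub_const 1)
  have hid : (PX B.X).comp (∑ a, Lx a) = ContinuousLinearMap.id ℝ E := by
    ext x b
    simp only [ContinuousLinearMap.comp_apply, _root_.sum_apply, hLx,
      ContinuousLinearMap.id_apply]
    rw [PX_apply, ip_sum_right]
    simp only [map_smul, smul_eq_mul, ip_orth B]
    simp
  rw [hid] at hF
  have hmap := hF.map_nhds_eq_of_surj (LinearMap.range_eq_top.2 fun x => ⟨x, rfl⟩)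
  let g : E → G := fun x => ((List.finRange n).map fun a => B.ex a (x a)).prod
  have hg : ∀ x, mt (g x) = Φ x := by
    intro x
    show mt (((List.finRange n).map fun a => B.ex a (x a)).prod) = _
    rw [mt_prod, List.map_map]
    congr 1
    refine List.map_congr_left fun a _ => ?_
    exact B.ex_eq a (x a)
  have h0 : PX B.X (Φ 0 - 1) = 0 := by
    have : Φ 0 = 1 := by
      refine List.prod_eq_one fun x hx => ?_
      obtain ⟨a, -, rfl⟩ := List.mem_map.1 hx
      rw [map_zero, NormedSpace.exp_zero]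
    rw [this, sub_self, map_zero]
  rw [h0] at hmap
  rw [← hmap, mem_map]
  have hcont : ContinuousAt (fun x => ‖Φ x - 1‖) 0 :=
    (hΦ.hasFDerivAt.continuousAt.sub continuousAt_const).norm
  have hev : ∀ᶠ x in 𝓝 (0 : E), ‖Φ x - 1‖ < r := by
    refine hcont.eventually (gt_mem_nhds ?_)
    show ‖Φ 0 - 1‖ < r
    have : Φ 0 = 1 := by
      refine List.prod_eq_one fun x hx => ?_
      obtain ⟨a, -, rfl⟩ := List.mem_map.1 hx
      rw [map_zero, NormedSpace.exp_zero]
    rw [this, sub_self, norm_zero]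
    exact hr
  filter_upwards [hev] with x hx
  refine ⟨g x, ?_, ?_⟩
  · show ‖mt (g x) - 1‖ < r
    rw [hg]
    exact hx
  · unfold co
    rw [hg]

end Pool.Agent.X217.YM
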