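import Mathlib
import Pool.Agent.X217.YM.Loc

/-!
# The density of the Haar measure of a closed subgroup of the unitary group
-/

open MeasureTheory Matrix Filter Metric
open scoped Matrix.Norms.Frobenius Topology

namespace Pool.Agent.X217.YM

open Pool.Agent.H906R3.YM Pool.Agent.TH369.WL Pool.Agent.W793.YM

variable {N n : ℕ}

/-- the group with its metric -/
def GM (G : Subgroup (UN N)) : Type := G

variable {G : Subgroup (UN N)}

instance : Group (GM G) := inferInstanceAs (Group G)

noncomputable instance instMetGM : MetricSpace (GM G) := inferInstanceAs (MetricSpace G)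

instance [h : MeasurableSpace G] : MeasurableSpace (GM G) := h

instance [MeasurableSpace G] [h : BorelSpace G] : BorelSpace (GM G) := h

instance : IsTopologicalGroup (GM G) := inferInstanceAs (IsTopologicalGroup G)

instance [h : CompactSpace G] : CompactSpace (GM G) := h

theorem dist_GM (g h : GM G) : dist g h = ‖mt (G := G) g - mt (G := G) h‖ :=
  dist_eq_norm (mt (G := G) g) (mt (G := G) h)

theorem dist_GM_one (g : GM G) : dist g 1 = Dg (G := G) g := dist_GM g 1

theorem ball_GM (r : ℝ) : (ball (1 : GM G) r : Set (GM G)) = {g | Dg (G := G) g < r} := by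
  ext g
  rw [mem_ball, dist_GM_one]
  rfl

theorem norm_left (a b c : G) : ‖mt (a * b) - mt (a * c)‖ = ‖mt b - mt c‖ := by
  have e : mt (a * b) - mt (a * c) = mt a * (mt b - mt c) := by
    rw [mul_sub]
    rfl
  rw [e, norm_lmul']

/-- **the density of the Haar measure** -/
theorem dens (hG : IsClosed (G : Set (UN N))) [MeasurableSpace G] [BorelSpace G]
    (μ : Measure G) [IsProbabilityMeasure μ] [h : μ.IsHaarMeasure] (B : Frame G n) :
    ∃ ρ : ℝ, 0 < ρ ∧ ∀ ε : ℝ, 0 < ε → ∃ r₀ : ℝ, 0 < r₀ ∧ ∀ r : ℝ, 0 < r → r ≤ r₀ →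
      (μ.restrict {g | Dg g < r}).map (co B) ≤ ENNReal.ofReal (ρ * (1 + ε)) • volume ∧
      ENNReal.ofReal (ρ * (1 - ε)) • volume.restrict (ball 0 (r / 2)) ≤
        (μ.restrict {g | Dg g < r}).map (co B) := by
  have hc : CompactSpace G := by
    have h1 : IsCompact (G : Set (UN N)) := hG.isCompact
    exact isCompact_iff_compactSpace.1 h1
  let π : GM G → EuclideanSpace ℝ (Fin n) := fun g => co (G := G) B g
  have hπ : Coord π := by
    refine ⟨co_cont B, co_one B, fun ε hε => ?_, fun r hr => ?_⟩
    · obtain ⟨r, hr, hn⟩ := co_near hG B ε hε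
      refine ⟨r, hr, fun g k hg hk => ?_⟩
      rw [dist_GM_one] at hg hk
      have := hn (g : G) (k : G) hg hk
      rw [dist_eq_norm (π g) (π k), dist_GM]
      exact this
    · rw [ball_GM]
      exact co_surj B r hr
  let μ' : Measure (GM G) := μ
  have : IsProbabilityMeasure μ' := ‹IsProbabilityMeasure μ›
  have : μ'.IsHaarMeasure := h
  have hinv : ∀ a b c : GM G, dist (a * b) (a * c) = dist b c := fun a b c => by
    rw [dist_GM, dist_GM]
    exact norm_left a b c
  have h1 := haar_density μ' hinv hπ
  simp only [ball_GM] at h1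
  exact h1

end Pool.Agent.X217.YM
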