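import Mathlib

/-!
# Gaussian integrals
-/

open MeasureTheory Matrix
open scoped ENNReal MatrixOrder

set_option linter.unusedSectionVars false

namespace Pool.Agent.X217.YM

variable {κ : Type*} [Fintype κ] [DecidableEq κ]

theorem posdef_sqrt {M : Matrix κ κ ℝ} (hM : M.PosDef) :
    ∃ B : Matrix κ κ ℝ, M = Bᵀ * B ∧ 0 < |B.det| ∧ B.det ^ 2 = M.det := by
  obtain ⟨B, hB⟩ := CStarAlgebra.nonneg_iff_eq_star_mul_self.mp hM.posSemidef.nonneg
  have h1 : M = Bᵀ * B := by
    rw [hB, star_eq_conjTranspose, conjTranspose_eq_transpose_of_trivial]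
  have h2 : B.det ^ 2 = M.det := by
    rw [h1, det_mul, det_transpose, sq]
  refine ⟨B, h1, ?_, h2⟩
  have h3 := hM.det_pos
  rw [← h2] at h3
  exact abs_pos.2 (fun h => by rw [h] at h3; norm_num at h3)

/-- the Gaussian integral of a matrix -/
theorem gauss_mat {M : Matrix κ κ ℝ} (hM : M.PosDef) :
    ∫ v : κ → ℝ, Real.exp (-(1 / 2 * (v ⬝ᵥ M *ᵥ v))) =
      Real.sqrt (2 * Real.pi) ^ Fintype.card κ / Real.sqrt M.det := by
  obtain ⟨B, h1, h2, h3⟩ := posdef_sqrt hM
  have hdet : B.det ≠ 0 := abs_pos.1 h2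
  have h4 : ∀ v : κ → ℝ, v ⬝ᵥ M *ᵥ v = ∑ k, (toLin' B v) k ^ 2 := by
    intro v
    rw [h1, ← mulVec_mulVec, dotProduct_mulVec, vecMul_transpose, toLin'_apply]
    simp only [dotProduct, sq]
  simp only [h4]
  have h5 := Real.map_matrix_volume_pi_eq_smul_volume_pi hdet
  have hf : Continuous fun w : κ → ℝ => Real.exp (-(1 / 2 * ∑ k, w k ^ 2)) := by fun_prop
  have h6 : ∫ v : κ → ℝ, Real.exp (-(1 / 2 * ∑ k, (toLin' B v) k ^ 2)) =
      ∫ w : κ → ℝ, Real.exp (-(1 / 2 * ∑ k, w k ^ 2)) ∂(Measure.map (toLin' B) volume) := by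
    rw [integral_map]
    · exact (LinearMap.continuous_of_finiteDimensional (toLin' B)).aemeasurable
    · exact hf.aestronglyMeasurable
  have h7 : ∫ w : κ → ℝ, Real.exp (-(1 / 2 * ∑ k, w k ^ 2)) =
      Real.sqrt (2 * Real.pi) ^ Fintype.card κ := by
    have e1 : ∀ w : κ → ℝ, Real.exp (-(1 / 2 * ∑ k, w k ^ 2)) =
        ∏ k, Real.exp (-(1 / 2) * w k ^ 2) := by
      intro w
      rw [← Real.exp_sum, Finset.mul_sum, ← Finset.sum_neg_distrib]
      congr 1
      refine Finset.sum_congr rfl fun k _ => by ring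
    simp only [e1]
    rw [integral_fintype_prod_volume_eq_pow (fun x : ℝ => Real.exp (-(1 / 2) * x ^ 2)),
      integral_gaussian]
    congr 2
    ring
  rw [h6, h5, integral_smul_measure, h7, ENNReal.toReal_ofReal (abs_nonneg _), smul_eq_mul,
    abs_inv, div_eq_inv_mul]
  congr 2
  rw [← h3, Real.sqrt_sq_eq_abs]

section vec

variable {n : ℕ}

/-- the components of a vector valued field, uncurried -/
theorem uncurry_mp : MeasurePreserving
    (fun (A : κ → EuclideanSpace ℝ (Fin n)) (p : κ × Fin n) => A p.1 p.2) := by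
  have h1 : MeasurePreserving (fun (A : κ → EuclideanSpace ℝ (Fin n)) (k : κ) =>
      (WithLp.ofLp (A k) : Fin n → ℝ)) :=
    volume_preserving_pi fun _ => PiLp.volume_preserving_ofLp (Fin n)
  have hm : Measurable fun (V : κ → Fin n → ℝ) (p : κ × Fin n) => V p.1 p.2 := by fun_prop
  have h2 : MeasurePreserving (fun (V : κ → Fin n → ℝ) (p : κ × Fin n) => V p.1 p.2) := by
    refine ⟨hm, ?_⟩
    refine (Measure.pi_eq fun s hs => ?_).symm
    rw [Measure.map_apply hm (MeasurableSet.univ_pi hs)]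
    have e1 : (fun (V : κ → Fin n → ℝ) (p : κ × Fin n) => V p.1 p.2) ⁻¹' (Set.univ.pi s) =
        Set.univ.pi fun k => Set.univ.pi fun a => s (k, a) := by
      ext V
      simp only [Set.mem_preimage, Set.mem_pi, Set.mem_univ, forall_true_left]
      exact ⟨fun h k a => h (k, a), fun h p => h p.1 p.2⟩
    rw [e1, volume_pi_pi, Fintype.prod_prod_type]
    exact Finset.prod_congr rfl fun k _ => volume_pi_pi _
  exact h2.comp h1

theorem uncurry_swap_mp : MeasurePreserving
    (fun (V : Fin n → κ → ℝ) (p : κ × Fin n) => V p.2 p.1) := by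
  have hm : Measurable fun (V : Fin n → κ → ℝ) (p : κ × Fin n) => V p.2 p.1 := by fun_prop
  refine ⟨hm, ?_⟩
  refine (Measure.pi_eq fun s hs => ?_).symm
  rw [Measure.map_apply hm (MeasurableSet.univ_pi hs)]
  have e1 : (fun (V : Fin n → κ → ℝ) (p : κ × Fin n) => V p.2 p.1) ⁻¹' (Set.univ.pi s) =
      Set.univ.pi fun a => Set.univ.pi fun k => s (k, a) := by
    ext V
    simp only [Set.mem_preimage, Set.mem_pi, Set.mem_univ, forall_true_left]
    exact ⟨fun h a k => h (k, a), fun h p => h p.2 p.1⟩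
  rw [e1, volume_pi_pi, Fintype.prod_prod_type, Finset.prod_comm]
  exact Finset.prod_congr rfl fun k _ => volume_pi_pi _

/-- the Gaussian integral of a vector valued field -/
theorem gauss_vec {M : Matrix κ κ ℝ} (hM : M.PosDef) :
    ∫ A : κ → EuclideanSpace ℝ (Fin n),
      Real.exp (-(1 / 2 * ∑ a, ((fun k => A k a) ⬝ᵥ M *ᵥ (fun k => A k a)))) =
      (Real.sqrt (2 * Real.pi) ^ Fintype.card κ / Real.sqrt M.det) ^ n := by
  let f : (κ × Fin n → ℝ) → ℝ := fun W =>
    Real.exp (-(1 / 2 * ∑ a, ((fun k => W (k, a)) ⬝ᵥ M *ᵥ (fun k => W (k, a)))))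
  have hf : Continuous f := by
    simp only [f, dotProduct, mulVec]
    fun_prop
  have h1 : ∫ A : κ → EuclideanSpace ℝ (Fin n),
      Real.exp (-(1 / 2 * ∑ a, ((fun k => A k a) ⬝ᵥ M *ᵥ (fun k => A k a)))) =
      ∫ W : κ × Fin n → ℝ, f W := by
    have := (uncurry_mp (κ := κ) (n := n)).map_eq
    rw [← this, integral_map (uncurry_mp (κ := κ) (n := n)).measurable.aemeasurable
      hf.aestronglyMeasurable]
  have h2 : ∫ V : Fin n → κ → ℝ, ∏ a, Real.exp (-(1 / 2 * (V a ⬝ᵥ M *ᵥ V a))) =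
      ∫ W : κ × Fin n → ℝ, f W := by
    have := (uncurry_swap_mp (κ := κ) (n := n)).map_eq
    rw [← this, integral_map (uncurry_swap_mp (κ := κ) (n := n)).measurable.aemeasurable
      hf.aestronglyMeasurable]
    refine integral_congr_ae (Filter.Eventually.of_forall fun V => ?_)
    simp only [f]
    rw [← Real.exp_sum, Finset.mul_sum, ← Finset.sum_neg_distrib]
  rw [h1, ← h2, integral_fintype_prod_volume_eq_pow
    (fun v : κ → ℝ => Real.exp (-(1 / 2 * (v ⬝ᵥ M *ᵥ v)))), gauss_mat hM, Fintype.card_fin]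

theorem gauss_vec_integrable {M : Matrix κ κ ℝ} (hM : M.PosDef) :
    Integrable fun A : κ → EuclideanSpace ℝ (Fin n) =>
      Real.exp (-(1 / 2 * ∑ a, ((fun k => A k a) ⬝ᵥ M *ᵥ (fun k => A k a)))) := by
  by_contra h
  have h1 := integral_undef h
  rw [gauss_vec hM] at h1
  have h2 : 0 < Real.sqrt M.det := Real.sqrt_pos.2 hM.det_pos
  have h3 : 0 < Real.sqrt (2 * Real.pi) := Real.sqrt_pos.2 (by positivity)
  have : 0 < (Real.sqrt (2 * Real.pi) ^ Fintype.card κ / Real.sqrt M.det) ^ n := by positivity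
  linarith

end vec

end Pool.Agent.X217.YM
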