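import Mathlib

/-!
# Laplace asymptotics on products of groups
-/

open MeasureTheory Filter Metric
open scoped ENNReal Topology NNReal

set_option linter.unusedSectionVars false

namespace Pool.Agent.X217.YM

section mono

variable {κ : Type*} [Fintype κ] {α : Type*} [MeasurableSpace α]

theorem pi_mono_meas (ν ν' : Measure α) [SigmaFinite ν] [SigmaFinite ν'] (h : ν ≤ ν') :
    Measure.pi (fun _ : κ => ν) ≤ Measure.pi (fun _ : κ => ν') := by
  have h1 : (Measure.pi fun _ : κ => ν).toOuterMeasure ≤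
      OuterMeasure.pi fun _ : κ => ν'.toOuterMeasure := by
    rw [OuterMeasure.le_pi]
    intro s _
    show Measure.pi (fun _ : κ => ν) (Set.univ.pi s) ≤ _
    rw [Measure.pi_pi]
    exact Finset.prod_le_prod' fun k _ => h (s k)
  refine Measure.le_iff.2 fun X hX => ?_
  have h2 : Measure.pi (fun _ : κ => ν') X = OuterMeasure.pi (fun _ : κ => ν'.toOuterMeasure) X := by
    rw [Measure.pi, toMeasure_apply _ _ hX]
  rw [h2]
  exact h1 X

theorem pi_smul_meas (c : ℝ≥0) (ν : Measure α) [SigmaFinite ν] :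
    Measure.pi (fun _ : κ => c • ν) = (c : ℝ≥0∞) ^ Fintype.card κ • Measure.pi (fun _ : κ => ν) := by
  refine Measure.pi_eq fun s _ => ?_
  rw [Measure.smul_apply, Measure.pi_pi, smul_eq_mul, ← Finset.card_univ, ← Finset.prod_const,
    ← Finset.prod_mul_distrib]
  rfl

end mono

section lap

variable {κ : Type*} [Fintype κ] {n : ℕ}

/-- the scaling of Gaussian type integrals -/
theorem scale_lint (h : (κ → EuclideanSpace ℝ (Fin n)) → ℝ≥0∞) (hh : Measurable h) {t : ℝ}
    (ht : 0 < t) : ∫⁻ A, h (t • A) = ENNReal.ofReal (t ^ (n * Fintype.card κ))⁻¹ * ∫⁻ A, h A := by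
  have h1 := Measure.map_addHaar_smul (volume : Measure (κ → EuclideanSpace ℝ (Fin n))) ht.ne'
  have h2 : Module.finrank ℝ (κ → EuclideanSpace ℝ (Fin n)) = n * Fintype.card κ := by
    rw [Module.finrank_pi_fintype]
    simp [mul_comm]
  rw [h2, abs_of_pos (by positivity)] at h1
  rw [← lintegral_map hh (measurable_const_smul t), h1, lintegral_smul_measure, smul_eq_mul]

variable {Γ : Type*} [MeasurableSpace Γ] (μ : Measure Γ) [IsProbabilityMeasure μ]

theorem lap_upper {D : Γ → ℝ} (hD : Measurable D) {π : Γ → EuclideanSpace ℝ (Fin n)}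
    (hπ : Measurable π) {ρ ε r : ℝ} (hρ : 0 < ρ) (hε : 0 < ε)
    (hdens : (μ.restrict {g | D g < r}).map π ≤ ENNReal.ofReal (ρ * (1 + ε)) • volume)
    {S : (κ → Γ) → ℝ} {Q : (κ → EuclideanSpace ℝ (Fin n)) → ℝ} (hQ : Continuous Q)
    (hQs : ∀ (s : ℝ) A, Q (s • A) = s ^ 2 * Q A) {C₀ : ℝ} (hC₀ : 0 < C₀)
    (hr : 0 < r)
    (hcoer : ∀ U k, D (U k) ^ 2 ≤ C₀ * S U)
    (hquad : ∀ U, (∀ k, D (U k) < r) → |S U - 1 / 2 * Q (fun k => π (U k))| ≤ ε * S U)
    {β : ℝ} (hβ : 0 < β) :
    ∫⁻ U, ENNReal.ofReal (Real.exp (-(β * S U))) ∂(Measure.pi fun _ : κ => μ) ≤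
      ENNReal.ofReal ((ρ * (1 + ε)) ^ Fintype.card κ) *
        (ENNReal.ofReal (Real.sqrt (β / (1 + ε)) ^ (n * Fintype.card κ))⁻¹ *
          ∫⁻ A, ENNReal.ofReal (Real.exp (-(1 / 2 * Q A)))) +
      ENNReal.ofReal (Real.exp (-(β * (r ^ 2 / C₀)))) := by
  classical
  set X : Set (κ → Γ) := Set.univ.pi fun _ => {g | D g < r} with hX
  have hXm : MeasurableSet X := MeasurableSet.univ_pi fun _ => measurableSet_lt hD measurable_const
  rw [← lintegral_add_compl _ hXm]
  refine add_le_add ?_ ?_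
  · set t := Real.sqrt (β / (1 + ε)) with ht
    have ht0 : 0 < t := Real.sqrt_pos.2 (by positivity)
    have ht2 : t ^ 2 = β / (1 + ε) := Real.sq_sqrt (by positivity)
    set h : (κ → EuclideanSpace ℝ (Fin n)) → ℝ≥0∞ := fun A =>
      ENNReal.ofReal (Real.exp (-(1 / 2 * Q A))) with hh
    have hhm : Measurable h := (hQ.measurable.const_mul _).neg.exp.ennreal_ofReal
    have hts : Measurable fun A : κ → EuclideanSpace ℝ (Fin n) => h (t • A) :=
      hhm.comp (measurable_const_smul t)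
    have h1 : ∫⁻ U in X, ENNReal.ofReal (Real.exp (-(β * S U))) ∂(Measure.pi fun _ : κ => μ) ≤
        ∫⁻ U in X, h (t • fun k => π (U k)) ∂(Measure.pi fun _ : κ => μ) := by
      refine setLIntegral_mono' hXm fun U hU => ?_
      have hU' : ∀ k, D (U k) < r := fun k => hU k (Set.mem_univ k)
      have h2 := (abs_le.1 (hquad U hU')).1
      simp only [hh]
      refine ENNReal.ofReal_le_ofReal (Real.exp_le_exp.2 ?_)
      rw [hQs, ht2]
      have h3 : 1 / 2 * Q (fun k => π (U k)) ≤ (1 + ε) * S U := by linarith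
      have h4 : β / (1 + ε) * (1 / 2 * Q (fun k => π (U k))) ≤ β * S U := by
        calc _ ≤ β / (1 + ε) * ((1 + ε) * S U) := by gcongr
          _ = _ := by field_simp
      linarith
    refine h1.trans ?_
    have hmp : Measurable fun (U : κ → Γ) (k : κ) => π (U k) := by fun_prop
    have h5 : ∫⁻ U in X, h (t • fun k => π (U k)) ∂(Measure.pi fun _ : κ => μ) =
        ∫⁻ A, h (t • A) ∂(Measure.pi fun _ : κ => (μ.restrict {g | D g < r}).map π) := by
      rw [hX, Measure.restrict_pi_pi, ← Measure.pi_map_pi (fun _ => hπ.aemeasurable),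
        lintegral_map hts hmp]
    rw [h5]
    have hc : ENNReal.ofReal (ρ * (1 + ε)) • (volume : Measure (EuclideanSpace ℝ (Fin n))) =
        (Real.toNNReal (ρ * (1 + ε))) • (volume : Measure (EuclideanSpace ℝ (Fin n))) := rfl
    rw [hc] at hdens
    have h6 := pi_mono_meas (κ := κ) _ _ hdens
    rw [pi_smul_meas] at h6
    refine (lintegral_mono' h6 le_rfl).trans (le_of_eq ?_)
    rw [lintegral_smul_measure, smul_eq_mul]
    congr 1
    · rw [ENNReal.ofReal_pow (by positivity)]
      rfl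
    · exact scale_lint h hhm ht0
  · calc ∫⁻ U in Xᶜ, ENNReal.ofReal (Real.exp (-(β * S U))) ∂(Measure.pi fun _ : κ => μ)
        ≤ ∫⁻ _U in Xᶜ, ENNReal.ofReal (Real.exp (-(β * (r ^ 2 / C₀))))
          ∂(Measure.pi fun _ : κ => μ) := by
          refine setLIntegral_mono' hXm.compl fun U hU => ?_
          have : ∃ k, r ≤ D (U k) := by
            by_contra h
            push Not at h
            exact hU fun k _ => h k
          obtain ⟨k, hk⟩ := this
          refine ENNReal.ofReal_le_ofReal (Real.exp_le_exp.2 ?_)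
          have h2 := hcoer U k
          have h3 : r ^ 2 ≤ D (U k) ^ 2 := pow_le_pow_left₀ hr.le hk 2
          have h4 : r ^ 2 / C₀ ≤ S U := by
            rw [div_le_iff₀ hC₀]
            linarith
          have := mul_le_mul_of_nonneg_left h4 hβ.le
          linarith
      _ ≤ ∫⁻ _U, ENNReal.ofReal (Real.exp (-(β * (r ^ 2 / C₀))))
          ∂(Measure.pi fun _ : κ => μ) := setLIntegral_le_lintegral _ _
      _ = _ := by simp

theorem lap_lower {D : Γ → ℝ} (hD : Measurable D) {π : Γ → EuclideanSpace ℝ (Fin n)}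
    (hπ : Measurable π) {ρ ε r : ℝ} (hρ : 0 < ρ) (hε1 : ε < 1)
    (hdens : ENNReal.ofReal (ρ * (1 - ε)) • volume.restrict (ball 0 (r / 2)) ≤
      (μ.restrict {g | D g < r}).map π)
    {S : (κ → Γ) → ℝ} {Q : (κ → EuclideanSpace ℝ (Fin n)) → ℝ} (hQ : Continuous Q)
    (hQs : ∀ (s : ℝ) A, Q (s • A) = s ^ 2 * Q A)
    (hquad : ∀ U, (∀ k, D (U k) < r) → |S U - 1 / 2 * Q (fun k => π (U k))| ≤ ε * S U)
    {β : ℝ} (hβ : 0 < β) :
    ENNReal.ofReal ((ρ * (1 - ε)) ^ Fintype.card κ) *
        (ENNReal.ofReal (Real.sqrt (β / (1 - ε)) ^ (n * Fintype.card κ))⁻¹ *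
          ∫⁻ A in Set.univ.pi fun _ : κ => ball 0 (Real.sqrt (β / (1 - ε)) * (r / 2)),
            ENNReal.ofReal (Real.exp (-(1 / 2 * Q A)))) ≤
      ∫⁻ U, ENNReal.ofReal (Real.exp (-(β * S U))) ∂(Measure.pi fun _ : κ => μ) := by
  classical
  have hε1' : 0 < 1 - ε := by linarith
  set X : Set (κ → Γ) := Set.univ.pi fun _ => {g | D g < r} with hX
  have hXm : MeasurableSet X := MeasurableSet.univ_pi fun _ => measurableSet_lt hD measurable_const
  refine le_trans ?_ (setLIntegral_le_lintegral X _)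
  set t := Real.sqrt (β / (1 - ε)) with ht
  have ht0 : 0 < t := Real.sqrt_pos.2 (by positivity)
  have ht2 : t ^ 2 = β / (1 - ε) := Real.sq_sqrt (by positivity)
  set h : (κ → EuclideanSpace ℝ (Fin n)) → ℝ≥0∞ := fun A =>
    ENNReal.ofReal (Real.exp (-(1 / 2 * Q A))) with hh
  have hhm : Measurable h := (hQ.measurable.const_mul _).neg.exp.ennreal_ofReal
  have hts : Measurable fun A : κ → EuclideanSpace ℝ (Fin n) => h (t • A) :=
    hhm.comp (measurable_const_smul t)
  have h1 : ∫⁻ U in X, h (t • fun k => π (U k)) ∂(Measure.pi fun _ : κ => μ) ≤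
      ∫⁻ U in X, ENNReal.ofReal (Real.exp (-(β * S U))) ∂(Measure.pi fun _ : κ => μ) := by
    refine setLIntegral_mono' hXm fun U hU => ?_
    have hU' : ∀ k, D (U k) < r := fun k => hU k (Set.mem_univ k)
    have h2 := (abs_le.1 (hquad U hU')).2
    simp only [hh]
    refine ENNReal.ofReal_le_ofReal (Real.exp_le_exp.2 ?_)
    rw [hQs, ht2]
    have h3 : (1 - ε) * S U ≤ 1 / 2 * Q (fun k => π (U k)) := by linarith
    have h4 : β * S U ≤ β / (1 - ε) * (1 / 2 * Q (fun k => π (U k))) := by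
      calc β * S U = β / (1 - ε) * ((1 - ε) * S U) := by field_simp
        _ ≤ _ := by gcongr
    linarith
  refine le_trans ?_ h1
  have hmp : Measurable fun (U : κ → Γ) (k : κ) => π (U k) := by fun_prop
  have h5 : ∫⁻ U in X, h (t • fun k => π (U k)) ∂(Measure.pi fun _ : κ => μ) =
      ∫⁻ A, h (t • A) ∂(Measure.pi fun _ : κ => (μ.restrict {g | D g < r}).map π) := by
    rw [hX, Measure.restrict_pi_pi, ← Measure.pi_map_pi (fun _ => hπ.aemeasurable),
      lintegral_map hts hmp]
  rw [h5]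
  have hc : ENNReal.ofReal (ρ * (1 - ε)) •
      (volume.restrict (ball 0 (r / 2)) : Measure (EuclideanSpace ℝ (Fin n))) =
      (Real.toNNReal (ρ * (1 - ε))) •
      (volume.restrict (ball 0 (r / 2)) : Measure (EuclideanSpace ℝ (Fin n))) := rfl
  rw [hc] at hdens
  have h6 := pi_mono_meas (κ := κ) _ _ hdens
  rw [pi_smul_meas] at h6
  refine le_trans (le_of_eq ?_) (lintegral_mono' h6 le_rfl)
  rw [lintegral_smul_measure, smul_eq_mul]
  congr 1
  · rw [ENNReal.ofReal_pow (by positivity)]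
    rfl
  · rw [← Measure.restrict_pi_pi]
    -- scaling
    set Y : Set (κ → EuclideanSpace ℝ (Fin n)) :=
      Set.univ.pi fun _ : κ => ball 0 (t * (r / 2)) with hY
    have hYm : MeasurableSet Y := MeasurableSet.univ_pi fun _ => measurableSet_ball
    have hsc := scale_lint (Y.indicator h) (hhm.indicator hYm) ht0
    rw [lintegral_indicator hYm] at hsc
    refine hsc.symm.trans ?_
    rw [← lintegral_indicator (MeasurableSet.univ_pi fun _ => measurableSet_ball)]
    refine lintegral_congr fun A => ?_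
    have hiff : t • A ∈ Y ↔ A ∈ Set.univ.pi fun _ : κ =>
        (ball 0 (r / 2) : Set (EuclideanSpace ℝ (Fin n))) := by
      simp only [hY, Set.mem_pi, Set.mem_univ, forall_true_left, mem_ball, dist_zero_right,
        Pi.smul_apply, norm_smul, Real.norm_eq_abs, abs_of_pos ht0]
      exact forall_congr' fun k => mul_lt_mul_iff_right₀ ht0
    by_cases hA : t • A ∈ Y
    · rw [Set.indicator_of_mem hA, Set.indicator_of_mem (hiff.1 hA)]
    · rw [Set.indicator_of_notMem hA, Set.indicator_of_notMem (fun h => hA (hiff.2 h))]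

end lap

end Pool.Agent.X217.YM
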