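import Mathlib
import Pool.Agent.X217.YM.Laplace

/-!
# Laplace asymptotics on products of groups: the limit
-/

open MeasureTheory Filter Metric
open scoped ENNReal Topology NNReal

set_option linter.unusedSectionVars false

namespace Pool.Agent.X217.YM

variable {κ : Type*} [Fintype κ] {n : ℕ} {Γ : Type*} [MeasurableSpace Γ] (μ : Measure Γ)
  [IsProbabilityMeasure μ]

theorem lap_lim {D : Γ → ℝ} (hD : Measurable D) {π : Γ → EuclideanSpace ℝ (Fin n)}
    (hπ : Measurable π) {ρ : ℝ} (hρ : 0 < ρ)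
    (hdens : ∀ ε : ℝ, 0 < ε → ∃ r₀ : ℝ, 0 < r₀ ∧ ∀ r : ℝ, 0 < r → r ≤ r₀ →
      (μ.restrict {g | D g < r}).map π ≤ ENNReal.ofReal (ρ * (1 + ε)) • volume ∧
      ENNReal.ofReal (ρ * (1 - ε)) • volume.restrict (ball 0 (r / 2)) ≤
        (μ.restrict {g | D g < r}).map π)
    {S : (κ → Γ) → ℝ} (hSm : Measurable S) (hS0 : ∀ U, 0 ≤ S U)
    {Q : (κ → EuclideanSpace ℝ (Fin n)) → ℝ} (hQ : Continuous Q)
    (hQs : ∀ (s : ℝ) A, Q (s • A) = s ^ 2 * Q A)
    (hint : Integrable fun A => Real.exp (-(1 / 2 * Q A))) {C₀ : ℝ} (hC₀ : 0 < C₀)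
    (hcoer : ∀ U k, D (U k) ^ 2 ≤ C₀ * S U)
    (hquad : ∀ ε : ℝ, 0 < ε → ∃ r : ℝ, 0 < r ∧ ∀ U, (∀ k, D (U k) < r) →
      |S U - 1 / 2 * Q (fun k => π (U k))| ≤ ε * S U) :
    Tendsto (fun β : ℝ => Real.sqrt β ^ (n * Fintype.card κ) *
      ∫ U, Real.exp (-(β * S U)) ∂(Measure.pi fun _ : κ => μ)) atTop
      (𝓝 (ρ ^ Fintype.card κ * ∫ A, Real.exp (-(1 / 2 * Q A)))) := by
  classical
  set J := ∫ A, Real.exp (-(1 / 2 * Q A)) with hJ
  have hJ0 : 0 ≤ J := integral_nonneg fun A => (Real.exp_pos _).le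
  set K := Fintype.card κ
  set M := n * K with hM
  have hJl : ∫⁻ A, ENNReal.ofReal (Real.exp (-(1 / 2 * Q A))) = ENNReal.ofReal J :=
    (ofReal_integral_eq_lintegral_ofReal hint
      (Eventually.of_forall fun A => (Real.exp_pos _).le)).symm
  have hZi : ∀ β : ℝ, 0 < β → Integrable (fun U : κ → Γ => Real.exp (-(β * S U)))
      (Measure.pi fun _ => μ) := by
    intro β hβ
    refine Integrable.of_bound (C := 1) (hSm.const_mul β).neg.exp.aestronglyMeasurable
      (Eventually.of_forall fun x => ?_)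
    rw [Real.norm_eq_abs, abs_of_pos (Real.exp_pos _), Real.exp_le_one_iff]
    have := mul_nonneg hβ.le (hS0 x)
    linarith
  have hZl : ∀ β : ℝ, 0 < β →
      ∫⁻ U, ENNReal.ofReal (Real.exp (-(β * S U))) ∂(Measure.pi fun _ : κ => μ) =
        ENNReal.ofReal (∫ U, Real.exp (-(β * S U)) ∂(Measure.pi fun _ : κ => μ)) := fun β hβ =>
    (ofReal_integral_eq_lintegral_ofReal (hZi β hβ)
      (Eventually.of_forall fun A => (Real.exp_pos _).le)).symm
  have hZ0 : ∀ β : ℝ, 0 ≤ ∫ U, Real.exp (-(β * S U)) ∂(Measure.pi fun _ : κ => μ) := fun β =>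
    integral_nonneg fun A => (Real.exp_pos _).le
  refine tendsto_order.2 ⟨fun a ha => ?_, fun b hb => ?_⟩
  · -- lower bound
    have hcont : Tendsto (fun ε : ℝ => (ρ * (1 - ε)) ^ K * (Real.sqrt (1 - ε) ^ M * J)) (𝓝 0)
        (𝓝 ((ρ * (1 - 0)) ^ K * (Real.sqrt (1 - 0) ^ M * J))) := by
      have : Continuous fun ε : ℝ => (ρ * (1 - ε)) ^ K * (Real.sqrt (1 - ε) ^ M * J) := by
        fun_prop
      exact this.tendsto 0
    simp only [sub_zero, mul_one, Real.sqrt_one, one_pow, one_mul] at hcont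
    have hev := hcont.eventually (lt_mem_nhds ha)
    have hev2 : ∀ᶠ ε : ℝ in 𝓝 0, ε < 1 := gt_mem_nhds (by norm_num)
    obtain ⟨δ, hδ, h⟩ := Metric.eventually_nhds_iff.1 (hev.and hev2)
    set ε := δ / 2 with hε
    have hε0 : 0 < ε := by positivity
    obtain ⟨h1, hε1⟩ := h (y := ε) (by
      rw [Real.dist_eq, sub_zero, abs_of_pos hε0]; linarith)
    have hε1' : 0 < 1 - ε := by linarith
    obtain ⟨r₀, hr₀, hd⟩ := hdens ε hε0
    obtain ⟨r₁, hr₁, hq⟩ := hquad ε hε0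
    set r := min r₀ r₁ with hr
    have hr0 : 0 < r := lt_min hr₀ hr₁
    have hd' := (hd r hr0 (min_le_left _ _)).2
    have hq' : ∀ U : κ → Γ, (∀ k, D (U k) < r) →
        |S U - 1 / 2 * Q (fun k => π (U k))| ≤ ε * S U :=
      fun U hU => hq U fun k => (hU k).trans_le (min_le_right _ _)
    -- the truncated Gaussian integral
    let Y : ℝ → Set (κ → EuclideanSpace ℝ (Fin n)) := fun R => Set.univ.pi fun _ => ball 0 R
    have hYm : ∀ R, MeasurableSet (Y R) := fun R => MeasurableSet.univ_pi fun _ =>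
      measurableSet_ball
    have hYmono : Monotone Y := fun R R' hR => Set.pi_mono fun _ _ => ball_subset_ball hR
    have hYU : ⋃ R, Y R = Set.univ := by
      refine Set.eq_univ_of_forall fun A => Set.mem_iUnion.2 ⟨‖A‖ + 1, fun k _ => ?_⟩
      rw [mem_ball, dist_zero_right]
      have := norm_le_pi_norm A k
      linarith
    have hT := tendsto_setIntegral_of_monotone (μ := volume)
      (f := fun A => Real.exp (-(1 / 2 * Q A))) hYm hYmono (hint.integrableOn)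
    rw [hYU, Measure.restrict_univ] at hT
    have hR : Tendsto (fun β : ℝ => Real.sqrt (β / (1 - ε)) * (r / 2)) atTop atTop :=
      (Real.tendsto_sqrt_atTop.comp (tendsto_id.atTop_div_const hε1')).atTop_mul_const
        (by positivity)
    have hT2 := ((hT.comp hR).const_mul (Real.sqrt (1 - ε) ^ M)).const_mul ((ρ * (1 - ε)) ^ K)
    have hev3 := hT2.eventually (lt_mem_nhds h1)
    filter_upwards [hev3, eventually_gt_atTop 0] with β h3 hβ
    refine h3.trans_le ?_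
    have h4 := lap_lower μ hD hπ hρ hε1 hd' hQ hQs hq' hβ
    have h5 : ∫⁻ A in Set.univ.pi fun _ : κ => ball 0 (Real.sqrt (β / (1 - ε)) * (r / 2)),
        ENNReal.ofReal (Real.exp (-(1 / 2 * Q A))) =
        ENNReal.ofReal (∫ A in Y (Real.sqrt (β / (1 - ε)) * (r / 2)),
          Real.exp (-(1 / 2 * Q A))) :=
      (ofReal_integral_eq_lintegral_ofReal hint.integrableOn
        (Eventually.of_forall fun A => (Real.exp_pos _).le)).symm
    have hI0 : 0 ≤ ∫ A in Y (Real.sqrt (β / (1 - ε)) * (r / 2)), Real.exp (-(1 / 2 * Q A)) :=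
      integral_nonneg fun A => (Real.exp_pos _).le
    rw [h5, hZl β hβ, ← ENNReal.ofReal_mul (by positivity), ← ENNReal.ofReal_mul (by positivity),
      ENNReal.ofReal_le_ofReal_iff (hZ0 β)] at h4
    have h6 : Real.sqrt (β / (1 - ε)) = Real.sqrt β / Real.sqrt (1 - ε) :=
      Real.sqrt_div hβ.le _
    have hs : 0 < Real.sqrt β := Real.sqrt_pos.2 hβ
    have hs1 : 0 < Real.sqrt (1 - ε) := Real.sqrt_pos.2 hε1'
    simp only [Function.comp_apply]
    calc (ρ * (1 - ε)) ^ K * (Real.sqrt (1 - ε) ^ M *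
          ∫ A in Y (Real.sqrt (β / (1 - ε)) * (r / 2)), Real.exp (-(1 / 2 * Q A)))
        = Real.sqrt β ^ M * ((ρ * (1 - ε)) ^ K * ((Real.sqrt (β / (1 - ε)) ^ M)⁻¹ *
          ∫ A in Y (Real.sqrt (β / (1 - ε)) * (r / 2)), Real.exp (-(1 / 2 * Q A)))) := by
          have : Real.sqrt (1 - ε) ^ M = Real.sqrt β ^ M * (Real.sqrt (β / (1 - ε)) ^ M)⁻¹ := by
            rw [h6, div_pow]
            field_simp
          rw [this]
          ring
      _ ≤ _ := mul_le_mul_of_nonneg_left h4 (by positivity)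
  · -- upper bound
    have hcont : Tendsto (fun ε : ℝ => (ρ * (1 + ε)) ^ K * (Real.sqrt (1 + ε) ^ M * J)) (𝓝 0)
        (𝓝 ((ρ * (1 + 0)) ^ K * (Real.sqrt (1 + 0) ^ M * J))) := by
      have : Continuous fun ε : ℝ => (ρ * (1 + ε)) ^ K * (Real.sqrt (1 + ε) ^ M * J) := by
        fun_prop
      exact this.tendsto 0
    simp only [add_zero, mul_one, Real.sqrt_one, one_pow, one_mul] at hcont
    obtain ⟨δ, hδ, h⟩ := Metric.eventually_nhds_iff.1 (hcont.eventually (gt_mem_nhds hb))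
    set ε := δ / 2 with hε
    have hε0 : 0 < ε := by positivity
    have h1 := h (y := ε) (by rw [Real.dist_eq, sub_zero, abs_of_pos hε0]; linarith)
    obtain ⟨r₀, hr₀, hd⟩ := hdens ε hε0
    obtain ⟨r₁, hr₁, hq⟩ := hquad ε hε0
    set r := min r₀ r₁ with hr
    have hr0 : 0 < r := lt_min hr₀ hr₁
    have hd' := (hd r hr0 (min_le_left _ _)).1
    have hq' : ∀ U : κ → Γ, (∀ k, D (U k) < r) →
        |S U - 1 / 2 * Q (fun k => π (U k))| ≤ ε * S U :=
      fun U hU => hq U fun k => (hU k).trans_le (min_le_right _ _)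
    have hw : Tendsto (fun β : ℝ => Real.sqrt β ^ M * Real.exp (-(β * (r ^ 2 / C₀)))) atTop
        (𝓝 0) := by
      have hc : 0 < r ^ 2 / C₀ := by positivity
      have e1 := tendsto_rpow_mul_exp_neg_mul_atTop_nhds_zero ((M : ℝ) / 2) (r ^ 2 / C₀) hc
      refine e1.congr' ?_
      filter_upwards [eventually_gt_atTop 0] with β hβ
      have e2 : Real.sqrt β ^ M = β ^ ((M : ℝ) / 2) := by
        rw [Real.sqrt_eq_rpow, ← Real.rpow_natCast (β ^ (1 / 2 : ℝ)) M, ← Real.rpow_mul hβ.le]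
        congr 1
        ring
      rw [e2]
      congr 2
      ring
    have hw2 : Tendsto (fun β : ℝ => (ρ * (1 + ε)) ^ K * (Real.sqrt (1 + ε) ^ M * J) +
        Real.sqrt β ^ M * Real.exp (-(β * (r ^ 2 / C₀)))) atTop
        (𝓝 ((ρ * (1 + ε)) ^ K * (Real.sqrt (1 + ε) ^ M * J) + 0)) :=
      tendsto_const_nhds.add hw
    rw [add_zero] at hw2
    filter_upwards [hw2.eventually (gt_mem_nhds h1), eventually_gt_atTop 0] with β h3 hβ
    refine lt_of_le_of_lt ?_ h3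
    have h4 := lap_upper μ hD hπ hρ hε0 hd' hQ hQs hC₀ hr0 hcoer hq' hβ
    rw [hJl, hZl β hβ, ← ENNReal.ofReal_mul (by positivity), ← ENNReal.ofReal_mul (by positivity),
      ← ENNReal.ofReal_add (by positivity) (Real.exp_pos _).le,
      ENNReal.ofReal_le_ofReal_iff (by positivity)] at h4
    have h6 : Real.sqrt (β / (1 + ε)) = Real.sqrt β / Real.sqrt (1 + ε) :=
      Real.sqrt_div hβ.le _
    have hs : 0 < Real.sqrt β := Real.sqrt_pos.2 hβ
    have hs1 : 0 < Real.sqrt (1 + ε) := Real.sqrt_pos.2 (by positivity)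
    calc Real.sqrt β ^ M * ∫ U, Real.exp (-(β * S U)) ∂(Measure.pi fun _ : κ => μ)
        ≤ Real.sqrt β ^ M * ((ρ * (1 + ε)) ^ K * ((Real.sqrt (β / (1 + ε)) ^ M)⁻¹ * J) +
          Real.exp (-(β * (r ^ 2 / C₀)))) := mul_le_mul_of_nonneg_left h4 (by positivity)
      _ = _ := by
          have : Real.sqrt (1 + ε) ^ M = Real.sqrt β ^ M * (Real.sqrt (β / (1 + ε)) ^ M)⁻¹ := by
            rw [h6, div_pow]
            field_simp
          rw [this]
          ring

/-- the logarithmic form -/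
theorem lap_log {D : Γ → ℝ} (hD : Measurable D) {π : Γ → EuclideanSpace ℝ (Fin n)}
    (hπ : Measurable π) {ρ : ℝ} (hρ : 0 < ρ)
    (hdens : ∀ ε : ℝ, 0 < ε → ∃ r₀ : ℝ, 0 < r₀ ∧ ∀ r : ℝ, 0 < r → r ≤ r₀ →
      (μ.restrict {g | D g < r}).map π ≤ ENNReal.ofReal (ρ * (1 + ε)) • volume ∧
      ENNReal.ofReal (ρ * (1 - ε)) • volume.restrict (ball 0 (r / 2)) ≤
        (μ.restrict {g | D g < r}).map π)
    {S : (κ → Γ) → ℝ} (hSm : Measurable S) (hS0 : ∀ U, 0 ≤ S U)
    {Q : (κ → EuclideanSpace ℝ (Fin n)) → ℝ} (hQ : Continuous Q)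
    (hQs : ∀ (s : ℝ) A, Q (s • A) = s ^ 2 * Q A)
    (hint : Integrable fun A => Real.exp (-(1 / 2 * Q A))) {C₀ : ℝ} (hC₀ : 0 < C₀)
    (hcoer : ∀ U k, D (U k) ^ 2 ≤ C₀ * S U)
    (hquad : ∀ ε : ℝ, 0 < ε → ∃ r : ℝ, 0 < r ∧ ∀ U, (∀ k, D (U k) < r) →
      |S U - 1 / 2 * Q (fun k => π (U k))| ≤ ε * S U) :
    Tendsto (fun β : ℝ => Real.log (∫ U, Real.exp (-(β * S U)) ∂(Measure.pi fun _ : κ => μ)) +
      (n * Fintype.card κ : ℕ) / 2 * Real.log β) atTop
      (𝓝 (Fintype.card κ * Real.log ρ + Real.log (∫ A, Real.exp (-(1 / 2 * Q A))))) := by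
  have hJ : 0 < ∫ A, Real.exp (-(1 / 2 * Q A)) := integral_exp_pos hint
  have h1 := lap_lim μ hD hπ hρ hdens hSm hS0 hQ hQs hint hC₀ hcoer hquad
  have h2 := h1.log (mul_pos (pow_pos hρ _) hJ).ne'
  rw [Real.log_mul (pow_pos hρ _).ne' hJ.ne', Real.log_pow] at h2
  refine h2.congr' ?_
  filter_upwards [eventually_gt_atTop 0] with β hβ
  have hZi : Integrable (fun U : κ → Γ => Real.exp (-(β * S U))) (Measure.pi fun _ => μ) := by
    refine Integrable.of_bound (C := 1) (hSm.const_mul β).neg.exp.aestronglyMeasurable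
      (Eventually.of_forall fun x => ?_)
    rw [Real.norm_eq_abs, abs_of_pos (Real.exp_pos _), Real.exp_le_one_iff]
    have := mul_nonneg hβ.le (hS0 x)
    linarith
  have hZ : 0 < ∫ U : κ → Γ, Real.exp (-(β * S U)) ∂(Measure.pi fun _ => μ) :=
    integral_exp_pos hZi
  have hs : 0 < Real.sqrt β := Real.sqrt_pos.2 hβ
  rw [Real.log_mul (pow_pos hs _).ne' hZ.ne', Real.log_pow, Real.log_sqrt hβ.le]
  ring

end Pool.Agent.X217.YM
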