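import Mathlib

/-!
# Determinants of principal submatrices
-/

open Matrix

set_option linter.unusedSectionVars false

namespace Pool.Agent.X217.YM

theorem eig_bounds {ι : Type*} [Fintype ι] [DecidableEq ι] {S : Matrix ι ι ℝ}
    (hS : S.IsHermitian) {lo hi : ℝ} (h1 : ∀ v, lo * (v ⬝ᵥ v) ≤ v ⬝ᵥ S *ᵥ v)
    (h2 : ∀ v, v ⬝ᵥ S *ᵥ v ≤ hi * (v ⬝ᵥ v)) (i : ι) :
    lo ≤ hS.eigenvalues i ∧ hS.eigenvalues i ≤ hi := by
  have e1 := hS.eigenvalues_eq i
  set v : ι → ℝ := ⇑(hS.eigenvectorBasis i) with hv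
  have e2 : hS.eigenvalues i = v ⬝ᵥ S *ᵥ v := by
    rw [e1]
    simp [hv]
  have e3 : v ⬝ᵥ v = 1 := by
    have := hS.eigenvectorBasis.orthonormal.1 i
    have h3 : ‖hS.eigenvectorBasis i‖ ^ 2 = 1 := by rw [this]; norm_num
    rw [EuclideanSpace.norm_sq_eq] at h3
    rw [← h3]
    refine Finset.sum_congr rfl fun x _ => ?_
    rw [Real.norm_eq_abs, sq_abs, sq]
  have a := h1 v
  have b := h2 v
  rw [e3, mul_one] at a b
  rw [e2]
  exact ⟨a, b⟩

theorem det_bounds {ι : Type*} [Fintype ι] [DecidableEq ι] {S : Matrix ι ι ℝ}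
    (hS : S.IsHermitian) {lo hi : ℝ} (hlo : 0 ≤ lo) (h1 : ∀ v, lo * (v ⬝ᵥ v) ≤ v ⬝ᵥ S *ᵥ v)
    (h2 : ∀ v, v ⬝ᵥ S *ᵥ v ≤ hi * (v ⬝ᵥ v)) :
    lo ^ Fintype.card ι ≤ S.det ∧ S.det ≤ hi ^ Fintype.card ι := by
  have hdet : S.det = ∏ i, hS.eigenvalues i := hS.det_eq_prod_eigenvalues
  rw [hdet, ← Finset.card_univ, ← Finset.prod_const, ← Finset.prod_const]
  have hb := eig_bounds hS h1 h2
  exact ⟨Finset.prod_le_prod (fun _ _ => hlo) fun i _ => (hb i).1,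
    Finset.prod_le_prod (fun i _ => hlo.trans (hb i).1) fun i _ => (hb i).2⟩

theorem det_schur_blocks {m n : Type*} [Fintype m] [DecidableEq m] [Fintype n] [DecidableEq n]
    {A : Matrix m m ℝ} {B : Matrix m n ℝ} {D : Matrix n n ℝ} (hA : A.PosDef)
    (hD : D.IsHermitian) {lo hi : ℝ} (hlo : 0 ≤ lo)
    (h1 : ∀ v, lo * (v ⬝ᵥ v) ≤ v ⬝ᵥ (fromBlocks A B Bᵀ D) *ᵥ v)
    (h2 : ∀ v, v ⬝ᵥ (fromBlocks A B Bᵀ D) *ᵥ v ≤ hi * (v ⬝ᵥ v)) :
    lo ^ Fintype.card n * A.det ≤ (fromBlocks A B Bᵀ D).det ∧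
      (fromBlocks A B Bᵀ D).det ≤ hi ^ Fintype.card n * A.det := by
  have hAinv : Invertible A := hA.isUnit.invertible
  rw [det_fromBlocks₁₁]
  set S := D - Bᵀ * ⅟A * B with hS
  have hAT : Aᵀ = A := by
    have := hA.isHermitian
    rwa [IsHermitian, conjTranspose_eq_transpose_of_trivial] at this
  have hDT : Dᵀ = D := by
    rwa [IsHermitian, conjTranspose_eq_transpose_of_trivial] at hD
  have hAiT : (⅟A)ᵀ = ⅟A := by
    rw [invOf_eq_nonsing_inv, transpose_nonsing_inv, hAT]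
  have hSh : S.IsHermitian := by
    rw [IsHermitian, conjTranspose_eq_transpose_of_trivial, hS, transpose_sub, hDT,
      transpose_mul, transpose_mul, hAiT, transpose_transpose, Matrix.mul_assoc]
  -- the quadratic form
  have hq : ∀ (x : m → ℝ) (y : n → ℝ), (Sum.elim x y) ⬝ᵥ (fromBlocks A B Bᵀ D) *ᵥ (Sum.elim x y) =
      (x + (⅟A * B) *ᵥ y) ⬝ᵥ A *ᵥ (x + (⅟A * B) *ᵥ y) + y ⬝ᵥ S *ᵥ y := by
    intro x y
    have e1 : A *ᵥ ((⅟A * B) *ᵥ y) = B *ᵥ y := by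
      rw [mulVec_mulVec, ← Matrix.mul_assoc, mul_invOf_self, Matrix.one_mul]
    have e2 : ((⅟A * B) *ᵥ y) ⬝ᵥ A *ᵥ x = (B *ᵥ y) ⬝ᵥ x := by
      rw [dotProduct_mulVec, ← mulVec_transpose, hAT, e1]
    have e3 : ((⅟A * B) *ᵥ y) ⬝ᵥ (B *ᵥ y) = y ⬝ᵥ (Bᵀ * ⅟A * B) *ᵥ y := by
      have : (Bᵀ * ⅟A * B) *ᵥ y = Bᵀ *ᵥ ((⅟A * B) *ᵥ y) := by
        rw [mulVec_mulVec, Matrix.mul_assoc]
      rw [this, dotProduct_mulVec y Bᵀ, vecMul_transpose, dotProduct_comm]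
    have e4 : x ⬝ᵥ B *ᵥ y = y ⬝ᵥ Bᵀ *ᵥ x := by
      rw [dotProduct_mulVec y, vecMul_transpose, dotProduct_comm]
    rw [fromBlocks_mulVec]
    simp only [Sum.elim_comp_inl, Sum.elim_comp_inr, sumElim_dotProduct_sumElim]
    simp only [mulVec_add, e1, add_dotProduct, dotProduct_add]
    rw [e2, e3, hS, sub_mulVec, dotProduct_sub, e4, dotProduct_comm (B *ᵥ y) x, e4]
    ring
  have hns : ∀ (x : m → ℝ) (y : n → ℝ), (Sum.elim x y) ⬝ᵥ (Sum.elim x y) = x ⬝ᵥ x + y ⬝ᵥ y :=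
    fun x y => sumElim_dotProduct_sumElim _ _ _ _
  have hlow : ∀ y, lo * (y ⬝ᵥ y) ≤ y ⬝ᵥ S *ᵥ y := by
    intro y
    have e1 := h1 (Sum.elim (-((⅟A * B) *ᵥ y)) y)
    rw [hq, hns] at e1
    simp only [neg_add_cancel, zero_dotProduct, zero_add] at e1
    have e2 : 0 ≤ (-((⅟A * B) *ᵥ y)) ⬝ᵥ (-((⅟A * B) *ᵥ y)) := by
      simp only [dotProduct]
      exact Finset.sum_nonneg fun i _ => mul_self_nonneg _
    nlinarith
  have hup : ∀ y, y ⬝ᵥ S *ᵥ y ≤ hi * (y ⬝ᵥ y) := by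
    intro y
    have e1 := h2 (Sum.elim 0 y)
    rw [hq, hns] at e1
    simp only [zero_add, zero_dotProduct] at e1
    have e2 : 0 ≤ ((⅟A * B) *ᵥ y) ⬝ᵥ A *ᵥ ((⅟A * B) *ᵥ y) := by
      have := hA.posSemidef.re_dotProduct_nonneg ((⅟A * B) *ᵥ y)
      simpa using this
    linarith
  obtain ⟨b1, b2⟩ := det_bounds hSh hlo hlow hup
  have hAd := hA.det_pos
  constructor
  · rw [mul_comm]
    exact mul_le_mul_of_nonneg_left b1 hAd.le
  · rw [mul_comm (hi ^ _)]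
    exact mul_le_mul_of_nonneg_left b2 hAd.le

/-- the principal minor of a finite set of indices -/
noncomputable def pmin {E : Type*} [DecidableEq E] (M : Matrix E E ℝ) (R : Finset E) : ℝ :=
  (M.submatrix (fun a : R => (a : E)) (fun a : R => (a : E))).det

/-- **comparison of principal minors** -/
theorem pmin_bounds {E : Type*} [DecidableEq E] (M : Matrix E E ℝ) (hM : Mᵀ = M) {R K : Finset E}
    (hRK : R ⊆ K) {lo hi : ℝ} (hlo : 0 < lo)
    (h1 : ∀ v : K → ℝ, lo * (v ⬝ᵥ v) ≤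
      v ⬝ᵥ (M.submatrix (fun a : K => (a : E)) (fun a : K => (a : E))) *ᵥ v)
    (h2 : ∀ v : K → ℝ,
      v ⬝ᵥ (M.submatrix (fun a : K => (a : E)) (fun a : K => (a : E))) *ᵥ v ≤ hi * (v ⬝ᵥ v)) :
    0 < pmin M R ∧ lo ^ (K.card - R.card) * pmin M R ≤ pmin M K ∧
      pmin M K ≤ hi ^ (K.card - R.card) * pmin M R := by
  classical
  let MK := M.submatrix (fun a : K => (a : E)) (fun a : K => (a : E))
  let p : K → Prop := fun a => (a : E) ∈ R
  let e := Equiv.sumCompl p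
  let N := MK.submatrix e e
  let A : Matrix {a // p a} {a // p a} ℝ := MK.submatrix Subtype.val Subtype.val
  let B : Matrix {a // p a} {a // ¬ p a} ℝ := MK.submatrix Subtype.val Subtype.val
  let D : Matrix {a // ¬ p a} {a // ¬ p a} ℝ := MK.submatrix Subtype.val Subtype.val
  have hN : N = fromBlocks A B Bᵀ D := by
    ext i j
    rcases i with i | i <;> rcases j with j | j
    · rfl
    · rfl
    · show MK i.1 j.1 = MK j.1 i.1
      show M _ _ = M _ _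
      conv_lhs => rw [← hM]
      rfl
    · rfl
  have hdetN : N.det = pmin M K := by
    show (MK.submatrix e e).det = _
    rw [det_submatrix_equiv_self]
    rfl
  have hquad : ∀ v : {a // p a} ⊕ {a // ¬ p a} → ℝ,
      v ⬝ᵥ N *ᵥ v = (v ∘ e.symm) ⬝ᵥ MK *ᵥ (v ∘ e.symm) := by
    intro v
    have h3 : N *ᵥ v = (MK *ᵥ (v ∘ e.symm)) ∘ e := submatrix_mulVec_equiv MK v e e
    rw [h3, ← dotProduct_comp_equiv_symm]
    rfl
  have hnorm : ∀ v : {a // p a} ⊕ {a // ¬ p a} → ℝ,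
      v ⬝ᵥ v = (v ∘ e.symm) ⬝ᵥ (v ∘ e.symm) := by
    intro v
    rw [comp_equiv_dotProduct_comp_equiv]
  have hNlow : ∀ v, lo * (v ⬝ᵥ v) ≤ v ⬝ᵥ (fromBlocks A B Bᵀ D) *ᵥ v := by
    intro v
    rw [← hN, hquad, hnorm]
    exact h1 _
  have hNup : ∀ v, v ⬝ᵥ (fromBlocks A B Bᵀ D) *ᵥ v ≤ hi * (v ⬝ᵥ v) := by
    intro v
    rw [← hN, hquad, hnorm]
    exact h2 _
  have hsym : ∀ {ι : Type _} (f : ι → K), (MK.submatrix f f).IsHermitian := by
    intro ι f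
    rw [IsHermitian, conjTranspose_eq_transpose_of_trivial]
    ext i j
    show M _ _ = M _ _
    conv_lhs => rw [← hM]
    rfl
  have hApd : A.PosDef := by
    refine .of_dotProduct_mulVec_pos (hsym _) fun v hv => ?_
    have e1 := hNlow (Sum.elim v 0)
    have e2 : (Sum.elim v 0 : {a // p a} ⊕ {a // ¬ p a} → ℝ) ⬝ᵥ
        (fromBlocks A B Bᵀ D) *ᵥ (Sum.elim v 0) = v ⬝ᵥ A *ᵥ v := by
      rw [fromBlocks_mulVec]
      simp only [Sum.elim_comp_inl, Sum.elim_comp_inr, sumElim_dotProduct_sumElim]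
      simp
    rw [e2, sumElim_dotProduct_sumElim] at e1
    simp only [dotProduct_zero, add_zero] at e1
    have e3 : 0 < v ⬝ᵥ v := by
      have : 0 ≤ v ⬝ᵥ v := Finset.sum_nonneg fun i _ => mul_self_nonneg _
      rcases this.lt_or_eq with h | h
      · exact h
      · exact absurd (dotProduct_self_eq_zero.1 h.symm) hv
    have e4 := mul_pos hlo e3
    simpa using lt_of_lt_of_le e4 e1
  have hDh : D.IsHermitian := hsym _
  obtain ⟨b1, b2⟩ := det_schur_blocks (B := B) hApd hDh hlo.le hNlow hNup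
  rw [← hN, hdetN] at b1 b2
  let f : {a // p a} ≃ R :=
    { toFun := fun a => ⟨a.1.1, a.2⟩
      invFun := fun a => ⟨⟨a.1, hRK a.2⟩, a.2⟩
      left_inv := fun a => rfl
      right_inv := fun a => rfl }
  have hA : A.det = pmin M R := by
    have : A = (M.submatrix (fun a : R => (a : E)) (fun a : R => (a : E))).submatrix f f := rfl
    rw [this, det_submatrix_equiv_self]
    rfl
  have hcard : Fintype.card {a // ¬ p a} = K.card - R.card := by
    rw [Fintype.card_subtype_compl, Fintype.card_coe, Fintype.card_congr f, Fintype.card_coe]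
  rw [hA, hcard] at b1 b2
  have hpos : 0 < pmin M R := by rw [← hA]; exact hApd.det_pos
  exact ⟨hpos, b1, b2⟩

end Pool.Agent.X217.YM
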