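import Mathlib
import Pool.Agent.X217.YM.Dens
import Pool.Agent.X217.YM.Comb
import Pool.Agent.X217.YM.Laplace2
import Pool.Agent.X217.YM.Gauss
import Pool.Agent.X217.YM.Schur

/-!
# Quadratic approximation of the action of a box and its Laplace asymptotics
-/

open MeasureTheory Matrix Filter Metric
open scoped Matrix.Norms.Frobenius Topology

set_option linter.unusedSectionVars false

namespace Pool.Agent.X217.YM

open Pool.Agent.H906R3.YM Pool.Agent.TH369.WL Pool.Agent.W793.YM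

section ext

variable {E H : Type*} [Fintype E] [DecidableEq E]

/-- extension by a constant -/
def ext (u : H) {R : Finset E} (V : R → H) : E → H := fun e => if h : e ∈ R then V ⟨e, h⟩ else u

theorem ext_mem (u : H) {R : Finset E} (V : R → H) {e : E} (h : e ∈ R) : ext u V e = V ⟨e, h⟩ := by
  unfold ext; rw [dif_pos h]

theorem ext_notMem (u : H) {R : Finset E} (V : R → H) {e : E} (h : e ∉ R) : ext u V e = u := by
  unfold ext; rw [dif_neg h]

theorem ext_comp {H' : Type*} (u : H) (f : H → H') {R : Finset E} (V : R → H) (e : E) :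
    f (ext u V e) = ext (f u) (fun k => f (V k)) e := by
  unfold ext; split_ifs <;> rfl

theorem ext_cont [TopologicalSpace H] (u : H) {R : Finset E} :
    Continuous (ext u : (R → H) → E → H) := by
  refine continuous_pi fun e => ?_
  unfold ext
  split_ifs
  · exact continuous_apply _
  · exact continuous_const

theorem fix_compl [Group H] (R : Finset E) (U : E → H) :
    fix Rᶜ U = ext 1 (fun k : R => U k) := by
  funext e
  unfold fix ext
  by_cases h : e ∈ R
  · simp [h]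
  · simp [h]

theorem integral_fix_compl [Group H] [TopologicalSpace H] [SecondCountableTopology H]
    [MeasurableSpace H] [BorelSpace H] (μ : Measure H) [IsProbabilityMeasure μ] (R : Finset E)
    {f : (E → H) → ℝ} (hf : Continuous f) :
    ∫ U, f (fix Rᶜ U) ∂(Measure.pi fun _ : E => μ) =
      ∫ V, f (ext 1 V) ∂(Measure.pi fun _ : R => μ) := by
  have h1 := map_pi_comp μ (fun k : R => (k : E)) Subtype.val_injective
  have hm : Measurable (fun (U : E → H) (k : R) => U k) := by fun_prop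
  rw [← h1, integral_map hm.aemeasurable]
  · simp only [fix_compl]
  · exact (hf.comp (ext_cont 1)).aestronglyMeasurable

end ext

section group

variable {N n : ℕ} {G : Subgroup (UN N)}

/-- the energy of a plaquette -/
def wl (a b c e : G) : ℝ := (trace (1 - mt (a * b * c⁻¹ * e⁻¹))).re

theorem wl_eq (a b c e : G) : wl a b c e = 1 / 2 * Dg (a * b * c⁻¹ * e⁻¹) ^ 2 := we_eq _

theorem wl_nonneg (a b c e : G) : 0 ≤ wl a b c e := by
  rw [wl_eq]; positivity

theorem wl_coer (a c : G) : Dg c ≤ Dg a + Real.sqrt (2 * wl a 1 c 1) := by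
  have h1 : Real.sqrt (2 * wl a 1 c 1) = Dg (a * c⁻¹) := by
    rw [wl_eq, mul_one, inv_one, mul_one]
    rw [show 2 * (1 / 2 * Dg (a * c⁻¹) ^ 2) = Dg (a * c⁻¹) ^ 2 by ring,
      Real.sqrt_sq (Dg_nonneg _)]
  have h2 : c = (a * c⁻¹)⁻¹ * a := by group
  have h3 := Dg_mul_le (a * c⁻¹)⁻¹ a
  rw [← h2, Dg_inv] at h3
  rw [h1]
  linarith

theorem co_plaq (B : Frame G n) {τ : ℝ} {a b c e : G} (ha : Dg a ≤ τ) (hb : Dg b ≤ τ)
    (hc : Dg c ≤ τ) (he : Dg e ≤ τ) :
    ‖co B (a * b * c⁻¹ * e⁻¹) - (co B a + co B b - co B c - co B e)‖ ≤ 6 * τ ^ 2 := by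
  have h0 : 0 ≤ τ := (Dg_nonneg a).trans ha
  have k1 := co_mul B a b
  have k2 := co_mul B (a * b) c⁻¹
  have k3 := co_mul B (a * b * c⁻¹) e⁻¹
  rw [co_inv, Dg_inv] at k2 k3
  have d1 := Dg_mul_le a b
  have d2 := Dg_mul_le (a * b) c⁻¹
  rw [Dg_inv] at d2
  have p1 : Dg a * Dg b ≤ τ * τ := mul_le_mul ha hb (Dg_nonneg b) h0
  have p2 : Dg (a * b) * Dg c ≤ (2 * τ) * τ :=
    mul_le_mul (by linarith) hc (Dg_nonneg c) (by linarith)
  have p3 : Dg (a * b * c⁻¹) * Dg e ≤ (3 * τ) * τ :=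
    mul_le_mul (by linarith) he (Dg_nonneg e) (by linarith)
  have e1 : co B (a * b * c⁻¹ * e⁻¹) - (co B a + co B b - co B c - co B e) =
      (co B (a * b * c⁻¹ * e⁻¹) - co B (a * b * c⁻¹) - -co B e) +
      ((co B (a * b * c⁻¹) - co B (a * b) - -co B c) + (co B (a * b) - co B a - co B b)) := by
    abel
  rw [e1]
  refine (norm_add_le _ _).trans ?_
  have := norm_add_le (co B (a * b * c⁻¹) - co B (a * b) - -co B c)
    (co B (a * b) - co B a - co B b)
  nlinarith

theorem Dg_plaq {τ : ℝ} {a b c e : G} (ha : Dg a ≤ τ) (hb : Dg b ≤ τ)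
    (hc : Dg c ≤ τ) (he : Dg e ≤ τ) : Dg (a * b * c⁻¹ * e⁻¹) ≤ 4 * τ := by
  have d1 := Dg_mul_le a b
  have d2 := Dg_mul_le (a * b) c⁻¹
  have d3 := Dg_mul_le (a * b * c⁻¹) e⁻¹
  rw [Dg_inv] at d2 d3
  linarith

theorem plaq_quad (hG : IsClosed (G : Set (UN N))) (B : Frame G n) :
    ∃ C₁ : ℝ, 0 < C₁ ∧ ∀ τ : ℝ, τ ≤ 1 → ∀ a b c e : G, Dg a ≤ τ → Dg b ≤ τ → Dg c ≤ τ →
      Dg e ≤ τ → |wl a b c e - 1 / 2 * ‖co B a + co B b - co B c - co B e‖ ^ 2| ≤ C₁ * τ ^ 3 := by
  obtain ⟨C, hC, hq⟩ := co_quad hG B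
  refine ⟨128 * C ^ 2 + 24, by positivity, fun τ hτ1 a b c e ha hb hc he => ?_⟩
  have h0 : 0 ≤ τ := (Dg_nonneg a).trans ha
  set g := a * b * c⁻¹ * e⁻¹ with hg
  set v' := co B a + co B b - co B c - co B e with hv'
  have h1 : Dg g ≤ 4 * τ := Dg_plaq ha hb hc he
  have h2 : ‖co B g - v'‖ ≤ 6 * τ ^ 2 := co_plaq B ha hb hc he
  have h3 := hq g
  have h4 := norm_co_le B g
  have h0g := Dg_nonneg g
  have h5 : Dg g ^ 2 - ‖co B g‖ ^ 2 ≤ C ^ 2 * (256 * τ ^ 4) := by
    refine h3.trans (mul_le_mul_of_nonneg_left ?_ (by positivity))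
    calc Dg g ^ 4 ≤ (4 * τ) ^ 4 := pow_le_pow_left₀ h0g h1 4
      _ = 256 * τ ^ 4 := by ring
  have h6 : 0 ≤ Dg g ^ 2 - ‖co B g‖ ^ 2 := by
    have := pow_le_pow_left₀ (norm_nonneg _) h4 2
    linarith
  have h7 : τ ^ 4 ≤ τ ^ 3 := by
    calc τ ^ 4 = τ ^ 3 * τ := by ring
      _ ≤ τ ^ 3 * 1 := mul_le_mul_of_nonneg_left hτ1 (by positivity)
      _ = _ := mul_one _
  have h8 : ‖v'‖ ≤ 4 * τ := by
    have e1 := norm_co_le B a
    have e2 := norm_co_le B b
    have e3 := norm_co_le B c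
    have e4 := norm_co_le B e
    have f1 := norm_sub_le (co B a + co B b - co B c) (co B e)
    have f2 := norm_sub_le (co B a + co B b) (co B c)
    have f3 := norm_add_le (co B a) (co B b)
    linarith
  have h9 : |‖co B g‖ ^ 2 - ‖v'‖ ^ 2| ≤ 48 * τ ^ 3 := by
    have e1 : ‖co B g‖ ^ 2 - ‖v'‖ ^ 2 = (‖co B g‖ - ‖v'‖) * (‖co B g‖ + ‖v'‖) := by ring
    rw [e1, abs_mul]
    have e2 : |‖co B g‖ - ‖v'‖| ≤ 6 * τ ^ 2 := (abs_norm_sub_norm_le _ _).trans h2
    have e3 : |‖co B g‖ + ‖v'‖| ≤ 8 * τ := by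
      rw [abs_of_nonneg (by positivity)]
      linarith
    calc _ ≤ (6 * τ ^ 2) * (8 * τ) := mul_le_mul e2 e3 (abs_nonneg _) (by positivity)
      _ = _ := by ring
  have h10 := abs_le.1 h9
  rw [wl_eq, ← hg, abs_le]
  have hCC : C ^ 2 * (256 * τ ^ 4) ≤ C ^ 2 * (256 * τ ^ 3) := by
    have := mul_le_mul_of_nonneg_left h7 (show 0 ≤ C ^ 2 * 256 by positivity)
    linarith
  constructor
  · nlinarith [h10.1, h10.2]
  · nlinarith [h10.1, h10.2]

end group

section box

variable {N n d m : ℕ} [NeZero m] {G : Subgroup (UN N)}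

/-- the quadratic energy of a plaquette -/
noncomputable def qE {n : ℕ} (a b c e : EuclideanSpace ℝ (Fin n)) : ℝ := ‖a + b - c - e‖ ^ 2

theorem ht_le (x : Fin d → ZMod m) : ht x ≤ d * m := by
  unfold ht
  calc ∑ k, (x k).val ≤ ∑ _k : Fin d, m := Finset.sum_le_sum fun k _ => (ZMod.val_lt _).le
    _ = _ := by simp

theorem ext_comb {H : Type*} (u : H) {R : Finset ((Fin d → ZMod m) × Fin d)} (hR : R ⊆ kfr d m)
    (V : R → H) : ∀ e ∈ comb d m, ext u V e = u := by
  intro e he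
  refine ext_notMem u V fun h => ?_
  have := hR h
  simp only [kfr, Finset.mem_filter, Finset.mem_univ, true_and] at this
  exact this.2 he

theorem box_coer {R : Finset ((Fin d → ZMod m) × Fin d)} (hR : R ⊆ kfr d m) (V : R → G) (k : R) :
    Dg (V k) ≤ (d * m) * Real.sqrt (2 * bact wl m (ext 1 V)) := by
  have hk := hR k.2
  simp only [kfr, Finset.mem_filter, Finset.mem_univ, true_and] at hk
  have h1 := comb_coer (Q := (wl : G → G → G → G → ℝ)) 1 wl_nonneg Dg Dg_one wl_coer (ext 1 V)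
    (ext_comb 1 hR V) _ k.1.1 k.1.2 rfl hk.1
  have h2 : ext 1 V (k.1.1, k.1.2) = V k := ext_mem 1 V k.2
  rw [h2] at h1
  refine h1.trans (mul_le_mul_of_nonneg_right ?_ (Real.sqrt_nonneg _))
  exact_mod_cast ht_le k.1.1

theorem box_quad (hG : IsClosed (G : Set (UN N))) (B : Frame G n)
    {R : Finset ((Fin d → ZMod m) × Fin d)} (hR : R ⊆ kfr d m) (ε : ℝ) (hε : 0 < ε) :
    ∃ r : ℝ, 0 < r ∧ ∀ V : R → G, (∀ k, Dg (V k) < r) →
      |bact wl m (ext 1 V) - 1 / 2 * bact qE m (ext 0 fun k => co B (V k))| ≤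
        ε * bact wl m (ext 1 V) := by
  obtain ⟨C₁, hC₁, hq⟩ := plaq_quad hG B
  set Nt : ℝ := (Fintype.card ((Fin d → ZMod m) × Fin d × Fin d) : ℝ) with hNt
  set K : ℝ := Nt * (C₁ * (2 * (d * m) ^ 2)) + 1 with hK
  have hK0 : 0 < K := by positivity
  refine ⟨min 1 (ε / K), lt_min one_pos (by positivity), fun V hV => ?_⟩
  set r := min 1 (ε / K) with hr
  have hr0 : 0 < r := lt_min one_pos (by positivity)
  set S := bact wl m (ext 1 V) with hS
  have hS0 : 0 ≤ S := bact_nonneg wl_nonneg _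
  set T : ℝ := (d * m) * Real.sqrt (2 * S) with hT
  have hT0 : 0 ≤ T := by positivity
  have hT2 : T ^ 2 = (d * m) ^ 2 * (2 * S) := by
    rw [hT, mul_pow, Real.sq_sqrt (by positivity)]
  set τ := min r T with hτ
  have hτ0 : 0 ≤ τ := le_min hr0.le hT0
  have hτ1 : τ ≤ 1 := (min_le_left _ _).trans (min_le_left _ _)
  have hD : ∀ e, Dg (ext 1 V e) ≤ τ := by
    intro e
    by_cases h : e ∈ R
    · rw [ext_mem 1 V h]
      exact le_min (hV _).le (box_coer hR V _)
    · rw [ext_notMem 1 V h, Dg_one]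
      exact hτ0
  have hcoe : ∀ e, ext 0 (fun k => co B (V k)) e = co B (ext 1 V e) := by
    intro e
    rw [ext_comp 1 (co B) V e, co_one]
  have h1 : |S - 1 / 2 * bact qE m (ext 0 fun k => co B (V k))| ≤ Nt * (C₁ * τ ^ 3) := by
    rw [hS, bact_eq_sum, bact_eq_sum, Finset.mul_sum, ← Finset.sum_sub_distrib]
    refine (Finset.abs_sum_le_sum_abs _ _).trans ?_
    calc _ ≤ ∑ _t : (Fin d → ZMod m) × Fin d × Fin d, C₁ * τ ^ 3 := by
          refine Finset.sum_le_sum fun t _ => ?_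
          unfold fpl
          split_ifs
          · simp only [hcoe]
            exact hq τ hτ1 _ _ _ _ (hD _) (hD _) (hD _) (hD _)
          · rw [mul_zero, sub_zero, abs_zero]
            positivity
      _ = _ := by rw [Finset.sum_const, Finset.card_univ, nsmul_eq_mul]
  refine h1.trans ?_
  have h2 : τ ^ 3 ≤ r * T ^ 2 := by
    calc τ ^ 3 = τ * τ ^ 2 := by ring
      _ ≤ r * T ^ 2 := mul_le_mul (min_le_left _ _)
          (pow_le_pow_left₀ hτ0 (min_le_right _ _) 2) (by positivity) hr0.le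
  rw [hT2] at h2
  calc Nt * (C₁ * τ ^ 3) ≤ Nt * (C₁ * (r * ((d * m) ^ 2 * (2 * S)))) := by gcongr
    _ = (Nt * (C₁ * (2 * (d * m) ^ 2))) * r * S := by ring
    _ ≤ K * (ε / K) * S := by
        have e1 : Nt * (C₁ * (2 * (d * m) ^ 2)) ≤ K := by rw [hK]; linarith
        have e2 : r ≤ ε / K := min_le_right _ _
        gcongr
    _ = ε * S := by field_simp

end box

section matrix

variable {d m : ℕ} [NeZero m]

/-- the circulation of a field around the plaquettes -/
def Dm (d m : ℕ) [NeZero m] :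
    Matrix ((Fin d → ZMod m) × Fin d × Fin d) ((Fin d → ZMod m) × Fin d) ℝ :=
  fun t e => if t.2.1 < t.2.2 ∧ (t.1 t.2.1).val + 1 < m ∧ (t.1 t.2.2).val + 1 < m then
    (if (t.1, t.2.1) = e then 1 else 0) + (if (t.1 + Pi.single t.2.1 1, t.2.2) = e then 1 else 0) -
      (if (t.1 + Pi.single t.2.2 1, t.2.1) = e then 1 else 0) - (if (t.1, t.2.2) = e then 1 else 0)
  else 0

/-- the matrix of the lattice Maxwell action of the box -/
def MQ (d m : ℕ) [NeZero m] : Matrix ((Fin d → ZMod m) × Fin d) ((Fin d → ZMod m) × Fin d) ℝ :=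
  (Dm d m)ᵀ * Dm d m

/-- the quadratic energy -/
def q4 (a b c e : ℝ) : ℝ := (a + b - c - e) ^ 2

theorem Dm_mulVec (A : (Fin d → ZMod m) × Fin d → ℝ) (t : (Fin d → ZMod m) × Fin d × Fin d) :
    (Dm d m *ᵥ A) t ^ 2 = fpl q4 m A t := by
  unfold fpl
  split_ifs with h
  · have : (Dm d m *ᵥ A) t = A (t.1, t.2.1) + A (t.1 + Pi.single t.2.1 1, t.2.2) -
        A (t.1 + Pi.single t.2.2 1, t.2.1) - A (t.1, t.2.2) := by
      simp only [mulVec, dotProduct, Dm, if_pos h, add_mul, sub_mul, ite_mul, one_mul, zero_mul,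
        Finset.sum_add_distrib, Finset.sum_sub_distrib, Finset.sum_ite_eq, Finset.mem_univ, if_true]
    rw [this]
    rfl
  · have : (Dm d m *ᵥ A) t = 0 := by
      simp only [mulVec, dotProduct, Dm, if_neg h, zero_mul, Finset.sum_const_zero]
    rw [this]
    norm_num

theorem MQ_quad (A : (Fin d → ZMod m) × Fin d → ℝ) : A ⬝ᵥ MQ d m *ᵥ A = bact q4 m A := by
  rw [MQ, ← mulVec_mulVec, dotProduct_mulVec, vecMul_transpose, bact_eq_sum]
  simp only [dotProduct, ← sq]
  exact Finset.sum_congr rfl fun t _ => Dm_mulVec A t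

theorem MQ_symm : (MQ d m)ᵀ = MQ d m := by
  rw [MQ, transpose_mul, transpose_transpose]

theorem sub_quad_form {E : Type*} [Fintype E] [DecidableEq E] (M : Matrix E E ℝ) (R : Finset E)
    (v : R → ℝ) : v ⬝ᵥ (M.submatrix (fun a : R => (a : E)) (fun a : R => (a : E))) *ᵥ v =
      (ext 0 v) ⬝ᵥ M *ᵥ (ext 0 v) := by
  have h1 : ∀ f : E → ℝ, ∑ e, f e * ext 0 v e = ∑ k : R, f k * v k := by
    intro f
    have e1 : ∑ e, f e * ext 0 v e = ∑ e ∈ R, f e * ext 0 v e := by
      refine (Finset.sum_subset (Finset.subset_univ R) fun e _ he => ?_).symm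
      rw [ext_notMem 0 v he, mul_zero]
    rw [e1, ← Finset.sum_coe_sort]
    refine Finset.sum_congr rfl fun k _ => ?_
    rw [ext_mem 0 v k.2]
  have h2 : ∀ e, (M *ᵥ (ext 0 v)) e = ∑ k : R, M e k * v k := fun e => h1 (fun e' => M e e')
  rw [dotProduct_comm (ext 0 v)]
  simp only [dotProduct]
  rw [h1]
  refine Finset.sum_congr rfl fun k _ => ?_
  rw [h2, mul_comm]
  rfl

/-- the principal submatrix of the Maxwell matrix -/
def MR (R : Finset ((Fin d → ZMod m) × Fin d)) : Matrix R R ℝ :=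
  (MQ d m).submatrix (fun a : R => (a : (Fin d → ZMod m) × Fin d))
    (fun a : R => (a : (Fin d → ZMod m) × Fin d))

theorem MR_quad (R : Finset ((Fin d → ZMod m) × Fin d)) (v : R → ℝ) :
    v ⬝ᵥ MR R *ᵥ v = bact q4 m (ext 0 v) := by
  rw [MR, sub_quad_form, MQ_quad]

/-- the lower bound of the Maxwell action -/
theorem MR_low {R : Finset ((Fin d → ZMod m) × Fin d)} (hR : R ⊆ kfr d m) (v : R → ℝ) :
    v ⬝ᵥ v ≤ (2 * d ^ 3 * m ^ (d + 2)) * (v ⬝ᵥ MR R *ᵥ v) := by
  rw [MR_quad]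
  set S := bact q4 m (ext 0 v) with hS
  have hq0 : ∀ a b c e : ℝ, 0 ≤ q4 a b c e := fun a b c e => sq_nonneg _
  have hS0 : 0 ≤ S := bact_nonneg hq0 _
  have h1 : ∀ k : R, v k * v k ≤ (d * m) ^ 2 * (2 * S) := by
    intro k
    have hk := hR k.2
    simp only [kfr, Finset.mem_filter, Finset.mem_univ, true_and] at hk
    have h1 := comb_coer (Q := q4) 0 hq0 (fun x => |x|) abs_zero (fun a c => by
      have e1 : Real.sqrt (2 * q4 a 0 c 0) = Real.sqrt 2 * |a - c| := by
        unfold q4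
        rw [Real.sqrt_mul (by norm_num), add_zero, sub_zero, Real.sqrt_sq_eq_abs]
      have e2 : (1 : ℝ) ≤ Real.sqrt 2 := by
        rw [Real.one_le_sqrt]; norm_num
      have e3 : |c| ≤ |a| + |a - c| := by
        have := abs_sub_abs_le_abs_sub c a
        rw [abs_sub_comm] at this
        linarith
      rw [e1]
      nlinarith [abs_nonneg (a - c)]) (ext 0 v) (ext_comb 0 hR v) _ k.1.1 k.1.2 rfl hk.1
    have h2 : ext 0 v (k.1.1, k.1.2) = v k := ext_mem 0 v k.2
    rw [h2] at h1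
    have h3 : |v k| ≤ (d * m) * Real.sqrt (2 * S) := by
      refine h1.trans (mul_le_mul_of_nonneg_right ?_ (Real.sqrt_nonneg _))
      exact_mod_cast ht_le k.1.1
    have h4 := pow_le_pow_left₀ (abs_nonneg _) h3 2
    rw [sq_abs, mul_pow, Real.sq_sqrt (by positivity)] at h4
    rw [← sq]
    exact h4
  have h2 : v ⬝ᵥ v ≤ (R.card : ℝ) * ((d * m) ^ 2 * (2 * S)) := by
    calc v ⬝ᵥ v ≤ ∑ _k : R, ((d * m : ℝ) ^ 2 * (2 * S)) := Finset.sum_le_sum fun k _ => h1 k
      _ = _ := by rw [Finset.sum_const, Finset.card_univ, Fintype.card_coe, nsmul_eq_mul]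
  refine h2.trans ?_
  have h3 : (R.card : ℝ) ≤ d * m ^ d := by
    have : R.card ≤ Fintype.card ((Fin d → ZMod m) × Fin d) := Finset.card_le_univ R
    rw [Fintype.card_prod, Fintype.card_fun, ZMod.card, Fintype.card_fin] at this
    have h4 : (R.card : ℝ) ≤ ((m ^ d * d : ℕ) : ℝ) := by exact_mod_cast this
    push_cast at h4
    linarith
  calc (R.card : ℝ) * ((d * m) ^ 2 * (2 * S)) ≤ (d * m ^ d) * ((d * m) ^ 2 * (2 * S)) := by gcongr
    _ = _ := by ring

/-- the upper bound of the Maxwell action -/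
theorem MR_up (R : Finset ((Fin d → ZMod m) × Fin d)) (v : R → ℝ) :
    v ⬝ᵥ MR R *ᵥ v ≤ (16 * d ^ 2 * m ^ d) * (v ⬝ᵥ v) := by
  rw [MR_quad, bact_eq_sum]
  have h1 : ∀ e, (ext 0 v e) ^ 2 ≤ v ⬝ᵥ v := by
    intro e
    by_cases h : e ∈ R
    · rw [ext_mem 0 v h, sq]
      exact Finset.single_le_sum (f := fun k => v k * v k) (fun k _ => mul_self_nonneg _)
        (Finset.mem_univ (⟨e, h⟩ : R))
    · rw [ext_notMem 0 v h]
      have : 0 ≤ v ⬝ᵥ v := Finset.sum_nonneg fun k _ => mul_self_nonneg _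
      simpa using this
  have h2 : ∀ t, fpl q4 m (ext 0 v) t ≤ 16 * (v ⬝ᵥ v) := by
    intro t
    unfold fpl
    split_ifs
    · unfold q4
      have a1 := h1 (t.1, t.2.1)
      have a2 := h1 (t.1 + Pi.single t.2.1 1, t.2.2)
      have a3 := h1 (t.1 + Pi.single t.2.2 1, t.2.1)
      have a4 := h1 (t.1, t.2.2)
      set x := ext 0 v (t.1, t.2.1)
      set y := ext 0 v (t.1 + Pi.single t.2.1 1, t.2.2)
      set z := ext 0 v (t.1 + Pi.single t.2.2 1, t.2.1)
      set w := ext 0 v (t.1, t.2.2)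
      nlinarith [sq_nonneg (x - y), sq_nonneg (x + z), sq_nonneg (x + w), sq_nonneg (y + z),
        sq_nonneg (y + w), sq_nonneg (z - w)]
    · have : 0 ≤ v ⬝ᵥ v := Finset.sum_nonneg fun k _ => mul_self_nonneg _
      linarith
  calc _ ≤ ∑ _t : (Fin d → ZMod m) × Fin d × Fin d, 16 * (v ⬝ᵥ v) :=
        Finset.sum_le_sum fun t _ => h2 t
    _ = _ := by
        rw [Finset.sum_const, Finset.card_univ, nsmul_eq_mul, Fintype.card_prod, Fintype.card_prod,
          Fintype.card_fun, ZMod.card, Fintype.card_fin]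
        push_cast
        ring

theorem MR_posDef {R : Finset ((Fin d → ZMod m) × Fin d)} (hR : R ⊆ kfr d m) :
    (MR R).PosDef := by
  have hsym : (MR R).IsHermitian := by
    rw [IsHermitian, conjTranspose_eq_transpose_of_trivial]
    ext i j
    show MQ d m _ _ = MQ d m _ _
    conv_lhs => rw [← MQ_symm]
    rfl
  refine .of_dotProduct_mulVec_pos hsym fun v hv => ?_
  have e3 : 0 < v ⬝ᵥ v := by
    have : 0 ≤ v ⬝ᵥ v := Finset.sum_nonneg fun i _ => mul_self_nonneg _
    rcases this.lt_or_eq with h | h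
    · exact h
    · exact absurd (dotProduct_self_eq_zero.1 h.symm) hv
  have h1 := MR_low hR v
  have h2 : 0 ≤ v ⬝ᵥ MR R *ᵥ v := by
    rw [MR_quad]
    exact bact_nonneg (fun a b c e => sq_nonneg _) _
  have h3 : 0 < v ⬝ᵥ MR R *ᵥ v := by
    rcases h2.lt_or_eq with h | h
    · exact h
    · rw [← h, mul_zero] at h1
      linarith
  simpa using h3

/-- the vector valued quadratic form -/
theorem vec_quad {n : ℕ} (R : Finset ((Fin d → ZMod m) × Fin d))
    (A : R → EuclideanSpace ℝ (Fin n)) :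
    ∑ a, ((fun k => A k a) ⬝ᵥ MR R *ᵥ (fun k => A k a)) = bact qE m (ext 0 A) := by
  simp only [MR_quad, bact_eq_sum]
  rw [Finset.sum_comm]
  refine Finset.sum_congr rfl fun t _ => ?_
  unfold fpl
  split_ifs
  · unfold q4 qE
    rw [EuclideanSpace.norm_sq_eq]
    refine Finset.sum_congr rfl fun a _ => ?_
    rw [Real.norm_eq_abs, sq_abs]
    have h : ∀ e, ext 0 (fun k => A k a) e = (ext 0 A e) a := by
      intro e
      unfold ext
      split_ifs <;> rfl
    rw [h, h, h, h]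
    rfl
  · simp

end matrix

section lap

variable {N n d m : ℕ} [NeZero m] {G : Subgroup (UN N)}

theorem bact_smul {n : ℕ} (R : Finset ((Fin d → ZMod m) × Fin d)) (s : ℝ)
    (A : R → EuclideanSpace ℝ (Fin n)) :
    bact qE m (ext 0 (s • A)) = s ^ 2 * bact qE m (ext 0 A) := by
  rw [bact_eq_sum, bact_eq_sum, Finset.mul_sum]
  refine Finset.sum_congr rfl fun t _ => ?_
  unfold fpl
  split_ifs
  · have h : ∀ e, ext 0 (s • A) e = s • (ext 0 A e) := by
      intro e
      unfold ext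
      split_ifs
      · rfl
      · rw [smul_zero]
    unfold qE
    rw [h, h, h, h, ← smul_add, ← smul_sub, ← smul_sub, norm_smul, mul_pow, Real.norm_eq_abs,
      sq_abs]
  · rw [mul_zero]

theorem qE_cont : Continuous fun p : EuclideanSpace ℝ (Fin n) × EuclideanSpace ℝ (Fin n) ×
    EuclideanSpace ℝ (Fin n) × EuclideanSpace ℝ (Fin n) => qE p.1 p.2.1 p.2.2.1 p.2.2.2 := by
  unfold qE
  fun_prop

theorem wl_cont : Continuous fun p : G × G × G × G => wl p.1 p.2.1 p.2.2.1 p.2.2.2 := by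
  unfold wl
  refine Complex.continuous_re.comp (Continuous.matrix_trace (continuous_const.sub
    (mt_cont.comp ?_)))
  fun_prop

/-- **Laplace asymptotics of the boxes** -/
theorem box_lap (hG : IsClosed (G : Set (UN N))) [MeasurableSpace G] [BorelSpace G]
    (μ : Measure G) [IsProbabilityMeasure μ] (B : Frame G n) {ρ : ℝ} (hρ : 0 < ρ)
    (hdens : ∀ ε : ℝ, 0 < ε → ∃ r₀ : ℝ, 0 < r₀ ∧ ∀ r : ℝ, 0 < r → r ≤ r₀ →
      (μ.restrict {g | Dg g < r}).map (co B) ≤ ENNReal.ofReal (ρ * (1 + ε)) • volume ∧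
      ENNReal.ofReal (ρ * (1 - ε)) • volume.restrict (ball 0 (r / 2)) ≤
        (μ.restrict {g | Dg g < r}).map (co B))
    {R : Finset ((Fin d → ZMod m) × Fin d)} (hR : R ⊆ kfr d m) :
    Tendsto (fun β : ℝ => Real.log (∫ U : (Fin d → ZMod m) × Fin d → G,
      Real.exp (-(β * bact wl m (fix Rᶜ U))) ∂(Measure.pi fun _ => μ)) +
      (n * R.card : ℕ) / 2 * Real.log β) atTop
      (𝓝 (R.card * Real.log ρ + n * (R.card / 2 * Real.log (2 * Real.pi) -
        1 / 2 * Real.log (pmin (MQ d m) R)))) := by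
  have hsc : SecondCountableTopology G := by
    have h00 : SecondCountableTopology (UN N) := TopologicalSpace.Subtype.secondCountableTopology _
    exact TopologicalSpace.Subtype.secondCountableTopology _
  have hpd := MR_posDef hR
  have hint := gauss_vec_integrable (n := n) hpd
  simp only [vec_quad] at hint
  have hval := gauss_vec (n := n) hpd
  simp only [vec_quad] at hval
  have hSm : Continuous fun V : R → G => bact wl m (ext 1 V) :=
    (bact_cont wl_cont).comp (ext_cont 1)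
  have hQc : Continuous fun A : R → EuclideanSpace ℝ (Fin n) => bact qE m (ext 0 A) :=
    (bact_cont qE_cont).comp (ext_cont 0)
  have h1 := lap_log μ (κ := R) (D := Dg) (π := co B) Dg_cont.measurable (co_cont B).measurable
    hρ hdens (S := fun V => bact wl m (ext 1 V)) hSm.measurable
    (fun V => bact_nonneg wl_nonneg _) (Q := fun A => bact qE m (ext 0 A)) hQc
    (fun s A => bact_smul R s A) hint (C₀ := 2 * (d * m) ^ 2 + 1) (by positivity)
    (fun V k => by
      have e1 := box_coer hR V k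
      have e2 := pow_le_pow_left₀ (Dg_nonneg _) e1 2
      have hS0 : 0 ≤ bact wl m (ext 1 V) := bact_nonneg wl_nonneg _
      rw [mul_pow, Real.sq_sqrt (by positivity)] at e2
      nlinarith)
    (fun ε hε => box_quad hG B hR ε hε)
  rw [Fintype.card_coe] at h1
  have hdet : 0 < (MR R).det := hpd.det_pos
  have hval2 : Real.log (∫ A : R → EuclideanSpace ℝ (Fin n),
      Real.exp (-(1 / 2 * bact qE m (ext 0 A)))) =
      n * (R.card / 2 * Real.log (2 * Real.pi) - 1 / 2 * Real.log (pmin (MQ d m) R)) := by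
    have hp : (0 : ℝ) < Real.sqrt (2 * Real.pi) := Real.sqrt_pos.2 (by positivity)
    rw [hval, Real.log_pow, Real.log_div (pow_pos hp _).ne' (Real.sqrt_pos.2 hdet).ne',
      Real.log_pow, Real.log_sqrt (by positivity), Real.log_sqrt hdet.le, Fintype.card_coe]
    have : (MR R).det = pmin (MQ d m) R := rfl
    rw [this]
    ring
  rw [hval2] at h1
  refine h1.congr fun β => ?_
  congr 2
  exact (integral_fix_compl μ R (f := fun U => Real.exp (-(β * bact wl m U)))
    (Real.continuous_exp.comp (continuous_const.mul (bact_cont wl_cont)).neg)).symm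

end lap

end Pool.Agent.X217.YM
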