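import Mathlib
import Pool.Agent.X217.YM.Quad

/-!
# Lower bound: frozen links between the inner boxes
-/

open MeasureTheory Matrix Filter Metric
open scoped Matrix.Norms.Frobenius Topology ENNReal

set_option linter.unusedSectionVars false

namespace Pool.Agent.X217.YM

open Pool.Agent.H906R3.YM Pool.Agent.TH369.WL Pool.Agent.W793.YM

section group

variable {N n : ℕ} {G : Subgroup (UN N)}

theorem norm_conjT (M : Mat N) : ‖Mᴴ‖ = ‖M‖ := by
  have h1 : ‖Mᴴ‖ ^ 2 = ‖M‖ ^ 2 := by
    rw [norm_sq_ip, norm_sq_ip, ip_apply, ip_apply, conjTranspose_conjTranspose, trace_mul_comm]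
  exact (sq_eq_sq₀ (norm_nonneg _) (norm_nonneg _)).1 h1

theorem Dg_conj (g h : G) : Dg (g⁻¹ * h * g) = Dg h := by
  have key : ∀ g h : G, Dg (g⁻¹ * h * g) ≤ Dg h := by
    intro g h
    have e1 := Dg_diff g (h⁻¹ * g)
    have e2 : (h⁻¹ * g)⁻¹ * g = g⁻¹ * h * g := by group
    rw [e2] at e1
    rw [← e1]
    have e3 : mt g - mt (h⁻¹ * g) = -((mt h⁻¹ - 1) * mt g) := by
      rw [mt_mul', sub_mul, one_mul]
      abel
    rw [e3, norm_neg]
    calc ‖(mt h⁻¹ - 1) * mt g‖ = ‖((mt h⁻¹ - 1) * mt g)ᴴ‖ := (norm_conjT _).symm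
      _ = ‖mt g⁻¹ * (mt h⁻¹ - 1)ᴴ‖ := by
          rw [conjTranspose_mul]
          rfl
      _ = ‖(mt h⁻¹ - 1)ᴴ‖ := norm_lmul' _ _
      _ = ‖mt h⁻¹ - 1‖ := norm_conjT _
      _ = Dg h := Dg_inv h
      _ ≤ Dg h := le_rfl
  refine le_antisymm (key g h) ?_
  have := key g⁻¹ (g⁻¹ * h * g)
  have e : g⁻¹⁻¹ * (g⁻¹ * h * g) * g⁻¹ = h := by group
  rwa [e] at this

/-- the distance of two group elements -/
noncomputable def nd (g h : G) : ℝ := ‖mt g - mt h‖

theorem nd_nonneg (g h : G) : 0 ≤ nd g h := norm_nonneg _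

theorem nd_eq (g h : G) : nd g h = Dg (h⁻¹ * g) := Dg_diff g h

theorem nd_self (g : G) : nd g g = 0 := by unfold nd; rw [sub_self, norm_zero]

theorem nd_one (g : G) : nd g 1 = Dg g := by rw [nd_eq]; simp

theorem nd_tri (g h k : G) : nd g k ≤ nd g h + nd h k := by
  unfold nd
  have : mt g - mt k = (mt g - mt h) + (mt h - mt k) := by abel
  rw [this]
  exact norm_add_le _ _

theorem nd_left (g h k : G) : nd (g * h) (g * k) = nd h k := by
  rw [nd_eq, nd_eq]
  congr 1
  group

theorem nd_right (g h k : G) : nd (h * g) (k * g) = nd h k := by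
  have h1 : ∀ a b : G, nd (a * g) (b * g) ≤ nd a b := by
    intro a b
    rw [nd_eq, nd_eq]
    have e : (b * g)⁻¹ * (a * g) = g⁻¹ * (b⁻¹ * a) * g := by group
    rw [e]
    exact (Dg_conj g (b⁻¹ * a)).le
  refine le_antisymm (h1 h k) ?_
  rw [nd_eq, nd_eq]
  have e : (k * g)⁻¹ * (h * g) = g⁻¹ * (k⁻¹ * h) * g := by group
  rw [e]
  exact (Dg_conj g (k⁻¹ * h)).ge

theorem nd_mul (g g' h h' : G) : nd (g * h) (g' * h') ≤ nd g g' + nd h h' := by
  have h1 := nd_tri (g * h) (g' * h) (g' * h')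
  rw [nd_left, nd_right] at h1
  exact h1

theorem nd_inv (g h : G) : nd g⁻¹ h⁻¹ = nd g h := by
  have h1 := nd_left g g⁻¹ h⁻¹
  have h2 := nd_right h (g * g⁻¹) (g * h⁻¹)
  rw [h1] at h2
  rw [← h2]
  have e1 : g * g⁻¹ * h = h := by group
  have e2 : g * h⁻¹ * h = g := by group
  rw [e1, e2]
  unfold nd
  rw [norm_sub_rev]

theorem Dg_le_nd (g h : G) : Dg g ≤ Dg h + nd g h := by
  have := nd_tri g h 1
  rw [nd_one, nd_one] at this
  linarith

theorem stab_aux {x y A B C D η : ℝ} (hη : 0 < η) (hx : 0 ≤ x)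
    (h3 : x ≤ y + (A + B + C + D)) :
    1 / 2 * x ^ 2 ≤ (1 + η) * (1 / 2 * y ^ 2) +
      2 * (1 + 1 / η) * (A ^ 2 + B ^ 2 + C ^ 2 + D ^ 2) := by
  set s := A + B + C + D with hs
  have h4 : x ^ 2 ≤ (1 + η) * y ^ 2 + (1 + 1 / η) * s ^ 2 := by
    have e1 : x ^ 2 ≤ (y + s) ^ 2 := pow_le_pow_left₀ hx h3 2
    have e2 : 2 * y * s ≤ η * y ^ 2 + 1 / η * s ^ 2 := by
      have e3 : η * y ^ 2 + 1 / η * s ^ 2 - 2 * y * s = (η * y - s) ^ 2 / η := by
        field_simp
        ring
      have e4 : 0 ≤ (η * y - s) ^ 2 / η := by positivity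
      linarith
    nlinarith
  have h5 : s ^ 2 ≤ 4 * (A ^ 2 + B ^ 2 + C ^ 2 + D ^ 2) := by
    rw [hs]
    nlinarith [sq_nonneg (A - B), sq_nonneg (A - C), sq_nonneg (A - D), sq_nonneg (B - C),
      sq_nonneg (B - D), sq_nonneg (C - D)]
  have h6 : (1 + 1 / η) * s ^ 2 ≤ (1 + 1 / η) * (4 * (A ^ 2 + B ^ 2 + C ^ 2 + D ^ 2)) :=
    mul_le_mul_of_nonneg_left h5 (by positivity)
  linarith

/-- stability of the energy of a plaquette -/
theorem wl_stab {η : ℝ} (hη : 0 < η) (a b c e a' b' c' e' : G) :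
    wl a b c e ≤ (1 + η) * wl a' b' c' e' +
      2 * (1 + 1 / η) * (nd a a' ^ 2 + nd b b' ^ 2 + nd c c' ^ 2 + nd e e' ^ 2) := by
  have h1 : nd (a * b * c⁻¹ * e⁻¹) (a' * b' * c'⁻¹ * e'⁻¹) ≤
      nd a a' + nd b b' + nd c c' + nd e e' := by
    have k1 := nd_mul (a * b * c⁻¹) (a' * b' * c'⁻¹) e⁻¹ e'⁻¹
    have k2 := nd_mul (a * b) (a' * b') c⁻¹ c'⁻¹
    have k3 := nd_mul a a' b b'
    rw [nd_inv] at k1 k2
    linarith
  have h2 := Dg_le_nd (a * b * c⁻¹ * e⁻¹) (a' * b' * c'⁻¹ * e'⁻¹)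
  rw [wl_eq, wl_eq]
  exact stab_aux hη (Dg_nonneg _) (h2.trans (by linarith))

theorem wl_one : wl (1 : G) 1 1 1 = 0 := by
  rw [wl_eq]
  simp [Dg_one]

end group

section shift

variable {d l : ℕ} [NeZero l]

/-- each link belongs to few plaquettes -/
theorem sum_links (f : (Fin d → ZMod l) × Fin d → ℝ) (hf : ∀ e, 0 ≤ f e) :
    ∑ x : Fin d → ZMod l, ∑ i : Fin d, ∑ j : Fin d, (if i < j then
      f (x, i) + f (x + Pi.single i 1, j) + f (x + Pi.single j 1, i) + f (x, j) else 0) ≤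
      4 * d * ∑ e, f e := by
  have h1 : ∀ (x : Fin d → ZMod l) (i j : Fin d), (if i < j then
      f (x, i) + f (x + Pi.single i 1, j) + f (x + Pi.single j 1, i) + f (x, j) else 0) ≤
      f (x, i) + f (x + Pi.single i 1, j) + f (x + Pi.single j 1, i) + f (x, j) := by
    intro x i j
    split_ifs
    · exact le_rfl
    · have := hf (x, i); have := hf (x + Pi.single i 1, j)
      have := hf (x + Pi.single j 1, i); have := hf (x, j)
      positivity
  have hS : ∑ e, f e = ∑ i : Fin d, ∑ x : Fin d → ZMod l, f (x, i) := by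
    rw [Fintype.sum_prod_type_right]
  set T := ∑ e, f e with hT
  have hsh : ∀ (v : Fin d → ZMod l) (i : Fin d), ∑ x : Fin d → ZMod l, f (x + v, i) =
      ∑ x : Fin d → ZMod l, f (x, i) := fun v i =>
    Equiv.sum_comp (Equiv.addRight v) (fun x => f (x, i))
  calc _ ≤ ∑ x : Fin d → ZMod l, ∑ i : Fin d, ∑ j : Fin d,
        (f (x, i) + f (x + Pi.single i 1, j) + f (x + Pi.single j 1, i) + f (x, j)) :=
        Finset.sum_le_sum fun x _ => Finset.sum_le_sum fun i _ => Finset.sum_le_sum fun j _ =>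
          h1 x i j
    _ = ∑ i : Fin d, ∑ j : Fin d, ∑ x : Fin d → ZMod l,
        (f (x, i) + f (x + Pi.single i 1, j) + f (x + Pi.single j 1, i) + f (x, j)) := by
        rw [Finset.sum_comm]
        refine Finset.sum_congr rfl fun i _ => Finset.sum_comm
    _ = ∑ i : Fin d, ∑ j : Fin d, (2 * ∑ x : Fin d → ZMod l, f (x, i) +
          2 * ∑ x : Fin d → ZMod l, f (x, j)) := by
        refine Finset.sum_congr rfl fun i _ => Finset.sum_congr rfl fun j _ => ?_
        simp only [Finset.sum_add_distrib, hsh]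
        ring
    _ = 4 * d * T := by
        simp only [Finset.sum_add_distrib, Finset.sum_const, Finset.card_univ, Fintype.card_fin,
          nsmul_eq_mul, ← Finset.mul_sum, ← hS]
        ring
    _ ≤ _ := le_rfl

end shift

section inner

variable {d l m q : ℕ} [NeZero l] [NeZero m]

/-- the inner links of a box -/
def rin (d m : ℕ) [NeZero m] : Finset ((Fin d → ZMod m) × Fin d) :=
  Finset.univ.filter fun e => (e.2 : ℕ) + 1 < d ∧ (e.1 e.2).val + 1 < m ∧
    ∀ j, j ≠ e.2 → 1 ≤ (e.1 j).val ∧ (e.1 j).val + 1 < m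

/-- the free links of the torus -/
def rfr (d l m : ℕ) [NeZero l] : Finset ((Fin d → ZMod l) × Fin d) :=
  Finset.univ.filter fun e => (e.2 : ℕ) + 1 < d ∧ (e.1 e.2).val % m + 1 < m ∧
    ∀ j, j ≠ e.2 → 1 ≤ (e.1 j).val % m ∧ (e.1 j).val % m + 1 < m

theorem rin_sub : rin d m ⊆ kfr d m := by
  intro e he
  simp only [rin, kfr, Finset.mem_filter, Finset.mem_univ, true_and] at he ⊢
  refine ⟨he.2.1, fun h => ?_⟩
  have hd := he.1
  let o : Fin d := ⟨d - 1, by omega⟩
  have ho : e.2 < o := by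
    show (e.2 : ℕ) < d - 1
    omega
  have h1 := (mem_comb (x := e.1) (i := e.2)).1 h
  have h2 := h1.2 o ho
  have h3 := (he.2.2 o ho.ne').1
  rw [h2] at h3
  simp at h3

theorem rfr_disj : Disjoint (rfr d l m) (comb d l) := by
  rw [Finset.disjoint_left]
  intro e he h
  simp only [rfr, Finset.mem_filter, Finset.mem_univ, true_and] at he
  have hd := he.1
  let o : Fin d := ⟨d - 1, by omega⟩
  have ho : e.2 < o := by
    show (e.2 : ℕ) < d - 1
    omega
  have h1 := (mem_comb (x := e.1) (i := e.2)).1 h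
  have h2 := h1.2 o ho
  have h3 := (he.2.2 o ho.ne').1
  rw [h2] at h3
  simp at h3

theorem blk_mem_rfr (hq : q * m = l) (b : Fin d → Fin q) (y : Fin d → ZMod m) (i : Fin d) :
    ((blk l (b, y) : Fin d → ZMod l), i) ∈ rfr d l m ↔ (y, i) ∈ rin d m := by
  have h1 : ∀ k, ((blk l (b, y) : Fin d → ZMod l) k).val % m = (y k).val := by
    intro k
    rw [blk_val hq.le, Nat.mul_add_mod', Nat.mod_eq_of_lt (ZMod.val_lt _)]
  simp only [rfr, rin, Finset.mem_filter, Finset.mem_univ, true_and, h1]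

theorem blk_bij (hq : q * m = l) :
    Function.Bijective (blk l : (Fin d → Fin q) × (Fin d → ZMod m) → (Fin d → ZMod l)) := by
  rw [Fintype.bijective_iff_injective_and_card]
  refine ⟨blk_inj hq.le, ?_⟩
  rw [Fintype.card_prod, Fintype.card_fun, Fintype.card_fun, Fintype.card_fun, ZMod.card,
    ZMod.card, Fintype.card_fin, Fintype.card_fin, ← mul_pow, hq]

theorem val_succ_mod (hq : q * m = l) (z : ZMod l) : (z + 1).val % m = (z.val + 1) % m := by
  have hdvd : m ∣ l := ⟨q, by rw [← hq, mul_comm]⟩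
  rw [ZMod.val_add, Nat.mod_mod_of_dvd _ hdvd, ZMod.val_one_eq_one_mod, Nat.add_mod,
    Nat.mod_mod_of_dvd _ hdvd, ← Nat.add_mod]

theorem not_rfr (hq : q * m = l) {x : Fin d → ZMod l} {i j : Fin d} (hij : i ≠ j)
    (h : (x i).val % m + 1 = m ∨ (x j).val % m + 1 = m) :
    (x, i) ∉ rfr d l m ∧ (x + Pi.single i 1, j) ∉ rfr d l m ∧
      (x + Pi.single j 1, i) ∉ rfr d l m ∧ (x, j) ∉ rfr d l m := by
  have hz : ∀ k, (x k).val % m + 1 = m → ((x k + 1).val % m = 0) := by
    intro k hk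
    rw [val_succ_mod hq, Nat.add_mod]
    rcases Nat.lt_or_ge 1 m with h1 | h1
    · rw [Nat.mod_eq_of_lt h1, hk, Nat.mod_self]
    · have : m = 1 := by have := NeZero.pos m; omega
      subst this
      exact Nat.mod_one _
  refine ⟨fun h' => ?_, fun h' => ?_, fun h' => ?_, fun h' => ?_⟩ <;>
    simp only [rfr, Finset.mem_filter, Finset.mem_univ, true_and] at h'
  · have h2 := h'.2.1
    have h3 := (h'.2.2 j hij.symm).2
    omega
  · have h2 := h'.2.1
    rw [add_ne _ hij.symm] at h2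
    have h3 := (h'.2.2 i hij).1
    rw [add_same] at h3
    rcases h with h | h
    · rw [hz i h] at h3; omega
    · omega
  · have h2 := h'.2.1
    rw [add_ne _ hij] at h2
    have h3 := (h'.2.2 j hij.symm).1
    rw [add_same] at h3
    rcases h with h | h
    · omega
    · rw [hz j h] at h3; omega
  · have h2 := h'.2.1
    have h3 := (h'.2.2 i hij).2
    omega

variable {H : Type*} (F : H → H → H → H → ℝ) (u : H)

/-- the torus action of a configuration supported on the inner links -/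
theorem tact_inner (hq : q * m = l) (hF : F u u u u = 0) (V : (Fin d → ZMod l) × Fin d → H)
    (hV : ∀ e, e ∉ rfr d l m → V e = u) :
    tact F l V = ∑ b : Fin d → Fin q, bact F m (fun e => V (blk l (b, e.1), e.2)) := by
  unfold tact
  rw [← (blk_bij hq).sum_comp, Fintype.sum_prod_type]
  refine Finset.sum_congr rfl fun b _ => ?_
  unfold bact
  refine Finset.sum_congr rfl fun y _ => Finset.sum_congr rfl fun i _ =>
    Finset.sum_congr rfl fun j _ => ?_
  have hm : ∀ k, ((blk l (b, y) : Fin d → ZMod l) k).val % m = (y k).val := by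
    intro k
    rw [blk_val hq.le, Nat.mul_add_mod', Nat.mod_eq_of_lt (ZMod.val_lt _)]
  by_cases hij : i < j
  · rw [if_pos hij]
    by_cases hP : (y i).val + 1 < m ∧ (y j).val + 1 < m
    · rw [if_pos ⟨hij, hP⟩]
      simp only [blk_step b y i hP.1, blk_step b y j hP.2]
    · rw [if_neg (fun h => hP h.2)]
      have h1 : ((blk l (b, y) : Fin d → ZMod l) i).val % m + 1 = m ∨
          ((blk l (b, y) : Fin d → ZMod l) j).val % m + 1 = m := by
        rw [hm, hm]
        have e1 := ZMod.val_lt (y i)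
        have e2 := ZMod.val_lt (y j)
        by_contra hcon
        push Not at hcon
        exact hP ⟨by omega, by omega⟩
      obtain ⟨a1, a2, a3, a4⟩ := not_rfr hq hij.ne h1
      rw [hV _ a1, hV _ a2, hV _ a3, hV _ a4, hF]
  · rw [if_neg hij, if_neg (fun h => hij h.1)]

end inner

section card

variable {d l m q : ℕ} [NeZero l] [NeZero m]

theorem card_rfr (hq : q * m = l) : q ^ d * (rin d m).card ≤ (rfr d l m).card := by
  classical
  have h1 : ((Finset.univ : Finset (Fin d → Fin q)) ×ˢ rin d m).card ≤ (rfr d l m).card := by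
    refine Finset.card_le_card_of_injOn (fun p => (blk l (p.1, p.2.1), p.2.2)) ?_ ?_
    · rintro ⟨b, y, i⟩ hp
      rw [Finset.mem_coe] at hp ⊢
      exact (blk_mem_rfr hq b y i).2 (Finset.mem_product.1 hp).2
    · rintro ⟨b, y, i⟩ _ ⟨b', y', i'⟩ _ h
      have e1 := blk_inj hq.le (congrArg Prod.fst h)
      have e2 : i = i' := congrArg Prod.snd h
      simp only [Prod.mk.injEq] at e1
      rw [e1.1, e1.2, e2]
  rwa [Finset.card_product, Finset.card_univ, Fintype.card_fun, Fintype.card_fin,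
    Fintype.card_fin] at h1

/-- the number of the frozen links -/
theorem card_frozen (hd : 0 < d) (hq : q * m = l) :
    ((rfr d l m ∪ comb d l)ᶜ).card + q ^ d * (rin d m).card ≤ (d - 1) * l ^ d + l ^ (d - 1) := by
  classical
  rw [Finset.card_compl, Finset.card_union_of_disjoint rfr_disj]
  have h1 := card_rfr (d := d) (l := l) (m := m) hq
  have h2 := card_comb_ge (d := d) (m := l) hd
  have h3 : Fintype.card ((Fin d → ZMod l) × Fin d) = d * l ^ d := by
    rw [Fintype.card_prod, Fintype.card_fun, ZMod.card, Fintype.card_fin, mul_comm]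
  have h4 : (rfr d l m).card + (comb d l).card ≤ Fintype.card ((Fin d → ZMod l) × Fin d) := by
    rw [← Finset.card_union_of_disjoint rfr_disj]
    exact Finset.card_le_univ _
  rw [h3] at h4 ⊢
  have h5 : d * l ^ d = (d - 1) * l ^ d + l ^ d := by
    obtain ⟨t, rfl⟩ : ∃ t, d = t + 1 := ⟨d - 1, by omega⟩
    simp only [Nat.add_sub_cancel]
    ring
  omega

theorem card_rin (hd : 0 < d) : (d - 1) * (m - 2) ^ d ≤ (rin d m).card := by
  classical
  have hm := NeZero.pos m
  unfold rin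
  rw [card_filter_snd]
  let I : Finset (ZMod m) := Finset.univ.filter fun z => 1 ≤ z.val ∧ z.val + 1 < m
  have hI : m - 2 ≤ I.card := by
    have h1 : (Finset.range (m - 2)).card ≤ I.card := by
      refine Finset.card_le_card_of_injOn (fun k => ((k + 1 : ℕ) : ZMod m)) ?_ ?_
      · intro k hk
        rw [Finset.mem_coe, Finset.mem_range] at hk
        simp only [I, Finset.coe_filter, Finset.mem_univ, true_and, Set.mem_ofPred_eq]
        rw [ZMod.val_natCast_of_lt (by omega)]
        omega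
      · intro k hk k' hk' h
        rw [Finset.mem_coe, Finset.mem_range] at hk hk'
        have := congrArg ZMod.val h
        rw [ZMod.val_natCast_of_lt (by omega), ZMod.val_natCast_of_lt (by omega)] at this
        omega
    simpa using h1
  have h2 : ∀ i : Fin d, (if (i : ℕ) + 1 < d then (m - 2) ^ d else 0) ≤
      (Finset.univ.filter fun x : Fin d → ZMod m => (i : ℕ) + 1 < d ∧ (x i).val + 1 < m ∧
        ∀ j, j ≠ i → 1 ≤ (x j).val ∧ (x j).val + 1 < m).card := by
    intro i
    split_ifs with hi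
    · have hsub : (Fintype.piFinset fun _ : Fin d => I) ⊆
          (Finset.univ.filter fun x : Fin d → ZMod m => (i : ℕ) + 1 < d ∧ (x i).val + 1 < m ∧
            ∀ j, j ≠ i → 1 ≤ (x j).val ∧ (x j).val + 1 < m) := by
        intro x hx
        rw [Fintype.mem_piFinset] at hx
        simp only [I, Finset.mem_filter, Finset.mem_univ, true_and] at hx ⊢
        exact ⟨hi, (hx i).2, fun j _ => hx j⟩
      refine le_trans ?_ (Finset.card_le_card hsub)
      rw [Fintype.card_piFinset, Finset.prod_const, Finset.card_univ, Fintype.card_fin]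
      exact Nat.pow_le_pow_left hI d
    · exact Nat.zero_le _
  refine le_trans ?_ (Finset.sum_le_sum fun i _ => h2 i)
  obtain ⟨t, rfl⟩ : ∃ t, d = t + 1 := ⟨d - 1, by omega⟩
  rw [Fin.sum_univ_castSucc]
  simp

end card

end Pool.Agent.X217.YM
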