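import Mathlib
import Pool.Agent.X217.YM.Upper

/-!
# Shift matrices and the determinant of the axial Maxwell matrix
-/

open Matrix

set_option linter.unusedSectionVars false

namespace Pool.Agent.X217.YM

theorem mat_ext {ι κ : Type*} [Fintype κ] [DecidableEq κ] {A B : Matrix ι κ ℝ}
    (h : ∀ f, A *ᵥ f = B *ᵥ f) : A = B := by
  ext i j
  have := congrFun (h (Pi.single j 1)) i
  simpa using this

variable {s m : ℕ} [NeZero m]

/-- the sites -/
abbrev XX (s m : ℕ) := Fin (s + 1) → ZMod m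

/-- the forward shift -/
def Ps (k : Fin s) : Matrix (XX s m) (XX s m) ℝ :=
  fun x y => if y = x + Pi.single k.castSucc 1 then 1 else 0

/-- the backward shift in time with an absorbing bottom -/
def Rt (s m : ℕ) [NeZero m] : Matrix (XX s m) (XX s m) ℝ :=
  fun x y => if x (Fin.last s) ≠ 0 ∧ y = x - Pi.single (Fin.last s) 1 then 1 else 0

theorem Ps_mulVec (k : Fin s) (f : XX s m → ℝ) (x : XX s m) :
    (Ps k *ᵥ f) x = f (x + Pi.single k.castSucc 1) := by
  simp [mulVec, dotProduct, Ps]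

theorem PsT_mulVec (k : Fin s) (f : XX s m → ℝ) (x : XX s m) :
    ((Ps k)ᵀ *ᵥ f) x = f (x - Pi.single k.castSucc 1) := by
  have h : ∀ y : XX s m, (x = y + Pi.single k.castSucc 1) ↔ (y = x - Pi.single k.castSucc 1) :=
    fun y => ⟨fun h => by rw [h]; simp, fun h => by rw [h]; simp⟩
  simp [mulVec, dotProduct, Ps, transpose_apply, h]

theorem Rt_mulVec (f : XX s m → ℝ) (x : XX s m) :
    (Rt s m *ᵥ f) x = if x (Fin.last s) = 0 then 0 else f (x - Pi.single (Fin.last s) 1) := by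
  by_cases h : x (Fin.last s) = 0
  · simp [mulVec, dotProduct, Rt, h]
  · simp [mulVec, dotProduct, Rt, h]

theorem RtT_mulVec (f : XX s m → ℝ) (x : XX s m) :
    ((Rt s m)ᵀ *ᵥ f) x =
      if x (Fin.last s) + 1 = 0 then 0 else f (x + Pi.single (Fin.last s) 1) := by
  have h : ∀ y : XX s m, (y (Fin.last s) ≠ 0 ∧ x = y - Pi.single (Fin.last s) 1) ↔
      (x (Fin.last s) + 1 ≠ 0 ∧ y = x + Pi.single (Fin.last s) 1) := by
    intro y
    constructor
    · rintro ⟨h1, h2⟩
      have h3 : y = x + Pi.single (Fin.last s) 1 := by rw [h2]; simp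
      refine ⟨?_, h3⟩
      rw [h3] at h1
      simpa using h1
    · rintro ⟨h1, h2⟩
      refine ⟨?_, by rw [h2]; simp⟩
      rw [h2]
      simpa using h1
  by_cases h0 : x (Fin.last s) + 1 = 0
  · simp [mulVec, dotProduct, Rt, transpose_apply, h, h0]
  · simp [mulVec, dotProduct, Rt, transpose_apply, h, h0]

theorem Ps_comm (k k' : Fin s) : Commute (Ps (m := m) k) (Ps k') := by
  refine mat_ext fun f => ?_
  funext x
  rw [← mulVec_mulVec, ← mulVec_mulVec, Ps_mulVec, Ps_mulVec, Ps_mulVec, Ps_mulVec]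
  congr 1
  abel

theorem Ps_commT (k k' : Fin s) : Commute (Ps (m := m) k) (Ps k')ᵀ := by
  refine mat_ext fun f => ?_
  funext x
  rw [← mulVec_mulVec, ← mulVec_mulVec, Ps_mulVec, PsT_mulVec, PsT_mulVec, Ps_mulVec]
  congr 1
  abel

theorem cs_ne (k : Fin s) : Fin.last s ≠ k.castSucc := (Fin.castSucc_lt_last k).ne'

theorem Ps_Rt (k : Fin s) : Commute (Ps (m := m) k) (Rt s m) := by
  refine mat_ext fun f => ?_
  funext x
  rw [← mulVec_mulVec, ← mulVec_mulVec, Ps_mulVec, Rt_mulVec, Rt_mulVec, Ps_mulVec,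
    add_ne _ (cs_ne k)]
  split_ifs
  · rfl
  · congr 1
    abel

theorem Ps_RtT (k : Fin s) : Commute (Ps (m := m) k) (Rt s m)ᵀ := by
  refine mat_ext fun f => ?_
  funext x
  rw [← mulVec_mulVec, ← mulVec_mulVec, Ps_mulVec, RtT_mulVec, RtT_mulVec, Ps_mulVec,
    add_ne _ (cs_ne k)]
  split_ifs
  · rfl
  · congr 1
    abel

theorem comm_T {ι : Type*} [Fintype ι] {A B : Matrix ι ι ℝ} (h : Commute A B) :
    Commute Aᵀ Bᵀ := by
  show Aᵀ * Bᵀ = Bᵀ * Aᵀ
  rw [← transpose_mul, ← transpose_mul]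
  exact congrArg transpose h.symm

/-- the difference operators -/
def Ds (k : Fin s) : Matrix (XX s m) (XX s m) ℝ := Ps k - 1

/-- the difference operator in time -/
def Tt (s m : ℕ) [NeZero m] : Matrix (XX s m) (XX s m) ℝ := 1 - Rt s m

/-- the Laplace operator -/
def Lp (s m : ℕ) [NeZero m] : Matrix (XX s m) (XX s m) ℝ :=
  ∑ k : Fin s, (Ds k)ᵀ * Ds k + (Tt s m)ᵀ * Tt s m

theorem DsT (k : Fin s) : (Ds (m := m) k)ᵀ = (Ps k)ᵀ - 1 := by
  rw [Ds, transpose_sub, transpose_one]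

theorem TtT : (Tt s m)ᵀ = 1 - (Rt s m)ᵀ := by
  rw [Tt, transpose_sub, transpose_one]

theorem Ds_comm (k k' : Fin s) : Commute (Ds (m := m) k) (Ds k') :=
  ((Ps_comm k k').sub_right (Commute.one_right _)).sub_left (Commute.one_left _)

theorem Ds_commT (k k' : Fin s) : Commute (Ds (m := m) k) (Ds k')ᵀ := by
  rw [DsT]
  exact ((Ps_commT k k').sub_right (Commute.one_right _)).sub_left (Commute.one_left _)

theorem Ds_Tt (k : Fin s) : Commute (Ds (m := m) k) (Tt s m) :=
  ((Commute.one_right _).sub_right (Ps_Rt k)).sub_left (Commute.one_left _)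

theorem Ds_TtT (k : Fin s) : Commute (Ds (m := m) k) (Tt s m)ᵀ := by
  rw [TtT]
  exact ((Commute.one_right _).sub_right (Ps_RtT k)).sub_left (Commute.one_left _)

theorem Ds_Lp (k : Fin s) : Commute (Ds (m := m) k) (Lp s m) := by
  unfold Lp
  refine Commute.add_right (Commute.sum_right _ _ _ fun k' _ => ?_) ?_
  · exact (Ds_commT k k').mul_right (Ds_comm k k')
  · exact (Ds_TtT k).mul_right (Ds_Tt k)

theorem Lp_symm : (Lp s m)ᵀ = Lp s m := by
  unfold Lp
  rw [transpose_add, transpose_sum]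
  congr 1
  · refine Finset.sum_congr rfl fun k _ => ?_
    rw [transpose_mul, transpose_transpose]
  · rw [transpose_mul, transpose_transpose]

theorem DsT_Lp (k : Fin s) : Commute (Ds (m := m) k)ᵀ (Lp s m) := by
  have := comm_T (Ds_Lp (m := m) k)
  rwa [Lp_symm] at this

/-- the time difference operator is unitriangular -/
theorem det_Tt : (Tt s m).det = 1 := by
  classical
  rw [← det_transpose]
  let b : XX s m → ℕ := fun x => (x (Fin.last s)).val
  have hentry : ∀ x y : XX s m, (Tt s m)ᵀ x y =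
      (if x = y then 1 else 0) -
        (if y (Fin.last s) ≠ 0 ∧ x = y - Pi.single (Fin.last s) 1 then 1 else 0) := by
    intro x y
    rw [TtT, Matrix.sub_apply, transpose_apply, one_apply]
    rfl
  have hb : ∀ x y : XX s m, y (Fin.last s) ≠ 0 ∧ x = y - Pi.single (Fin.last s) 1 →
      b x < b y := by
    rintro x y ⟨h1, h2⟩
    have hv : 1 ≤ (y (Fin.last s)).val := by
      rcases Nat.eq_zero_or_pos (y (Fin.last s)).val with h | h
      · exact absurd ((ZMod.val_eq_zero _).1 h) h1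
      · exact h
    simp only [b]
    rw [h2, sub_same y hv]
    omega
  have hT : BlockTriangular (Tt s m)ᵀ b := by
    intro x y hxy
    rw [hentry, if_neg, if_neg, sub_zero]
    · exact fun h => absurd (hb x y h) (not_lt.2 hxy.le)
    · rintro rfl
      exact lt_irrefl _ hxy
  rw [hT.det]
  refine Finset.prod_eq_one fun a _ => ?_
  have : (Tt s m)ᵀ.toSquareBlock b a = 1 := by
    ext x y
    rw [toSquareBlock_def, of_apply, hentry, one_apply, if_neg (c := _ ∧ _), sub_zero]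
    · simp only [Subtype.ext_iff]
    · intro h
      have := hb x.1 y.1 h
      rw [x.2, y.2] at this
      exact lt_irrefl _ this
  rw [this, det_one]

/-- the gradient -/
def Dg' (s m : ℕ) [NeZero m] : Matrix (XX s m × Fin s) (XX s m) ℝ := fun p y => Ds p.2 p.1 y

/-- the axial Maxwell matrix -/
def Nn (s m : ℕ) [NeZero m] : Matrix (XX s m × Fin s) (XX s m × Fin s) ℝ :=
  blockDiagonal (fun _ : Fin s => Lp s m) - Dg' s m * (Dg' s m)ᵀ

/-- **the determinant of the axial Maxwell matrix** -/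
theorem det_Nn (hs : 1 ≤ s) (hL : (Lp s m).det ≠ 0) :
    (Nn s m).det = (Lp s m).det ^ (s - 1) := by
  have hu : IsUnit (Lp s m).det := isUnit_iff_ne_zero.2 hL
  set L := Lp s m with hLd
  have hLi : L * L⁻¹ = 1 := mul_nonsing_inv L hu
  have hiL : L⁻¹ * L = 1 := nonsing_inv_mul L hu
  let X : Matrix (XX s m × Fin s) (XX s m × Fin s) ℝ := blockDiagonal fun _ : Fin s => L⁻¹
  have hBX : blockDiagonal (fun _ : Fin s => L) * X = 1 := by
    simp only [X]
    rw [← blockDiagonal_mul]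
    simp only [hLi]
    exact blockDiagonal_one
  have h1 : Nn s m = blockDiagonal (fun _ : Fin s => L) * (1 - (X * Dg' s m) * (Dg' s m)ᵀ) := by
    rw [mul_sub, mul_one, ← Matrix.mul_assoc, ← Matrix.mul_assoc, hBX, Matrix.one_mul]
    rfl
  have hinvc : ∀ k : Fin s, (Ds (m := m) k)ᵀ * L⁻¹ = L⁻¹ * (Ds k)ᵀ := by
    intro k
    have h2 : (Ds (m := m) k)ᵀ * L = L * (Ds k)ᵀ := DsT_Lp k
    calc (Ds (m := m) k)ᵀ * L⁻¹ = L⁻¹ * L * ((Ds k)ᵀ * L⁻¹) := by rw [hiL, Matrix.one_mul]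
      _ = L⁻¹ * (L * (Ds k)ᵀ) * L⁻¹ := by simp only [Matrix.mul_assoc]
      _ = L⁻¹ * ((Ds k)ᵀ * L) * L⁻¹ := by rw [h2]
      _ = L⁻¹ * (Ds k)ᵀ * (L * L⁻¹) := by simp only [Matrix.mul_assoc]
      _ = _ := by rw [hLi, Matrix.mul_one]
  have h3 : (Dg' s m)ᵀ * (X * Dg' s m) = ∑ k : Fin s, (Ds k)ᵀ * (L⁻¹ * Ds k) := by
    have e1 : ∀ (x : XX s m) (k : Fin s) (y : XX s m),
        (X * Dg' s m) (x, k) y = (L⁻¹ * Ds k : Matrix (XX s m) (XX s m) ℝ) x y := by
      intro x k y
      rw [mul_apply, mul_apply, Fintype.sum_prod_type]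
      refine Finset.sum_congr rfl fun z _ => ?_
      simp only [X, blockDiagonal_apply, Dg', ite_mul, zero_mul]
      simp
    ext x y
    rw [mul_apply, Fintype.sum_prod_type_right, Matrix.sum_apply]
    refine Finset.sum_congr rfl fun k _ => ?_
    rw [mul_apply]
    refine Finset.sum_congr rfl fun z _ => ?_
    rw [e1]
    rfl
  have h4 : 1 - (Dg' s m)ᵀ * (X * Dg' s m) = L⁻¹ * ((Tt s m)ᵀ * Tt s m) := by
    rw [h3]
    have e1 : ∑ k : Fin s, (Ds (m := m) k)ᵀ * (L⁻¹ * Ds k) =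
        L⁻¹ * ∑ k : Fin s, (Ds k)ᵀ * Ds k := by
      rw [Finset.mul_sum]
      refine Finset.sum_congr rfl fun k _ => ?_
      rw [← Matrix.mul_assoc, hinvc, Matrix.mul_assoc]
    have e2 : ∑ k : Fin s, (Ds (m := m) k)ᵀ * Ds k = L - (Tt s m)ᵀ * Tt s m := by
      rw [hLd, Lp, add_sub_cancel_right]
    rw [e1, e2, mul_sub, hiL]
    abel
  have hdi : (L⁻¹).det = (L.det)⁻¹ := by
    rw [det_nonsing_inv, Ring.inverse_eq_inv']
  rw [h1, det_mul, det_blockDiagonal, det_one_sub_mul_comm, h4, det_mul, det_mul, det_transpose,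
    det_Tt, hdi, Finset.prod_const, Finset.card_univ, Fintype.card_fin]
  obtain ⟨t, rfl⟩ : ∃ t, s = t + 1 := ⟨s - 1, by omega⟩
  rw [Nat.add_sub_cancel, pow_succ]
  field_simp

end Pool.Agent.X217.YM
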