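import Mathlib
import Pool.Agent.X217.YM.Ops
import Pool.Agent.X217.YM.Lower

/-!
# Comparison of the Maxwell matrix of the box with the axial Maxwell matrix
-/

open Matrix

set_option linter.unusedSectionVars false

namespace Pool.Agent.X217.YM

section general

theorem pair_sum {ι : Type*} [Fintype ι] [LinearOrder ι] (a : ι → ι → ℝ) :
    ∑ j, ∑ k, (a j k ^ 2 - a j k * a k j) =
      ∑ j, ∑ k, (if j < k then (a j k - a k j) ^ 2 else 0) := by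
  have h1 : ∑ j, ∑ k, (a j k ^ 2 - a j k * a k j) =
      1 / 2 * ∑ j, ∑ k, (a j k - a k j) ^ 2 := by
    have e1 : ∑ j, ∑ k, (a j k - a k j) ^ 2 =
        ∑ j, ∑ k, (a j k ^ 2 - a j k * a k j) + ∑ j, ∑ k, (a k j ^ 2 - a k j * a j k) := by
      simp only [← Finset.sum_add_distrib]
      refine Finset.sum_congr rfl fun j _ => Finset.sum_congr rfl fun k _ => by ring
    have e2 : ∑ j, ∑ k, (a k j ^ 2 - a k j * a j k) =
        ∑ j, ∑ k, (a j k ^ 2 - a j k * a k j) := Finset.sum_comm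
    rw [e1, e2]
    ring
  have h2 : ∑ j, ∑ k, (a j k - a k j) ^ 2 =
      ∑ j, ∑ k, (if j < k then (a j k - a k j) ^ 2 else 0) +
      ∑ j, ∑ k, (if k < j then (a k j - a j k) ^ 2 else 0) := by
    simp only [← Finset.sum_add_distrib]
    refine Finset.sum_congr rfl fun j _ => Finset.sum_congr rfl fun k _ => ?_
    rcases lt_trichotomy j k with h | h | h
    · rw [if_pos h, if_neg (not_lt.2 h.le)]; ring
    · subst h; simp
    · rw [if_neg (not_lt.2 h.le), if_pos h]; ring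
  have h3 : ∑ j, ∑ k, (if k < j then (a k j - a j k) ^ 2 else 0) =
      ∑ j, ∑ k, (if j < k then (a j k - a k j) ^ 2 else 0) := Finset.sum_comm
  rw [h1, h2, h3]
  ring

theorem sum3 {A B C : Type*} [Fintype A] [Fintype B] [Fintype C] (g : A → B → C → ℝ) :
    ∑ j, ∑ k, ∑ x, g j k x = ∑ x, ∑ j, ∑ k, g j k x := by
  calc ∑ j, ∑ k, ∑ x, g j k x = ∑ j, ∑ x, ∑ k, g j k x :=
        Finset.sum_congr rfl fun j _ => Finset.sum_comm
    _ = _ := Finset.sum_comm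

theorem quad_ext {ι : Type*} [Fintype ι] [DecidableEq ι] {A B : Matrix ι ι ℝ} (hA : Aᵀ = A)
    (hB : Bᵀ = B) (h : ∀ v, v ⬝ᵥ A *ᵥ v = v ⬝ᵥ B *ᵥ v) : A = B := by
  have key : ∀ (M : Matrix ι ι ℝ), Mᵀ = M → ∀ i j,
      (Pi.single i 1 + Pi.single j 1 : ι → ℝ) ⬝ᵥ M *ᵥ (Pi.single i 1 + Pi.single j 1) =
        M i i + 2 * M i j + M j j := by
    intro M hM i j
    have h1 : M j i = M i j := by
      conv_lhs => rw [← hM]
      rfl
    rw [mulVec_add, add_dotProduct, dotProduct_add, dotProduct_add]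
    simp only [mulVec_single_one, single_one_dotProduct, col_apply]
    rw [h1]
    ring
  have hd : ∀ i, A i i = B i i := by
    intro i
    have := h (Pi.single i 1)
    simpa [mulVec_single_one, single_one_dotProduct] using this
  ext i j
  have := h (Pi.single i 1 + Pi.single j 1)
  rw [key A hA, key B hB, hd i, hd j] at this
  linarith

end general

section quad

variable {s m : ℕ} [NeZero m]

theorem Ds_mulVec (k : Fin s) (f : XX s m → ℝ) (x : XX s m) :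
    (Ds k *ᵥ f) x = f (x + Pi.single k.castSucc 1) - f x := by
  rw [Ds, sub_mulVec, Pi.sub_apply, Ps_mulVec, one_mulVec]

theorem Tt_mulVec (f : XX s m → ℝ) (x : XX s m) :
    (Tt s m *ᵥ f) x =
      f x - if x (Fin.last s) = 0 then 0 else f (x - Pi.single (Fin.last s) 1) := by
  rw [Tt, sub_mulVec, Pi.sub_apply, Rt_mulVec, one_mulVec]

theorem quad_mul {ι κ : Type*} [Fintype ι] [Fintype κ] (A : Matrix κ ι ℝ) (f : ι → ℝ) :
    f ⬝ᵥ (Aᵀ * A) *ᵥ f = (A *ᵥ f) ⬝ᵥ (A *ᵥ f) := by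
  rw [← mulVec_mulVec, dotProduct_mulVec, vecMul_transpose]

theorem Lp_quad (f : XX s m → ℝ) : f ⬝ᵥ Lp s m *ᵥ f =
    ∑ k : Fin s, (Ds k *ᵥ f) ⬝ᵥ (Ds k *ᵥ f) + (Tt s m *ᵥ f) ⬝ᵥ (Tt s m *ᵥ f) := by
  rw [Lp, add_mulVec, dotProduct_add, quad_mul, sum_mulVec, dotProduct_sum]
  simp only [quad_mul]

/-- **the quadratic form of the axial Maxwell matrix** -/
theorem Nn_quad (v : XX s m × Fin s → ℝ) : v ⬝ᵥ Nn s m *ᵥ v =
    ∑ x, (∑ j : Fin s, ∑ k : Fin s, (if j < k then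
      ((Ds j *ᵥ fun y => v (y, k)) x - (Ds k *ᵥ fun y => v (y, j)) x) ^ 2 else 0) +
      ∑ k : Fin s, (Tt s m *ᵥ fun y => v (y, k)) x ^ 2) := by
  set f : Fin s → XX s m → ℝ := fun k y => v (y, k) with hf
  have h1 : v ⬝ᵥ (blockDiagonal fun _ : Fin s => Lp s m) *ᵥ v = ∑ k, f k ⬝ᵥ Lp s m *ᵥ f k := by
    rw [dotProduct, Fintype.sum_prod_type_right]
    refine Finset.sum_congr rfl fun k _ => ?_
    rw [dotProduct]
    refine Finset.sum_congr rfl fun x _ => ?_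
    congr 1
    rw [mulVec, dotProduct, Fintype.sum_prod_type]
    simp only [blockDiagonal_apply, ite_mul, zero_mul, Finset.sum_ite_eq, Finset.mem_univ, if_true]
    rfl
  have h2 : (Dg' s m)ᵀ *ᵥ v = ∑ k, (Ds k)ᵀ *ᵥ f k := by
    funext y
    rw [mulVec, dotProduct, Fintype.sum_prod_type_right, Finset.sum_apply]
    rfl
  have h3 : v ⬝ᵥ (Dg' s m * (Dg' s m)ᵀ) *ᵥ v =
      ∑ j, ∑ k, (Ds k *ᵥ f j) ⬝ᵥ (Ds j *ᵥ f k) := by
    have e1 := quad_mul (Dg' s m)ᵀ v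
    rw [transpose_transpose] at e1
    rw [e1, h2, sum_dotProduct]
    refine Finset.sum_congr rfl fun j _ => ?_
    rw [dotProduct_sum]
    refine Finset.sum_congr rfl fun k _ => ?_
    have e2 : (Ds (m := m) j) * (Ds k)ᵀ = (Ds k)ᵀ * Ds j := Ds_commT j k
    calc ((Ds j)ᵀ *ᵥ f j) ⬝ᵥ ((Ds k)ᵀ *ᵥ f k) = f j ⬝ᵥ (Ds j *ᵥ ((Ds k)ᵀ *ᵥ f k)) := by
          rw [dotProduct_mulVec (f j), ← mulVec_transpose]
      _ = f j ⬝ᵥ ((Ds k)ᵀ *ᵥ (Ds j *ᵥ f k)) := by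
          rw [mulVec_mulVec, e2, ← mulVec_mulVec]
      _ = _ := by
          rw [dotProduct_mulVec (f j), vecMul_transpose]
  rw [Nn, sub_mulVec, dotProduct_sub, h1, h3]
  simp only [Lp_quad]
  rw [Finset.sum_add_distrib]
  -- pointwise
  have h4 : ∀ x : XX s m, ∑ j : Fin s, ∑ k : Fin s, (if j < k then
      ((Ds j *ᵥ f k) x - (Ds k *ᵥ f j) x) ^ 2 else 0) =
      ∑ j : Fin s, ∑ k : Fin s, ((Ds j *ᵥ f k) x ^ 2 - (Ds j *ᵥ f k) x * (Ds k *ᵥ f j) x) :=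
    fun x => (pair_sum fun j k => (Ds j *ᵥ f k) x).symm
  have h5 : ∑ k : Fin s, ∑ j : Fin s, (Ds j *ᵥ f k) ⬝ᵥ (Ds j *ᵥ f k) =
      ∑ x : XX s m, ∑ j : Fin s, ∑ k : Fin s, (Ds j *ᵥ f k) x ^ 2 := by
    rw [Finset.sum_comm, ← sum3]
    simp only [dotProduct, sq]
  have h6 : ∑ j : Fin s, ∑ k : Fin s, (Ds k *ᵥ f j) ⬝ᵥ (Ds j *ᵥ f k) =
      ∑ x : XX s m, ∑ j : Fin s, ∑ k : Fin s, (Ds j *ᵥ f k) x * (Ds k *ᵥ f j) x := by
    rw [← sum3]
    refine Finset.sum_congr rfl fun j _ => Finset.sum_congr rfl fun k _ => ?_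
    rw [dotProduct_comm]
    rfl
  have h7 : ∑ k : Fin s, (Tt s m *ᵥ f k) ⬝ᵥ (Tt s m *ᵥ f k) =
      ∑ x : XX s m, ∑ k : Fin s, (Tt s m *ᵥ f k) x ^ 2 := by
    rw [Finset.sum_comm]
    simp only [dotProduct, sq]
  rw [h5, h6, h7]
  change _ = ∑ x : XX s m, (∑ j : Fin s, ∑ k : Fin s, (if j < k then
      ((Ds j *ᵥ f k) x - (Ds k *ᵥ f j) x) ^ 2 else 0) + ∑ k : Fin s, (Tt s m *ᵥ f k) x ^ 2)
  simp only [h4, Finset.sum_add_distrib, Finset.sum_sub_distrib]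
  ring

end quad

end Pool.Agent.X217.YM
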