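import Mathlib
import Pool.Agent.X217.YM.Lower

/-!
# Lower bound of the partition function
-/

open MeasureTheory Matrix Filter Metric
open scoped Matrix.Norms.Frobenius Topology ENNReal

set_option linter.unusedSectionVars false

namespace Pool.Agent.X217.YM

open Pool.Agent.H906R3.YM Pool.Agent.TH369.WL Pool.Agent.W793.YM

/-- elimination of independent events -/
theorem elim_ind {E X : Type*} [Fintype E] [DecidableEq E] [MeasurableSpace X] (μ : Measure X)
    [IsProbabilityMeasure μ] (M : Finset E) {A : Set X} (hA : MeasurableSet A)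
    {g : (E → X) → ℝ≥0∞} (hg : Measurable g)
    (hgi : ∀ e ∈ M, ∀ U t, g (Function.update U e t) = g U) :
    ∫⁻ U, g U * ∏ e ∈ M, A.indicator 1 (U e) ∂(Measure.pi fun _ : E => μ) =
      (∫⁻ U, g U ∂(Measure.pi fun _ : E => μ)) * μ A ^ M.card := by
  refine elim μ M (fun _ => 0) (fun e U => A.indicator 1 (U e)) g
    (fun e _ => (measurable_one.indicator hA).comp (measurable_pi_apply e)) hg (μ A)
    (fun e _ U => ?_) (fun e _ e' _ hne _ U t => ?_) hgi
  · simp only [Function.update_self]
    exact lintegral_indicator_one hA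
  · simp only [Function.update_of_ne hne.symm]

variable {N n d l m q : ℕ} [NeZero l] [NeZero m] {G : Subgroup (UN N)}

theorem wl_gauge (h1 h2 h3 h4 a b c e : G) :
    wl (h1 * a * h2⁻¹) (h2 * b * h3⁻¹) (h4 * c * h3⁻¹) (h1 * e * h4⁻¹) = wl a b c e := by
  rw [wl_eq, wl_eq]
  have e1 : h1 * a * h2⁻¹ * (h2 * b * h3⁻¹) * (h4 * c * h3⁻¹)⁻¹ * (h1 * e * h4⁻¹)⁻¹ =
      h1⁻¹⁻¹ * (a * b * c⁻¹ * e⁻¹) * h1⁻¹ := by group
  rw [e1, Dg_conj]

/-- the frozen links -/
def frz (d l m : ℕ) [NeZero l] : Finset ((Fin d → ZMod l) × Fin d) := (rfr d l m ∪ comb d l)ᶜ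

theorem tact_frozen {η r : ℝ} (hη : 0 < η) (U : (Fin d → ZMod l) × Fin d → G)
    (hU : ∀ e ∈ frz d l m, Dg (U e) < r) :
    tact wl l (fix (comb d l) U) ≤ (1 + η) * tact wl l (fix (rfr d l m)ᶜ U) +
      8 * d * (1 + 1 / η) * r ^ 2 * (frz d l m).card := by
  classical
  set W := fix (comb d l) U with hW
  set V := fix (rfr d l m)ᶜ U with hV
  let f : (Fin d → ZMod l) × Fin d → ℝ := fun e => nd (W e) (V e) ^ 2
  have hf0 : ∀ e, 0 ≤ f e := fun e => sq_nonneg _
  have hf : ∀ e, f e ≤ if e ∈ frz d l m then r ^ 2 else 0 := by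
    intro e
    by_cases h1 : e ∈ comb d l
    · have h2 : e ∉ rfr d l m := fun h => (Finset.disjoint_left.1 rfr_disj) h h1
      have e1 : W e = 1 := by simp [hW, fix, h1]
      have e2 : V e = 1 := by simp [hV, fix, h2]
      simp only [f, e1, e2, nd_self]
      split_ifs
      · simpa using sq_nonneg r
      · norm_num
    · have e1 : W e = U e := by simp [hW, fix, h1]
      by_cases h2 : e ∈ rfr d l m
      · have e2 : V e = U e := by simp [hV, fix, h2]
        simp only [f, e1, e2, nd_self]
        split_ifs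
        · simpa using sq_nonneg r
        · norm_num
      · have e2 : V e = 1 := by simp [hV, fix, h2]
        have h3 : e ∈ frz d l m := by simp [frz, h1, h2]
        rw [if_pos h3]
        simp only [f, e1, e2, nd_one]
        exact pow_le_pow_left₀ (Dg_nonneg _) (hU e h3).le 2
  have hsum : ∑ e, f e ≤ r ^ 2 * (frz d l m).card := by
    calc ∑ e, f e ≤ ∑ e, (if e ∈ frz d l m then r ^ 2 else 0) :=
          Finset.sum_le_sum fun e _ => hf e
      _ = _ := by
          rw [Finset.sum_ite_mem, Finset.univ_inter, Finset.sum_const, nsmul_eq_mul, mul_comm]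
  have hlinks := sum_links f hf0
  have hmain : tact wl l W ≤ (1 + η) * tact wl l V + 2 * (1 + 1 / η) *
      ∑ x : Fin d → ZMod l, ∑ i : Fin d, ∑ j : Fin d, (if i < j then
      f (x, i) + f (x + Pi.single i 1, j) + f (x + Pi.single j 1, i) + f (x, j) else 0) := by
    unfold tact
    simp only [Finset.mul_sum, ← Finset.sum_add_distrib]
    refine Finset.sum_le_sum fun x _ => Finset.sum_le_sum fun i _ => Finset.sum_le_sum fun j _ => ?_
    split_ifs
    · exact wl_stab hη _ _ _ _ _ _ _ _
    · simp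
  have h2 : 2 * (1 + 1 / η) *
      ∑ x : Fin d → ZMod l, ∑ i : Fin d, ∑ j : Fin d, (if i < j then
      f (x, i) + f (x + Pi.single i 1, j) + f (x + Pi.single j 1, i) + f (x, j) else 0) ≤
      2 * (1 + 1 / η) * (4 * d * (r ^ 2 * (frz d l m).card)) :=
    mul_le_mul_of_nonneg_left (hlinks.trans (mul_le_mul_of_nonneg_left hsum (by positivity)))
      (by positivity)
  linarith

variable [MeasurableSpace G] [BorelSpace G] (μ : Measure G) [IsProbabilityMeasure μ]

/-- the partition function of the inner box -/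
noncomputable def Zin (d m : ℕ) [NeZero m] (μ : Measure G) (β : ℝ) : ℝ :=
  ∫ U : (Fin d → ZMod m) × Fin d → G, Real.exp (-(β * bact wl m (fix (rin d m)ᶜ U)))
    ∂(Measure.pi fun _ => μ)

theorem fix_blk (hq : q * m = l) (U : (Fin d → ZMod l) × Fin d → G) (b : Fin d → Fin q) :
    (fun e : (Fin d → ZMod m) × Fin d => fix (rfr d l m)ᶜ U (blk l (b, e.1), e.2)) =
      fix (rin d m)ᶜ (fun e => U (blk l (b, e.1), e.2)) := by
  funext e
  unfold fix
  have := blk_mem_rfr (d := d) (l := l) (m := m) hq b e.1 e.2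
  simp only [Finset.mem_compl]
  by_cases h : e ∈ rin d m
  · rw [if_neg (not_not.2 (this.2 h)), if_neg (not_not.2 h)]
  · rw [if_pos (fun h' => h (this.1 h')), if_pos h]

/-- **the lower bound of the partition function** -/
theorem lower [SecondCountableTopology G] [μ.IsMulLeftInvariant] [μ.IsMulRightInvariant]
    (hq : q * m = l) {η β r : ℝ} (hη : 0 < η) (hβ : 0 ≤ β) :
    (μ {g | Dg g < r}).toReal ^ (frz d l m).card *
      Real.exp (-(β * (8 * d * (1 + 1 / η) * r ^ 2 * (frz d l m).card))) *
      Zin d m μ (β * (1 + η)) ^ q ^ d ≤ Zt μ wl d l β := by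
  classical
  have hwc : Continuous fun p : G × G × G × G => wl p.1 p.2.1 p.2.2.1 p.2.2.2 := wl_cont
  have htc : Continuous (tact wl l : ((Fin d → ZMod l) × Fin d → G) → ℝ) := tact_cont hwc
  have hbc : Continuous (bact wl m : ((Fin d → ZMod m) × Fin d → G) → ℝ) := bact_cont hwc
  have hti := integrable_exp (Measure.pi fun _ : (Fin d → ZMod l) × Fin d => μ) htc.measurable
    (fun U => tact_nonneg wl_nonneg U) hβ
  have hmD : MeasurableSet {g : G | Dg g < r} := measurableSet_lt Dg_cont.measurable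
    measurable_const
  have hβη : 0 ≤ β * (1 + η) := by positivity
  -- the inner partition function
  let g : (Fin d → Fin q) × ((Fin d → ZMod m) × Fin d) → (Fin d → ZMod l) × Fin d :=
    fun p => (blk l (p.1, p.2.1), p.2.2)
  have hg : Function.Injective g := by
    rintro ⟨b, y, i⟩ ⟨b', y', i'⟩ h
    have e1 := blk_inj hq.le (congrArg Prod.fst h)
    have e2 : i = i' := congrArg Prod.snd h
    simp only [Prod.mk.injEq] at e1
    rw [e1.1, e1.2, e2]
  have hbm : Measurable fun V : (Fin d → ZMod m) × Fin d → G =>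
      Real.exp (-(β * (1 + η) * bact wl m (fix (rin d m)ᶜ V))) :=
    ((hbc.measurable.comp (fix_meas _)).const_mul _).neg.exp
  have e1 : ∫ U, Real.exp (-(β * (1 + η) * tact wl l (fix (rfr d l m)ᶜ U)))
      ∂(Measure.pi fun _ => μ) = Zin d m μ (β * (1 + η)) ^ q ^ d := by
    have := integral_blocks μ g hg (fun V => Real.exp (-(β * (1 + η) *
      bact wl m (fix (rin d m)ᶜ V)))) hbm
    rw [Fintype.card_fun, Fintype.card_fin, Fintype.card_fin] at this
    rw [Zin, ← this]
    refine integral_congr_ae (Eventually.of_forall fun U => ?_)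
    show Real.exp (-(β * (1 + η) * tact wl l (fix (rfr d l m)ᶜ U))) =
      ∏ b, Real.exp (-(β * (1 + η) * bact wl m (fix (rin d m)ᶜ fun k => U (g (b, k)))))
    have k1 : tact wl l (fix (rfr d l m)ᶜ U) =
        ∑ b : Fin d → Fin q, bact wl m (fix (rin d m)ᶜ fun k => U (g (b, k))) := by
      rw [tact_inner wl 1 hq wl_one (fix (rfr d l m)ᶜ U) (fun e he => by simp [fix, he])]
      exact Finset.sum_congr rfl fun b _ => congrArg (bact wl m) (fix_blk hq U b)
    rw [← Real.exp_sum, k1, Finset.sum_neg_distrib, ← Finset.mul_sum]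
  have hvm : Measurable fun U : (Fin d → ZMod l) × Fin d → G => tact wl l (fix (rfr d l m)ᶜ U) :=
    htc.measurable.comp (fix_meas _)
  have hvi := integrable_exp (Measure.pi fun _ : (Fin d → ZMod l) × Fin d => μ) hvm
    (fun U => tact_nonneg wl_nonneg _) hβη
  have hZin : 0 ≤ Zin d m μ (β * (1 + η)) := integral_nonneg fun U => (Real.exp_pos _).le
  set D : ℝ := 8 * d * (1 + 1 / η) * r ^ 2 * (frz d l m).card with hD
  -- elimination
  set Ar : Set G := {g | Dg g < r} with hAr
  have hgm : Measurable fun U : (Fin d → ZMod l) × Fin d → G => ENNReal.ofReal (Real.exp (-(β * D)))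
      * ENNReal.ofReal (Real.exp (-(β * (1 + η) * tact wl l (fix (rfr d l m)ᶜ U)))) :=
    ((hvm.const_mul _).neg.exp.ennreal_ofReal).const_mul _
  have hel := elim_ind μ (frz d l m) hmD hgm (fun e he U t => by
    have h1 : fix (rfr d l m)ᶜ (Function.update U e t) = fix (rfr d l m)ᶜ U := by
      funext k
      by_cases hk : k = e
      · subst hk
        have : k ∉ rfr d l m := by
          simp only [frz, Finset.mem_compl, Finset.mem_union, not_or] at he
          exact he.1
        simp [fix, this]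
      · simp [fix, Function.update_of_ne hk]
    rw [h1])
  have hz : μ Ar = ENNReal.ofReal (μ Ar).toReal :=
    (ENNReal.ofReal_toReal (measure_ne_top _ _)).symm
  have hle : ENNReal.ofReal ((μ Ar).toReal ^ (frz d l m).card *
      Real.exp (-(β * D)) * Zin d m μ (β * (1 + η)) ^ q ^ d) ≤
      ENNReal.ofReal (Zt μ wl d l β) := by
    have e2 : ENNReal.ofReal (Zin d m μ (β * (1 + η)) ^ q ^ d) =
        ∫⁻ U, ENNReal.ofReal (Real.exp (-(β * (1 + η) * tact wl l (fix (rfr d l m)ᶜ U))))
          ∂(Measure.pi fun _ => μ) := by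
      rw [← e1, ofReal_integral_eq_lintegral_ofReal hvi
        (Eventually.of_forall fun U => (Real.exp_pos _).le)]
    have e3 : ENNReal.ofReal (Zt μ wl d l β) =
        ∫⁻ U, ENNReal.ofReal (Real.exp (-(β * tact wl l (fix (comb d l) U))))
          ∂(Measure.pi fun _ : (Fin d → ZMod l) × Fin d => μ) := by
      rw [Zt, ofReal_integral_eq_lintegral_ofReal hti
        (Eventually.of_forall fun U => (Real.exp_pos _).le)]
      exact comb_fix μ (f := fun U => ENNReal.ofReal (Real.exp (-(β * tact wl l U))))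
        ((htc.measurable.const_mul β).neg.exp.ennreal_ofReal)
        (fun v h U => by rw [tact_gauge wl_gauge])
    rw [ENNReal.ofReal_mul (by positivity), ENNReal.ofReal_mul (by positivity),
      ENNReal.ofReal_pow ENNReal.toReal_nonneg, ← hz, e2, e3]
    have e4 : μ Ar ^ (frz d l m).card * ENNReal.ofReal (Real.exp (-(β * D))) *
        ∫⁻ U, ENNReal.ofReal (Real.exp (-(β * (1 + η) * tact wl l (fix (rfr d l m)ᶜ U))))
          ∂(Measure.pi fun _ => μ) =
        ∫⁻ U, (ENNReal.ofReal (Real.exp (-(β * D))) *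
          ENNReal.ofReal (Real.exp (-(β * (1 + η) * tact wl l (fix (rfr d l m)ᶜ U))))) *
          ∏ e ∈ frz d l m, Ar.indicator 1 (U e)
          ∂(Measure.pi fun _ => μ) := by
      have hm2 : Measurable fun U : (Fin d → ZMod l) × Fin d → G =>
          ENNReal.ofReal (Real.exp (-(β * (1 + η) * tact wl l (fix (rfr d l m)ᶜ U)))) :=
        (hvm.const_mul _).neg.exp.ennreal_ofReal
      rw [hel, lintegral_const_mul _ hm2]
      ring
    rw [e4]
    refine lintegral_mono fun U => ?_
    by_cases hU : ∀ e ∈ frz d l m, Dg (U e) < r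
    · have h1 : ∏ e ∈ frz d l m, Ar.indicator (1 : G → ℝ≥0∞) (U e) = 1 :=
        Finset.prod_eq_one fun e he => Set.indicator_of_mem (show U e ∈ Ar from hU e he) _
      rw [h1, mul_one, ← ENNReal.ofReal_mul (Real.exp_pos _).le, ← Real.exp_add]
      refine ENNReal.ofReal_le_ofReal (Real.exp_le_exp.2 ?_)
      have h2 := mul_le_mul_of_nonneg_left (tact_frozen (m := m) hη U hU) hβ
      rw [← hD] at h2
      linarith
    · push Not at hU
      obtain ⟨e, he, hr⟩ := hU
      have h1 : Ar.indicator (1 : G → ℝ≥0∞) (U e) = 0 :=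
        Set.indicator_of_notMem (fun h : U e ∈ Ar => absurd h (not_lt.2 hr)) _
      rw [Finset.prod_eq_zero he h1, mul_zero]
      exact zero_le
  exact (ENNReal.ofReal_le_ofReal_iff (integral_nonneg fun U => (Real.exp_pos _).le)).1 hle

end Pool.Agent.X217.YM
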