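import Mathlib
import Pool.Agent.X217.YM.Lim

/-!
# The thermodynamic limit: the pressure
-/

open MeasureTheory Filter
open scoped Topology

namespace Pool.Agent.X217.YM

theorem bern {x : ℝ} (hx0 : 0 ≤ x) (d : ℕ) : 1 - x ^ d ≤ d * (1 - x) := by
  have := one_add_mul_sub_le_pow (a := x) (by linarith) d
  linarith

section

variable {H : Type*} [TopologicalSpace H] [SecondCountableTopology H] [MeasurableSpace H]
  [BorelSpace H] (μ : Measure H) [IsProbabilityMeasure μ] (F : H → H → H → H → ℝ) (d : ℕ)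

/-- the pressure of the torus -/
noncomputable def Pt (l : ℕ) [NeZero l] (β : ℝ) : ℝ := Real.log (Zt μ F d l β) / (l : ℝ) ^ d

/-- the pressure of the box -/
noncomputable def Pb (l : ℕ) [NeZero l] (β : ℝ) : ℝ := Real.log (Zb μ F d l β) / (l : ℝ) ^ d

variable {d} {l m : ℕ} [NeZero l] [NeZero m] {F} {M : ℝ} (h0 : ∀ a b c e, 0 ≤ F a b c e)
  (h1 : ∀ a b c e, F a b c e ≤ M)

include h0 h1 in
theorem press_compare (hF : Continuous fun p : H × H × H × H => F p.1 p.2.1 p.2.2.1 p.2.2.2)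
    {β : ℝ} (hβ : 0 ≤ β) :
    |Pt μ F d l β - Pb μ F d m β| ≤ (β * M * d ^ 3) * (2 * (m / l : ℝ) + 1 / m) := by
  have hM : 0 ≤ M := by
    have hne : Nonempty H := by
      by_contra hH
      rw [not_nonempty_iff] at hH
      have : (Measure.map id μ) Set.univ = 0 := by
        rw [Set.univ_eq_empty_iff.2 hH]
        simp
      simp at this
    obtain ⟨a⟩ := hne
    exact (h0 a a a a).trans (h1 a a a a)
  have hm1 : 1 ≤ m := Nat.one_le_iff_ne_zero.2 (NeZero.ne m)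
  have hl1 : 1 ≤ l := Nat.one_le_iff_ne_zero.2 (NeZero.ne l)
  have hm0 : (0 : ℝ) < m := by exact_mod_cast hm1
  have hl0 : (0 : ℝ) < l := by exact_mod_cast hl1
  set q := l / m with hqdef
  have hq : q * m ≤ l := Nat.div_mul_le_self l m
  have hq2 : l < q * m + m := Nat.lt_div_mul_add hm1
  have hq3 : (q : ℝ) ≤ l / m := Nat.cast_div_le
  have hqr : (q : ℝ) * m ≤ l := by exact_mod_cast hq
  have hqr2 : (l : ℝ) < q * m + m := by exact_mod_cast hq2
  have hbm : Measurable (bact F m : ((Fin d → ZMod m) × Fin d → H) → ℝ) := (bact_cont hF).measurable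
  obtain ⟨zb, b1, b2⟩ := log_int_bounds (Measure.pi fun _ : (Fin d → ZMod m) × Fin d => μ) hbm
    (fun U => bact_nonneg h0 U) (fun U => bact_le h1 hM U) hβ
  obtain ⟨c1, c2⟩ := logZ_compare (d := d) μ h0 h1 hF hq hβ
  change -(β * _) ≤ Real.log (Zb μ F d m β) at b1
  change Real.log (Zb μ F d m β) ≤ 0 at b2
  set LB := Real.log (Zb μ F d m β)
  set LT := Real.log (Zt μ F d l β)
  set x : ℝ := q * (m - 1 : ℕ) / l with hx
  set y : ℝ := q * m / l with hy
  have hm1' : ((m - 1 : ℕ) : ℝ) = m - 1 := by rw [Nat.cast_sub hm1, Nat.cast_one]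
  have hx0 : 0 ≤ x := by positivity
  have hy0 : 0 ≤ y := by positivity
  have hy1 : y ≤ 1 := by rw [hy, div_le_one hl0]; exact hqr
  have hxb : 1 - x ≤ m / l + 1 / m := by
    have e1 : 1 - x = (l - q * (m - 1)) / l := by
      rw [hx, hm1', sub_div, div_self hl0.ne']
    have e2 : (m / l + 1 / m : ℝ) = (m + l / m) / l := by
      rw [add_div, div_div, mul_comm (m : ℝ) l, ← div_div, div_self hl0.ne']
    rw [e1, e2]
    apply div_le_div_of_nonneg_right _ hl0.le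
    linarith
  have hyb : 1 - y ≤ m / l := by
    have e1 : 1 - y = (l - q * m) / l := by
      rw [hy, sub_div, div_self hl0.ne']
    rw [e1]
    apply div_le_div_of_nonneg_right _ hl0.le
    linarith
  have hld : (0 : ℝ) < (l : ℝ) ^ d := pow_pos hl0 d
  have hmd : (0 : ℝ) < (m : ℝ) ^ d := pow_pos hm0 d
  have hxd : (l : ℝ) ^ d - (q * (m - 1 : ℕ) : ℝ) ^ d = (l : ℝ) ^ d * (1 - x ^ d) := by
    rw [hx, div_pow, mul_sub, mul_one, mul_div_cancel₀ _ hld.ne']
  have hyd : (q : ℝ) ^ d / (l : ℝ) ^ d = y ^ d / (m : ℝ) ^ d := by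
    rw [hy, div_pow, mul_pow]
    field_simp
  rw [hxd] at c2
  have K0 : 0 ≤ β * M * d ^ 3 := by positivity
  -- the first term
  have t1 : (LT - (q : ℝ) ^ d * LB) / (l : ℝ) ^ d ≤ 0 :=
    div_nonpos_of_nonpos_of_nonneg (by linarith) hld.le
  have t2 : -((β * M * d ^ 3) * (m / l + 1 / m)) ≤ (LT - (q : ℝ) ^ d * LB) / (l : ℝ) ^ d := by
    rw [le_div_iff₀ hld]
    have e1 := bern hx0 d
    have e2 : (1 - x ^ d) ≤ d * (m / l + 1 / m) :=
      e1.trans (mul_le_mul_of_nonneg_left hxb (Nat.cast_nonneg d))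
    have e3 : β * (M * (d ^ 2 * ((l : ℝ) ^ d * (1 - x ^ d)))) ≤
        (β * M * d ^ 3) * (m / l + 1 / m) * (l : ℝ) ^ d := by
      have := mul_le_mul_of_nonneg_left e2
        (show 0 ≤ β * M * d ^ 2 * (l : ℝ) ^ d by positivity)
      calc β * (M * (d ^ 2 * ((l : ℝ) ^ d * (1 - x ^ d))))
          = β * M * d ^ 2 * (l : ℝ) ^ d * (1 - x ^ d) := by ring
        _ ≤ _ := this
        _ = _ := by ring
    linarith
  -- the second term
  have p1 : LB / (m : ℝ) ^ d ≤ 0 := div_nonpos_of_nonpos_of_nonneg b2 hmd.le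
  have p2 : -(β * M * d ^ 2) ≤ LB / (m : ℝ) ^ d := by
    rw [le_div_iff₀ hmd]
    have : β * (M * (d ^ 2 * (m : ℝ) ^ d)) = β * M * d ^ 2 * (m : ℝ) ^ d := by ring
    linarith
  have hy2 : y ^ d - 1 ≤ 0 := by
    have := pow_le_one₀ (n := d) hy0 hy1
    linarith
  have hy3 : -(d * (m / l : ℝ)) ≤ y ^ d - 1 := by
    have e1 := bern hy0 d
    have e2 := mul_le_mul_of_nonneg_left hyb (Nat.cast_nonneg (α := ℝ) d)
    linarith
  have s1 : 0 ≤ (y ^ d - 1) * (LB / (m : ℝ) ^ d) := mul_nonneg_of_nonpos_of_nonpos hy2 p1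
  have s2 : (y ^ d - 1) * (LB / (m : ℝ) ^ d) ≤ (β * M * d ^ 3) * (m / l) := by
    have e1 : (y ^ d - 1) * (LB / (m : ℝ) ^ d) = (1 - y ^ d) * (-(LB / (m : ℝ) ^ d)) := by ring
    have e2 : (1 - y ^ d) * (-(LB / (m : ℝ) ^ d)) ≤ (d * (m / l : ℝ)) * (β * M * d ^ 2) :=
      mul_le_mul (by linarith) (by linarith) (by linarith) (by positivity)
    rw [e1]
    calc _ ≤ _ := e2
      _ = _ := by ring
  have e : Pt μ F d l β - Pb μ F d m β = (LT - (q : ℝ) ^ d * LB) / (l : ℝ) ^ d +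
      (y ^ d - 1) * (LB / (m : ℝ) ^ d) := by
    have : (q : ℝ) ^ d * LB / (l : ℝ) ^ d = y ^ d * (LB / (m : ℝ) ^ d) := by
      rw [mul_div_right_comm, hyd]
      ring
    show LT / (l : ℝ) ^ d - LB / (m : ℝ) ^ d = _
    rw [sub_div, this]
    ring
  rw [e, abs_le]
  have r1 : 0 ≤ (β * M * d ^ 3) * (m / l : ℝ) := by positivity
  have r2 : 0 ≤ (β * M * d ^ 3) * (1 / m : ℝ) := by positivity
  have r3 : (β * M * d ^ 3) * (2 * (m / l : ℝ) + 1 / m) =
      2 * ((β * M * d ^ 3) * (m / l : ℝ)) + (β * M * d ^ 3) * (1 / m) := by ring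
  have r4 : (β * M * d ^ 3) * ((m / l : ℝ) + 1 / m) =
      (β * M * d ^ 3) * (m / l : ℝ) + (β * M * d ^ 3) * (1 / m) := by ring
  rw [r3]
  rw [r4] at t2
  constructor <;> linarith

include h0 h1 in
/-- **the thermodynamic limit** -/
theorem thermo (hF : Continuous fun p : H × H × H × H => F p.1 p.2.1 p.2.2.1 p.2.2.2) :
    ∃ P : ℝ → ℝ, ∀ β : ℝ, 0 ≤ β →
      (∀ (m : ℕ) [NeZero m], |Pb μ F d m β - P β| ≤ β * M * d ^ 3 / m) ∧
      ∀ (l : ℕ) [NeZero l], |Pt μ F d l β - P β| ≤ 6 * (β * M * d ^ 3) / Real.sqrt l := by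
  classical
  have hM : 0 ≤ M := by
    have hne : Nonempty H := by
      by_contra hH
      rw [not_nonempty_iff] at hH
      have : (Measure.map id μ) Set.univ = 0 := by
        rw [Set.univ_eq_empty_iff.2 hH]
        simp
      simp at this
    obtain ⟨a⟩ := hne
    exact (h0 a a a a).trans (h1 a a a a)
  have key : ∀ β : ℝ, 0 ≤ β → ∃ P : ℝ,
      (∀ (m : ℕ) [NeZero m], |Pb μ F d m β - P| ≤ β * M * d ^ 3 / m) ∧
      ∀ (l : ℕ) [NeZero l], |Pt μ F d l β - P| ≤ 6 * (β * M * d ^ 3) / Real.sqrt l := by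
    intro β hβ
    let a : ℕ → ℝ := fun l => if h : l = 0 then 0 else
      letI : NeZero l := ⟨h⟩; Pt μ F d l β
    let b : ℕ → ℝ := fun l => if h : l = 0 then 0 else
      letI : NeZero l := ⟨h⟩; Pb μ F d l β
    obtain ⟨P, p1, p2⟩ := lim_of_compare a b (β * M * d ^ 3) (by positivity) (by
      intro l m hm hml
      have hm0 : m ≠ 0 := by omega
      have hl0 : l ≠ 0 := by omega
      simp only [a, b, dif_neg hm0, dif_neg hl0]
      have : NeZero m := ⟨hm0⟩
      have : NeZero l := ⟨hl0⟩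
      exact press_compare μ h0 h1 hF hβ)
    refine ⟨P, fun m _ => ?_, fun l _ => ?_⟩
    · have := p1 m (Nat.one_le_iff_ne_zero.2 (NeZero.ne m))
      simpa only [b, dif_neg (NeZero.ne m)] using this
    · have := p2 l (Nat.one_le_iff_ne_zero.2 (NeZero.ne l))
      simpa only [a, dif_neg (NeZero.ne l)] using this
  choose! P hP using key
  exact ⟨P, hP⟩

end

end Pool.Agent.X217.YM
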