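import Mathlib
import Pool.Agent.X217.YM.Lower2
import Pool.Agent.X217.YM.Press

/-!
# The lower bound of the limiting pressure
-/

open MeasureTheory Matrix Filter Metric
open scoped Matrix.Norms.Frobenius Topology ENNReal

set_option linter.unusedSectionVars false

namespace Pool.Agent.X217.YM

open Pool.Agent.H906R3.YM Pool.Agent.TH369.WL Pool.Agent.W793.YM

theorem ge_of_forall_sqrt {P A K : ℝ} (h : ∀ q : ℕ, 1 ≤ q → A - K / Real.sqrt q ≤ P) : A ≤ P := by
  have h1 : Tendsto (fun q : ℕ => A - K / Real.sqrt q) atTop (𝓝 (A - 0)) :=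
    tendsto_const_nhds.sub (tendsto_const_nhds.div_atTop
      (Real.tendsto_sqrt_atTop.comp tendsto_natCast_atTop_atTop))
  rw [sub_zero] at h1
  refine le_of_tendsto h1 ?_
  filter_upwards [eventually_ge_atTop 1] with q hq
  exact h q hq

variable {N d m : ℕ} [NeZero m] {G : Subgroup (UN N)} [MeasurableSpace G] [BorelSpace G]
  (μ : Measure G) [IsProbabilityMeasure μ]

theorem Zin_pos {β : ℝ} (hβ : 0 ≤ β) : 0 < Zin d m μ β := by
  have hsc : SecondCountableTopology G := by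
    have h00 : SecondCountableTopology (UN N) := TopologicalSpace.Subtype.secondCountableTopology _
    exact TopologicalSpace.Subtype.secondCountableTopology _
  have hbc : Continuous (bact wl m : ((Fin d → ZMod m) × Fin d → G) → ℝ) := bact_cont wl_cont
  exact integral_exp_pos (integrable_exp _ (hbc.measurable.comp (fix_meas _))
    (fun U => bact_nonneg wl_nonneg _) hβ)

theorem press_lower [SecondCountableTopology G] [μ.IsMulLeftInvariant] [μ.IsMulRightInvariant]
    (hd : 0 < d) {η β r : ℝ} (hη : 0 < η) (hβ : 0 ≤ β) (hr : 0 < (μ {g | Dg g < r}).toReal)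
    {P C : ℝ} (hC : 0 ≤ C) (hP : ∀ (l : ℕ) [NeZero l], |Pt μ wl d l β - P| ≤ C / Real.sqrt l) :
    (((d - 1) * (m : ℝ) ^ d - (rin d m).card) * (Real.log (μ {g | Dg g < r}).toReal -
      8 * d * (1 + 1 / η) * (β * r ^ 2)) + Real.log (Zin d m μ (β * (1 + η)))) / (m : ℝ) ^ d ≤
      P := by
  set pB := (μ {g | Dg g < r}).toReal with hpB
  set X := Real.log pB - 8 * d * (1 + 1 / η) * (β * r ^ 2) with hX
  have hpB1 : pB ≤ 1 := by
    rw [hpB]
    have : μ {g | Dg g < r} ≤ 1 := prob_le_one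
    exact ENNReal.toReal_le_of_le_ofReal one_pos.le (by rw [ENNReal.ofReal_one]; exact this)
  have hlog : Real.log pB ≤ 0 := Real.log_nonpos hr.le hpB1
  have hX0 : X ≤ 0 := by
    have : 0 ≤ 8 * d * (1 + 1 / η) * (β * r ^ 2) := by positivity
    linarith
  refine ge_of_forall_sqrt (K := C - X) fun q hq => ?_
  have hm := NeZero.pos m
  have hl : NeZero (q * m) := ⟨by positivity⟩
  set l : ℕ := q * m with hldef
  have hlow := lower μ (d := d) (l := l) (m := m) (q := q) (η := η) (β := β) (r := r) rfl hη hβ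
  have hcard := card_frozen (d := d) (l := l) (m := m) (q := q) hd rfl
  set c := (rfr d l m ∪ comb d l)ᶜ.card with hc
  have hfc : (frz d l m).card = c := rfl
  rw [hfc] at hlow
  have hZ := Zin_pos (d := d) (m := m) μ (β := β * (1 + η)) (by positivity)
  have hpc : 0 < pB ^ c := pow_pos hr _
  have h2 := Real.log_le_log (mul_pos (mul_pos hpc (Real.exp_pos _)) (pow_pos hZ _)) hlow
  rw [Real.log_mul (mul_pos hpc (Real.exp_pos _)).ne' (pow_pos hZ _).ne',
    Real.log_mul hpc.ne' (Real.exp_pos _).ne', Real.log_exp, Real.log_pow, Real.log_pow] at h2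
  have hq0 : (0 : ℝ) < q := by exact_mod_cast hq
  have hm0 : (0 : ℝ) < m := by exact_mod_cast hm
  have hl0 : (0 : ℝ) < (l : ℝ) := by rw [hldef]; push_cast; positivity
  have hlr : (l : ℝ) = q * m := by rw [hldef]; push_cast; ring
  have hcr : (c : ℝ) + (q : ℝ) ^ d * (rin d m).card ≤
      (d - 1) * (l : ℝ) ^ d + (l : ℝ) ^ (d - 1) := by
    have h3 : ((c + q ^ d * (rin d m).card : ℕ) : ℝ) ≤ (((d - 1) * l ^ d + l ^ (d - 1) : ℕ) : ℝ) := by
      exact_mod_cast hcard
    push_cast [Nat.cast_sub (show 1 ≤ d by omega)] at h3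
    linarith
  have hld : (0 : ℝ) < (l : ℝ) ^ d := pow_pos hl0 d
  set φ : ℝ := (d - 1) * (m : ℝ) ^ d - (rin d m).card with hφ
  set Zl := Real.log (Zin d m μ (β * (1 + η))) with hZl
  have h3 : ((q : ℝ) ^ d * φ + (l : ℝ) ^ (d - 1)) * X + (q : ℝ) ^ d * Zl ≤
      Real.log (Zt μ wl d l β) := by
    have e1 : (c : ℝ) ≤ (q : ℝ) ^ d * φ + (l : ℝ) ^ (d - 1) := by
      rw [hφ, mul_sub]
      have : (q : ℝ) ^ d * ((d - 1) * (m : ℝ) ^ d) = (d - 1) * (l : ℝ) ^ d := by
        rw [hlr, mul_pow]; ring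
      linarith
    have e2 := mul_le_mul_of_nonpos_right e1 hX0
    have e3 : (c : ℝ) * X = c * Real.log pB + -(β * (8 * d * (1 + 1 / η) * r ^ 2 * c)) := by
      rw [hX]; ring
    push_cast at h2
    linarith
  have h4 : (((q : ℝ) ^ d * φ + (l : ℝ) ^ (d - 1)) * X + (q : ℝ) ^ d * Zl) / (l : ℝ) ^ d =
      (φ * X + Zl) / (m : ℝ) ^ d + X / l := by
    have hpow : (l : ℝ) ^ d = l * (l : ℝ) ^ (d - 1) := by
      rw [← pow_succ']
      congr 1
      omega
    have e1 : (l : ℝ) ^ d = (q : ℝ) ^ d * (m : ℝ) ^ d := by rw [hlr, mul_pow]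
    have e2 : (((q : ℝ) ^ d * φ + (l : ℝ) ^ (d - 1)) * X + (q : ℝ) ^ d * Zl) / (l : ℝ) ^ d =
        (q : ℝ) ^ d * (φ * X + Zl) / (l : ℝ) ^ d + (l : ℝ) ^ (d - 1) * X / (l : ℝ) ^ d := by
      rw [← add_div]
      congr 1
      ring
    rw [e2]
    congr 1
    · rw [e1]
      have : (q : ℝ) ^ d ≠ 0 := (pow_pos hq0 d).ne'
      field_simp
    · rw [hpow]
      have : (l : ℝ) ^ (d - 1) ≠ 0 := (pow_pos hl0 _).ne'
      field_simp
  have h5 : (φ * X + Zl) / (m : ℝ) ^ d + X / l ≤ Pt μ wl d l β := by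
    rw [← h4]
    exact div_le_div_of_nonneg_right h3 hld.le
  have h6 := (abs_le.1 (hP l)).2
  have hm1 : (1 : ℝ) ≤ m := by exact_mod_cast hm
  have hq1 : (1 : ℝ) ≤ q := by exact_mod_cast hq
  have hsq : 0 < Real.sqrt q := Real.sqrt_pos.2 hq0
  have hqlr : (q : ℝ) ≤ l := by rw [hlr]; exact le_mul_of_one_le_right hq0.le hm1
  have hql : Real.sqrt q ≤ Real.sqrt l := Real.sqrt_le_sqrt hqlr
  have hsl : Real.sqrt q ≤ l := by
    have e1 : Real.sqrt q ≤ q := by
      rw [Real.sqrt_le_left hq0.le, sq]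
      exact le_mul_of_one_le_right hq0.le hq1
    exact e1.trans hqlr
  have h7 : C / Real.sqrt l ≤ C / Real.sqrt q := div_le_div_of_nonneg_left hC hsq hql
  have h8 : X / Real.sqrt q ≤ X / l := by
    have := div_le_div_of_nonneg_left (show 0 ≤ -X by linarith) hsq hsl
    rw [neg_div, neg_div] at this
    linarith
  have h9 : (C - X) / Real.sqrt q = C / Real.sqrt q - X / Real.sqrt q := sub_div _ _ _
  linarith

end Pool.Agent.X217.YM
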