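import Mathlib
import Pool.Agent.X217.YM.Upper2
import Pool.Agent.X217.YM.Count
import Pool.Agent.X217.YM.Press

/-!
# The upper bound of the limiting pressure
-/

open MeasureTheory

set_option linter.unusedSectionVars false

namespace Pool.Agent.X217.YM

theorem le_of_forall_inv {P A K : ℝ} (h : ∀ q : ℕ, 1 ≤ q → P ≤ A + K / q) : P ≤ A := by
  have h1 : Filter.Tendsto (fun q : ℕ => A + K / (q : ℝ)) Filter.atTop (nhds (A + 0)) :=
    tendsto_const_nhds.add (tendsto_const_div_atTop_nhds_zero_nat K)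
  rw [add_zero] at h1
  refine ge_of_tendsto h1 ?_
  filter_upwards [Filter.eventually_ge_atTop 1] with q hq
  exact h q hq

variable {H : Type*} [TopologicalSpace H] [SecondCountableTopology H] [MeasurableSpace H]
  [BorelSpace H] (μ : Measure H) [IsProbabilityMeasure μ] {F : H → H → H → H → ℝ}
  {d m : ℕ} [NeZero m]

theorem press_upper (hd : 0 < d) (h0 : ∀ a b c e, 0 ≤ F a b c e) {M : ℝ} (hM : 0 ≤ M)
    (h1 : ∀ a b c e, F a b c e ≤ M)
    (hF : Continuous fun p : H × H × H × H => F p.1 p.2.1 p.2.2.1 p.2.2.2) {β : ℝ} (hβ : 0 ≤ β)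
    {z : ℝ} (hz0 : 0 < z) (hz1' : z ≤ 1)
    (hz1 : ∀ a b c, ∫⁻ t, ENNReal.ofReal (Real.exp (-(β * F a b t c))) ∂μ = ENNReal.ofReal z)
    (hz2 : ∀ a b c, ∫⁻ t, ENNReal.ofReal (Real.exp (-(β * F a t b c))) ∂μ = ENNReal.ofReal z)
    {P C : ℝ} (hC : 0 ≤ C) (hP : ∀ (l : ℕ) [NeZero l], |Pb μ F d l β - P| ≤ C / l) :
    P ≤ (Real.log (Zb μ F d m β) + (d * (m : ℝ) ^ (d - 1) - 1) * Real.log z) / (m : ℝ) ^ d := by
  refine le_of_forall_inv (K := -Real.log z * (2 * d) + C) fun q hq => ?_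
  have hm := NeZero.pos m
  have hl : NeZero (q * m) := ⟨by positivity⟩
  have hlog : Real.log z ≤ 0 := Real.log_nonpos hz0.le hz1'
  have hbm : ∀ (l : ℕ) [NeZero l], 0 < Zb μ F d l β := by
    intro l _
    have hbm : Measurable (bact F l : ((Fin d → ZMod l) × Fin d → H) → ℝ) :=
      (bact_cont hF).measurable
    exact (log_int_bounds (Measure.pi fun _ : (Fin d → ZMod l) × Fin d => μ) hbm
      (fun U => bact_nonneg h0 U) (fun U => bact_le h1 hM U) hβ).1
  set l : ℕ := q * m with hldef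
  have hup := upper μ (o := ⟨0, hd⟩) (l := l) (m := m) (q := q) rfl h0 hF hβ hz0.le hz1 hz2
  have hcard := card_MM (l := l) (m := m) (q := q) (o := (⟨0, hd⟩ : Fin d)) rfl
  set c := (MM l m (⟨0, hd⟩ : Fin d)).card
  have h2 := Real.log_le_log (hbm l) hup
  rw [Real.log_mul (pow_pos (hbm m) _).ne' (pow_pos hz0 _).ne', Real.log_pow, Real.log_pow] at h2
  have hq0 : (0 : ℝ) < q := by exact_mod_cast hq
  have hm0 : (0 : ℝ) < m := by exact_mod_cast hm
  have hl0 : (0 : ℝ) < (l : ℝ) := by rw [hldef]; push_cast; positivity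
  have hlr : (l : ℝ) = q * m := by rw [hldef]; push_cast; ring
  have hcr : (d : ℝ) * (q * (l : ℝ) ^ (d - 1)) ≤
      c + d * (l : ℝ) ^ (d - 1) + ((q : ℝ) ^ d + d * (q : ℝ) ^ (d - 1)) := by
    exact_mod_cast hcard
  have h3 : P ≤ Pb μ F d l β + C / l := by
    have := (abs_le.1 (hP l)).1
    linarith
  have hld : (0 : ℝ) < (l : ℝ) ^ d := pow_pos hl0 d
  have h4 : Pb μ F d l β ≤ ((q : ℝ) ^ d * Real.log (Zb μ F d m β) +
      (d * (q * (l : ℝ) ^ (d - 1)) - d * (l : ℝ) ^ (d - 1) -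
        ((q : ℝ) ^ d + d * (q : ℝ) ^ (d - 1))) * Real.log z) / (l : ℝ) ^ d := by
    unfold Pb
    refine div_le_div_of_nonneg_right ?_ hld.le
    push_cast at h2
    have h5 : (c : ℝ) * Real.log z ≤ (d * (q * (l : ℝ) ^ (d - 1)) - d * (l : ℝ) ^ (d - 1) -
        ((q : ℝ) ^ d + d * (q : ℝ) ^ (d - 1))) * Real.log z :=
      mul_le_mul_of_nonpos_right (by linarith) hlog
    linarith
  have hpow : ∀ x : ℝ, x ^ d = x * x ^ (d - 1) := by
    intro x
    rw [← pow_succ']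
    congr 1
    omega
  have h6 : ((q : ℝ) ^ d * Real.log (Zb μ F d m β) +
      (d * (q * (l : ℝ) ^ (d - 1)) - d * (l : ℝ) ^ (d - 1) -
        ((q : ℝ) ^ d + d * (q : ℝ) ^ (d - 1))) * Real.log z) / (l : ℝ) ^ d =
      (Real.log (Zb μ F d m β) + (d * (m : ℝ) ^ (d - 1) - 1) * Real.log z) / (m : ℝ) ^ d +
        -Real.log z * (d / l + d / (q * (m : ℝ) ^ d)) := by
    rw [hlr, hpow (q * m : ℝ), hpow (q : ℝ), hpow (m : ℝ), mul_pow]
    field_simp
    ring
  have h7 : (d : ℝ) / l + d / (q * (m : ℝ) ^ d) ≤ 2 * d / q := by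
    have hm1 : (1 : ℝ) ≤ m := by exact_mod_cast hm
    have e1 : (d : ℝ) / l ≤ d / q := by
      rw [hlr]
      exact div_le_div_of_nonneg_left (Nat.cast_nonneg d) hq0 (by nlinarith)
    have e2 : (d : ℝ) / (q * (m : ℝ) ^ d) ≤ d / q := by
      have : (1 : ℝ) ≤ (m : ℝ) ^ d := one_le_pow₀ hm1
      exact div_le_div_of_nonneg_left (Nat.cast_nonneg d) hq0 (by nlinarith)
    have e3 : 2 * (d : ℝ) / q = d / q + d / q := by ring
    linarith
  have h8 : -Real.log z * (d / l + d / (q * (m : ℝ) ^ d)) ≤ -Real.log z * (2 * d / q) :=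
    mul_le_mul_of_nonneg_left h7 (by linarith)
  have h9 : C / l ≤ C / q := by
    have hm1 : (1 : ℝ) ≤ m := by exact_mod_cast hm
    rw [hlr]
    exact div_le_div_of_nonneg_left hC hq0 (by nlinarith)
  have h10 : (-Real.log z * (2 * d) + C) / q = -Real.log z * (2 * d / q) + C / q := by ring
  rw [h6] at h4
  linarith

end Pool.Agent.X217.YM
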