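import Mathlib
import Pool.Agent.X217.YM.Comb

/-!
# The exact number of the free links
-/

set_option linter.unusedSectionVars false

namespace Pool.Agent.X217.YM

variable {d m : ℕ} [NeZero m]

/-- each site but the origin is the end of a link of the comb -/
theorem tip_surj {v : Fin d → ZMod m} (hv : v ≠ 0) : ∃ e ∈ comb d m, tip e = v := by
  let S : Finset (Fin d) := Finset.univ.filter fun j => v j ≠ 0
  have hS : S.Nonempty := by
    by_contra h
    rw [Finset.not_nonempty_iff_eq_empty] at h
    apply hv
    funext j
    by_contra hj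
    have : j ∈ S := by simp only [S, Finset.mem_filter, Finset.mem_univ, true_and]; exact hj
    rw [h] at this
    simp at this
  set J := S.max' hS with hJ
  have hJm : v J ≠ 0 := by
    have := S.max'_mem hS
    simp only [S, Finset.mem_filter, Finset.mem_univ, true_and] at this
    exact this
  have hJt : ∀ k, J < k → v k = 0 := by
    intro k hk
    by_contra h
    exact absurd (S.le_max' k (by simp [S, h])) (not_le.2 hk)
  have hv1 : 1 ≤ (v J).val := by
    rcases Nat.eq_zero_or_pos (v J).val with h | h
    · exact absurd ((ZMod.val_eq_zero _).1 h) hJm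
    · exact h
  refine ⟨(v - Pi.single J 1, J), mem_comb.2 ⟨?_, fun k hk => ?_⟩, ?_⟩
  · rw [sub_same v hv1]
    have := ZMod.val_lt (v J)
    omega
  · rw [sub_ne v hk.ne']; exact hJt k hk
  · show v - Pi.single J 1 + Pi.single J 1 = v
    simp

theorem card_comb_eq : (comb d m).card + 1 = m ^ d := by
  classical
  refine le_antisymm card_comb_le ?_
  have h1 : ((Finset.univ : Finset (Fin d → ZMod m)).erase 0) ⊆ (comb d m).image tip := by
    intro v hv
    obtain ⟨e, he, h⟩ := tip_surj (Finset.mem_erase.1 hv).1
    exact Finset.mem_image.2 ⟨e, he, h⟩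
  have h2 := (Finset.card_le_card h1).trans Finset.card_image_le
  rw [Finset.card_erase_of_mem (Finset.mem_univ _), Finset.card_univ, Fintype.card_fun, ZMod.card,
    Fintype.card_fin] at h2
  omega

theorem card_kfr_eq (hd : 0 < d) : (kfr d m).card + d * m ^ (d - 1) = (d - 1) * m ^ d + 1 := by
  classical
  refine le_antisymm ?_ (card_kfr hd)
  have hm := NeZero.pos m
  have h1 : (Finset.univ.filter fun e : (Fin d → ZMod m) × Fin d => (e.1 e.2).val + 1 < m).card =
      d * ((m - 1) * m ^ (d - 1)) := by
    rw [card_filter_snd]
    have : ∀ i : Fin d, (Finset.univ.filter fun x : Fin d → ZMod m => (x i).val + 1 < m).card =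
        (m - 1) * m ^ (d - 1) := by
      intro i
      have e1 : (Finset.univ.filter fun x : Fin d → ZMod m => (x i).val + 1 < m) =
          Finset.univ.filter fun x : Fin d → ZMod m =>
            x i ∈ Finset.univ.filter fun z : ZMod m => z.val + 1 < m := by
        ext x; simp
      rw [e1, card_one_coord, card_val_lt]
    simp [this]
  have h2 : kfr d m ∪ comb d m ⊆
      (Finset.univ.filter fun e : (Fin d → ZMod m) × Fin d => (e.1 e.2).val + 1 < m) := by
    intro e he
    simp only [kfr, comb, Finset.mem_union, Finset.mem_filter, Finset.mem_univ, true_and] at he ⊢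
    rcases he with h | h
    · exact h.1
    · exact h.1
  have hdis : Disjoint (kfr d m) (comb d m) := by
    rw [Finset.disjoint_left]
    intro e he h
    simp only [kfr, Finset.mem_filter, Finset.mem_univ, true_and] at he
    exact he.2 h
  have h3 := Finset.card_le_card h2
  rw [Finset.card_union_of_disjoint hdis, h1] at h3
  have h4 := card_comb_eq (d := d) (m := m)
  have h5 : m ^ d = m * m ^ (d - 1) := by
    rw [← pow_succ']
    congr 1
    omega
  obtain ⟨k, rfl⟩ : ∃ k, m = k + 1 := ⟨m - 1, by omega⟩
  obtain ⟨t, rfl⟩ : ∃ t, d = t + 1 := ⟨d - 1, by omega⟩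
  simp only [Nat.add_sub_cancel] at h3 h5 ⊢
  nlinarith

end Pool.Agent.X217.YM
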