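import Mathlib
import Pool.Agent.X217.YM.Lower2
import Pool.Agent.X217.YM.Card2

/-!
# One plaquette and the box in the comb gauge
-/

open MeasureTheory Matrix Filter Metric
open scoped Matrix.Norms.Frobenius Topology ENNReal

set_option linter.unusedSectionVars false

namespace Pool.Agent.X217.YM

open Pool.Agent.H906R3.YM Pool.Agent.TH369.WL Pool.Agent.W793.YM

variable {N n d m : ℕ} [NeZero m] {G : Subgroup (UN N)}

/-- the energy of one group element -/
def w1 (g : G) : ℝ := (trace (1 - mt g)).re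

theorem w1_eq (g : G) : w1 g = 1 / 2 * Dg g ^ 2 := we_eq g

theorem w1_nonneg (g : G) : 0 ≤ w1 g := by rw [w1_eq]; positivity

theorem w1_cont : Continuous (w1 : G → ℝ) :=
  Complex.continuous_re.comp (Continuous.matrix_trace (continuous_const.sub mt_cont))

variable [MeasurableSpace G] [BorelSpace G] (μ : Measure G) [IsProbabilityMeasure μ]

/-- the partition function of one plaquette -/
noncomputable def z1 (μ : Measure G) (β : ℝ) : ℝ := ∫ g, Real.exp (-(β * w1 g)) ∂μ

theorem z1_int {β : ℝ} (hβ : 0 ≤ β) : Integrable (fun g : G => Real.exp (-(β * w1 g))) μ :=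
  integrable_exp μ w1_cont.measurable w1_nonneg hβ

theorem z1_pos {β : ℝ} (hβ : 0 ≤ β) : 0 < z1 μ β := integral_exp_pos (z1_int μ hβ)

theorem z1_le {β : ℝ} (hβ : 0 ≤ β) : z1 μ β ≤ 1 := by
  calc z1 μ β ≤ ∫ _g : G, (1 : ℝ) ∂μ := integral_mono (z1_int μ hβ) (integrable_const _)
        fun g => by
          show Real.exp (-(β * w1 g)) ≤ 1
          rw [Real.exp_le_one_iff]
          have := mul_nonneg hβ (w1_nonneg g)
          linarith
    _ = 1 := by simp

/-- the asymptotics of the partition function of one plaquette -/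
theorem z1_lap (hG : IsClosed (G : Set (UN N))) (B : Frame G n) {ρ : ℝ} (hρ : 0 < ρ)
    (hdens : ∀ ε : ℝ, 0 < ε → ∃ r₀ : ℝ, 0 < r₀ ∧ ∀ r : ℝ, 0 < r → r ≤ r₀ →
      (μ.restrict {g | Dg g < r}).map (co B) ≤ ENNReal.ofReal (ρ * (1 + ε)) • volume ∧
      ENNReal.ofReal (ρ * (1 - ε)) • volume.restrict (ball 0 (r / 2)) ≤
        (μ.restrict {g | Dg g < r}).map (co B)) :
    Tendsto (fun β : ℝ => Real.log (z1 μ β) + n / 2 * Real.log β) atTop
      (𝓝 (Real.log ρ + n / 2 * Real.log (2 * Real.pi))) := by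
  obtain ⟨C, hC, hq⟩ := co_quad hG B
  have hQ : ∀ A : Unit → EuclideanSpace ℝ (Fin n),
      ∑ a, ((fun k => A k a) ⬝ᵥ (1 : Matrix Unit Unit ℝ) *ᵥ (fun k => A k a)) = ‖A ()‖ ^ 2 := by
    intro A
    rw [EuclideanSpace.norm_sq_eq]
    refine Finset.sum_congr rfl fun a _ => ?_
    rw [one_mulVec, Real.norm_eq_abs, sq_abs]
    simp [dotProduct, sq]
  have hint := gauss_vec_integrable (κ := Unit) (n := n) (M := (1 : Matrix Unit Unit ℝ))
    Matrix.PosDef.one
  have hval := gauss_vec (κ := Unit) (n := n) (M := (1 : Matrix Unit Unit ℝ)) Matrix.PosDef.one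
  simp only [hQ] at hint hval
  have h1 := lap_log μ (κ := Unit) (D := Dg) (π := co B) Dg_cont.measurable (co_cont B).measurable
    hρ hdens (S := fun V => w1 (V ())) (w1_cont.measurable.comp (measurable_pi_apply ()))
    (fun V => w1_nonneg _) (Q := fun A => ‖A ()‖ ^ 2) (by fun_prop)
    (fun s A => by
      rw [Pi.smul_apply, norm_smul, mul_pow, Real.norm_eq_abs, sq_abs]) hint (C₀ := 2)
    (by norm_num)
    (fun V k => by
      rw [w1_eq]
      have : V k = V () := rfl
      rw [this]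
      linarith)
    (fun ε hε => by
      refine ⟨Real.sqrt ε / C, by positivity, fun V hV => ?_⟩
      have h2 := hq (V ())
      have h3 : 0 ≤ Dg (V ()) ^ 2 - ‖co B (V ())‖ ^ 2 := by
        have := pow_le_pow_left₀ (norm_nonneg _) (norm_co_le B (V ())) 2
        linarith
      have h4 : Dg (V ()) < Real.sqrt ε / C := hV ()
      have h5 : C ^ 2 * Dg (V ()) ^ 4 ≤ ε * Dg (V ()) ^ 2 := by
        have h6 : C * Dg (V ()) ≤ Real.sqrt ε := by
          rw [lt_div_iff₀ hC] at h4
          linarith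
        have h7 : (C * Dg (V ())) ^ 2 ≤ ε := by
          have := pow_le_pow_left₀ (mul_nonneg hC.le (Dg_nonneg _)) h6 2
          rwa [Real.sq_sqrt hε.le] at this
        calc C ^ 2 * Dg (V ()) ^ 4 = (C * Dg (V ())) ^ 2 * Dg (V ()) ^ 2 := by ring
          _ ≤ ε * Dg (V ()) ^ 2 := mul_le_mul_of_nonneg_right h7 (sq_nonneg _)
      rw [w1_eq, abs_le]
      constructor <;> nlinarith)
  rw [hval] at h1
  simp only [Fintype.card_unit, pow_one, Nat.cast_one, one_mul, mul_one, det_one, Real.sqrt_one,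
    div_one] at h1
  rw [Real.log_pow, Real.log_sqrt (by positivity)] at h1
  have h2 : ∀ β : ℝ, ∫ U : Unit → G, Real.exp (-(β * w1 (U ()))) ∂(Measure.pi fun _ => μ) =
      z1 μ β := by
    intro β
    have h3 := map_pi_comp μ (fun _ : Unit => (0 : Fin 1)) (fun a b _ => rfl)
    have := (measurePreserving_piUnique (X := fun _ : Unit => G) (fun _ => μ))
    unfold z1
    exact this.integral_comp' (fun g => Real.exp (-(β * w1 g)))
  simp only [h2] at h1
  have h3 : Real.log ρ + (n : ℝ) * (Real.log (2 * Real.pi) / 2) =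
      Real.log ρ + n / 2 * Real.log (2 * Real.pi) := by ring
  rw [h3] at h1
  exact h1

theorem box_fix (U : (Fin d → ZMod m) × Fin d → G) :
    bact wl m (fix (comb d m) U) = bact wl m (fix (kfr d m)ᶜ U) := by
  refine bact_congr wl fun y i hy => ?_
  unfold fix
  have h1 : (y, i) ∈ kfr d m ↔ (y, i) ∉ comb d m := by
    simp only [kfr, Finset.mem_filter, Finset.mem_univ, true_and]
    exact ⟨fun h => h.2, fun h => ⟨hy, h⟩⟩
  simp only [Finset.mem_compl, h1, not_not]

/-- the partition function of the box in the comb gauge -/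
theorem Zb_fix [SecondCountableTopology G] [μ.IsMulLeftInvariant] [μ.IsMulRightInvariant] {β : ℝ}
    (hβ : 0 ≤ β) : Zb μ wl d m β = ∫ U : (Fin d → ZMod m) × Fin d → G,
      Real.exp (-(β * bact wl m (fix (kfr d m)ᶜ U))) ∂(Measure.pi fun _ => μ) := by
  have hbc : Continuous (bact wl m : ((Fin d → ZMod m) × Fin d → G) → ℝ) := bact_cont wl_cont
  have h1 : ENNReal.ofReal (Zb μ wl d m β) =
      ∫⁻ U, ENNReal.ofReal (Real.exp (-(β * bact wl m (fix (comb d m) U))))
        ∂(Measure.pi fun _ : (Fin d → ZMod m) × Fin d => μ) := by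
    rw [Zb, ofReal_integral_eq_lintegral_ofReal (integrable_exp _ hbc.measurable
      (fun U => bact_nonneg wl_nonneg _) hβ) (Eventually.of_forall fun U => (Real.exp_pos _).le)]
    exact comb_fix μ (f := fun U => ENNReal.ofReal (Real.exp (-(β * bact wl m U))))
      ((hbc.measurable.const_mul β).neg.exp.ennreal_ofReal)
      (fun v h U => by rw [bact_gauge wl_gauge])
  simp only [box_fix] at h1
  have hm : Measurable fun U : (Fin d → ZMod m) × Fin d → G => bact wl m (fix (kfr d m)ᶜ U) :=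
    hbc.measurable.comp (fix_meas _)
  rw [← ofReal_integral_eq_lintegral_ofReal (integrable_exp _ hm
      (fun U => bact_nonneg wl_nonneg _) hβ) (Eventually.of_forall fun U => (Real.exp_pos _).le)]
    at h1
  exact (ENNReal.ofReal_eq_ofReal_iff (integral_nonneg fun U => (Real.exp_pos _).le)
    (integral_nonneg fun U => (Real.exp_pos _).le)).1 h1

/-- a lower bound for the measure of small balls -/
theorem ball_low (B : Frame G n) {ρ : ℝ} (hρ : 0 < ρ)
    (hdens : ∀ ε : ℝ, 0 < ε → ∃ r₀ : ℝ, 0 < r₀ ∧ ∀ r : ℝ, 0 < r → r ≤ r₀ →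
      (μ.restrict {g | Dg g < r}).map (co B) ≤ ENNReal.ofReal (ρ * (1 + ε)) • volume ∧
      ENNReal.ofReal (ρ * (1 - ε)) • volume.restrict (ball 0 (r / 2)) ≤
        (μ.restrict {g | Dg g < r}).map (co B)) :
    ∃ c r₀ : ℝ, 0 < c ∧ 0 < r₀ ∧ ∀ r, 0 < r → r ≤ r₀ → c * r ^ n ≤ (μ {g | Dg g < r}).toReal := by
  obtain ⟨r₀, hr₀, hd⟩ := hdens (1 / 2) (by norm_num)
  set V := (volume (ball (0 : EuclideanSpace ℝ (Fin n)) 1)).toReal with hV
  have hVpos : 0 < V := ENNReal.toReal_pos (measure_ball_pos _ _ one_pos).ne'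
    measure_ball_lt_top.ne
  refine ⟨ρ / 2 * (1 / 2) ^ n * V, r₀, by positivity, hr₀, fun r hr hr' => ?_⟩
  have h1 := (hd r hr hr').2 Set.univ
  have h2 : (μ.restrict {g | Dg g < r}).map (co B) Set.univ = μ {g | Dg g < r} := by
    rw [Measure.map_apply (co_cont B).measurable MeasurableSet.univ, Set.preimage_univ,
      Measure.restrict_apply_univ]
  rw [h2, Measure.smul_apply, Measure.restrict_apply_univ, smul_eq_mul,
    Measure.addHaar_ball_of_pos _ _ (by positivity : 0 < r / 2)] at h1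
  rw [finrank_euclideanSpace_fin] at h1
  have h3 := ENNReal.toReal_mono (measure_ne_top _ _) h1
  rw [ENNReal.toReal_mul, ENNReal.toReal_mul, ENNReal.toReal_ofReal (by positivity),
    ENNReal.toReal_ofReal (by positivity)] at h3
  calc ρ / 2 * (1 / 2) ^ n * V * r ^ n = ρ * (1 - 1 / 2) * ((r / 2) ^ n * V) := by
        rw [div_pow, div_pow, one_pow]
        ring
    _ ≤ _ := h3

end Pool.Agent.X217.YM
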