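import Mathlib
import Pool.Agent.X217.YM.ZLap
import Pool.Agent.X217.YM.PLower
import Pool.Agent.X217.YM.PUpper

/-!
# The constant of the free energy: sandwich by the Maxwell determinants
-/

open MeasureTheory Matrix Filter Metric
open scoped Matrix.Norms.Frobenius Topology ENNReal

set_option linter.unusedSectionVars false

namespace Pool.Agent.X217.YM

open Pool.Agent.H906R3.YM Pool.Agent.TH369.WL Pool.Agent.W793.YM

variable {N n d m : ℕ} [NeZero m] {G : Subgroup (UN N)}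

theorem w1_inv (g : G) : w1 g⁻¹ = w1 g := by rw [w1_eq, w1_eq, Dg_inv]

theorem wl_third (a b t c : G) : wl a b t c = w1 (t * (b⁻¹ * a⁻¹ * c)) := by
  rw [wl_eq, w1_eq]
  have e1 : a * b * t⁻¹ * c⁻¹ = (c⁻¹)⁻¹ * (c⁻¹ * a * b * t⁻¹) * c⁻¹ := by group
  have e2 : c⁻¹ * a * b * t⁻¹ = (t * (b⁻¹ * a⁻¹ * c))⁻¹ := by group
  rw [e1, Dg_conj, e2, Dg_inv]

theorem wl_second (a t b c : G) : wl a t b c = w1 (t * (b⁻¹ * c⁻¹ * a)) := by
  rw [wl_eq, w1_eq]
  have e1 : a * t * b⁻¹ * c⁻¹ = (a⁻¹)⁻¹ * (t * (b⁻¹ * c⁻¹ * a)) * a⁻¹ := by group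
  rw [e1, Dg_conj]

variable [MeasurableSpace G] [BorelSpace G] (μ : Measure G) [IsProbabilityMeasure μ]

theorem z_third [μ.IsMulRightInvariant] {β : ℝ} (hβ : 0 ≤ β) (a b c : G) :
    ∫⁻ t, ENNReal.ofReal (Real.exp (-(β * wl a b t c))) ∂μ = ENNReal.ofReal (z1 μ β) := by
  simp only [wl_third]
  rw [lintegral_mul_right_eq_self (fun t : G => ENNReal.ofReal (Real.exp (-(β * w1 t)))), z1,
    ofReal_integral_eq_lintegral_ofReal (z1_int μ hβ)
      (Eventually.of_forall fun _ => (Real.exp_pos _).le)]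

theorem z_second [μ.IsMulRightInvariant] {β : ℝ} (hβ : 0 ≤ β) (a b c : G) :
    ∫⁻ t, ENNReal.ofReal (Real.exp (-(β * wl a t b c))) ∂μ = ENNReal.ofReal (z1 μ β) := by
  simp only [wl_second]
  rw [lintegral_mul_right_eq_self (fun t : G => ENNReal.ofReal (Real.exp (-(β * w1 t)))), z1,
    ofReal_integral_eq_lintegral_ofReal (z1_int μ hβ)
      (Eventually.of_forall fun _ => (Real.exp_pos _).le)]

/-- **the upper bound of the constant** -/
theorem const_upper [SecondCountableTopology G] [μ.IsMulLeftInvariant] [μ.IsMulRightInvariant]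
    (hd : 0 < d) (hG : IsClosed (G : Set (UN N))) (B : Frame G n) {ρ : ℝ} (hρ : 0 < ρ)
    (hdens : ∀ ε : ℝ, 0 < ε → ∃ r₀ : ℝ, 0 < r₀ ∧ ∀ r : ℝ, 0 < r → r ≤ r₀ →
      (μ.restrict {g | Dg g < r}).map (co B) ≤ ENNReal.ofReal (ρ * (1 + ε)) • volume ∧
      ENNReal.ofReal (ρ * (1 - ε)) • volume.restrict (ball 0 (r / 2)) ≤
        (μ.restrict {g | Dg g < r}).map (co B)) {M : ℝ} (hM : 0 ≤ M)
    (hwM : ∀ a b c e : G, wl a b c e ≤ M) {P : ℝ → ℝ} {c : ℝ}
    (hPb : ∀ β : ℝ, 0 ≤ β → ∀ (l : ℕ) [NeZero l], |Pb μ wl d l β - P β| ≤ β * M * d ^ 3 / l)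
    (hc : Tendsto (fun β => P β + (d - 1) * (n / 2) * Real.log β) atTop (𝓝 c)) :
    c ≤ (d - 1) * (Real.log ρ + n / 2 * Real.log (2 * Real.pi)) -
      n / 2 * Real.log (pmin (MQ d m) (kfr d m)) / (m : ℝ) ^ d := by
  have hm := NeZero.pos m
  have hm0 : (0 : ℝ) < m := by exact_mod_cast hm
  have hmd : (0 : ℝ) < (m : ℝ) ^ d := pow_pos hm0 d
  set c₁ := Real.log ρ + n / 2 * Real.log (2 * Real.pi) with hc₁
  set k := (kfr d m).card with hk
  have hkc : (k : ℝ) + d * (m : ℝ) ^ (d - 1) = (d - 1) * (m : ℝ) ^ d + 1 := by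
    have h1 := card_kfr_eq (d := d) (m := m) hd
    have h2 : (((kfr d m).card + d * m ^ (d - 1) : ℕ) : ℝ) = (((d - 1) * m ^ d + 1 : ℕ) : ℝ) := by
      exact_mod_cast h1
    push_cast [Nat.cast_sub (show 1 ≤ d by omega)] at h2
    exact h2
  have hbox := box_lap hG μ B hρ hdens (R := kfr d m) (Finset.Subset.refl _)
  have hz := z1_lap μ hG B hρ hdens
  rw [← hc₁] at hz
  have hlim := (hbox.add (hz.const_mul ((d : ℝ) * (m : ℝ) ^ (d - 1) - 1))).div_const
    ((m : ℝ) ^ d)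
  have hval : ((k : ℝ) * Real.log ρ + n * (k / 2 * Real.log (2 * Real.pi) -
      1 / 2 * Real.log (pmin (MQ d m) (kfr d m))) + (d * (m : ℝ) ^ (d - 1) - 1) * c₁) /
      (m : ℝ) ^ d = (d - 1) * c₁ -
      n / 2 * Real.log (pmin (MQ d m) (kfr d m)) / (m : ℝ) ^ d := by
    have e1 : (k : ℝ) * Real.log ρ + n * (k / 2 * Real.log (2 * Real.pi) -
      1 / 2 * Real.log (pmin (MQ d m) (kfr d m))) + (d * (m : ℝ) ^ (d - 1) - 1) * c₁ =
      (k + d * (m : ℝ) ^ (d - 1) - 1) * c₁ - n / 2 * Real.log (pmin (MQ d m) (kfr d m)) := by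
      rw [hc₁]; ring
    rw [e1, hkc]
    field_simp
    ring
  rw [← hval]
  refine le_of_tendsto_of_tendsto hc hlim ?_
  filter_upwards [eventually_ge_atTop (1 : ℝ)] with β hβ
  have hβ0 : 0 ≤ β := by linarith
  have h1 := press_upper μ (m := m) hd wl_nonneg hM hwM wl_cont hβ0 (z1_pos μ hβ0) (z1_le μ hβ0)
    (fun a b c => z_third μ hβ0 a b c) (fun a b c => z_second μ hβ0 a b c)
    (P := P β) (C := β * M * d ^ 3) (by positivity) (fun l _ => hPb β hβ0 l)
  rw [Zb_fix μ hβ0] at h1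
  set LZ := Real.log (∫ U : (Fin d → ZMod m) × Fin d → G,
      Real.exp (-(β * bact wl m (fix (kfr d m)ᶜ U))) ∂(Measure.pi fun _ => μ))
  have h2 : (LZ + (n * k : ℕ) / 2 * Real.log β + (d * (m : ℝ) ^ (d - 1) - 1) *
      (Real.log (z1 μ β) + n / 2 * Real.log β)) / (m : ℝ) ^ d =
      (LZ + (d * (m : ℝ) ^ (d - 1) - 1) * Real.log (z1 μ β)) / (m : ℝ) ^ d +
        (d - 1) * (n / 2) * Real.log β := by
    have e1 : LZ + ((n * k : ℕ) : ℝ) / 2 * Real.log β + (d * (m : ℝ) ^ (d - 1) - 1) *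
      (Real.log (z1 μ β) + n / 2 * Real.log β) =
      (LZ + (d * (m : ℝ) ^ (d - 1) - 1) * Real.log (z1 μ β)) +
      (k + d * (m : ℝ) ^ (d - 1) - 1) * (n / 2) * Real.log β := by
      push_cast
      ring
    rw [e1, hkc, add_div]
    congr 1
    field_simp
    ring
  show P β + (d - 1) * (n / 2) * Real.log β ≤ (LZ + (n * k : ℕ) / 2 * Real.log β +
    (d * (m : ℝ) ^ (d - 1) - 1) * (Real.log (z1 μ β) + n / 2 * Real.log β)) / (m : ℝ) ^ d
  rw [h2]
  linarith

/-- the inner links are at most all spatial links -/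
theorem card_rin_le (hd : 0 < d) : (rin d m).card ≤ (d - 1) * m ^ d := by
  classical
  unfold rin
  rw [card_filter_snd]
  have h2 : ∀ i : Fin d, (Finset.univ.filter fun x : Fin d → ZMod m => (i : ℕ) + 1 < d ∧
      (x i).val + 1 < m ∧ ∀ j, j ≠ i → 1 ≤ (x j).val ∧ (x j).val + 1 < m).card ≤
      (if (i : ℕ) + 1 < d then m ^ d else 0) := by
    intro i
    split_ifs with hi
    · refine (Finset.card_le_univ _).trans (le_of_eq ?_)
      rw [Fintype.card_fun, ZMod.card, Fintype.card_fin]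
    · rw [Nat.le_zero, Finset.card_eq_zero, Finset.filter_eq_empty_iff]
      intro x _ h
      exact hi h.1
  refine (Finset.sum_le_sum fun i _ => h2 i).trans ?_
  obtain ⟨t, rfl⟩ : ∃ t, d = t + 1 := ⟨d - 1, by omega⟩
  rw [Fin.sum_univ_castSucc]
  simp

/-- **the lower bound of the constant** -/
theorem const_lower [SecondCountableTopology G] [μ.IsMulLeftInvariant] [μ.IsMulRightInvariant]
    (hd : 0 < d) (hG : IsClosed (G : Set (UN N))) (B : Frame G n) {ρ : ℝ} (hρ : 0 < ρ)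
    (hdens : ∀ ε : ℝ, 0 < ε → ∃ r₀ : ℝ, 0 < r₀ ∧ ∀ r : ℝ, 0 < r → r ≤ r₀ →
      (μ.restrict {g | Dg g < r}).map (co B) ≤ ENNReal.ofReal (ρ * (1 + ε)) • volume ∧
      ENNReal.ofReal (ρ * (1 - ε)) • volume.restrict (ball 0 (r / 2)) ≤
        (μ.restrict {g | Dg g < r}).map (co B)) {M : ℝ} (hM : 0 ≤ M)
    {P : ℝ → ℝ} {c : ℝ}
    (hPt : ∀ β : ℝ, 0 ≤ β → ∀ (l : ℕ) [NeZero l],
      |Pt μ wl d l β - P β| ≤ 6 * (β * M * d ^ 3) / Real.sqrt l)
    (hc : Tendsto (fun β => P β + (d - 1) * (n / 2) * Real.log β) atTop (𝓝 c)) :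
    ∃ K₀ : ℝ, 0 ≤ K₀ ∧ ∀ (m : ℕ) [NeZero m] (η : ℝ), 0 < η →
      (d - 1) * (Real.log ρ + n / 2 * Real.log (2 * Real.pi)) -
      n / 2 * Real.log (pmin (MQ d m) (rin d m)) / (m : ℝ) ^ d -
      K₀ * (1 + 1 / η) * (((d - 1) * (m : ℝ) ^ d - (rin d m).card) / (m : ℝ) ^ d) -
      n / 2 * (d - 1) * η ≤ c := by
  obtain ⟨cb, r₀, hcb, hr₀, hball⟩ := ball_low μ B hρ hdens
  set c₁ := Real.log ρ + n / 2 * Real.log (2 * Real.pi) with hc₁
  refine ⟨|Real.log cb| + |c₁| + 8 * d, by positivity, fun m _ η hη => ?_⟩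
  have hm := NeZero.pos m
  have hm0 : (0 : ℝ) < m := by exact_mod_cast hm
  have hmd : (0 : ℝ) < (m : ℝ) ^ d := pow_pos hm0 d
  set φ : ℝ := (d - 1) * (m : ℝ) ^ d - (rin d m).card with hφ
  have hφ0 : 0 ≤ φ := by
    have h1 := card_rin_le (d := d) (m := m) hd
    have h2 : ((rin d m).card : ℝ) ≤ (((d - 1) * m ^ d : ℕ) : ℝ) := by exact_mod_cast h1
    push_cast [Nat.cast_sub (show 1 ≤ d by omega)] at h2
    linarith
  set kr : ℝ := ((rin d m).card : ℝ) with hkr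
  have hkr0 : 0 ≤ kr := Nat.cast_nonneg _
  have hkrd : kr = (d - 1) * (m : ℝ) ^ d - φ := by rw [hφ]; ring
  have hbox := box_lap hG μ B hρ hdens (R := rin d m) rin_sub
  have hsc : Tendsto (fun β : ℝ => β * (1 + η)) atTop atTop :=
    tendsto_id.atTop_mul_const (by linarith)
  have hbox2 := hbox.comp hsc
  have hlim := ((hbox2.add_const (φ * (Real.log cb - 8 * d * (1 + 1 / η)) -
    n * kr / 2 * Real.log (1 + η)))).div_const ((m : ℝ) ^ d)
  have hineq : (kr * Real.log ρ + n * (kr / 2 * Real.log (2 * Real.pi) -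
      1 / 2 * Real.log (pmin (MQ d m) (rin d m))) + (φ * (Real.log cb - 8 * d * (1 + 1 / η)) -
    n * kr / 2 * Real.log (1 + η))) / (m : ℝ) ^ d ≤ c := by
    refine le_of_tendsto_of_tendsto hlim hc ?_
    filter_upwards [eventually_ge_atTop (1 : ℝ), eventually_ge_atTop ((1 / r₀) ^ 2)] with β hβ hβ2
    have hβ0 : 0 < β := by linarith
    have hs : 0 < Real.sqrt β := Real.sqrt_pos.2 hβ0
    set r := 1 / Real.sqrt β with hr
    have hr0 : 0 < r := by positivity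
    have hrr : r ≤ r₀ := by
      have h1 : 1 / r₀ ≤ Real.sqrt β := Real.le_sqrt_of_sq_le hβ2
      rw [hr, div_le_iff₀ hs]
      rw [div_le_iff₀ hr₀] at h1
      linarith
    have hβr : β * r ^ 2 = 1 := by
      rw [hr, div_pow, one_pow, Real.sq_sqrt hβ0.le]
      field_simp
    have hbl := hball r hr0 hrr
    have hpB : 0 < (μ {g | Dg g < r}).toReal := lt_of_lt_of_le (by positivity) hbl
    have h1 := press_lower μ (d := d) (m := m) hd hη hβ0.le hpB (P := P β)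
      (C := 6 * (β * M * d ^ 3)) (by positivity) (fun l _ => hPt β hβ0.le l)
    rw [hβr, mul_one] at h1
    have h2 : Real.log cb - n / 2 * Real.log β ≤ Real.log (μ {g | Dg g < r}).toReal := by
      have h3 := Real.log_le_log (by positivity) hbl
      rw [Real.log_mul hcb.ne' (pow_pos hr0 _).ne', Real.log_pow, hr, Real.log_div one_ne_zero hs.ne',
        Real.log_one, Real.log_sqrt hβ0.le] at h3
      have : (n : ℝ) * (0 - Real.log β / 2) = -(n / 2 * Real.log β) := by ring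
      rw [this] at h3
      rw [hr]
      linarith
    set LZ := Real.log (Zin d m μ (β * (1 + η))) with hLZ
    have h4 : (φ * (Real.log cb - n / 2 * Real.log β - 8 * d * (1 + 1 / η)) + LZ) / (m : ℝ) ^ d ≤
        P β := by
      refine le_trans (div_le_div_of_nonneg_right ?_ hmd.le) h1
      have := mul_le_mul_of_nonneg_left h2 hφ0
      linarith
    have h5 : Real.log (β * (1 + η)) = Real.log β + Real.log (1 + η) :=
      Real.log_mul hβ0.ne' (by linarith)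
    show (LZ + (n * (rin d m).card : ℕ) / 2 * Real.log (β * (1 + η)) +
      (φ * (Real.log cb - 8 * d * (1 + 1 / η)) - n * kr / 2 * Real.log (1 + η))) / (m : ℝ) ^ d ≤
      P β + (d - 1) * (n / 2) * Real.log β
    have h6 : (LZ + ((n * (rin d m).card : ℕ) : ℝ) / 2 * Real.log (β * (1 + η)) +
      (φ * (Real.log cb - 8 * d * (1 + 1 / η)) - n * kr / 2 * Real.log (1 + η))) / (m : ℝ) ^ d =
      (φ * (Real.log cb - n / 2 * Real.log β - 8 * d * (1 + 1 / η)) + LZ) / (m : ℝ) ^ d +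
        (d - 1) * (n / 2) * Real.log β := by
      have e1 : LZ + ((n * (rin d m).card : ℕ) : ℝ) / 2 * Real.log (β * (1 + η)) +
        (φ * (Real.log cb - 8 * d * (1 + 1 / η)) - n * kr / 2 * Real.log (1 + η)) =
        (φ * (Real.log cb - n / 2 * Real.log β - 8 * d * (1 + 1 / η)) + LZ) +
        (φ + kr) * (n / 2) * Real.log β := by
        rw [h5]
        push_cast
        rw [← hkr]
        ring
      rw [e1, hkrd, add_div]
      congr 1
      field_simp
      ring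
    rw [h6]
    linarith
  refine le_trans ?_ hineq
  have e1 : kr * Real.log ρ + n * (kr / 2 * Real.log (2 * Real.pi) -
      1 / 2 * Real.log (pmin (MQ d m) (rin d m))) + (φ * (Real.log cb - 8 * d * (1 + 1 / η)) -
      n * kr / 2 * Real.log (1 + η)) =
      (d - 1) * (m : ℝ) ^ d * c₁ - n / 2 * Real.log (pmin (MQ d m) (rin d m)) +
      φ * (Real.log cb - c₁ - 8 * d * (1 + 1 / η)) - n / 2 * kr * Real.log (1 + η) := by
    rw [hkrd, hc₁]
    ring
  rw [e1]
  have h7 : -(φ * ((|Real.log cb| + |c₁| + 8 * d) * (1 + 1 / η))) ≤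
      φ * (Real.log cb - c₁ - 8 * d * (1 + 1 / η)) := by
    rw [← mul_neg]
    refine mul_le_mul_of_nonneg_left ?_ hφ0
    have a1 := neg_abs_le (Real.log cb)
    have a2 := le_abs_self c₁
    have a3 : (1 : ℝ) ≤ 1 + 1 / η := by
      have : 0 < 1 / η := by positivity
      linarith
    have a4 := mul_le_mul_of_nonneg_left a3 (abs_nonneg (Real.log cb))
    have a5 := mul_le_mul_of_nonneg_left a3 (abs_nonneg c₁)
    nlinarith
  have h8 : n / 2 * kr * Real.log (1 + η) ≤ n / 2 * ((d - 1) * (m : ℝ) ^ d) * η := by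
    have a1 : Real.log (1 + η) ≤ η := by
      have := Real.log_le_sub_one_of_pos (show 0 < 1 + η by linarith)
      linarith
    have a2 : kr ≤ (d - 1) * (m : ℝ) ^ d := by linarith
    have a3 : 0 ≤ Real.log (1 + η) := Real.log_nonneg (by linarith)
    have a4 : (n : ℝ) / 2 * kr ≤ n / 2 * ((d - 1) * (m : ℝ) ^ d) :=
      mul_le_mul_of_nonneg_left a2 (by positivity)
    have a5 : (0 : ℝ) ≤ (n : ℝ) / 2 * kr := mul_nonneg (by positivity) hkr0
    exact mul_le_mul a4 a1 a3 (a5.trans a4)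
  rw [le_div_iff₀ hmd]
  have e2 : ((d - 1) * c₁ - n / 2 * Real.log (pmin (MQ d m) (rin d m)) / (m : ℝ) ^ d -
      (|Real.log cb| + |c₁| + 8 * d) * (1 + 1 / η) * (φ / (m : ℝ) ^ d) -
      n / 2 * (d - 1) * η) * (m : ℝ) ^ d =
      (d - 1) * (m : ℝ) ^ d * c₁ - n / 2 * Real.log (pmin (MQ d m) (rin d m)) -
      φ * ((|Real.log cb| + |c₁| + 8 * d) * (1 + 1 / η)) -
      n / 2 * ((d - 1) * (m : ℝ) ^ d) * η := by
    rw [sub_mul, sub_mul, sub_mul, div_mul_cancel₀ _ hmd.ne', mul_assoc _ (φ / (m : ℝ) ^ d),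
      div_mul_cancel₀ _ hmd.ne']
    ring
  rw [e2]
  linarith

end Pool.Agent.X217.YM
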