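import Mathlib
import Pool.Agent.X217.YM.Nice
import Pool.Agent.X217.YM.Sand

/-!
# Comparison of the minors of the two Maxwell matrices
-/

open Matrix

set_option linter.unusedSectionVars false

namespace Pool.Agent.X217.YM

variable {s m : ℕ} [NeZero m]

theorem rfr_self {d : ℕ} : rfr d m m = rin d m := by
  ext e
  simp only [rfr, rin, Finset.mem_filter, Finset.mem_univ, true_and,
    Nat.mod_eq_of_lt (ZMod.val_lt _)]

theorem not_rin {d : ℕ} {x : Fin d → ZMod m} {i j : Fin d} (hij : i ≠ j)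
    (h : (x i).val + 1 = m ∨ (x j).val + 1 = m) :
    (x, i) ∉ rin d m ∧ (x + Pi.single i 1, j) ∉ rin d m ∧
      (x + Pi.single j 1, i) ∉ rin d m ∧ (x, j) ∉ rin d m := by
  have h1 := not_rfr (l := m) (m := m) (q := 1) (one_mul m) (x := x) hij (by
    rw [Nat.mod_eq_of_lt (ZMod.val_lt _), Nat.mod_eq_of_lt (ZMod.val_lt _)]
    exact h)
  rwa [rfr_self] at h1

theorem val_top {z : ZMod m} (h : z + 1 = 0) : z.val + 1 = m := by
  have h1 := ZMod.val_lt z
  by_contra h2
  have h3 : z.val + 1 < m := by omega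
  have h4 := val_add_one h3
  rw [h] at h4
  simp at h4

/-- the Maxwell action of an inner field -/
theorem bact_nice (V : (Fin (s + 1) → ZMod m) × Fin (s + 1) → ℝ)
    (hV : ∀ e, e ∉ rin (s + 1) m → V e = 0) :
    bact q4 m V = ∑ x, (∑ j : Fin s, ∑ k : Fin s, (if j < k then
      ((Ds j *ᵥ fun y => V (y, k.castSucc)) x - (Ds k *ᵥ fun y => V (y, j.castSucc)) x) ^ 2
        else 0) +
      ∑ k : Fin s, (Tt s m *ᵥ fun y => V (y, k.castSucc)) x ^ 2) := by
  have hlast : ∀ y, V (y, Fin.last s) = 0 := by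
    intro y
    refine hV _ fun h => ?_
    simp only [rin, Finset.mem_filter, Finset.mem_univ, true_and, Fin.val_last] at h
    omega
  -- the terms of the box action
  let T : (Fin (s + 1) → ZMod m) → Fin (s + 1) → Fin (s + 1) → ℝ := fun x i j =>
    if i < j ∧ (x i).val + 1 < m ∧ (x j).val + 1 < m then
      q4 (V (x, i)) (V (x + Pi.single i 1, j)) (V (x + Pi.single j 1, i)) (V (x, j)) else 0
  have hT0 : ∀ x j, T x (Fin.last s) j = 0 := by
    intro x j
    simp only [T]
    rw [if_neg]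
    intro h
    exact absurd h.1 (not_lt.2 (Fin.le_last j))
  have hwrap : ∀ (x : Fin (s + 1) → ZMod m) (i j : Fin (s + 1)), i ≠ j →
      ¬ ((x i).val + 1 < m ∧ (x j).val + 1 < m) →
      V (x, i) = 0 ∧ V (x + Pi.single i 1, j) = 0 ∧ V (x + Pi.single j 1, i) = 0 ∧
        V (x, j) = 0 := by
    intro x i j hij h
    have h1 : (x i).val + 1 = m ∨ (x j).val + 1 = m := by
      have e1 := ZMod.val_lt (x i)
      have e2 := ZMod.val_lt (x j)
      by_contra hcon
      push Not at hcon
      exact h ⟨by omega, by omega⟩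
    obtain ⟨a1, a2, a3, a4⟩ := not_rin hij h1
    exact ⟨hV _ a1, hV _ a2, hV _ a3, hV _ a4⟩
  have hTs : ∀ x (j k : Fin s), T x j.castSucc k.castSucc = if j < k then
      ((Ds j *ᵥ fun y => V (y, k.castSucc)) x - (Ds k *ᵥ fun y => V (y, j.castSucc)) x) ^ 2
        else 0 := by
    intro x j k
    simp only [T, Ds_mulVec, Fin.castSucc_lt_castSucc_iff]
    by_cases hjk : j < k
    · rw [if_pos hjk]
      by_cases hw : (x j.castSucc).val + 1 < m ∧ (x k.castSucc).val + 1 < m
      · rw [if_pos ⟨hjk, hw⟩]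
        unfold q4
        ring
      · rw [if_neg (fun h => hw h.2)]
        obtain ⟨a1, a2, a3, a4⟩ := hwrap x j.castSucc k.castSucc
          (fun h => hjk.ne (Fin.castSucc_injective _ h)) hw
        rw [a1, a2, a3, a4]
        norm_num
    · rw [if_neg hjk, if_neg (fun h => hjk h.1)]
  have hTt : ∀ x (j : Fin s), T x j.castSucc (Fin.last s) =
      (V (x, j.castSucc) - V (x + Pi.single (Fin.last s) 1, j.castSucc)) ^ 2 := by
    intro x j
    simp only [T]
    by_cases hw : (x j.castSucc).val + 1 < m ∧ (x (Fin.last s)).val + 1 < m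
    · rw [if_pos ⟨Fin.castSucc_lt_last j, hw⟩]
      unfold q4
      rw [hlast, hlast]
      ring
    · rw [if_neg (fun h => hw h.2)]
      obtain ⟨a1, a2, a3, a4⟩ := hwrap x j.castSucc (Fin.last s) (cs_ne j).symm hw
      rw [a1, a3]
      norm_num
  have hTtt : ∀ (j : Fin s) (x : Fin (s + 1) → ZMod m),
      (Tt s m *ᵥ fun y => V (y, j.castSucc)) x =
        V (x, j.castSucc) - V (x - Pi.single (Fin.last s) 1, j.castSucc) := by
    intro j x
    rw [Tt_mulVec]
    split_ifs with h0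
    · have h1 : V (x - Pi.single (Fin.last s) 1, j.castSucc) = 0 := by
        refine hV _ fun h => ?_
        simp only [rin, Finset.mem_filter, Finset.mem_univ, true_and] at h
        have h2 := (h.2.2 (Fin.last s) (cs_ne j)).2
        have h3 : (x - Pi.single (Fin.last s) 1 : Fin (s + 1) → ZMod m) (Fin.last s) + 1 = 0 := by
          rw [Pi.sub_apply, Pi.single_eq_same, h0]
          ring
        have h4 := val_top h3
        omega
      rw [h1]
    · rfl
  have hb : bact q4 m V = ∑ x, ∑ i, ∑ j, T x i j := rfl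
  rw [hb]
  have h1 : ∀ x, ∑ i, ∑ j, T x i j = ∑ j : Fin s, ∑ k : Fin s, T x j.castSucc k.castSucc +
      ∑ j : Fin s, T x j.castSucc (Fin.last s) := by
    intro x
    rw [Fin.sum_univ_castSucc]
    simp only [hT0, Finset.sum_const_zero, add_zero]
    simp only [Fin.sum_univ_castSucc (n := s), Finset.sum_add_distrib]
  simp only [h1, hTs, hTt, hTtt, Finset.sum_add_distrib]
  congr 1
  refine Finset.sum_comm.trans (Eq.trans ?_ Finset.sum_comm.symm)
  refine Finset.sum_congr rfl fun j _ => ?_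
  have hsh := Equiv.sum_comp (Equiv.subRight (Pi.single (Fin.last s) 1 : Fin (s + 1) → ZMod m))
    (fun x => (V (x, j.castSucc) - V (x + Pi.single (Fin.last s) 1, j.castSucc)) ^ 2)
  refine hsh.symm.trans (Finset.sum_congr rfl fun x _ => ?_)
  simp only [Equiv.subRight_apply, sub_add_cancel]
  ring

/-- the inner links as an index set -/
def RN (s m : ℕ) [NeZero m] : Finset (XX s m × Fin s) :=
  Finset.univ.filter fun p => (p.1, p.2.castSucc) ∈ rin (s + 1) m

/-- the bijection of the index sets -/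
noncomputable def eRN (s m : ℕ) [NeZero m] : RN s m ≃ rin (s + 1) m :=
  Equiv.ofBijective (fun p => ⟨(p.1.1, p.1.2.castSucc), by
    have := p.2
    simp only [RN, Finset.mem_filter, Finset.mem_univ, true_and] at this
    exact this⟩) (by
    constructor
    · intro p q h
      have h1 := congrArg (fun t => t.1.1) h
      have h2 := congrArg (fun t => t.1.2) h
      simp only at h1 h2
      exact Subtype.ext (Prod.ext h1 (Fin.castSucc_injective _ h2))
    · rintro ⟨⟨x, i⟩, h⟩
      have hi : i ≠ Fin.last s := by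
        rintro rfl
        simp only [rin, Finset.mem_filter, Finset.mem_univ, true_and, Fin.val_last] at h
        omega
      have h2 : (i.castPred hi).castSucc = i := Fin.castSucc_castPred i hi
      refine ⟨⟨(x, i.castPred hi), ?_⟩, ?_⟩
      · simp only [RN, Finset.mem_filter, Finset.mem_univ, true_and, h2]
        exact h
      · refine Subtype.ext (Prod.ext rfl h2))

theorem Nn_symm : (Nn s m)ᵀ = Nn s m := by
  rw [Nn, transpose_sub, transpose_mul, transpose_transpose, blockDiagonal_transpose]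
  simp only [Lp_symm]

theorem pmin_RN : pmin (Nn s m) (RN s m) = pmin (MQ (s + 1) m) (rin (s + 1) m) := by
  set e := eRN s m with he
  have hmat : (Nn s m).submatrix (fun a : RN s m => (a : XX s m × Fin s))
      (fun a : RN s m => (a : XX s m × Fin s)) = (MR (rin (s + 1) m)).submatrix e e := by
    refine quad_ext ?_ ?_ fun v => ?_
    · rw [transpose_submatrix, Nn_symm]
    · have : (MR (rin (s + 1) m))ᵀ = MR (rin (s + 1) m) := by
        rw [MR, transpose_submatrix, MQ_symm]
      rw [transpose_submatrix, this]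
    · rw [sub_quad_form, Nn_quad]
      have h3 : ((MR (rin (s + 1) m)).submatrix e e) *ᵥ v =
          ((MR (rin (s + 1) m)) *ᵥ (v ∘ e.symm)) ∘ e :=
        submatrix_mulVec_equiv _ v e e
      have h4 : ∀ w : rin (s + 1) m → ℝ, v ⬝ᵥ (w ∘ e) = (v ∘ e.symm) ⬝ᵥ w := by
        intro w
        simp only [dotProduct]
        exact Fintype.sum_equiv e _ _ fun x => by simp
      rw [h3, h4, MR_quad, bact_nice _ (fun e' he' => ext_notMem 0 _ he')]
      have hval : ∀ (y : XX s m) (k : Fin s), ext 0 (v ∘ e.symm) (y, k.castSucc) =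
          ext 0 v (y, k) := by
        intro y k
        by_cases h : (y, k.castSucc) ∈ rin (s + 1) m
        · have h' : (y, k) ∈ RN s m := by
            simp only [RN, Finset.mem_filter, Finset.mem_univ, true_and]
            exact h
          rw [ext_mem 0 _ h, ext_mem 0 _ h']
          show v (e.symm ⟨(y, k.castSucc), h⟩) = v ⟨(y, k), h'⟩
          congr 1
          rw [Equiv.symm_apply_eq]
          rfl
        · have h' : (y, k) ∉ RN s m := by
            simp only [RN, Finset.mem_filter, Finset.mem_univ, true_and]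
            exact h
          rw [ext_notMem 0 _ h, ext_notMem 0 _ h']
      simp only [hval]
  unfold pmin
  rw [hmat, det_submatrix_equiv_self]
  rfl

theorem card_RN : (RN s m).card = (rin (s + 1) m).card := by
  rw [← Fintype.card_coe, ← Fintype.card_coe]
  exact Fintype.card_congr (eRN s m)

/-- the values of a field are controlled by its differences in time -/
theorem time_coer (f : XX s m → ℝ) {S : ℝ} (hS : ∀ x, (Tt s m *ᵥ f) x ^ 2 ≤ S) :
    ∀ (k : ℕ) (x : XX s m), (x (Fin.last s)).val = k → |f x| ≤ (k + 1) * Real.sqrt S := by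
  intro k
  induction k with
  | zero =>
    intro x hx
    have h1 := hS x
    rw [Tt_mulVec, if_pos ((ZMod.val_eq_zero _).1 hx), sub_zero] at h1
    have := Real.abs_le_sqrt h1
    simpa using this
  | succ k ih =>
    intro x hx
    have h0 : x (Fin.last s) ≠ 0 := by
      intro h
      rw [h] at hx
      simp at hx
    have h1 := hS x
    rw [Tt_mulVec, if_neg h0] at h1
    have h2 := Real.abs_le_sqrt h1
    have h3 := ih (x - Pi.single (Fin.last s) 1) (by
      rw [sub_same x (by omega)]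
      omega)
    have h4 : |f x| ≤ |f x - f (x - Pi.single (Fin.last s) 1)| +
        |f (x - Pi.single (Fin.last s) 1)| := by
      have := abs_add_le (f x - f (x - Pi.single (Fin.last s) 1))
        (f (x - Pi.single (Fin.last s) 1))
      simpa using this
    push_cast
    linarith

theorem time_coer' (f : XX s m → ℝ) {S : ℝ} (hS : ∀ x, (Tt s m *ᵥ f) x ^ 2 ≤ S) (x : XX s m) :
    f x ^ 2 ≤ m ^ 2 * S := by
  have hS0 : 0 ≤ S := (sq_nonneg _).trans (hS x)
  have h1 := time_coer f hS _ x rfl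
  have h2 : ((x (Fin.last s)).val : ℝ) + 1 ≤ m := by
    have := ZMod.val_lt (x (Fin.last s))
    exact_mod_cast this
  have h3 : |f x| ≤ m * Real.sqrt S :=
    h1.trans (mul_le_mul_of_nonneg_right h2 (Real.sqrt_nonneg _))
  have h4 := pow_le_pow_left₀ (abs_nonneg _) h3 2
  rwa [sq_abs, mul_pow, Real.sq_sqrt hS0] at h4

theorem Lp_low (f : XX s m → ℝ) : f ⬝ᵥ f ≤ (m : ℝ) ^ (s + 3) * (f ⬝ᵥ Lp s m *ᵥ f) := by
  set S := f ⬝ᵥ Lp s m *ᵥ f with hS
  have h1 : ∀ x, (Tt s m *ᵥ f) x ^ 2 ≤ S := by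
    intro x
    rw [hS, Lp_quad]
    have h2 : (Tt s m *ᵥ f) x ^ 2 ≤ (Tt s m *ᵥ f) ⬝ᵥ (Tt s m *ᵥ f) := by
      rw [sq]
      exact Finset.single_le_sum (f := fun x => (Tt s m *ᵥ f) x * (Tt s m *ᵥ f) x)
        (fun x _ => mul_self_nonneg _) (Finset.mem_univ x)
    have h3 : 0 ≤ ∑ k : Fin s, (Ds k *ᵥ f) ⬝ᵥ (Ds k *ᵥ f) :=
      Finset.sum_nonneg fun k _ => Finset.sum_nonneg fun x _ => mul_self_nonneg _
    linarith
  calc f ⬝ᵥ f ≤ ∑ _x : XX s m, (m : ℝ) ^ 2 * S := by
        refine Finset.sum_le_sum fun x _ => ?_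
        rw [← sq]
        exact time_coer' f h1 x
    _ = _ := by
        rw [Finset.sum_const, Finset.card_univ, nsmul_eq_mul, Fintype.card_fun, ZMod.card,
          Fintype.card_fin]
        push_cast
        ring

theorem Lp_up (f : XX s m → ℝ) : f ⬝ᵥ Lp s m *ᵥ f ≤ 4 * (s + 1) * (f ⬝ᵥ f) := by
  rw [Lp_quad]
  have h1 : ∀ k : Fin s, (Ds k *ᵥ f) ⬝ᵥ (Ds k *ᵥ f) ≤ 4 * (f ⬝ᵥ f) := by
    intro k
    have e1 : ∑ x : XX s m, f (x + Pi.single k.castSucc 1) ^ 2 = f ⬝ᵥ f := by
      refine (Equiv.sum_comp (Equiv.addRight (Pi.single k.castSucc 1 : XX s m))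
        (fun x => f x ^ 2)).trans ?_
      simp only [dotProduct, sq]
    have e2 : ∑ x : XX s m, f x ^ 2 = f ⬝ᵥ f := by simp only [dotProduct, sq]
    calc (Ds k *ᵥ f) ⬝ᵥ (Ds k *ᵥ f) ≤
          ∑ x : XX s m, (2 * f (x + Pi.single k.castSucc 1) ^ 2 + 2 * f x ^ 2) := by
          refine Finset.sum_le_sum fun x _ => ?_
          rw [Ds_mulVec]
          nlinarith [sq_nonneg (f (x + Pi.single k.castSucc 1) + f x)]
      _ = _ := by
          rw [Finset.sum_add_distrib, ← Finset.mul_sum, ← Finset.mul_sum, e1, e2]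
          ring
  have h2 : (Tt s m *ᵥ f) ⬝ᵥ (Tt s m *ᵥ f) ≤ 4 * (f ⬝ᵥ f) := by
    have e1 : ∑ x : XX s m, f (x - Pi.single (Fin.last s) 1) ^ 2 = f ⬝ᵥ f := by
      refine (Equiv.sum_comp (Equiv.subRight (Pi.single (Fin.last s) 1 : XX s m))
        (fun x => f x ^ 2)).trans ?_
      simp only [dotProduct, sq]
    have e2 : ∑ x : XX s m, f x ^ 2 = f ⬝ᵥ f := by simp only [dotProduct, sq]
    calc (Tt s m *ᵥ f) ⬝ᵥ (Tt s m *ᵥ f) ≤
          ∑ x : XX s m, (2 * f (x - Pi.single (Fin.last s) 1) ^ 2 + 2 * f x ^ 2) := by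
          refine Finset.sum_le_sum fun x _ => ?_
          rw [Tt_mulVec]
          split_ifs
          · nlinarith [sq_nonneg (f (x - Pi.single (Fin.last s) 1)), sq_nonneg (f x)]
          · nlinarith [sq_nonneg (f (x - Pi.single (Fin.last s) 1) + f x)]
      _ = _ := by
          rw [Finset.sum_add_distrib, ← Finset.mul_sum, ← Finset.mul_sum, e1, e2]
          ring
  calc _ ≤ ∑ _k : Fin s, 4 * (f ⬝ᵥ f) + 4 * (f ⬝ᵥ f) :=
        add_le_add (Finset.sum_le_sum fun k _ => h1 k) h2
    _ = _ := by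
        rw [Finset.sum_const, Finset.card_univ, nsmul_eq_mul, Fintype.card_fin]
        ring

theorem Lp_posDef : (Lp s m).PosDef := by
  have hsym : (Lp s m).IsHermitian := by
    rw [IsHermitian, conjTranspose_eq_transpose_of_trivial, Lp_symm]
  refine .of_dotProduct_mulVec_pos hsym fun v hv => ?_
  have e3 : 0 < v ⬝ᵥ v := by
    have : 0 ≤ v ⬝ᵥ v := Finset.sum_nonneg fun i _ => mul_self_nonneg _
    rcases this.lt_or_eq with h | h
    · exact h
    · exact absurd (dotProduct_self_eq_zero.1 h.symm) hv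
  have h1 := Lp_low v
  have hm : (0 : ℝ) < m := by exact_mod_cast NeZero.pos m
  have h3 : 0 < v ⬝ᵥ Lp s m *ᵥ v := by
    by_contra h
    have : (m : ℝ) ^ (s + 3) * (v ⬝ᵥ Lp s m *ᵥ v) ≤ 0 :=
      mul_nonpos_of_nonneg_of_nonpos (by positivity) (not_lt.1 h)
    linarith
  simpa using h3

theorem Nn_low (v : XX s m × Fin s → ℝ) :
    v ⬝ᵥ v ≤ ((s + 1) * (m : ℝ) ^ (s + 3)) * (v ⬝ᵥ Nn s m *ᵥ v) := by
  set S := v ⬝ᵥ Nn s m *ᵥ v with hS
  have h0 : ∀ x : XX s m, 0 ≤ ∑ j : Fin s, ∑ k : Fin s, (if j < k then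
      ((Ds j *ᵥ fun y => v (y, k)) x - (Ds k *ᵥ fun y => v (y, j)) x) ^ 2 else 0) := by
    intro x
    refine Finset.sum_nonneg fun j _ => Finset.sum_nonneg fun k _ => ?_
    split_ifs
    · positivity
    · exact le_rfl
  have h1 : ∀ (k : Fin s) (x : XX s m), (Tt s m *ᵥ fun y => v (y, k)) x ^ 2 ≤ S := by
    intro k x
    rw [hS, Nn_quad]
    have e1 : (Tt s m *ᵥ fun y => v (y, k)) x ^ 2 ≤
        ∑ k : Fin s, (Tt s m *ᵥ fun y => v (y, k)) x ^ 2 :=
      Finset.single_le_sum (f := fun k => (Tt s m *ᵥ fun y => v (y, k)) x ^ 2)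
        (fun k _ => sq_nonneg _) (Finset.mem_univ k)
    refine (e1.trans (le_add_of_nonneg_left (h0 x))).trans ?_
    exact Finset.single_le_sum (f := fun x => ∑ j : Fin s, ∑ k : Fin s, (if j < k then
      ((Ds j *ᵥ fun y => v (y, k)) x - (Ds k *ᵥ fun y => v (y, j)) x) ^ 2 else 0) +
      ∑ k : Fin s, (Tt s m *ᵥ fun y => v (y, k)) x ^ 2)
      (fun x _ => add_nonneg (h0 x) (Finset.sum_nonneg fun k _ => sq_nonneg _))
      (Finset.mem_univ x)
  have hS0 : 0 ≤ S := by
    rw [hS, Nn_quad]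
    exact Finset.sum_nonneg fun x _ => add_nonneg (h0 x) (Finset.sum_nonneg fun k _ => sq_nonneg _)
  calc v ⬝ᵥ v ≤ ∑ _p : XX s m × Fin s, (m : ℝ) ^ 2 * S := by
        refine Finset.sum_le_sum fun p _ => ?_
        rw [← sq]
        exact time_coer' (fun y => v (y, p.2)) (h1 p.2) p.1
    _ = (m : ℝ) ^ (s + 1) * s * ((m : ℝ) ^ 2 * S) := by
        rw [Finset.sum_const, Finset.card_univ, nsmul_eq_mul, Fintype.card_prod, Fintype.card_fun,
          ZMod.card, Fintype.card_fin, Fintype.card_fin]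
        push_cast
        ring
    _ ≤ _ := by
        have h2 : (0 : ℝ) ≤ (m : ℝ) ^ (s + 3) * S := by positivity
        have h3 : (m : ℝ) ^ (s + 1) * s * ((m : ℝ) ^ 2 * S) = s * ((m : ℝ) ^ (s + 3) * S) := by
          ring
        rw [h3]
        linarith

theorem Nn_up (v : XX s m × Fin s → ℝ) :
    v ⬝ᵥ Nn s m *ᵥ v ≤ (20 * (s + 1) ^ 2 * (m : ℝ) ^ (s + 1)) * (v ⬝ᵥ v) := by
  set q := v ⬝ᵥ v with hq
  have hq0 : 0 ≤ q := Finset.sum_nonneg fun i _ => mul_self_nonneg _
  have h1 : ∀ p, v p ^ 2 ≤ q := by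
    intro p
    rw [sq]
    exact Finset.single_le_sum (f := fun k => v k * v k) (fun k _ => mul_self_nonneg _)
      (Finset.mem_univ p)
  have hs : ∀ (j k : Fin s) (x : XX s m), (if j < k then
      ((Ds j *ᵥ fun y => v (y, k)) x - (Ds k *ᵥ fun y => v (y, j)) x) ^ 2 else 0) ≤ 16 * q := by
    intro j k x
    split_ifs
    · rw [Ds_mulVec, Ds_mulVec]
      have a1 := h1 (x + Pi.single j.castSucc 1, k)
      have a2 := h1 (x, k)
      have a3 := h1 (x + Pi.single k.castSucc 1, j)
      have a4 := h1 (x, j)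
      set a := v (x + Pi.single j.castSucc 1, k)
      set b := v (x, k)
      set c := v (x + Pi.single k.castSucc 1, j)
      set e := v (x, j)
      nlinarith [sq_nonneg (a + b), sq_nonneg (a + c), sq_nonneg (a - e), sq_nonneg (b - c),
        sq_nonneg (b + e), sq_nonneg (c + e)]
    · positivity
  have ht : ∀ (k : Fin s) (x : XX s m), (Tt s m *ᵥ fun y => v (y, k)) x ^ 2 ≤ 4 * q := by
    intro k x
    rw [Tt_mulVec]
    have a1 := h1 (x, k)
    have a2 := h1 (x - Pi.single (Fin.last s) 1, k)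
    split_ifs
    · rw [sub_zero]; nlinarith
    · nlinarith [sq_nonneg (v (x, k) + v (x - Pi.single (Fin.last s) 1, k))]
  rw [Nn_quad]
  calc _ ≤ ∑ _x : XX s m, (∑ _j : Fin s, ∑ _k : Fin s, 16 * q + ∑ _k : Fin s, 4 * q) :=
        Finset.sum_le_sum fun x _ => add_le_add
          (Finset.sum_le_sum fun j _ => Finset.sum_le_sum fun k _ => hs j k x)
          (Finset.sum_le_sum fun k _ => ht k x)
    _ = (m : ℝ) ^ (s + 1) * (16 * s ^ 2 + 4 * s) * q := by
        simp only [Finset.sum_const, Finset.card_univ, nsmul_eq_mul, Fintype.card_fun,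
          ZMod.card, Fintype.card_fin]
        push_cast
        ring
    _ ≤ _ := by
        have h2 : (0 : ℝ) ≤ (m : ℝ) ^ (s + 1) * q := by positivity
        have h3 : (16 * (s : ℝ) ^ 2 + 4 * s) ≤ 20 * (s + 1) ^ 2 := by
          have : (0 : ℝ) ≤ s := Nat.cast_nonneg s
          nlinarith
        have := mul_le_mul_of_nonneg_right h3 h2
        linarith

/-- **comparison of the logarithms** -/
theorem nice_cmp (hs : 1 ≤ s) : ∃ C : ℝ, 0 ≤ C ∧ ∀ (m : ℕ) [NeZero m],
    |Real.log (pmin (MQ (s + 1) m) (rin (s + 1) m)) - (s - 1) * Real.log (Lp s m).det| ≤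
      ((s : ℝ) * (m : ℝ) ^ (s + 1) - (rin (s + 1) m).card) * (C * (1 + Real.log m)) := by
  refine ⟨Real.log (20 * (s + 1) ^ 2) + (s + 3), ?_, fun m _ => ?_⟩
  · have : (0 : ℝ) ≤ Real.log (20 * (s + 1) ^ 2) := Real.log_nonneg (by
      have : (0 : ℝ) ≤ s := Nat.cast_nonneg s
      nlinarith)
    positivity
  set C : ℝ := Real.log (20 * (s + 1) ^ 2) + (s + 3) with hC
  have hm1 : (1 : ℝ) ≤ m := by exact_mod_cast NeZero.pos m
  have hm0 : (0 : ℝ) < m := by linarith
  have hlm : 0 ≤ Real.log m := Real.log_nonneg hm1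
  have hs0 : (0 : ℝ) ≤ s := Nat.cast_nonneg s
  have hl20 : (0 : ℝ) ≤ Real.log (20 * (s + 1) ^ 2) := Real.log_nonneg (by nlinarith)
  set lo : ℝ := ((s + 1) * (m : ℝ) ^ (s + 3))⁻¹ with hlo
  set hi : ℝ := 20 * (s + 1) ^ 2 * (m : ℝ) ^ (s + 1) with hhi
  have hlo0 : 0 < lo := by positivity
  have hhi0 : 0 < hi := by positivity
  have hfull : ∀ v : ↥(Finset.univ : Finset (XX s m × Fin s)) → ℝ,
      (ext 0 v : XX s m × Fin s → ℝ) ⬝ᵥ (ext 0 v) = v ⬝ᵥ v := by
    intro v
    have := sub_quad_form (1 : Matrix (XX s m × Fin s) (XX s m × Fin s) ℝ) Finset.univ v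
    rw [one_mulVec, submatrix_one _ Subtype.val_injective, one_mulVec] at this
    exact this.symm
  obtain ⟨p0, p1, p2⟩ := pmin_bounds (Nn s m) Nn_symm (Finset.subset_univ (RN s m)) hlo0
    (lo := lo) (hi := hi)
    (fun v => by
      rw [sub_quad_form, ← hfull, hlo, inv_mul_le_iff₀ (by positivity)]
      exact Nn_low _)
    (fun v => by
      rw [sub_quad_form, ← hfull]
      exact Nn_up _)
  have hun : pmin (Nn s m) Finset.univ = (Nn s m).det := by
    unfold pmin
    have e := (Equiv.subtypeUnivEquiv (α := XX s m × Fin s)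
      (p := fun a => a ∈ (Finset.univ : Finset (XX s m × Fin s))) Finset.mem_univ)
    exact det_submatrix_equiv_self (Equiv.subtypeUnivEquiv (α := XX s m × Fin s)
      (p := fun a => a ∈ (Finset.univ : Finset (XX s m × Fin s))) Finset.mem_univ) (Nn s m)
  have hLd : 0 < (Lp s m).det := Lp_posDef.det_pos
  rw [hun, det_Nn hs hLd.ne'] at p1 p2
  rw [pmin_RN] at p0 p1 p2
  have hcards : (Finset.univ : Finset (XX s m × Fin s)).card = s * m ^ (s + 1) := by
    rw [Finset.card_univ, Fintype.card_prod, Fintype.card_fun, ZMod.card, Fintype.card_fin,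
      Fintype.card_fin, mul_comm]
  have hle : (RN s m).card ≤ s * m ^ (s + 1) := by
    rw [← hcards]
    exact Finset.card_le_univ _
  rw [hcards] at p1 p2
  set Nc := s * m ^ (s + 1) - (RN s m).card with hNc
  have hNr : (Nc : ℝ) = (s : ℝ) * (m : ℝ) ^ (s + 1) - (rin (s + 1) m).card := by
    rw [hNc, Nat.cast_sub hle, card_RN]
    push_cast
    ring
  have hpow : 0 < (Lp s m).det ^ (s - 1) := pow_pos hLd _
  have l1 := Real.log_le_log (mul_pos (pow_pos hlo0 _) p0) p1
  have l2 := Real.log_le_log hpow p2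
  rw [Real.log_mul (pow_pos hlo0 _).ne' p0.ne', Real.log_pow, Real.log_pow] at l1
  rw [Real.log_mul (pow_pos hhi0 _).ne' p0.ne', Real.log_pow, Real.log_pow] at l2
  rw [Nat.cast_sub hs] at l1 l2
  rw [← hNr]
  have hNc0 : (0 : ℝ) ≤ Nc := Nat.cast_nonneg _
  have hlogs : Real.log ((s : ℝ) + 1) ≤ Real.log (20 * (s + 1) ^ 2) :=
    Real.log_le_log (by positivity) (by nlinarith)
  have b1 : -(C * (1 + Real.log m)) ≤ Real.log lo := by
    rw [hlo, Real.log_inv, Real.log_mul (by positivity) (by positivity), Real.log_pow]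
    push_cast
    rw [hC]
    nlinarith [mul_nonneg hl20 hlm, mul_nonneg hs0 hlm]
  have b2 : Real.log hi ≤ C * (1 + Real.log m) := by
    rw [hhi, Real.log_mul (by positivity) (by positivity), Real.log_pow]
    push_cast
    rw [hC]
    nlinarith [mul_nonneg hl20 hlm, mul_nonneg hs0 hlm]
  have b3 := mul_le_mul_of_nonneg_left b1 hNc0
  have b4 := mul_le_mul_of_nonneg_left b2 hNc0
  push_cast at l1 l2
  rw [abs_le]
  constructor
  · linarith
  · linarith

end Pool.Agent.X217.YM
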