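import Mathlib
import Pool.Agent.X217.YM.Nice2
import Pool.Agent.Results.MP_7f377f_mp.WilsonLoopsWeakCoupling

/-!
# The traces of the powers of the lazy random walk of the box
-/

open Matrix

set_option linter.unusedSectionVars false

namespace Pool.Agent.X217.YM

open Pool.Agent.Results.MP_7f377f_mp.WilsonLoopsWeakCoupling (walk)

section wm

variable {s m : ℕ} [NeZero m]

/-- the transition matrix of the walk in the box -/
noncomputable def Wm (s m : ℕ) [NeZero m] : Matrix (XX s m) (XX s m) ℝ :=
  1 - (1 / (4 * (s + 1) : ℝ)) • Lp s m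

theorem Lp_apply (f : XX s m → ℝ) (x : XX s m) : (Lp s m *ᵥ f) x =
    ∑ k : Fin s, (2 * f x - f (x + Pi.single k.castSucc 1) - f (x - Pi.single k.castSucc 1)) +
      ((f x - if x (Fin.last s) = 0 then 0 else f (x - Pi.single (Fin.last s) 1)) -
      if x (Fin.last s) + 1 = 0 then 0 else (f (x + Pi.single (Fin.last s) 1) - f x)) := by
  rw [Lp, add_mulVec, Pi.add_apply, sum_mulVec, Finset.sum_apply]
  congr 1
  · refine Finset.sum_congr rfl fun k _ => ?_
    rw [← mulVec_mulVec, DsT, sub_mulVec, Pi.sub_apply, one_mulVec, PsT_mulVec, Ds_mulVec,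
      Ds_mulVec, sub_add_cancel]
    ring
  · rw [← mulVec_mulVec, TtT, sub_mulVec, Pi.sub_apply, one_mulVec, RtT_mulVec, Tt_mulVec,
      Tt_mulVec]
    congr 1
    by_cases h : x (Fin.last s) + 1 = 0
    · rw [if_pos h, if_pos h]
    · rw [if_neg h, if_neg h, if_neg (by rw [add_same]; exact h), add_sub_cancel_right]

theorem Wm_apply (f : XX s m → ℝ) (x : XX s m) : (Wm s m *ᵥ f) x =
    f x - 1 / (4 * (s + 1) : ℝ) * (Lp s m *ᵥ f) x := by
  rw [Wm, sub_mulVec, Pi.sub_apply, one_mulVec, smul_mulVec, Pi.smul_apply, smul_eq_mul]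

/-- the walk in the interior -/
theorem Wm_int (f : XX s m → ℝ) (x : XX s m) (h0 : x (Fin.last s) ≠ 0)
    (h1 : x (Fin.last s) + 1 ≠ 0) : (Wm s m *ᵥ f) x =
    1 / 2 * f x + 1 / (4 * (s + 1) : ℝ) *
      ∑ i : Fin (s + 1), (f (x + Pi.single i 1) + f (x - Pi.single i 1)) := by
  rw [Wm_apply, Lp_apply, if_neg h0, if_neg h1, Fin.sum_univ_castSucc]
  simp only [Finset.sum_sub_distrib, Finset.sum_add_distrib, Finset.sum_const, Finset.card_univ,
    Fintype.card_fin, nsmul_eq_mul]
  have : (0 : ℝ) < s + 1 := by positivity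
  field_simp
  ring

/-- the walk preserves the interval -/
theorem Wm_unit {f : XX s m → ℝ} (hf : ∀ x, 0 ≤ f x ∧ f x ≤ 1) (x : XX s m) :
    0 ≤ (Wm s m *ᵥ f) x ∧ (Wm s m *ᵥ f) x ≤ 1 := by
  rw [Wm_apply, Lp_apply]
  simp only [Finset.sum_sub_distrib, Finset.sum_const, Finset.card_univ,
    Fintype.card_fin, nsmul_eq_mul]
  set A := ∑ k : Fin s, f (x + Pi.single k.castSucc 1) with hA
  set B := ∑ k : Fin s, f (x - Pi.single k.castSucc 1) with hB
  have hs : (0 : ℝ) < s + 1 := by positivity
  have hA0 : 0 ≤ A := Finset.sum_nonneg fun k _ => (hf _).1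
  have hB0 : 0 ≤ B := Finset.sum_nonneg fun k _ => (hf _).1
  have hA1 : A ≤ s := by
    calc A ≤ ∑ _k : Fin s, (1 : ℝ) := Finset.sum_le_sum fun k _ => (hf _).2
      _ = s := by simp
  have hB1 : B ≤ s := by
    calc B ≤ ∑ _k : Fin s, (1 : ℝ) := Finset.sum_le_sum fun k _ => (hf _).2
      _ = s := by simp
  obtain ⟨x0, x1⟩ := hf x
  obtain ⟨u0, u1⟩ := hf (x - Pi.single (Fin.last s) 1)
  obtain ⟨v0, v1⟩ := hf (x + Pi.single (Fin.last s) 1)
  have e1 : ∀ y : ℝ, f x - 1 / (4 * (s + 1) : ℝ) * y = (4 * (s + 1) * f x - y) / (4 * (s + 1)) := by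
    intro y
    field_simp
  rw [e1, le_div_iff₀ (by positivity), div_le_iff₀ (by positivity)]
  have hs0 : (0 : ℝ) ≤ s := Nat.cast_nonneg s
  have hsx : 0 ≤ (s : ℝ) * f x := mul_nonneg hs0 x0
  have hsx1 : (s : ℝ) * f x ≤ s := mul_le_of_le_one_right hs0 x1
  split_ifs <;> constructor <;> nlinarith

theorem Wm_pow_unit {f : XX s m → ℝ} (hf : ∀ x, 0 ≤ f x ∧ f x ≤ 1) (k : ℕ) (x : XX s m) :
    0 ≤ (Wm s m ^ k *ᵥ f) x ∧ (Wm s m ^ k *ᵥ f) x ≤ 1 := by
  induction k generalizing x with
  | zero => rw [pow_zero, one_mulVec]; exact hf x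
  | succ k ih =>
    rw [pow_succ', ← mulVec_mulVec]
    exact Wm_unit ih x

end wm

section av

variable {d : ℕ}

/-- the averages of a function on the lattice -/
noncomputable def av (d : ℕ) : ℕ → ((Fin d → ℤ) → ℝ) → (Fin d → ℤ) → ℝ
  | 0, g, z => g z
  | k + 1, g, z => 1 / 2 * av d k g z + 1 / (4 * d : ℝ) *
      ∑ i, (av d k g (z + Pi.single i 1) + av d k g (z - Pi.single i 1))

theorem av_local (k : ℕ) (g g' : (Fin d → ℤ) → ℝ) (z : Fin d → ℤ)
    (h : ∀ y, (∀ i, |y i - z i| ≤ k) → g y = g' y) : av d k g z = av d k g' z := by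
  induction k generalizing z with
  | zero => exact h z fun i => by simp
  | succ k ih =>
    have hs : ∀ (i : Fin d) (w : Fin d → ℤ), (∀ j, |w j - z j| ≤ 1) →
        av d k g w = av d k g' w := by
      intro i w hw
      refine ih w fun y hy => h y fun j => ?_
      have h1 := hy j
      have h2 := hw j
      have h3 : |y j - z j| ≤ |y j - w j| + |w j - z j| := by
        have := abs_add_le (y j - w j) (w j - z j)
        simpa using this
      push_cast
      omega
    have h0 : av d k g z = av d k g' z := by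
      refine ih z fun y hy => h y fun j => ?_
      have h1 := hy j
      push_cast
      omega
    simp only [av, h0]
    congr 2
    refine Finset.sum_congr rfl fun i _ => ?_
    rw [hs i (z + Pi.single i 1), hs i (z - Pi.single i 1)]
    · intro j
      by_cases hj : j = i
      · subst hj; simp
      · simp [Pi.single_eq_of_ne hj]
    · intro j
      by_cases hj : j = i
      · subst hj; simp
      · simp [Pi.single_eq_of_ne hj]

theorem av_delta (k : ℕ) (z₀ z : Fin d → ℤ) :
    av d k (fun y => if y = z₀ then 1 else 0) z = walk d k (z - z₀) := by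
  induction k generalizing z with
  | zero =>
    simp only [av, walk, sub_eq_zero]
  | succ k ih =>
    simp only [av, walk, ih]
    congr 2
    refine Finset.sum_congr rfl fun i _ => ?_
    congr 2 <;> abel

end av

section link

variable {s m : ℕ} [NeZero m]

/-- the projection to the box -/
def prj (m : ℕ) {s : ℕ} (z : Fin (s + 1) → ℤ) : XX s m := fun i => (z i : ZMod m)

theorem prj_add (z : Fin (s + 1) → ℤ) (i : Fin (s + 1)) :
    prj m (z + Pi.single i 1) = prj m z + Pi.single i 1 := by
  funext j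
  by_cases h : j = i
  · subst h; simp [prj]
  · simp [prj, Pi.single_eq_of_ne h]

theorem prj_sub (z : Fin (s + 1) → ℤ) (i : Fin (s + 1)) :
    prj m (z - Pi.single i 1) = prj m z - Pi.single i 1 := by
  funext j
  by_cases h : j = i
  · subst h; simp [prj]
  · simp [prj, Pi.single_eq_of_ne h]

theorem cast_ne {a : ℤ} (h0 : 0 < a) (h1 : a < m) : ((a : ℤ) : ZMod m) ≠ 0 := by
  intro h
  rw [ZMod.intCast_zmod_eq_zero_iff_dvd] at h
  have := Int.le_of_dvd h0 h
  omega

/-- the walk in the box away from the bottom and the top -/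
theorem Wm_av (f : XX s m → ℝ) (k : ℕ) (z : Fin (s + 1) → ℤ) (h0 : (k : ℤ) ≤ z (Fin.last s))
    (h1 : z (Fin.last s) + k + 1 ≤ m) :
    (Wm s m ^ k *ᵥ f) (prj m z) = av (s + 1) k (fun y => f (prj m y)) z := by
  induction k generalizing z with
  | zero => rw [pow_zero, one_mulVec]; rfl
  | succ k ih =>
    push_cast at h0 h1
    rw [pow_succ', ← mulVec_mulVec, Wm_int]
    · simp only [av]
      rw [ih z (by omega) (by omega)]
      push_cast
      congr 2
      refine Finset.sum_congr rfl fun i _ => ?_
      rw [← prj_add, ← prj_sub]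
      have hc1 : (z + Pi.single i 1 : Fin (s + 1) → ℤ) (Fin.last s) ≤ z (Fin.last s) + 1 ∧
          z (Fin.last s) ≤ (z + Pi.single i 1 : Fin (s + 1) → ℤ) (Fin.last s) := by
        by_cases h : Fin.last s = i
        · subst h; simp
        · simp [Pi.single_eq_of_ne h]
      have hc2 : (z - Pi.single i 1 : Fin (s + 1) → ℤ) (Fin.last s) ≤ z (Fin.last s) ∧
          z (Fin.last s) - 1 ≤ (z - Pi.single i 1 : Fin (s + 1) → ℤ) (Fin.last s) := by
        by_cases h : Fin.last s = i
        · subst h; simp
        · simp [Pi.single_eq_of_ne h]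
      rw [ih _ (by omega) (by omega), ih _ (by omega) (by omega)]
    · exact cast_ne (by omega) (by omega)
    · have : prj m z (Fin.last s) + 1 = ((z (Fin.last s) + 1 : ℤ) : ZMod m) := by
        simp [prj]
      rw [this]
      exact cast_ne (by omega) (by omega)

/-- the diagonal entries away from the bottom and the top -/
theorem Wm_diag (k : ℕ) (x : XX s m) (h0 : k ≤ (x (Fin.last s)).val)
    (h1 : (x (Fin.last s)).val + k + 1 ≤ m) : (Wm s m ^ k) x x = walk (s + 1) k 0 := by
  let z : Fin (s + 1) → ℤ := fun i => ((x i).val : ℤ)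
  have hz : prj m z = x := by
    funext i
    simp [prj, z]
  have h2 := Wm_av (Pi.single x 1) k z
    (by show (k : ℤ) ≤ ((x (Fin.last s)).val : ℤ); exact_mod_cast h0)
    (by show ((x (Fin.last s)).val : ℤ) + k + 1 ≤ m; exact_mod_cast h1)
  rw [hz, mulVec_single_one] at h2
  have h3 : (Wm s m ^ k) x x = (Wm s m ^ k).col x x := rfl
  rw [h3, h2]
  have h4 : av (s + 1) k (fun y => (Pi.single x 1 : XX s m → ℝ) (prj m y)) z =
      av (s + 1) k (fun y => if y = z then 1 else 0) z := by
    refine av_local k _ _ z fun y hy => ?_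
    by_cases hyz : y = z
    · subst hyz
      rw [if_pos rfl, hz, Pi.single_eq_same]
    · rw [if_neg hyz, Pi.single_eq_of_ne]
      intro h
      apply hyz
      funext i
      have h5 := congrFun h i
      have h6 : ((y i - z i : ℤ) : ZMod m) = 0 := by
        push_cast
        rw [sub_eq_zero]
        have h7 : ((z i : ℤ) : ZMod m) = x i := congrFun hz i
        rw [h7]
        exact h5
      rw [ZMod.intCast_zmod_eq_zero_iff_dvd] at h6
      have h7 := hy i
      have h8 : (k : ℤ) < m := by
        have : k < m := by omega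
        exact_mod_cast this
      have h9 : y i - z i = 0 := Int.eq_zero_of_abs_lt_dvd h6 (by omega)
      omega
  rw [h4, av_delta, sub_self]

theorem Wm_diag_unit (k : ℕ) (x : XX s m) : 0 ≤ (Wm s m ^ k) x x ∧ (Wm s m ^ k) x x ≤ 1 := by
  have h1 := Wm_pow_unit (s := s) (m := m) (f := Pi.single x 1) (fun y => by
    by_cases h : y = x
    · subst h; simp
    · simp [Pi.single_eq_of_ne h]) k x
  rwa [mulVec_single_one] at h1

theorem walk_unit (d k : ℕ) (z : Fin d → ℤ) : 0 ≤ walk d k z ∧ walk d k z ≤ 1 := by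
  induction k generalizing z with
  | zero => simp only [walk]; split_ifs <;> norm_num
  | succ k ih =>
    simp only [walk]
    have h0 : 0 ≤ ∑ i, (walk d k (z + Pi.single i 1) + walk d k (z - Pi.single i 1)) :=
      Finset.sum_nonneg fun i _ => add_nonneg (ih _).1 (ih _).1
    have h1 : ∑ i, (walk d k (z + Pi.single i 1) + walk d k (z - Pi.single i 1)) ≤ 2 * d := by
      calc _ ≤ ∑ _i : Fin d, (2 : ℝ) := Finset.sum_le_sum fun i _ => by
            have := (ih (z + Pi.single i 1)).2
            have := (ih (z - Pi.single i 1)).2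
            linarith
        _ = _ := by simp [mul_comm]
    obtain ⟨a, b⟩ := ih z
    constructor
    · positivity
    · rcases Nat.eq_zero_or_pos d with hd | hd
      · subst hd
        simp at h1 ⊢
        linarith
      · have hd0 : (0 : ℝ) < d := by exact_mod_cast hd
        have h2 : 1 / (4 * d : ℝ) *
            ∑ i, (walk d k (z + Pi.single i 1) + walk d k (z - Pi.single i 1)) ≤ 1 / 2 := by
          calc _ ≤ 1 / (4 * d : ℝ) * (2 * d) := by gcongr
            _ = _ := by field_simp; norm_num
        linarith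

/-- **the traces of the powers** -/
theorem trace_cmp (k : ℕ) : |(Wm s m ^ k).trace - (m : ℝ) ^ (s + 1) * walk (s + 1) k 0| ≤
    2 * k * (m : ℝ) ^ s := by
  classical
  have h1 : (Wm s m ^ k).trace - (m : ℝ) ^ (s + 1) * walk (s + 1) k 0 =
      ∑ x : XX s m, ((Wm s m ^ k) x x - walk (s + 1) k 0) := by
    rw [Finset.sum_sub_distrib, Finset.sum_const, Finset.card_univ, nsmul_eq_mul,
      Fintype.card_fun, ZMod.card, Fintype.card_fin]
    push_cast
    rfl
  let Bad : Finset (ZMod m) := Finset.univ.filter fun z => ¬ (k ≤ z.val ∧ z.val + k + 1 ≤ m)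
  have hBad : Bad.card ≤ 2 * k := by
    have hsub : Bad ⊆ (Finset.range k).image (fun a => ((a : ℕ) : ZMod m)) ∪
        (Finset.range k).image (fun a => ((m - 1 - a : ℕ) : ZMod m)) := by
      intro z hz
      simp only [Bad, Finset.mem_filter, Finset.mem_univ, true_and] at hz
      rw [Finset.mem_union, Finset.mem_image, Finset.mem_image]
      have hzl := ZMod.val_lt z
      by_cases hk : z.val < k
      · left
        exact ⟨z.val, Finset.mem_range.2 hk, by simp⟩
      · right
        refine ⟨m - 1 - z.val, Finset.mem_range.2 ?_, ?_⟩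
        · by_contra hcon
          exact hz ⟨by omega, by omega⟩
        · have : m - 1 - (m - 1 - z.val) = z.val := by omega
          rw [this]
          simp
    refine (Finset.card_le_card hsub).trans ((Finset.card_union_le _ _).trans ?_)
    have a1 := Finset.card_image_le (s := Finset.range k) (f := fun a => ((a : ℕ) : ZMod m))
    have a2 := Finset.card_image_le (s := Finset.range k)
      (f := fun a => ((m - 1 - a : ℕ) : ZMod m))
    rw [Finset.card_range] at a1 a2
    omega
  rw [h1]
  refine (Finset.abs_sum_le_sum_abs _ _).trans ?_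
  calc ∑ x : XX s m, |(Wm s m ^ k) x x - walk (s + 1) k 0| ≤
        ∑ x : XX s m, (if x (Fin.last s) ∈ Bad then (1 : ℝ) else 0) := by
        refine Finset.sum_le_sum fun x _ => ?_
        split_ifs with hx
        · obtain ⟨a, b⟩ := Wm_diag_unit k x
          obtain ⟨c, e⟩ := walk_unit (s + 1) k 0
          rw [abs_le]
          constructor <;> linarith
        · simp only [Bad, Finset.mem_filter, Finset.mem_univ, true_and, not_not] at hx
          rw [Wm_diag k x hx.1 hx.2, sub_self, abs_zero]
    _ = ((Finset.univ.filter fun x : XX s m => x (Fin.last s) ∈ Bad).card : ℝ) := by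
        rw [Finset.sum_ite, Finset.sum_const_zero, add_zero, Finset.sum_const, nsmul_eq_mul,
          mul_one]
    _ = (Bad.card : ℝ) * (m : ℝ) ^ s := by
        rw [card_one_coord]
        push_cast
        simp
    _ ≤ _ := by
        have : (Bad.card : ℝ) ≤ 2 * k := by exact_mod_cast hBad
        gcongr

end link

end Pool.Agent.X217.YM
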