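import Mathlib
import Pool.Agent.X217.YM.Heat
import Pool.Agent.X217.YM.Green

/-!
# The determinant of the Laplacian of the box
-/

open Matrix Filter
open scoped Topology

set_option linter.unusedSectionVars false

namespace Pool.Agent.X217.YM

open Pool.Agent.Results.MP_7f377f_mp.WilsonLoopsWeakCoupling (walk)

section spec

variable {ι : Type*} [Fintype ι] [DecidableEq ι]

theorem spec_trace {S : Matrix ι ι ℝ} (hS : S.IsHermitian) (c : ℝ) (k : ℕ) :
    ((1 - c • S) ^ k).trace = ∑ i, (1 - c * hS.eigenvalues i) ^ k := by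
  have h1 := hS.spectral_theorem
  set U := hS.eigenvectorUnitary with hU
  set D : Matrix ι ι ℝ := diagonal (RCLike.ofReal ∘ hS.eigenvalues) with hD
  have h2 : (1 - c • S) ^ k = Unitary.conjStarAlgAut ℝ _ U ((1 - c • D) ^ k) := by
    rw [map_pow, map_sub, map_one, map_smul, ← h1]
  have h3 : (1 - c • D) ^ k = diagonal fun i => (1 - c * hS.eigenvalues i) ^ k := by
    have : (1 - c • D) = diagonal fun i => (1 - c * hS.eigenvalues i) := by
      rw [hD, ← diagonal_one, ← diagonal_smul, diagonal_sub]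
      congr 1
    rw [this, diagonal_pow]
    rfl
  rw [h2, Unitary.conjStarAlgAut_apply, trace_mul_comm, ← mul_assoc,
    Unitary.coe_star_mul_self, one_mul, h3, trace_diagonal]

theorem spec_logdet {S : Matrix ι ι ℝ} (hS : S.IsHermitian) {c : ℝ} (hc : 0 < c)
    (h0 : ∀ i, 0 < hS.eigenvalues i) (h1 : ∀ i, c * hS.eigenvalues i ≤ 1) :
    HasSum (fun k : ℕ => ((1 - c • S) ^ (k + 1)).trace / (k + 1))
      (-((Fintype.card ι : ℝ) * Real.log c) - Real.log S.det) := by
  have h2 : ∀ i, HasSum (fun k : ℕ => (1 - c * hS.eigenvalues i) ^ (k + 1) / (k + 1))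
      (-Real.log (c * hS.eigenvalues i)) := by
    intro i
    have h3 : |1 - c * hS.eigenvalues i| < 1 := by
      have := mul_pos hc (h0 i)
      rw [abs_lt]
      constructor
      · linarith [h1 i]
      · linarith
    have := Real.hasSum_pow_div_log_of_abs_lt_one h3
    rwa [sub_sub_cancel] at this
  have h4 := hasSum_sum fun (i : ι) (_ : i ∈ Finset.univ) => h2 i
  have h5 : ∑ i, -Real.log (c * hS.eigenvalues i) =
      -((Fintype.card ι : ℝ) * Real.log c) - Real.log S.det := by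
    have h6 : S.det = ∏ i, hS.eigenvalues i := hS.det_eq_prod_eigenvalues
    rw [h6, Real.log_prod fun i _ => (h0 i).ne']
    simp_rw [Real.log_mul hc.ne' (h0 _).ne']
    rw [Finset.sum_neg_distrib, Finset.sum_add_distrib, Finset.sum_const, Finset.card_univ,
      nsmul_eq_mul]
    ring
  rw [h5] at h4
  convert h4 using 2 with k
  rw [spec_trace hS, Finset.sum_div]

end spec

section ak

variable {s m : ℕ} [NeZero m]

theorem Lp_herm : (Lp s m).IsHermitian := (Lp_posDef (s := s) (m := m)).1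

/-- the bounds of the eigenvalues of the walk -/
theorem w_bounds (i : XX s m) :
    0 < (Lp_herm (s := s) (m := m)).eigenvalues i ∧
    0 ≤ 1 - (1 / (4 * (s + 1) : ℝ)) * (Lp_herm (s := s) (m := m)).eigenvalues i ∧
    1 - (1 / (4 * (s + 1) : ℝ)) * (Lp_herm (s := s) (m := m)).eigenvalues i ≤
      1 - 1 / (4 * (s + 1) * (m : ℝ) ^ (s + 3)) := by
  have hm : (0 : ℝ) < m := by
    have := NeZero.pos m
    exact_mod_cast this
  obtain ⟨h1, h2⟩ := eig_bounds (Lp_herm (s := s) (m := m)) (lo := 1 / (m : ℝ) ^ (s + 3))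
    (hi := 4 * (s + 1)) (fun v => by
      rw [one_div_mul_eq_div, div_le_iff₀ (by positivity), mul_comm]
      exact Lp_low v) (fun v => Lp_up v) i
  refine ⟨lt_of_lt_of_le (by positivity) h1, ?_, ?_⟩
  · rw [one_div_mul_eq_div, sub_nonneg, div_le_one (by positivity)]
    exact h2
  · have : 1 / (4 * (s + 1) * (m : ℝ) ^ (s + 3)) = 1 / (4 * (s + 1) : ℝ) *
        (1 / (m : ℝ) ^ (s + 3)) := by
      rw [one_div_mul_one_div]
    rw [this]
    have := mul_le_mul_of_nonneg_left h1 (by positivity : (0 : ℝ) ≤ 1 / (4 * (s + 1) : ℝ))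
    linarith

/-- the normalized traces -/
noncomputable def ak (s m : ℕ) [NeZero m] (k : ℕ) : ℝ := (Wm s m ^ k).trace / (m : ℝ) ^ (s + 1)

theorem ak_eq (k : ℕ) : ak s m k =
    (∑ i, (1 - (1 / (4 * (s + 1) : ℝ)) * (Lp_herm (s := s) (m := m)).eigenvalues i) ^ k) /
      (m : ℝ) ^ (s + 1) := by
  rw [ak, Wm, spec_trace Lp_herm]

theorem card_XX : (Fintype.card (XX s m) : ℝ) = (m : ℝ) ^ (s + 1) := by
  rw [Fintype.card_fun, ZMod.card, Fintype.card_fin]
  push_cast
  rfl

theorem ak_nonneg (k : ℕ) : 0 ≤ ak s m k := by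
  rw [ak_eq]
  have : 0 ≤ ∑ i, (1 - (1 / (4 * (s + 1) : ℝ)) *
      (Lp_herm (s := s) (m := m)).eigenvalues i) ^ k :=
    Finset.sum_nonneg fun i _ => pow_nonneg (w_bounds i).2.1 k
  positivity

theorem ak_anti : Antitone (ak s m) := by
  intro j k hjk
  rw [ak_eq, ak_eq]
  refine div_le_div_of_nonneg_right (Finset.sum_le_sum fun i _ => ?_) (by positivity)
  have h := w_bounds i
  refine pow_le_pow_of_le_one h.2.1 ?_ hjk
  refine h.2.2.trans ?_
  have : (0 : ℝ) ≤ 1 / (4 * (s + 1) * (m : ℝ) ^ (s + 3)) := by positivity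
  linarith

theorem pow_small {w δ : ℝ} (h0 : 0 ≤ w) (hδ : 0 < δ) (h1 : w ≤ 1 - δ) {k : ℕ} (hk : 0 < k) :
    w ^ k ≤ 1 / (k * δ) := by
  have hk0 : (0 : ℝ) < k := by exact_mod_cast hk
  rw [le_div_iff₀ (by positivity)]
  have h2 : w * (1 + δ) ≤ 1 := by nlinarith
  have h3 : 1 + k * δ ≤ (1 + δ) ^ k := one_add_mul_le_pow (by linarith) k
  calc w ^ k * (k * δ) ≤ w ^ k * (1 + δ) ^ k := by
        refine mul_le_mul_of_nonneg_left ?_ (by positivity)
        linarith
    _ = (w * (1 + δ)) ^ k := by rw [mul_pow]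
    _ ≤ 1 := pow_le_one₀ (by positivity) h2

theorem ak_small {k : ℕ} (hk : 0 < k) : ak s m k ≤ 4 * (s + 1) * (m : ℝ) ^ (s + 3) / k := by
  have hm : (0 : ℝ) < m := by
    have := NeZero.pos m
    exact_mod_cast this
  have hk0 : (0 : ℝ) < k := by exact_mod_cast hk
  rw [ak_eq, div_le_iff₀ (by positivity)]
  calc _ ≤ ∑ _i : XX s m, (4 * (s + 1) * (m : ℝ) ^ (s + 3) / k) := by
        refine Finset.sum_le_sum fun i _ => ?_
        have h := w_bounds i
        refine (pow_small h.2.1 (by positivity) h.2.2 hk).trans (le_of_eq ?_)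
        field_simp
    _ = _ := by
        rw [Finset.sum_const, Finset.card_univ, nsmul_eq_mul, card_XX, mul_comm]

theorem ak_cmp (k : ℕ) : |ak s m k - walk (s + 1) k 0| ≤ 2 * k / m := by
  have hm : (0 : ℝ) < m := by
    have := NeZero.pos m
    exact_mod_cast this
  have h := trace_cmp (s := s) (m := m) k
  have e : ak s m k - walk (s + 1) k 0 =
      ((Wm s m ^ k).trace - (m : ℝ) ^ (s + 1) * walk (s + 1) k 0) / (m : ℝ) ^ (s + 1) := by
    rw [ak]
    field_simp
  rw [e, abs_div, abs_of_pos (by positivity : (0 : ℝ) < (m : ℝ) ^ (s + 1)),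
    div_le_iff₀ (by positivity)]
  refine h.trans (le_of_eq ?_)
  rw [pow_succ]
  field_simp

end ak

section pk

variable {s : ℕ}

theorem ak_tendsto (k : ℕ) : Tendsto (fun m : ℕ => ak s (m + 1) k) atTop
    (𝓝 (walk (s + 1) k 0)) := by
  have h1 : Tendsto (fun m : ℕ => 2 * (k : ℝ) / ((m + 1 : ℕ) : ℝ)) atTop (𝓝 0) := by
    have := (tendsto_const_div_atTop_nhds_zero_nat (2 * (k : ℝ)))
    exact (tendsto_add_atTop_iff_nat 1).2 this
  have h2 : Tendsto (fun m : ℕ => ak s (m + 1) k - walk (s + 1) k 0) atTop (𝓝 0) :=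
    squeeze_zero_norm (fun m => ak_cmp (s := s) (m := m + 1) k) h1
  have := h2.add_const (walk (s + 1) k 0)
  simpa using this

theorem pk_anti : Antitone fun k => walk (s + 1) k 0 := by
  intro j k hjk
  exact le_of_tendsto_of_tendsto (ak_tendsto k) (ak_tendsto j)
    (Filter.Eventually.of_forall fun m => ak_anti (s := s) (m := m + 1) hjk)

theorem pk_summable (hs : 2 ≤ s) : Summable fun k => walk (s + 1) k 0 := by
  obtain ⟨C, -, h, -⟩ := Pool.Agent.W793.SCH.a_TR (s + 1) (by omega)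
  have := h 0
  simpa only [← Pool.Agent.Results.MP_7f377f_mp.WilsonLoopsWeakCoupling.walk_eq] using this

theorem pk_bound (hs : 2 ≤ s) (k : ℕ) :
    (k + 1) * walk (s + 1) k 0 ≤ ∑' k, walk (s + 1) k 0 := by
  have h1 : ∑ j ∈ Finset.range (k + 1), walk (s + 1) j 0 ≤ ∑' k, walk (s + 1) k 0 :=
    (pk_summable hs).sum_le_tsum _ fun i _ => (walk_unit _ _ _).1
  refine le_trans ?_ h1
  calc ((k : ℝ) + 1) * walk (s + 1) k 0 = ∑ _j ∈ Finset.range (k + 1), walk (s + 1) k 0 := by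
        simp
    _ ≤ _ := Finset.sum_le_sum fun j hj => pk_anti (by
        have := Finset.mem_range.1 hj
        omega)

/-- **the domination** -/
theorem ak_dom (hs : 2 ≤ s) : ∃ C : ℝ, 0 ≤ C ∧ ∀ (m : ℕ) [NeZero m] (k : ℕ), 0 < k →
    ak s m k ≤ C / (k : ℝ) ^ (1 / (2 * (s + 4) : ℝ)) := by
  set S := ∑' k, walk (s + 1) k 0 with hS
  have hS0 : 0 ≤ S := tsum_nonneg fun k => (walk_unit _ _ _).1
  refine ⟨2 * (S + 2) + 4 * (s + 1), by positivity, fun m _ k hk => ?_⟩
  have hk0 : (0 : ℝ) < k := by exact_mod_cast hk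
  have hk1 : (1 : ℝ) ≤ k := by exact_mod_cast hk
  have hm : 0 < m := NeZero.pos m
  have hm0 : (0 : ℝ) < m := by exact_mod_cast hm
  set x : ℝ := (k : ℝ) ^ (1 / (2 * (s + 4) : ℝ)) with hx
  have hx1 : 1 ≤ x := Real.one_le_rpow hk1 (by positivity)
  have hx0 : 0 < x := by linarith
  have hxk : (x ^ 2) ^ (s + 4) = k := by
    rw [← pow_mul, hx, ← Real.rpow_natCast, ← Real.rpow_mul hk0.le]
    have : (1 / (2 * (s + 4) : ℝ)) * ((2 * (s + 4) : ℕ) : ℝ) = 1 := by
      push_cast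
      field_simp
    rw [this, Real.rpow_one]
  have hxle : x ≤ k := by
    rw [← hxk, ← pow_mul]
    exact le_self_pow₀ hx1 (by omega)
  -- the small times
  have key : ∀ j : ℕ, 0 < j → j * j ≤ m → ak s m j ≤ (S + 2) / j := by
    intro j hj hjm
    have hj0 : (0 : ℝ) < j := by exact_mod_cast hj
    have h1 := abs_le.1 (ak_cmp (s := s) (m := m) j)
    have h2 : (j : ℝ) * walk (s + 1) j 0 ≤ S := by
      refine le_trans ?_ (pk_bound hs j)
      have := (walk_unit (s + 1) j 0).1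
      nlinarith
    have h3 : walk (s + 1) j 0 ≤ S / j := by
      rw [le_div_iff₀ hj0, mul_comm]
      exact h2
    have h4 : 2 * (j : ℝ) / m ≤ 2 / j := by
      rw [div_le_div_iff₀ hm0 hj0]
      have : (j : ℝ) * j ≤ m := by exact_mod_cast hjm
      linarith
    rw [add_div]
    linarith [h1.2]
  rcases le_or_gt (k * k) m with h1 | h1
  · refine (key k hk h1).trans ?_
    rw [div_le_div_iff₀ hk0 hx0]
    have : (0 : ℝ) ≤ 4 * (s + 1) := by positivity
    nlinarith [mul_le_mul_of_nonneg_left hxle (by linarith : 0 ≤ S + 2),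
      mul_nonneg this hk0.le, mul_nonneg (by linarith : 0 ≤ S + 2) hk0.le]
  rcases le_or_gt k (m ^ (s + 4)) with h2 | h2
  · set j := Nat.sqrt m with hj
    have hj1 : j * j ≤ m := Nat.sqrt_le m
    have hj2 : m < (j + 1) * (j + 1) := Nat.lt_succ_sqrt m
    have hj0 : 0 < j := Nat.sqrt_pos.2 hm
    have hjk : j ≤ k := by
      by_contra hcon
      push Not at hcon
      have := Nat.mul_self_lt_mul_self hcon
      omega
    refine (ak_anti hjk).trans ((key j hj0 hj1).trans ?_)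
    have h3 : x ^ 2 ≤ m := by
      have : (x ^ 2) ^ (s + 4) ≤ (m : ℝ) ^ (s + 4) := by
        rw [hxk]
        exact_mod_cast h2
      exact (pow_le_pow_iff_left₀ (by positivity) hm0.le (by omega)).1 this
    have hj0' : (0 : ℝ) < j := by exact_mod_cast hj0
    have h4 : x ≤ 2 * j := by
      have h5 : (m : ℝ) < (j + 1) * (j + 1) := by exact_mod_cast hj2
      have h6 : x < j + 1 := by
        by_contra hcon
        push Not at hcon
        nlinarith
      have h7 : (1 : ℝ) ≤ j := by exact_mod_cast hj0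
      linarith
    rw [div_le_div_iff₀ hj0' hx0]
    have : (0 : ℝ) ≤ 4 * (s + 1) := by positivity
    nlinarith [mul_le_mul_of_nonneg_left h4 (by linarith : 0 ≤ S + 2),
      mul_nonneg this hj0'.le]
  · refine (ak_small hk).trans ?_
    have h3 : (m : ℝ) ≤ x ^ 2 := by
      have : (m : ℝ) ^ (s + 4) ≤ (x ^ 2) ^ (s + 4) := by
        rw [hxk]
        exact_mod_cast h2.le
      exact (pow_le_pow_iff_left₀ hm0.le (by positivity) (by omega)).1 this
    have h4 : (m : ℝ) ^ (s + 3) ≤ (x ^ 2) ^ (s + 3) := pow_le_pow_left₀ hm0.le h3 _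
    rw [div_le_div_iff₀ hk0 hx0, ← hxk]
    have h5 : (x ^ 2) ^ (s + 4) = (x ^ 2) ^ (s + 3) * x ^ 2 := pow_succ _ _
    rw [h5]
    have h6 : (0 : ℝ) < (x ^ 2) ^ (s + 3) := by positivity
    calc 4 * ((s : ℝ) + 1) * (m : ℝ) ^ (s + 3) * x ≤ 4 * (s + 1) * (x ^ 2) ^ (s + 3) * x := by
          gcongr
      _ ≤ 4 * (s + 1) * (x ^ 2) ^ (s + 3) * x ^ 2 := by
          gcongr
          nlinarith
      _ ≤ _ := by
          have : 0 ≤ 2 * (S + 2) * ((x ^ 2) ^ (s + 3) * x ^ 2) := by positivity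
          nlinarith

/-- **the determinant** -/
theorem logdet_lim (hs : 2 ≤ s) :
    Tendsto (fun m : ℕ => Real.log (Lp s (m + 1)).det / ((m + 1 : ℕ) : ℝ) ^ (s + 1)) atTop
      (𝓝 (Real.log (4 * (s + 1)) - ∑' k : ℕ, walk (s + 1) (k + 1) 0 / (k + 1))) := by
  obtain ⟨C, hC0, hC⟩ := ak_dom hs
  set γ : ℝ := 1 / (2 * (s + 4) : ℝ) with hγ
  have hγ0 : 0 < γ := by positivity
  have hsum : Summable fun k : ℕ => C / (((k + 1 : ℕ) : ℝ) ^ γ) / ((k + 1 : ℕ) : ℝ) := by
    have h1 : Summable fun k : ℕ => 1 / (k : ℝ) ^ (γ + 1) :=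
      Real.summable_one_div_nat_rpow.2 (by linarith)
    have h2 := ((summable_nat_add_iff 1).2 h1).mul_left C
    refine h2.congr fun k => ?_
    have : (0 : ℝ) < ((k + 1 : ℕ) : ℝ) := by positivity
    rw [Real.rpow_add this, Real.rpow_one]
    field_simp
  have h1 : Tendsto (fun m : ℕ => ∑' k : ℕ, ak s (m + 1) (k + 1) / (k + 1)) atTop
      (𝓝 (∑' k : ℕ, walk (s + 1) (k + 1) 0 / (k + 1))) := by
    refine tendsto_tsum_of_dominated_convergence hsum (fun k => ?_) ?_
    · exact (ak_tendsto (k + 1)).div_const _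
    · refine Filter.Eventually.of_forall fun m k => ?_
      have h2 := hC (m + 1) (k + 1) (Nat.succ_pos k)
      have h3 := ak_nonneg (s := s) (m := m + 1) (k + 1)
      rw [Real.norm_eq_abs, abs_of_nonneg (by positivity)]
      push_cast at h2 ⊢
      gcongr
  have h2 : ∀ m : ℕ, Real.log (Lp s (m + 1)).det / ((m + 1 : ℕ) : ℝ) ^ (s + 1) =
      Real.log (4 * (s + 1)) - ∑' k : ℕ, ak s (m + 1) (k + 1) / (k + 1) := by
    intro m
    have h3 := spec_logdet (Lp_herm (s := s) (m := m + 1)) (c := 1 / (4 * (s + 1) : ℝ))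
      (by positivity) (fun i => (w_bounds i).1) (fun i => by linarith [(w_bounds i).2.1])
    have hm : (0 : ℝ) < ((m + 1 : ℕ) : ℝ) ^ (s + 1) := by positivity
    have h4 := (h3.div_const (((m + 1 : ℕ) : ℝ) ^ (s + 1))).tsum_eq
    have h5 : ∑' k : ℕ, ak s (m + 1) (k + 1) / (k + 1) = ∑' k : ℕ,
        ((1 - (1 / (4 * (s + 1) : ℝ)) • Lp s (m + 1)) ^ (k + 1)).trace / (k + 1) /
          ((m + 1 : ℕ) : ℝ) ^ (s + 1) := by
      refine tsum_congr fun k => ?_
      rw [ak, Wm, div_right_comm]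
    rw [h5, h4, card_XX, one_div, Real.log_inv]
    field_simp
    ring
  simp_rw [h2]
  exact h1.const_sub _

end pk

end Pool.Agent.X217.YM
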