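import Mathlib
import Pool.Agent.X217.YM.Sand
import Pool.Agent.X217.YM.Heat2

/-!
# The value of the constant
-/

open MeasureTheory Matrix Filter Metric
open scoped Matrix.Norms.Frobenius Topology ENNReal

set_option linter.unusedSectionVars false

namespace Pool.Agent.X217.YM

open Pool.Agent.H906R3.YM Pool.Agent.TH369.WL Pool.Agent.W793.YM
open Pool.Agent.Results.MP_7f377f_mp.WilsonLoopsWeakCoupling (walk)

/-- the number of the frozen links -/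
theorem phi_le {s m : ℕ} [NeZero m] :
    ((s : ℝ) * (m : ℝ) ^ (s + 1) - (rin (s + 1) m).card) / (m : ℝ) ^ (s + 1) ≤
      2 * s * (s + 1) / m := by
  have hm := NeZero.pos m
  have hm0 : (0 : ℝ) < m := by exact_mod_cast hm
  have hmd : (0 : ℝ) < (m : ℝ) ^ (s + 1) := pow_pos hm0 _
  have hs0 : (0 : ℝ) ≤ s := Nat.cast_nonneg s
  rcases Nat.lt_or_ge m 2 with h | h
  · have h1 : m = 1 := by omega
    subst h1
    have : (0 : ℝ) ≤ ((rin (s + 1) 1).card : ℝ) := Nat.cast_nonneg _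
    simp only [Nat.cast_one, one_pow, mul_one, div_one]
    nlinarith
  · have h1 := card_rin (d := s + 1) (m := m) (Nat.succ_pos s)
    have h2 : (s : ℝ) * ((m : ℝ) - 2) ^ (s + 1) ≤ (rin (s + 1) m).card := by
      have h3 : (((s + 1 - 1) * (m - 2) ^ (s + 1) : ℕ) : ℝ) ≤ ((rin (s + 1) m).card : ℝ) := by
        exact_mod_cast h1
      rw [Nat.add_sub_cancel] at h3
      push_cast [Nat.cast_sub h] at h3
      exact h3
    have h4 : 1 + ((s + 1 : ℕ) : ℝ) * (-(2 / m)) ≤ (1 + -(2 / (m : ℝ))) ^ (s + 1) := by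
      refine one_add_mul_le_pow ?_ _
      have h5 : (2 : ℝ) ≤ m := by exact_mod_cast h
      have : 2 / (m : ℝ) ≤ 1 := by
        rw [div_le_one hm0]
        exact h5
      linarith
    have h5 : ((m : ℝ) - 2) ^ (s + 1) = (1 + -(2 / (m : ℝ))) ^ (s + 1) * (m : ℝ) ^ (s + 1) := by
      rw [← mul_pow]
      congr 1
      field_simp
      ring
    rw [div_le_iff₀ hmd]
    rw [h5] at h2
    have h6 : (1 + ((s + 1 : ℕ) : ℝ) * (-(2 / m))) * (m : ℝ) ^ (s + 1) ≤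
        (1 + -(2 / (m : ℝ))) ^ (s + 1) * (m : ℝ) ^ (s + 1) :=
      mul_le_mul_of_nonneg_right h4 hmd.le
    have h7 := mul_le_mul_of_nonneg_left h6 hs0
    push_cast at h7
    have h8 : 2 * (s : ℝ) * (s + 1) / m * (m : ℝ) ^ (s + 1) =
        (s : ℝ) * ((m : ℝ) ^ (s + 1) - (1 + ((s : ℝ) + 1) * (-(2 / m))) * (m : ℝ) ^ (s + 1)) := by
      field_simp
      ring
    rw [h8]
    linarith

theorem phi_nonneg {s m : ℕ} [NeZero m] :
    0 ≤ ((s : ℝ) * (m : ℝ) ^ (s + 1) - (rin (s + 1) m).card) := by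
  have h1 := card_rin_le (d := s + 1) (m := m) (Nat.succ_pos s)
  rw [Nat.add_sub_cancel] at h1
  have h2 : ((rin (s + 1) m).card : ℝ) ≤ ((s * m ^ (s + 1) : ℕ) : ℝ) := by exact_mod_cast h1
  push_cast at h2
  linarith

theorem log_div_lim (A B : ℝ) :
    Tendsto (fun m : ℕ => (A + B * Real.log ((m + 1 : ℕ) : ℝ)) / ((m + 1 : ℕ) : ℝ)) atTop
      (𝓝 0) := by
  have h0 : Tendsto (fun m : ℕ => ((m + 1 : ℕ) : ℝ)) atTop atTop :=
    tendsto_natCast_atTop_atTop.comp (tendsto_add_atTop_nat 1)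
  have h1 : Tendsto (fun m : ℕ => Real.log ((m + 1 : ℕ) : ℝ) / ((m + 1 : ℕ) : ℝ)) atTop (𝓝 0) :=
    (Real.isLittleO_log_id_atTop.tendsto_div_nhds_zero).comp h0
  have h2 : Tendsto (fun m : ℕ => A / ((m + 1 : ℕ) : ℝ)) atTop (𝓝 0) :=
    h0.const_div_atTop A
  have h3 := h2.add (h1.const_mul B)
  rw [mul_zero, add_zero] at h3
  refine h3.congr fun m => ?_
  ring

/-- the limit of the minors -/
theorem rin_lim {s : ℕ} (hs : 2 ≤ s) :
    Tendsto (fun m : ℕ => Real.log (pmin (MQ (s + 1) (m + 1)) (rin (s + 1) (m + 1))) /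
      ((m + 1 : ℕ) : ℝ) ^ (s + 1)) atTop
      (𝓝 ((s - 1) * (Real.log (4 * (s + 1)) - ∑' k : ℕ, walk (s + 1) (k + 1) 0 / (k + 1)))) := by
  obtain ⟨C, hC0, hC⟩ := nice_cmp (s := s) (by omega)
  have h1 := (logdet_lim hs).const_mul ((s : ℝ) - 1)
  have h2 : Tendsto (fun m : ℕ =>
      Real.log (pmin (MQ (s + 1) (m + 1)) (rin (s + 1) (m + 1))) / ((m + 1 : ℕ) : ℝ) ^ (s + 1) -
      (s - 1) * (Real.log (Lp s (m + 1)).det / ((m + 1 : ℕ) : ℝ) ^ (s + 1))) atTop (𝓝 0) := by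
    refine squeeze_zero_norm (a := fun m : ℕ => (2 * s * (s + 1) * C +
      2 * s * (s + 1) * C * Real.log ((m + 1 : ℕ) : ℝ)) / ((m + 1 : ℕ) : ℝ)) (fun m => ?_)
      (log_div_lim _ _)
    have hmd : (0 : ℝ) < ((m + 1 : ℕ) : ℝ) ^ (s + 1) := by positivity
    have hlog : 0 ≤ Real.log ((m + 1 : ℕ) : ℝ) := Real.log_natCast_nonneg _
    have h3 := hC (m + 1)
    have e : Real.log (pmin (MQ (s + 1) (m + 1)) (rin (s + 1) (m + 1))) /
        ((m + 1 : ℕ) : ℝ) ^ (s + 1) -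
        (s - 1) * (Real.log (Lp s (m + 1)).det / ((m + 1 : ℕ) : ℝ) ^ (s + 1)) =
        (Real.log (pmin (MQ (s + 1) (m + 1)) (rin (s + 1) (m + 1))) -
        (s - 1) * Real.log (Lp s (m + 1)).det) / ((m + 1 : ℕ) : ℝ) ^ (s + 1) := by
      ring
    rw [e, Real.norm_eq_abs, abs_div, abs_of_pos hmd]
    calc _ ≤ ((s : ℝ) * ((m + 1 : ℕ) : ℝ) ^ (s + 1) - (rin (s + 1) (m + 1)).card) *
          (C * (1 + Real.log ((m + 1 : ℕ) : ℝ))) / ((m + 1 : ℕ) : ℝ) ^ (s + 1) := by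
          gcongr
      _ = ((s : ℝ) * ((m + 1 : ℕ) : ℝ) ^ (s + 1) - (rin (s + 1) (m + 1)).card) /
          ((m + 1 : ℕ) : ℝ) ^ (s + 1) * (C * (1 + Real.log ((m + 1 : ℕ) : ℝ))) := by ring
      _ ≤ 2 * s * (s + 1) / ((m + 1 : ℕ) : ℝ) * (C * (1 + Real.log ((m + 1 : ℕ) : ℝ))) :=
          mul_le_mul_of_nonneg_right phi_le (by positivity)
      _ = _ := by ring
  have h3 := h2.add h1
  rw [zero_add] at h3
  refine h3.congr fun m => ?_
  ring

variable {N n s : ℕ} {G : Subgroup (UN N)}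
variable [MeasurableSpace G] [BorelSpace G] (μ : Measure G) [IsProbabilityMeasure μ]

/-- **the value of the constant** -/
theorem const_value [SecondCountableTopology G] [μ.IsMulLeftInvariant] [μ.IsMulRightInvariant]
    (hs : 2 ≤ s) (hG : IsClosed (G : Set (UN N))) (B : Frame G n) {ρ : ℝ} (hρ : 0 < ρ)
    (hdens : ∀ ε : ℝ, 0 < ε → ∃ r₀ : ℝ, 0 < r₀ ∧ ∀ r : ℝ, 0 < r → r ≤ r₀ →
      (μ.restrict {g | Dg g < r}).map (co B) ≤ ENNReal.ofReal (ρ * (1 + ε)) • volume ∧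
      ENNReal.ofReal (ρ * (1 - ε)) • volume.restrict (ball 0 (r / 2)) ≤
        (μ.restrict {g | Dg g < r}).map (co B)) {M : ℝ} (hM : 0 ≤ M)
    (hwM : ∀ a b c e : G, wl a b c e ≤ M) {P : ℝ → ℝ} {c : ℝ}
    (hPb : ∀ β : ℝ, 0 ≤ β → ∀ (l : ℕ) [NeZero l],
      |Pb μ wl (s + 1) l β - P β| ≤ β * M * ((s + 1 : ℕ) : ℝ) ^ 3 / l)
    (hPt : ∀ β : ℝ, 0 ≤ β → ∀ (l : ℕ) [NeZero l],
      |Pt μ wl (s + 1) l β - P β| ≤ 6 * (β * M * ((s + 1 : ℕ) : ℝ) ^ 3) / Real.sqrt l)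
    (hc : Tendsto (fun β => P β + (((s + 1 : ℕ) : ℝ) - 1) * (n / 2) * Real.log β) atTop (𝓝 c)) :
    c = s * (Real.log ρ + n / 2 * Real.log (2 * Real.pi)) - n / 2 * ((s - 1) *
      (Real.log (4 * (s + 1)) - ∑' k : ℕ, walk (s + 1) (k + 1) 0 / (k + 1))) := by
  set c₁ := Real.log ρ + n / 2 * Real.log (2 * Real.pi) with hc₁
  set z := Real.log (4 * ((s : ℝ) + 1)) - ∑' k : ℕ, walk (s + 1) (k + 1) 0 / (k + 1) with hz
  have ha := rin_lim hs
  rw [← hz] at ha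
  have hn0 : (0 : ℝ) ≤ n / 2 := by positivity
  have hsd : ((s + 1 : ℕ) : ℝ) - 1 = s := by push_cast; ring
  apply le_antisymm
  · -- the upper bound
    have hlim : Tendsto (fun m : ℕ => s * c₁ - n / 2 *
        (Real.log (pmin (MQ (s + 1) (m + 1)) (rin (s + 1) (m + 1))) /
          ((m + 1 : ℕ) : ℝ) ^ (s + 1)) +
        (n / 2 * (2 * s * (s + 1)) * Real.log (2 * ((s + 1 : ℕ) : ℝ) ^ 3) +
          n / 2 * (2 * s * (s + 1)) * (s + 3) * Real.log ((m + 1 : ℕ) : ℝ)) /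
          ((m + 1 : ℕ) : ℝ)) atTop (𝓝 (s * c₁ - n / 2 * ((s - 1) * z) + 0)) :=
      ((ha.const_mul (n / 2 : ℝ)).const_sub _).add (log_div_lim _ _)
    rw [add_zero] at hlim
    refine ge_of_tendsto' hlim fun m => ?_
    have h1 := const_upper (d := s + 1) (m := m + 1) μ (by omega) hG B hρ hdens hM hwM hPb hc
    rw [hsd, ← hc₁] at h1
    have hM0 : (0 : ℝ) < ((m + 1 : ℕ) : ℝ) := by positivity
    have hM1 : (1 : ℝ) ≤ ((m + 1 : ℕ) : ℝ) := by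
      push_cast
      have : (0 : ℝ) ≤ m := Nat.cast_nonneg m
      linarith
    have hD : (0 : ℝ) < 2 * ((s + 1 : ℕ) : ℝ) ^ 3 * ((m + 1 : ℕ) : ℝ) ^ (s + 1 + 2) := by
      positivity
    obtain ⟨hp, hlo, -⟩ := pmin_bounds (MQ (s + 1) (m + 1)) MQ_symm
      (rin_sub (d := s + 1) (m := m + 1)) (lo := 1 / (2 * ((s + 1 : ℕ) : ℝ) ^ 3 *
        ((m + 1 : ℕ) : ℝ) ^ (s + 1 + 2))) (hi := 16 * ((s + 1 : ℕ) : ℝ) ^ 2 *
        ((m + 1 : ℕ) : ℝ) ^ (s + 1)) (by positivity) (fun v => by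
          rw [one_div_mul_eq_div, div_le_iff₀ hD, mul_comm]
          exact MR_low (Finset.Subset.refl _) v) (fun v => MR_up _ v)
    have h2 : ((kfr (s + 1) (m + 1)).card - (rin (s + 1) (m + 1)).card : ℕ) *
        Real.log (1 / (2 * ((s + 1 : ℕ) : ℝ) ^ 3 * ((m + 1 : ℕ) : ℝ) ^ (s + 1 + 2))) +
        Real.log (pmin (MQ (s + 1) (m + 1)) (rin (s + 1) (m + 1))) ≤
        Real.log (pmin (MQ (s + 1) (m + 1)) (kfr (s + 1) (m + 1))) := by
      have h3 := Real.log_le_log (by positivity) hlo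
      rwa [Real.log_mul (by positivity) hp.ne', Real.log_pow] at h3
    rw [one_div, Real.log_inv, Real.log_mul (by positivity) (by positivity),
      Real.log_pow (((m + 1 : ℕ) : ℝ)) (s + 1 + 2)] at h2
    set κ : ℕ := (kfr (s + 1) (m + 1)).card - (rin (s + 1) (m + 1)).card with hκ
    have hκle : (κ : ℝ) ≤ s * ((m + 1 : ℕ) : ℝ) ^ (s + 1) - (rin (s + 1) (m + 1)).card := by
      have h4 := card_kfr_eq (d := s + 1) (m := m + 1) (Nat.succ_pos s)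
      rw [Nat.add_sub_cancel] at h4
      have h5 : 1 ≤ (s + 1) * (m + 1) ^ s := Nat.one_le_iff_ne_zero.2 (by positivity)
      have h6 : (rin (s + 1) (m + 1)).card ≤ (kfr (s + 1) (m + 1)).card :=
        Finset.card_le_card rin_sub
      have h7 : κ + (rin (s + 1) (m + 1)).card ≤ s * (m + 1) ^ (s + 1) := by omega
      have h8 : ((κ + (rin (s + 1) (m + 1)).card : ℕ) : ℝ) ≤ ((s * (m + 1) ^ (s + 1) : ℕ) : ℝ) := by
        exact_mod_cast h7
      push_cast at h8 ⊢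
      linarith
    set L : ℝ := Real.log (2 * ((s + 1 : ℕ) : ℝ) ^ 3) + ((s + 1 + 2 : ℕ) : ℝ) *
      Real.log ((m + 1 : ℕ) : ℝ) with hL
    have hL0 : 0 ≤ L := by
      have : 0 ≤ Real.log ((m + 1 : ℕ) : ℝ) := Real.log_natCast_nonneg _
      have h9 : 0 ≤ Real.log (2 * ((s + 1 : ℕ) : ℝ) ^ 3) := by
        refine Real.log_nonneg ?_
        have : (1 : ℝ) ≤ ((s + 1 : ℕ) : ℝ) ^ 3 := one_le_pow₀ (by
          push_cast
          have : (0 : ℝ) ≤ s := Nat.cast_nonneg s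
          linarith)
        linarith
      positivity
    have hmd : (0 : ℝ) < ((m + 1 : ℕ) : ℝ) ^ (s + 1) := by positivity
    have h10 : (κ : ℝ) / ((m + 1 : ℕ) : ℝ) ^ (s + 1) ≤ 2 * s * (s + 1) / ((m + 1 : ℕ) : ℝ) :=
      (div_le_div_of_nonneg_right hκle hmd.le).trans phi_le
    have h11 : Real.log (pmin (MQ (s + 1) (m + 1)) (rin (s + 1) (m + 1))) /
        ((m + 1 : ℕ) : ℝ) ^ (s + 1) - 2 * s * (s + 1) / ((m + 1 : ℕ) : ℝ) * L ≤
        Real.log (pmin (MQ (s + 1) (m + 1)) (kfr (s + 1) (m + 1))) /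
          ((m + 1 : ℕ) : ℝ) ^ (s + 1) := by
      have h12 := div_le_div_of_nonneg_right h2 hmd.le
      have h13 := mul_le_mul_of_nonneg_right h10 hL0
      have h14 : (κ * -L + Real.log (pmin (MQ (s + 1) (m + 1)) (rin (s + 1) (m + 1)))) /
          ((m + 1 : ℕ) : ℝ) ^ (s + 1) = Real.log (pmin (MQ (s + 1) (m + 1))
            (rin (s + 1) (m + 1))) / ((m + 1 : ℕ) : ℝ) ^ (s + 1) -
            κ / ((m + 1 : ℕ) : ℝ) ^ (s + 1) * L := by
        ring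
      rw [h14] at h12
      linarith
    have h15 := mul_le_mul_of_nonneg_left h11 hn0
    have h16 : (n / 2 * (2 * s * (s + 1)) * Real.log (2 * ((s + 1 : ℕ) : ℝ) ^ 3) +
          n / 2 * (2 * s * (s + 1)) * (s + 3) * Real.log ((m + 1 : ℕ) : ℝ)) /
          ((m + 1 : ℕ) : ℝ) = n / 2 * (2 * s * (s + 1) / ((m + 1 : ℕ) : ℝ) * L) := by
      rw [hL]
      push_cast
      ring
    rw [h16]
    have h17 : n / 2 * Real.log (pmin (MQ (s + 1) (m + 1)) (kfr (s + 1) (m + 1))) /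
        ((m + 1 : ℕ) : ℝ) ^ (s + 1) = n / 2 * (Real.log (pmin (MQ (s + 1) (m + 1))
          (kfr (s + 1) (m + 1))) / ((m + 1 : ℕ) : ℝ) ^ (s + 1)) := by ring
    rw [h17] at h1
    linarith
  · -- the lower bound
    obtain ⟨K₀, hK₀, hlow⟩ := const_lower (d := s + 1) μ (by omega) hG B hρ hdens hM hPt hc
    have h0 : Tendsto (fun m : ℕ => ((m + 1 : ℕ) : ℝ)) atTop atTop :=
      tendsto_natCast_atTop_atTop.comp (tendsto_add_atTop_nat 1)
    have hsq : Tendsto (fun m : ℕ => Real.sqrt ((m + 1 : ℕ) : ℝ)) atTop atTop :=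
      Real.tendsto_sqrt_atTop.comp h0
    have hinv : Tendsto (fun m : ℕ => 1 / Real.sqrt ((m + 1 : ℕ) : ℝ)) atTop (𝓝 0) :=
      hsq.const_div_atTop 1
    have hinv2 : Tendsto (fun m : ℕ => 1 / ((m + 1 : ℕ) : ℝ)) atTop (𝓝 0) :=
      h0.const_div_atTop 1
    have hlim : Tendsto (fun m : ℕ => s * c₁ - n / 2 *
        (Real.log (pmin (MQ (s + 1) (m + 1)) (rin (s + 1) (m + 1))) /
          ((m + 1 : ℕ) : ℝ) ^ (s + 1)) -
        K₀ * (2 * s * (s + 1)) * (1 / ((m + 1 : ℕ) : ℝ) + 1 / Real.sqrt ((m + 1 : ℕ) : ℝ)) -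
        n / 2 * s * (1 / Real.sqrt ((m + 1 : ℕ) : ℝ))) atTop
        (𝓝 (s * c₁ - n / 2 * ((s - 1) * z) - K₀ * (2 * s * (s + 1)) * (0 + 0) -
          n / 2 * s * 0)) :=
      (((ha.const_mul (n / 2 : ℝ)).const_sub _).sub ((hinv2.add hinv).const_mul _)).sub
        (hinv.const_mul _)
    rw [add_zero, mul_zero, mul_zero, sub_zero, sub_zero] at hlim
    refine le_of_tendsto' hlim fun m => ?_
    have hM0 : (0 : ℝ) < ((m + 1 : ℕ) : ℝ) := by positivity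
    have hsq0 : 0 < Real.sqrt ((m + 1 : ℕ) : ℝ) := Real.sqrt_pos.2 hM0
    have h1 := hlow (m + 1) (1 / Real.sqrt ((m + 1 : ℕ) : ℝ)) (by positivity)
    rw [hsd, ← hc₁, one_div_one_div] at h1
    have h2 : K₀ * (1 + Real.sqrt ((m + 1 : ℕ) : ℝ)) * (((s : ℝ) * ((m + 1 : ℕ) : ℝ) ^ (s + 1) -
        (rin (s + 1) (m + 1)).card) / ((m + 1 : ℕ) : ℝ) ^ (s + 1)) ≤
        K₀ * (1 + Real.sqrt ((m + 1 : ℕ) : ℝ)) * (2 * s * (s + 1) / ((m + 1 : ℕ) : ℝ)) :=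
      mul_le_mul_of_nonneg_left phi_le (by positivity)
    have h3 : K₀ * (1 + Real.sqrt ((m + 1 : ℕ) : ℝ)) * (2 * s * (s + 1) / ((m + 1 : ℕ) : ℝ)) =
        K₀ * (2 * s * (s + 1)) * (1 / ((m + 1 : ℕ) : ℝ) + 1 / Real.sqrt ((m + 1 : ℕ) : ℝ)) := by
      have h4 : ((m + 1 : ℕ) : ℝ) = Real.sqrt ((m + 1 : ℕ) : ℝ) * Real.sqrt ((m + 1 : ℕ) : ℝ) :=
        (Real.mul_self_sqrt hM0.le).symm
      have h5 : (1 + Real.sqrt ((m + 1 : ℕ) : ℝ)) / ((m + 1 : ℕ) : ℝ) =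
          1 / ((m + 1 : ℕ) : ℝ) + 1 / Real.sqrt ((m + 1 : ℕ) : ℝ) := by
        rw [add_div]
        congr 1
        rw [div_eq_div_iff hM0.ne' hsq0.ne', one_mul]
        exact h4.symm
      rw [← h5]
      ring
    have h17 : n / 2 * Real.log (pmin (MQ (s + 1) (m + 1)) (rin (s + 1) (m + 1))) /
        ((m + 1 : ℕ) : ℝ) ^ (s + 1) = n / 2 * (Real.log (pmin (MQ (s + 1) (m + 1))
          (rin (s + 1) (m + 1))) / ((m + 1 : ℕ) : ℝ) ^ (s + 1)) := by ring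
    rw [h17] at h1
    linarith

end Pool.Agent.X217.YM
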