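import Mathlib
import Pool.Agent.X217.YM.Bound

/-!
# The joint limit of the volume and the inverse coupling
-/

open MeasureTheory Filter
open scoped Topology

namespace Pool.Agent.X217.YM

variable {a e : ℕ → ℝ → ℝ} {P : ℝ → ℝ}

theorem integrated_fin (h : Seq a e P) {A C δ β₀ : ℝ} (hβ₀ : 0 < β₀) (hδ : 0 < δ)
    (he : ∀ β, β₀ ≤ β → ∀ l : ℕ, Even l → β ≤ l → |e l β - A / β| ≤ C * β ^ (-1 - δ)) {s t : ℝ}
    (hs : β₀ ≤ s) (hst : s ≤ t) {l : ℕ} (hl : Even l) (hl1 : 1 ≤ l) (htl' : t ≤ l) :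
    |a l t - a l s + A * Real.log (t / s)| ≤ C / δ * (s ^ (-δ) - t ^ (-δ)) := by
  have hs0 : 0 < s := hβ₀.trans_le hs
  have ht0 : 0 < t := hs0.trans_le hst
  have hder : ∀ κ : ℝ, ∀ x ∈ Set.Icc s t, HasDerivAt (fun x => a l x + A * Real.log x +
      κ * (C / δ * x ^ (-δ))) (-e l x + A / x - κ * (C * x ^ (-1 - δ))) x := by
    intro κ x hx
    have hx0 : 0 < x := hs0.trans_le hx.1
    have d1 := h.der l hl1 x
    have d2 := (Real.hasDerivAt_log hx0.ne').const_mul A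
    have d3 := ((Real.hasDerivAt_rpow_const (x := x) (p := -δ) (Or.inl hx0.ne')).const_mul
      (C / δ)).const_mul κ
    have d4 : HasDerivAt (fun x => a l x + A * Real.log x + κ * (C / δ * x ^ (-δ))) _ x :=
      (d1.add d2).add d3
    refine d4.congr_deriv ?_
    have e1 : -δ - 1 = -1 - δ := by ring
    rw [e1]
    field_simp
    ring
  have hbd : ∀ x ∈ Set.Icc s t, |e l x - A / x| ≤ C * x ^ (-1 - δ) := fun x hx =>
    he x (hs.trans hx.1) l hl (hx.2.trans htl')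
  have m1 : AntitoneOn (fun x => a l x + A * Real.log x + 1 * (C / δ * x ^ (-δ)))
      (Set.Icc s t) := by
    refine antitoneOn_of_deriv_nonpos (convex_Icc s t)
      (fun x hx => (hder 1 x hx).continuousAt.continuousWithinAt)
      (fun x hx => (hder 1 x (interior_subset hx)).differentiableAt.differentiableWithinAt)
      (fun x hx => ?_)
    have hx' := interior_subset hx
    rw [(hder 1 x hx').deriv]
    have := (abs_le.1 (hbd x hx')).1
    linarith
  have m2 : MonotoneOn (fun x => a l x + A * Real.log x + (-1) * (C / δ * x ^ (-δ)))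
      (Set.Icc s t) := by
    refine monotoneOn_of_deriv_nonneg (convex_Icc s t)
      (fun x hx => (hder (-1) x hx).continuousAt.continuousWithinAt)
      (fun x hx => (hder (-1) x (interior_subset hx)).differentiableAt.differentiableWithinAt)
      (fun x hx => ?_)
    have hx' := interior_subset hx
    rw [(hder (-1) x hx').deriv]
    have := (abs_le.1 (hbd x hx')).2
    linarith
  have n1 := m1 (Set.left_mem_Icc.2 hst) (Set.right_mem_Icc.2 hst) hst
  have n2 := m2 (Set.left_mem_Icc.2 hst) (Set.right_mem_Icc.2 hst) hst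
  simp only at n1 n2
  rw [Real.log_div ht0.ne' hs0.ne', abs_le]
  constructor <;> linarith

/-- **the joint limit** -/
theorem joint (h : Seq a e P) {A C δ β₀ c C₁ M : ℝ} (hβ₀ : 1 ≤ β₀) (hδ : 0 < δ) (hC : 0 ≤ C)
    (hC₁ : 0 ≤ C₁) (hM : 0 ≤ M)
    (he : ∀ β, β₀ ≤ β → ∀ l : ℕ, Even l → β ≤ l → |e l β - A / β| ≤ C * β ^ (-1 - δ))
    (hc : ∀ β, β₀ ≤ β → |P β - (c - A * Real.log β)| ≤ C₁ * β ^ (-δ))
    (hlim : ∀ β, 0 ≤ β → ∀ l : ℕ, 1 ≤ l → |a l β - P β| ≤ M * β / Real.sqrt l)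
    {β : ℝ} (hβ : β₀ ^ 4 ≤ β) {l : ℕ} (hl : Even l) (hβl : β ≤ l) :
    |a l β - (c - A * Real.log β)| ≤ (C / δ + C₁ + M) * β ^ (-(min δ 1 / 4)) := by
  have hβ₀0 : 0 < β₀ := by linarith
  have h1β : 1 ≤ β := (one_le_pow₀ hβ₀).trans hβ
  have hβ0 : 0 < β := by linarith
  set s : ℝ := β ^ (1 / 4 : ℝ) with hs
  have hs0 : 0 < s := Real.rpow_pos_of_pos hβ0 _
  have hs1 : 1 ≤ s := Real.one_le_rpow h1β (by norm_num)
  have hs4 : s ^ 4 = β := by
    rw [hs, ← Real.rpow_natCast, ← Real.rpow_mul hβ0.le]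
    norm_num
  have hsβ₀ : β₀ ≤ s := by
    rw [← hs4] at hβ
    exact (pow_le_pow_iff_left₀ hβ₀0.le hs0.le (by norm_num)).1 hβ
  have hsβ : s ≤ β := by
    rw [← hs4]
    exact le_self_pow₀ hs1 (by norm_num)
  have hl1 : 1 ≤ l := by exact_mod_cast h1β.trans hβl
  have k1 := integrated_fin h hβ₀0 hδ he hsβ₀ hsβ hl hl1 hβl
  have k2 := hlim s hs0.le l hl1
  have k3 := hc s hsβ₀
  have hsq : s ^ 2 ≤ Real.sqrt l := by
    apply Real.le_sqrt_of_sq_le
    rw [← pow_mul]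
    show s ^ 4 ≤ (l : ℝ)
    rw [hs4]
    exact hβl
  set δ' : ℝ := min δ 1 with hδ'
  have hδ'0 : 0 < δ' := lt_min hδ one_pos
  have k4 : s ^ (-δ) ≤ s ^ (-δ') :=
    Real.rpow_le_rpow_of_exponent_le hs1 (neg_le_neg (min_le_left _ _))
  have k5 : M * s / Real.sqrt l ≤ M * s ^ (-δ') := by
    calc M * s / Real.sqrt l ≤ M * s / s ^ 2 := by gcongr
      _ = M * s ^ (-1 : ℝ) := by
        rw [Real.rpow_neg_one]
        field_simp
      _ ≤ M * s ^ (-δ') := mul_le_mul_of_nonneg_left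
        (Real.rpow_le_rpow_of_exponent_le hs1 (neg_le_neg (min_le_right _ _))) hM
  have k6 : s ^ (-δ') = β ^ (-(δ' / 4)) := by
    rw [hs, ← Real.rpow_mul hβ0.le]
    congr 1
    ring
  have k7 : C / δ * (s ^ (-δ) - β ^ (-δ)) ≤ C / δ * s ^ (-δ') := by
    refine mul_le_mul_of_nonneg_left ?_ (by positivity)
    have := Real.rpow_nonneg hβ0.le (-δ)
    linarith
  have k8 : C₁ * s ^ (-δ) ≤ C₁ * s ^ (-δ') := mul_le_mul_of_nonneg_left k4 hC₁
  rw [← k6]
  have e1 : a l β - (c - A * Real.log β) = (a l β - a l s + A * Real.log (β / s)) +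
      (a l s - P s) + (P s - (c - A * Real.log s)) := by
    rw [Real.log_div hβ0.ne' hs0.ne']
    ring
  rw [e1]
  calc _ ≤ |a l β - a l s + A * Real.log (β / s)| + |a l s - P s| +
        |P s - (c - A * Real.log s)| := abs_add_three _ _ _
    _ ≤ C / δ * s ^ (-δ') + M * s ^ (-δ') + C₁ * s ^ (-δ') := by
        gcongr
        · exact k1.trans k7
        · exact k2.trans k5
        · exact k3.trans k8
    _ = _ := by ring

end Pool.Agent.X217.YM
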