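import Mathlib

/-!
# Convex functions are differentiable outside of a countable set
-/

open Set Filter
open scoped Topology

namespace Pool.Agent.X217.YM

theorem countable_nondiff {f : ℝ → ℝ} (h : ConvexOn ℝ (Ici 0) f) :
    {x : ℝ | 0 < x ∧ ¬ DifferentiableAt ℝ f x}.Countable := by
  have hint : ∀ x : ℝ, 0 < x → x ∈ interior (Ici (0 : ℝ)) := by
    intro x hx
    rw [interior_Ici]
    exact hx
  have hlt : ∀ x : {x : ℝ | 0 < x ∧ ¬ DifferentiableAt ℝ f x}, ∃ q : ℚ,
      derivWithin f (Iio (x : ℝ)) x < q ∧ (q : ℝ) < derivWithin f (Ioi (x : ℝ)) x := by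
    rintro ⟨x, hx0, hx⟩
    apply exists_rat_btwn
    refine lt_of_le_of_ne (h.leftDeriv_le_rightDeriv_of_mem_interior (hint x hx0)) fun heq => hx ?_
    have h1 := h.hasDerivWithinAt_leftDeriv_of_mem_interior (hint x hx0)
    have h2 := h.hasDerivWithinAt_rightDeriv_of_mem_interior (hint x hx0)
    rw [heq] at h1
    have h3 := h1.Iic_of_Iio.union h2.Ici_of_Ioi
    rw [Iic_union_Ici, hasDerivWithinAt_univ] at h3
    exact h3.differentiableAt
  choose q hq1 hq2 using hlt
  have hinj : Function.Injective q := by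
    have key : ∀ x y : {x : ℝ | 0 < x ∧ ¬ DifferentiableAt ℝ f x}, (x : ℝ) < y → q x < q y := by
      intro x y hxy
      have h1 := h.rightDeriv_le_slope_of_mem_interior (hint x x.2.1)
        (show (y : ℝ) ∈ Ici (0 : ℝ) from y.2.1.le) hxy
      have h2 := h.slope_le_leftDeriv_of_mem_interior
        (show (x : ℝ) ∈ Ici (0 : ℝ) from x.2.1.le) (hint y y.2.1) hxy
      have := (hq2 x).trans_le (h1.trans (h2.trans (hq1 y).le))
      exact_mod_cast this
    intro x y hxy
    rcases lt_trichotomy (x : ℝ) y with h1 | h1 | h1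
    · exact absurd hxy (key x y h1).ne
    · exact Subtype.ext h1
    · exact absurd hxy (key y x h1).ne'
  exact hinj.countable

end Pool.Agent.X217.YM
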